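import Pool.Agent.Helper83.GQ.Avg
import Pool.Graph.R_seed8.H39R2.Gon.A2

/-!
# Additive characters of the polynomials of degree `< Δ`
-/

set_option autoImplicit false
set_option linter.unusedSectionVars false

namespace Pool.Agent.Helper83.GQ

open Polynomial Finset

variable {F : Type} [Field F] [Fintype F]

/-- truncation -/
noncomputable def tr (n : ℕ) : F[X] →+ degreeLT F n where
  toFun f := ⟨f %ₘ X ^ n, by
    rw [mem_degreeLT]
    have := degree_modByMonic_lt f (monic_X_pow (R := F) n)
    rwa [degree_X_pow] at this⟩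
  map_zero' := by ext1; simp
  map_add' f g := by ext1; simp [add_modByMonic]

theorem tr_of_lt {n : ℕ} {f : F[X]} (h : f.degree < n) : ((tr n f : degreeLT F n) : F[X]) = f := by
  change f %ₘ X ^ n = f
  rw [modByMonic_eq_self_iff (monic_X_pow n), degree_X_pow]
  exact h

theorem tr_eq_zero {n : ℕ} {f : F[X]} (h : f.degree < n) : tr n f = 0 ↔ f = 0 := by
  constructor
  · intro h1
    have := tr_of_lt h
    rw [h1] at this
    exact this.symm
  · rintro rfl
    exact map_zero _

/-- the extended character -/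
noncomputable def E {n : ℕ} (ψ : AddChar (degreeLT F n) ℂ) : AddChar F[X] ℂ :=
  ψ.compAddMonoidHom (tr n)

theorem E_apply {n : ℕ} (ψ : AddChar (degreeLT F n) ℂ) (f : F[X]) : E ψ f = ψ (tr n f) := rfl

theorem norm_E {n : ℕ} (ψ : AddChar (degreeLT F n) ℂ) (f : F[X]) : ‖E ψ f‖ = 1 := by
  rw [E_apply]
  exact AddChar.norm_apply ψ _

theorem E_le {n : ℕ} (ψ : AddChar (degreeLT F n) ℂ) (f : F[X]) : ‖E ψ f‖ ≤ 1 := (norm_E ψ f).le

theorem E_neg {n : ℕ} (ψ : AddChar (degreeLT F n) ℂ) (f : F[X]) : E ψ (-f) = star (E ψ f) := by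
  rw [E_apply, E_apply, map_neg]
  exact AddChar.map_neg_eq_conj ψ _

theorem E_sub {n : ℕ} (ψ : AddChar (degreeLT F n) ℂ) (f g : F[X]) :
    E ψ (f - g) = E ψ f * star (E ψ g) := by
  rw [sub_eq_add_neg, AddChar.map_add_eq_mul, E_neg]

noncomputable instance fintypeAddChar (n : ℕ) : Fintype (AddChar (degreeLT F n) ℂ) :=
  Fintype.ofFinite _

theorem orthE {n : ℕ} {f : F[X]} (h : f.degree < n) [DecidableEq F[X]] :
    ∑ ψ : AddChar (degreeLT F n) ℂ, E ψ f = if f = 0 then (Fintype.card F : ℂ) ^ n else 0 := by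
  classical
  simp only [E_apply]
  have := AddChar.sum_apply_eq_ite (α := degreeLT F n) (tr n f)
  convert this using 1
  rw [card_degreeLT]
  push_cast
  simp only [tr_eq_zero h]

/-- full period -/
def FP {n : ℕ} (ψ : AddChar (degreeLT F n) ℂ) (g : F[X]) : Prop :=
  ∀ z : F[X], (g * z).degree < n → E ψ (g * z) = 1

theorem mul_degree_lt {n : ℕ} {g z : F[X]} (hg : g.Monic) (hn : g.natDegree ≤ n) :
    (g * z).degree < n ↔ z ∈ Low F (n - g.natDegree) := by
  rw [mem_Low]
  by_cases hz : z = 0
  · rw [hz, mul_zero, degree_zero]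
    exact ⟨fun _ => WithBot.bot_lt_coe _, fun _ => WithBot.bot_lt_coe _⟩
  · rw [degree_mul, degree_eq_natDegree hg.ne_zero, degree_eq_natDegree hz]
    constructor
    · intro h
      have : g.natDegree + z.natDegree < n := by exact_mod_cast h
      exact_mod_cast (by omega : z.natDegree < n - g.natDegree)
    · intro h
      have : z.natDegree < n - g.natDegree := by exact_mod_cast h
      exact_mod_cast (by omega : g.natDegree + z.natDegree < n)

open Classical in
theorem sum_per {n : ℕ} (ψ : AddChar (degreeLT F n) ℂ) {g : F[X]} (hg : g.Monic)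
    (hn : g.natDegree ≤ n) : ∑ z ∈ Low F (n - g.natDegree), E ψ (g * z) =
      if FP ψ g then (Fintype.card F : ℂ) ^ (n - g.natDegree) else 0 := by
  split_ifs with h
  · have : ∀ z ∈ Low F (n - g.natDegree), E ψ (g * z) = 1 := fun z hz =>
      h z ((mul_degree_lt hg hn).2 hz)
    rw [sum_congr rfl this, sum_const, card_Low]
    simp
  · unfold FP at h
    push Not at h
    obtain ⟨z0, hz0, hne⟩ := h
    rw [mul_degree_lt hg hn] at hz0
    have h1 : ∑ z ∈ Low F (n - g.natDegree), E ψ (g * (z + z0)) =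
        ∑ z ∈ Low F (n - g.natDegree), E ψ (g * z) := by
      refine sum_nbij' (fun z => z + z0) (fun z => z - z0) ?_ ?_ ?_ ?_ ?_
      · intro z hz
        rw [mem_Low] at hz hz0 ⊢
        exact (degree_add_le _ _).trans_lt (max_lt hz hz0)
      · intro z hz
        rw [mem_Low] at hz hz0 ⊢
        exact (degree_sub_le _ _).trans_lt (max_lt hz hz0)
      · intro z _; ring
      · intro z _; ring
      · intro z _; rfl
    have h2 : ∀ z, E ψ (g * (z + z0)) = E ψ (g * z) * E ψ (g * z0) := by
      intro z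
      rw [mul_add, AddChar.map_add_eq_mul]
    rw [sum_congr rfl fun z _ => h2 z, ← sum_mul] at h1
    have h3 : (∑ z ∈ Low F (n - g.natDegree), E ψ (g * z)) * (E ψ (g * z0) - 1) = 0 := by
      linear_combination h1
    exact (mul_eq_zero.1 h3).resolve_right (sub_ne_zero.2 hne)

open Classical in
theorem card_FP {n : ℕ} {g : F[X]} (hg : g.Monic) (hn : g.natDegree ≤ n) :
    ((univ : Finset (AddChar (degreeLT F n) ℂ)).filter (fun ψ => FP ψ g)).card =
      Fintype.card F ^ g.natDegree := by
  have hq : (Fintype.card F : ℂ) ≠ 0 := by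
    have : 0 < Fintype.card F := Fintype.card_pos
    exact_mod_cast this.ne'
  have h1 : ∑ ψ : AddChar (degreeLT F n) ℂ, ∑ z ∈ Low F (n - g.natDegree), E ψ (g * z) =
      (Fintype.card F : ℂ) ^ n := by
    rw [sum_comm, sum_eq_single (0 : F[X])]
    · rw [mul_zero, orthE (by rw [degree_zero]; exact WithBot.bot_lt_coe _), if_pos rfl]
    · intro z hz hz0
      rw [orthE ((mul_degree_lt hg hn).2 hz), if_neg (mul_ne_zero hg.ne_zero hz0)]
    · intro h
      exfalso; apply h
      rw [mem_Low, degree_zero]; exact WithBot.bot_lt_coe _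
  rw [sum_congr rfl fun ψ _ => sum_per ψ hg hn, ← sum_filter, sum_const, nsmul_eq_mul] at h1
  have h2 : (Fintype.card F : ℂ) ^ n = (Fintype.card F : ℂ) ^ g.natDegree *
      (Fintype.card F : ℂ) ^ (n - g.natDegree) := by
    rw [← pow_add]; congr 1; omega
  rw [h2] at h1
  have h3 := mul_right_cancel₀ (pow_ne_zero _ hq) h1
  exact_mod_cast h3

theorem FP.mul {n : ℕ} {ψ : AddChar (degreeLT F n) ℂ} {g : F[X]} (h : FP ψ g) (x : F[X]) :
    FP ψ (g * x) := by
  intro z hz
  rw [mul_assoc] at hz ⊢
  exact h _ hz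

theorem FP.of_dvd {n : ℕ} {ψ : AddChar (degreeLT F n) ℂ} {g x : F[X]} (h : FP ψ g) (hd : g ∣ x) :
    FP ψ x := by
  obtain ⟨y, rfl⟩ := hd
  exact h.mul y

/-- reduction of a character modulo a full period -/
noncomputable def redc {n : ℕ} (ψ : AddChar (degreeLT F n) ℂ) {g : F[X]} (hg : g.Monic) :
    AddChar F[X] ℂ := (E ψ).compAddMonoidHom
      { toFun := fun f => f %ₘ g
        map_zero' := by simp
        map_add' := fun f f' => add_modByMonic f f' }

/-- if `g` is a full period of minimal degree, and `d` a period in a large enough range, then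
`g ∣ d`. -/
theorem minimal_dvd {n : ℕ} (ψ : AddChar (degreeLT F n) ℂ) {g : F[X]} (hg : g.Monic)
    (hgn : g.natDegree ≤ n) (hgp : FP ψ g)
    (hmin : ∀ g' : F[X], g'.Monic → FP ψ g' → g.natDegree ≤ g'.natDegree) (d : F[X])
    (hd : ∀ z : F[X], z.degree < g.natDegree → E ψ (d * z) = 1)
    (hdd : ∀ z : F[X], z.degree < g.natDegree → (d * z).degree < n) : g ∣ d := by
  classical
  have hE : ∀ x : F[X], x.degree < n → E ψ (x %ₘ g) = E ψ x := by
    intro x hx
    have h1 : x = x %ₘ g + g * (x /ₘ g) := (modByMonic_add_div x g).symm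
    have h2 : (g * (x /ₘ g)).degree < n := by
      have h3 : g * (x /ₘ g) = x - x %ₘ g := by linear_combination modByMonic_add_div x g
      rw [h3]
      refine (degree_sub_le _ _).trans_lt (max_lt hx ?_)
      refine (degree_modByMonic_lt x hg).trans_le ?_
      rw [degree_eq_natDegree hg.ne_zero]
      exact_mod_cast hgn
    conv_rhs => rw [h1]
    rw [AddChar.map_add_eq_mul, hgp _ h2, mul_one]
  have hmod : ∀ x y : F[X], (x * (y %ₘ g)) %ₘ g = (x * y) %ₘ g := by
    intro x y
    have h1 : x * y = x * (y %ₘ g) + g * (x * (y /ₘ g)) := by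
      conv_lhs => rw [← modByMonic_add_div y g]
      ring
    rw [h1, add_modByMonic]
    rw [(modByMonic_eq_zero_iff_dvd hg).2 (dvd_mul_right g _), add_zero]
  -- the ideal of the periods of the reduction
  let I : Ideal F[X] :=
    { carrier := {x | ∀ z : F[X], E ψ ((x * z) %ₘ g) = 1}
      add_mem' := by
        intro x y hx hy z
        rw [add_mul, add_modByMonic, AddChar.map_add_eq_mul, hx z, hy z, mul_one]
      zero_mem' := by
        intro z
        simp
      smul_mem' := by
        intro c x hx z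
        have h1 : c • x * z = x * (c * z) := by rw [smul_eq_mul]; ring
        rw [h1]
        exact hx _ }
  have hgI : g ∈ I := by
    intro z
    rw [(modByMonic_eq_zero_iff_dvd hg).2 (dvd_mul_right g z)]
    simp
  have hdI : d ∈ I := by
    intro z
    rw [← hmod]
    have hz : (z %ₘ g).degree < g.natDegree := by
      have := degree_modByMonic_lt z hg
      rwa [degree_eq_natDegree hg.ne_zero] at this
    rw [hE _ (hdd _ hz)]
    exact hd _ hz
  obtain ⟨g0, hg0⟩ := (IsPrincipalIdealRing.principal I).principal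
  have hg0' : ∀ x, x ∈ I ↔ g0 ∣ x := by
    intro x
    rw [hg0]
    exact Ideal.mem_span_singleton
  have hg00 : g0 ≠ 0 := by
    rintro rfl
    have := (hg0' g).1 hgI
    exact hg.ne_zero (zero_dvd_iff.1 this)
  set g1 := g0 * C (g0.leadingCoeff)⁻¹ with hg1
  have hg1m : g1.Monic := monic_mul_leadingCoeff_inv hg00
  have hass : Associated g0 g1 := by
    refine (associated_mul_unit_right g0 _ ?_)
    exact isUnit_C.2 (inv_ne_zero (leadingCoeff_ne_zero.2 hg00)).isUnit
  have h1 : FP ψ g1 := by
    intro z hz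
    have h2 : g1 ∈ I := (hg0' g1).2 hass.dvd
    rw [← hE _ hz]
    exact h2 z
  have h3 := hmin g1 hg1m h1
  have h4 : g1 ∣ g := hass.symm.dvd.trans ((hg0' g).1 hgI)
  have h5 : g1 = g := by
    refine eq_of_monic_of_associated hg1m hg ?_
    exact associated_of_dvd_of_natDegree_le h4 hg.ne_zero h3
  rw [← h5]
  exact hass.symm.dvd.trans ((hg0' d).1 hdI)

end Pool.Agent.Helper83.GQ
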