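import Pool.Agent.Helper83.GQ.LemK
import Pool.Agent.Helper83.GQ.Chr

/-!
# Bound of the sums over letters for one character
-/

set_option autoImplicit false
set_option linter.unusedSectionVars false

namespace Pool.Agent.Helper83.GQ

open Polynomial Finset

variable {F : Type} [Field F] [Fintype F]

open Classical in
theorem arc (hRH : RHyp F) {r D n : ℕ} (hD : 1 ≤ D) {N : ℝ} (hN : 0 < N)
    (hNX : ((XL F r D).card : ℝ) ≤ N) {M : F[X]} (hM : M.Monic)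
    (hRM : R0 F r ∣ M) {κ l0 : ℕ} (hn : M.natDegree + κ ≤ l0 * D)
    (ψ : AddChar (degreeLT F n) ℂ) (Adm : F[X] → ℕ → Prop) (B : F[X] → ℝ)
    (hAdm : ∀ v l, Adm v (l + 1) → ∀ P ∈ (XL F r D).filter (fun P => P ∣ M), Adm (v * P) l)
    (hcomp : ∀ v l, Adm v l → M.natDegree + κ ≤ l * D → ∀ y ∈ MonD F (l * D), ∀ y' ∈ MonD F (l * D),
      cls M κ y = cls M κ y' → E ψ (v * y) = E ψ (v * y'))
    (hB0 : ∀ v, 0 ≤ B v)
    (hB : ∀ v l, l0 ≤ l → Adm v l → ∀ J ⊆ QM (R0 F r) M,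
      (∀ z : F[X], (R0 F r * (∏ p ∈ J, p) * z).degree < (l * D : ℕ) →
        E ψ (v * (R0 F r * (∏ p ∈ J, p) * z)) = 1) → ∏ p ∈ J, (nm p - 1)⁻¹ ≤ B v)
    {θ ε η G0 : ℝ} (hθ : 0 ≤ θ) (hε0 : 0 < ε) (hε1 : ε ≤ 1) (hη : 0 ≤ η)
    (hθB : ∀ v l, Adm v (l + 1) →
      (∑ P ∈ (XL F r D).filter (fun P => P ∣ M), B (v * P)) / N ≤ θ * B v)
    (hε : (M.natDegree + κ + 2) * √(Fintype.card F : ℝ) ^ D / N ≤ ε)
    (hG1 : √((Fintype.card F : ℝ) ^ (M.natDegree + κ)) ≤ G0) (hG2 : 1 ≤ G0 * ε ^ l0)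
    (hη2 : (((XL F r D).filter (fun P => P ∣ M)).card : ℝ) / N ≤ η) (j : ℕ) (v : F[X])
    (hv : Adm v j) :
    ‖(Op (XL F r D) N)^[j] (E ψ) v‖ ≤ (1 + θ) ^ j * B v + G0 * (ε + η) ^ j := by
  have hY : (XL F r D).filter (fun P => P ∣ M) ⊆ XL F r D := filter_subset _ _
  have hsd : XL F r D \ (XL F r D).filter (fun P => P ∣ M) =
      (XL F r D).filter (fun P => ¬ P ∣ M) := by
    ext P
    rw [mem_sdiff, mem_filter, mem_filter]
    tauto
  have hG00 : 0 ≤ G0 := (Real.sqrt_nonneg _).trans hG1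
  have h0 : ∀ v l, Adm v l → ‖(Op (XL F r D \ (XL F r D).filter (fun P => P ∣ M)) N)^[l] (E ψ) v‖ ≤
      B v + G0 * ε ^ l := by
    intro v l hv
    rw [hsd]
    by_cases hl : l0 ≤ l
    · have hn' : M.natDegree + κ ≤ l * D := hn.trans (Nat.mul_le_mul_right _ hl)
      have h1 : √((Fintype.card F : ℝ) ^ (M.natDegree + κ)) *
        ((M.natDegree + κ + 2) * √(Fintype.card F : ℝ) ^ D / N) ^ l ≤ G0 * ε ^ l := by
        gcongr
      rcases lemK' hRH hD hM hRM hn' hN hNX (E ψ) (E_le ψ) v (hcomp v l hv hn') with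
        h | ⟨J, hJ, h2, h3⟩
      · have := hB0 v
        linarith
      · have := hB v l hl hv J hJ h2
        linarith
    · push Not at hl
      have hX' : (((XL F r D).filter (fun P => ¬ P ∣ M)).card : ℝ) ≤ N := by
        refine le_trans ?_ hNX
        exact_mod_cast card_filter_le _ _
      have h1 := norm_iter_le hX' (E_le ψ) l v
      have h2 : G0 * ε ^ l0 ≤ G0 * ε ^ l :=
        mul_le_mul_of_nonneg_left (pow_le_pow_of_le_one hε0.le hε1 hl.le) hG00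
      have := hB0 v
      linarith
  have h := lemT hY hN (E ψ) Adm B hθ hε0.le hη hG00 hAdm h0 hθB hη2 j 0 v (by simpa using hv)
  simpa using h

end Pool.Agent.Helper83.GQ
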