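import Pool.Agent.Helper83.GQ.Base

/-!
# Averaging operators
-/

set_option autoImplicit false
set_option linter.unusedSectionVars false

namespace Pool.Agent.Helper83.GQ

open Polynomial Finset

variable {F : Type} [Field F] [Fintype F]

/-- averaging operator -/
noncomputable def Op (X : Finset F[X]) (N : ℝ) (h : F[X] → ℂ) (v : F[X]) : ℂ :=
  (∑ P ∈ X, h (v * P)) / N

theorem Op_add (X : Finset F[X]) (N : ℝ) (f g : F[X] → ℂ) : Op X N (f + g) = Op X N f + Op X N g := by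
  funext v
  unfold Op
  simp only [Pi.add_apply, sum_add_distrib, add_div]

theorem iter_add (X : Finset F[X]) (N : ℝ) (j : ℕ) (f g : F[X] → ℂ) :
    (Op X N)^[j] (f + g) = (Op X N)^[j] f + (Op X N)^[j] g := by
  induction j with
  | zero => rfl
  | succ j ih => rw [Function.iterate_succ_apply', Function.iterate_succ_apply',
      Function.iterate_succ_apply', ih, Op_add]

theorem iter_Op (X Y : Finset F[X]) (N : ℝ) (j : ℕ) (f : F[X] → ℂ) (v : F[X]) :
    (Op X N)^[j] (Op Y N f) v = (∑ P ∈ Y, (Op X N)^[j] f (v * P)) / N := by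
  induction j generalizing v with
  | zero => rfl
  | succ j ih =>
    rw [Function.iterate_succ_apply']
    unfold Op at ih ⊢
    simp only [ih, Function.iterate_succ_apply']
    rw [← sum_div, sum_comm, ← sum_div]
    congr 2
    refine sum_congr rfl fun P _ => sum_congr rfl fun P' _ => ?_
    rw [mul_right_comm]

theorem Op_sdiff [DecidableEq F[X]] {X Y : Finset F[X]} (hY : Y ⊆ X) (N : ℝ) (f : F[X] → ℂ) :
    Op X N f = Op (X \ Y) N f + Op Y N f := by
  funext v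
  unfold Op
  rw [Pi.add_apply, ← add_div, sum_sdiff hY]

theorem norm_Op_le {X : Finset F[X]} {N : ℝ} (hN : (X.card : ℝ) ≤ N) {h : F[X] → ℂ}
    (hh : ∀ v, ‖h v‖ ≤ 1) (v : F[X]) : ‖Op X N h v‖ ≤ 1 := by
  unfold Op
  have hN0 : 0 ≤ N := le_trans (Nat.cast_nonneg _) hN
  rw [norm_div, Complex.norm_real, Real.norm_of_nonneg hN0]
  refine div_le_one_of_le₀ ?_ hN0
  refine (norm_sum_le _ _).trans (le_trans ?_ hN)
  calc _ ≤ ∑ P ∈ X, (1 : ℝ) := sum_le_sum fun P _ => hh _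
    _ = _ := by simp

theorem norm_iter_le {X : Finset F[X]} {N : ℝ} (hN : (X.card : ℝ) ≤ N) {h : F[X] → ℂ}
    (hh : ∀ v, ‖h v‖ ≤ 1) (j : ℕ) (v : F[X]) : ‖(Op X N)^[j] h v‖ ≤ 1 := by
  induction j generalizing v with
  | zero => exact hh v
  | succ j ih =>
    rw [Function.iterate_succ_apply']
    exact norm_Op_le hN ih v

/-- the recursion for the letters dividing the modulus -/
theorem lemT [DecidableEq F[X]] {X Y : Finset F[X]} (hY : Y ⊆ X) {N : ℝ} (hN : 0 < N)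
    (e : F[X] → ℂ) (Adm : F[X] → ℕ → Prop) (B : F[X] → ℝ) {θ ε η G0 : ℝ} (hθ : 0 ≤ θ)
    (hε : 0 ≤ ε) (hη : 0 ≤ η) (hG0 : 0 ≤ G0)
    (hAdm : ∀ v n, Adm v (n + 1) → ∀ P ∈ Y, Adm (v * P) n)
    (h0 : ∀ v l, Adm v l → ‖(Op (X \ Y) N)^[l] e v‖ ≤ B v + G0 * ε ^ l)
    (h1 : ∀ v n, Adm v (n + 1) → (∑ P ∈ Y, B (v * P)) / N ≤ θ * B v)
    (h2 : (Y.card : ℝ) / N ≤ η) (j : ℕ) :
    ∀ (l : ℕ) (v : F[X]), Adm v (j + l) →
      ‖(Op X N)^[j] ((Op (X \ Y) N)^[l] e) v‖ ≤
        (1 + θ) ^ j * B v + G0 * ε ^ l * (ε + η) ^ j := by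
  induction j with
  | zero =>
    intro l v hv
    rw [zero_add] at hv
    simpa using h0 v l hv
  | succ j ih =>
    intro l v hv
    rw [Function.iterate_succ_apply, Op_sdiff hY, iter_add, Pi.add_apply,
      iter_Op X Y N j ((Op (X \ Y) N)^[l] e) v]
    have e1 : Op (X \ Y) N ((Op (X \ Y) N)^[l] e) = (Op (X \ Y) N)^[l + 1] e :=
      (Function.iterate_succ_apply' _ _ _).symm
    rw [e1]
    refine (norm_add_le _ _).trans ?_
    have h3 := ih (l + 1) v (by rw [show j + (l + 1) = j + 1 + l by ring]; exact hv)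
    have hv' : Adm v ((j + l) + 1) := by rw [show (j + l) + 1 = j + 1 + l by ring]; exact hv
    have h4 : ‖(∑ P ∈ Y, (Op X N)^[j] ((Op (X \ Y) N)^[l] e) (v * P)) / (N : ℂ)‖ ≤
        (1 + θ) ^ j * (θ * B v) + G0 * ε ^ l * (ε + η) ^ j * η := by
      rw [norm_div, Complex.norm_real, Real.norm_of_nonneg hN.le]
      calc _ ≤ (∑ P ∈ Y, ((1 + θ) ^ j * B (v * P) + G0 * ε ^ l * (ε + η) ^ j)) / N := by
            gcongr
            refine (norm_sum_le _ _).trans (sum_le_sum fun P hP => ?_)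
            exact ih l (v * P) (hAdm v _ hv' P hP)
        _ = (1 + θ) ^ j * ((∑ P ∈ Y, B (v * P)) / N) +
            G0 * ε ^ l * (ε + η) ^ j * ((Y.card : ℝ) / N) := by
            rw [sum_add_distrib, ← mul_sum, sum_const, nsmul_eq_mul]
            ring
        _ ≤ _ := by
            have := h1 v _ hv'
            gcongr
    calc _ ≤ ((1 + θ) ^ j * B v + G0 * ε ^ (l + 1) * (ε + η) ^ j) +
          ((1 + θ) ^ j * (θ * B v) + G0 * ε ^ l * (ε + η) ^ j * η) := add_le_add h3 h4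
      _ = _ := by ring

end Pool.Agent.Helper83.GQ
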