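import Pool.Graph.R_seed8.H39R2.Gon.B2
import Pool.Graph.R_seed8.H39R2.Gon.A2

/-!
# Base definitions: polynomials over a finite field, letters, the count theorem
-/

set_option autoImplicit false
set_option linter.unusedSectionVars false

namespace Pool.Agent.Helper83.GQ

open H39Gon H39Gon.A2 Polynomial

section base

variable (F : Type) [Field F] [Fintype F]

noncomputable instance fintypeDegreeLT (n : ℕ) : Fintype (degreeLT F n) :=
  Fintype.ofEquiv (Fin n → F) (degreeLTEquiv F n).toEquiv.symm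

theorem card_degreeLT (n : ℕ) : Fintype.card (degreeLT F n) = Fintype.card F ^ n := by
  classical
  rw [Fintype.card_congr (degreeLTEquiv F n).toEquiv]
  simp

/-- polynomials of degree `< n` -/
noncomputable def Low (n : ℕ) : Finset F[X] :=
  (Finset.univ : Finset (degreeLT F n)).map ⟨Subtype.val, Subtype.val_injective⟩

/-- monic polynomials of degree `n` -/
noncomputable def MonD (n : ℕ) : Finset F[X] :=
  (Low F n).map ⟨fun p => X ^ n + p, add_right_injective _⟩

open Classical in
/-- monic irreducible polynomials of degree `n` -/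
noncomputable def Pr (n : ℕ) : Finset F[X] := (MonD F n).filter Irreducible

open Classical in
/-- small primes -/
noncomputable def SP (r : ℕ) : Finset F[X] := (Finset.range (r + 1)).biUnion (Pr F)

/-- product of the small primes -/
noncomputable def R0 (r : ℕ) : F[X] := ∏ p ∈ SP F r, p

open Classical in
/-- letters -/
noncomputable def XL (r D : ℕ) : Finset F[X] := (Pr F D).filter (fun P => R0 F r ∣ P - 1)

variable {F}

theorem mem_Low {n : ℕ} {p : F[X]} : p ∈ Low F n ↔ p.degree < n := by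
  unfold Low
  simp [mem_degreeLT]

theorem card_Low (n : ℕ) : (Low F n).card = Fintype.card F ^ n := by
  unfold Low
  rw [Finset.card_map, Finset.card_univ, card_degreeLT]

theorem mem_MonD {n : ℕ} {p : F[X]} : p ∈ MonD F n ↔ p.Monic ∧ p.natDegree = n := by
  unfold MonD
  simp only [Finset.mem_map, Function.Embedding.coeFn_mk, mem_Low]
  constructor
  · rintro ⟨a, ha, rfl⟩
    exact ⟨monic_X_pow_add ha, by
      rw [natDegree_add_eq_left_of_degree_lt]
      · simp
      · simpa using ha⟩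
  · rintro ⟨h1, h2⟩
    refine ⟨p - X ^ n, ?_, by ring⟩
    have h3 : p.degree = n := by rw [degree_eq_natDegree h1.ne_zero, h2]
    have := degree_sub_lt_left (p := p) (q := X ^ n) (by simpa using h3) h1.ne_zero
      (by rw [h1.leadingCoeff]; simp)
    rwa [h3] at this

theorem card_MonD (n : ℕ) : (MonD F n).card = Fintype.card F ^ n := by
  unfold MonD
  rw [Finset.card_map, card_Low]

theorem mem_Pr {n : ℕ} {p : F[X]} : p ∈ Pr F n ↔ p.Monic ∧ p.natDegree = n ∧ Irreducible p := by
  classical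
  unfold Pr
  rw [Finset.mem_filter, mem_MonD, and_assoc]

theorem mem_SP {r : ℕ} {p : F[X]} : p ∈ SP F r ↔ p.Monic ∧ Irreducible p ∧ p.natDegree ≤ r := by
  unfold SP
  simp only [Finset.mem_biUnion, Finset.mem_range, mem_Pr]
  constructor
  · rintro ⟨n, hn, h1, rfl, h2⟩
    exact ⟨h1, h2, by omega⟩
  · rintro ⟨h1, h2, h3⟩
    exact ⟨p.natDegree, by omega, h1, rfl, h2⟩

theorem mem_XL {r D : ℕ} {p : F[X]} :
    p ∈ XL F r D ↔ p.Monic ∧ p.natDegree = D ∧ Irreducible p ∧ R0 F r ∣ p - 1 := by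
  classical
  unfold XL
  rw [Finset.mem_filter, mem_Pr, and_assoc, and_assoc]

theorem R0_monic (r : ℕ) : (R0 F r).Monic :=
  monic_prod_of_monic _ _ fun p hp => (mem_SP.1 hp).1

theorem coprime_of_monic_irr {p p' : F[X]} (h1 : p.Monic) (h2 : Irreducible p) (h1' : p'.Monic)
    (h2' : Irreducible p') (h : p ≠ p') : IsCoprime p p' := by
  rw [h2.coprime_iff_not_dvd]
  intro h3
  exact h (eq_of_monic_of_associated h1 h1' (h2.associated_of_dvd h2' h3))

theorem R0_dvd_iff {r : ℕ} {x : F[X]} : R0 F r ∣ x ↔ ∀ p ∈ SP F r, p ∣ x := by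
  constructor
  · intro h p hp
    exact (Finset.dvd_prod_of_mem _ hp).trans h
  · intro h
    refine Finset.prod_dvd_of_coprime ?_ h
    intro p hp p' hp' hne
    have h1 := mem_SP.1 hp
    have h2 := mem_SP.1 hp'
    exact coprime_of_monic_irr h1.1 h1.2.1 h2.1 h2.2.1 hne

theorem dvd_R0_iff {r : ℕ} {p : F[X]} (h1 : p.Monic) (h2 : Irreducible p) :
    p ∣ R0 F r ↔ p ∈ SP F r := by
  constructor
  · intro h
    obtain ⟨p', hp', h3⟩ := (h2.prime.dvd_finsetProd_iff _).1 h
    have h4 := mem_SP.1 hp'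
    rw [eq_of_monic_of_associated h1 h4.1 (h2.associated_of_dvd h4.2.1 h3)]
    exact hp'
  · intro h
    exact Finset.dvd_prod_of_mem _ h

/-- admissible triples: `a + b ≡ c` modulo all small primes; at most one big prime. -/
structure Trip (r : ℕ) (a b c : F[X]) : Prop where
  ha : a ≠ 0
  hb : b.Monic
  hc : c.Monic
  hbc : b.natDegree = c.natDegree
  hac : a.natDegree < c.natDegree
  cab : IsCoprime a b
  cac : IsCoprime a c
  cbc : IsCoprime b c
  hR : R0 F r ∣ a + b - c
  big : ∃ P : F[X], ∀ p : F[X], p.Monic → Irreducible p → r < p.natDegree → p ∣ a * b * c → p = P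

open Classical in
/-- the weight -/
noncomputable def Wt {r D k : ℕ} (a b c : F[X]) (z : Fin 3 × Fin k → XL F r D) : ℝ :=
  if a * ∏ i, (z (0, i)).1 + b * ∏ i, (z (1, i)).1 = c * ∏ i, (z (2, i)).1 then 1 else 0

variable (F) in
open Classical in
/-- The count theorem -/
def CountThm (N : ℕ) : Prop :=
  ∃ k : ℕ, N ≤ k ∧ ∀ ε : ℝ, 0 < ε → ∃ r0 : ℕ, ∀ r, r0 ≤ r → ∀ a b c : F[X], Trip r a b c →
    ∃ D0 : ℕ, ∀ D, D0 ≤ D → ∃ w : ℝ, 0 < w ∧ ∀ T : Finset (Fin 3 × Fin k), T.card ≤ N →
      ∀ z : Fin 3 × Fin k → XL F r D, Good (fun a : Fin 3 × Fin k => a.1) T z →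
        |A T (Wt a b c) z - w| ≤ ε * w

variable (F) in
/-- there are many letters -/
def ManyLetters : Prop := ∀ r n : ℕ, ∃ D0 : ℕ, ∀ D, D0 ≤ D → n ≤ (XL F r D).card

end base

end Pool.Agent.Helper83.GQ
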