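import Pool.Graph.R_seed8.H39R2.Gon.A2

/-!
# Contraction with a small element
-/

set_option linter.unusedSectionVars false

namespace Pool.Agent.Helper83.GQ

open H39Gon H39Gon.A2 Finset

/-- sign of a slot in the first variable -/
noncomputable def s0 {I : Type} (grp : I → Fin 3) : Option I → ℝ
  | none => 1
  | some a => c0 (grp a)

/-- sign of a slot in the other variables -/
noncomputable def s1 {I : Type} (grp : I → Fin 3) : Option I → ℝ
  | none => 1
  | some a => c1 (grp a)

/-- sign of a slot assignment -/
noncomputable def sgn {I : Type} {m : ℕ} (grp : I → Fin 3) (j : Fin (m + 2) → Option I) : ℝ :=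
  s0 grp (j 0) * ∏ i : Fin (m + 1), s1 grp (j i.succ)

theorem abs_s0 {I : Type} (grp : I → Fin 3) (a : Option I) : |s0 grp a| ≤ 1 := by
  cases a with
  | none => simp [s0]
  | some a => exact abs_c0 _

theorem abs_s1 {I : Type} (grp : I → Fin 3) (a : Option I) : |s1 grp a| ≤ 1 := by
  cases a with
  | none => simp [s1]
  | some a => exact abs_c1 _

theorem abs_sgn {I : Type} {m : ℕ} (grp : I → Fin 3) (j : Fin (m + 2) → Option I) :
    |sgn grp j| ≤ 1 := by
  unfold sgn
  rw [abs_mul, abs_prod]
  have h1 : ∏ i : Fin (m + 1), |s1 grp (j i.succ)| ≤ 1 :=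
    prod_le_one (fun i _ => abs_nonneg _) (fun i _ => abs_s1 _ _)
  have h2 := abs_s0 grp (j 0)
  have h3 : 0 ≤ ∏ i : Fin (m + 1), |s1 grp (j i.succ)| := prod_nonneg fun i _ => abs_nonneg _
  calc |s0 grp (j 0)| * ∏ i : Fin (m + 1), |s1 grp (j i.succ)| ≤ 1 * 1 :=
        mul_le_mul h2 h1 h3 (by norm_num)
    _ = 1 := one_mul 1

/-- number of non-small slots -/
def nsup {n : ℕ} {K : Type} (t : Fin n → Option K) : ℕ := (univ.filter fun i => (t i).isSome).card

/-- rank -/
def rk {m : ℕ} {K : Type} (t : Fin (m + 2) → Option K) : ℕ :=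
  2 * (m + 2 - nsup t) + (if (t 0).isSome then 1 else 0)

theorem nsup_le {n : ℕ} {K : Type} (t : Fin n → Option K) : nsup t ≤ n := by
  unfold nsup
  simpa using card_le_univ (univ.filter fun i => (t i).isSome)

theorem hh_bound {I K ι : Type} [Fintype I] [DecidableEq I] [Fintype K] [DecidableEq K]
    [Nonempty K] [Fintype ι] [DecidableEq ι] (k : ι → I) (hk : Function.Injective k) (t : ι → K)
    (F : (I → K) → ℝ) (B : ℝ) (hB : ∀ z, |F z| ≤ B) :
    |∑ z : I → K, hh k t z * F z| ≤ 2 ^ Fintype.card ι * (NQ I K * B) := by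
  set ts : I → K := Function.extend k t (fun _ => Classical.arbitrary K) with htsd
  have hts : ∀ i, ts (k i) = t i := fun i => hk.extend_apply _ _ _
  have h1 : ∑ z : I → K, hh k t z * F z
      = ∑ U ∈ (univ : Finset ι).powerset, (-1 : ℝ) ^ (univ \ U).card *
        ∑ z : I → K, ((Fintype.card K : ℝ) ^ U.card *
        (if ∀ i ∈ U, z (k i) = t i then (1 : ℝ) else 0)) * F z := by
    simp only [mul_sum]
    rw [sum_comm]
    refine sum_congr rfl fun z _ => ?_
    rw [hh_expand, sum_mul]
    refine sum_congr rfl fun U _ => ?_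
    ring
  have hQ : (0 : ℝ) < NQ I K := NQ_pos
  rw [h1]
  refine (abs_sum_le_sum_abs _ _).trans ?_
  calc _ ≤ ∑ U ∈ (univ : Finset ι).powerset, NQ I K * B := by
        refine sum_le_sum fun U _ => ?_
        rw [abs_mul, abs_pow, abs_neg, abs_one, one_pow, one_mul, sum_cond' k hk t ts hts, abs_mul,
          abs_of_pos hQ]
        refine mul_le_mul_of_nonneg_left ?_ hQ.le
        unfold A
        rw [abs_div, abs_of_pos hQ, div_le_iff₀ hQ]
        refine (abs_sum_le_sum_abs _ _).trans ?_
        calc _ ≤ ∑ z : I → K, B := sum_le_sum fun z _ => hB _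
          _ = B * NQ I K := by rw [sum_const, card_univ, nsmul_eq_mul, card_fun]; ring
    _ = _ := by
        rw [sum_const, card_powerset, card_univ, nsmul_eq_mul]
        push_cast
        ring

section step

variable {m : ℕ} {I K : Type} [Fintype I] [DecidableEq I] [Fintype K] [DecidableEq K] [Nonempty K]

/-- extension of `y` by `none` -/
noncomputable def ext {m : ℕ} {K : Type} (t : Fin (m + 2) → Option K)
    {K' : Type} (y : {i // (t i).isSome} → K') (i : Fin (m + 2)) : Option K' :=
  if h : (t i).isSome then some (y ⟨i, h⟩) else none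

omit [Fintype K] [DecidableEq K] [Nonempty K] in
theorem ext_update {K' : Type} (t : Fin (m + 2) → Option K) (y : {i // (t i).isSome} → K')
    (i0 : {i // (t i).isSome}) (x : K') :
    ext t (Function.update y i0 x) = Function.update (ext t y) i0.1 (some x) := by
  funext i
  by_cases hi : i = i0.1
  · subst hi
    simp [ext, i0.2]
  · rw [Function.update_of_ne hi]
    unfold ext
    by_cases h : (t i).isSome
    · rw [dif_pos h, dif_pos h, Function.update_of_ne]
      intro hc
      exact hi (congrArg Subtype.val hc)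
    · rw [dif_neg h, dif_neg h]

omit [Fintype K] [DecidableEq K] [Nonempty K] in
theorem ext_map {K' K'' : Type} (t : Fin (m + 2) → Option K) (y : {i // (t i).isSome} → K')
    (z : K' → K'') (i : Fin (m + 2)) : (ext t y i).map z = ext t (z ∘ y) i := by
  unfold ext
  by_cases h : (t i).isSome
  · rw [dif_pos h, dif_pos h]; rfl
  · rw [dif_neg h, dif_neg h]; rfl

omit [Fintype K] [DecidableEq K] [Nonempty K] in
theorem ext_self (t : Fin (m + 2) → Option K) :
    ext t (fun i => (t i.1).get i.2) = t := by
  funext i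
  unfold ext
  by_cases h : (t i).isSome
  · rw [dif_pos h]; simp
  · rw [dif_neg h]
    simp only [Option.not_isSome_iff_eq_none] at h
    exact h.symm

/-- the slots attached to `t`: group `2` for the letters equal to that of slot `0`. -/
noncomputable def kq (pos : Fin 3 → Fin (m + 2) → I) (t : Fin (m + 2) → Option K)
    (i : {i // (t i).isSome}) : I := pos (if t i.1 = t 0 then 2 else 0) i.1

variable (grp : I → Fin 3) (pos : Fin 3 → Fin (m + 2) → I)
  (hgrp : ∀ X i, grp (pos X i) = X) (hpos : ∀ X, Function.Injective (pos X))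

omit [Fintype I] [DecidableEq I] [Fintype K] [Nonempty K] in
include hgrp hpos in
theorem kq_inj (t : Fin (m + 2) → Option K) : Function.Injective (kq pos t) := by
  intro i i' h
  unfold kq at h
  have h1 := congrArg grp h
  rw [hgrp, hgrp] at h1
  rw [h1] at h
  exact Subtype.ext (hpos _ h)

omit [Fintype I] [Fintype K] [Nonempty K] in
include hgrp hpos in
theorem exists_sigma (t : Fin (m + 2) → Option K) (j : Fin (m + 2) → Option I)
    (hj : ∀ i0 : {i // (t i).isSome}, ∃ i, j i = some (kq pos t i0)) (hc : nsup j = nsup t) :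
    ∃ σ : Equiv.Perm (Fin (m + 2)), ∀ i, j i = ext t (kq pos t) (σ i) := by
  choose f hf using hj
  have hfs : ∀ i0, (j (f i0)).isSome := fun i0 => by rw [hf]; rfl
  let g : {i // (t i).isSome} → {i // (j i).isSome} := fun i0 => ⟨f i0, hfs i0⟩
  have hg : Function.Injective g := by
    intro a b hab
    have h1 : f a = f b := congrArg Subtype.val hab
    have h2 := hf a
    rw [h1, hf b] at h2
    exact (kq_inj grp pos hgrp hpos t (Option.some_injective _ h2)).symm
  have hcard : Fintype.card {i // (t i).isSome} = Fintype.card {i // (j i).isSome} := by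
    rw [Fintype.card_subtype, Fintype.card_subtype]
    exact hc.symm
  have hgb : Function.Bijective g := (Fintype.bijective_iff_injective_and_card g).2 ⟨hg, hcard⟩
  let e : {i // (j i).isSome} ≃ {i // (t i).isSome} := (Equiv.ofBijective g hgb).symm
  refine ⟨e.extendSubtype, fun i => ?_⟩
  by_cases hi : (j i).isSome
  · rw [Equiv.extendSubtype_apply_of_mem e i hi]
    have h1 : j i = some (kq pos t (e ⟨i, hi⟩)) := by
      rw [← hf (e ⟨i, hi⟩)]
      have : g (e ⟨i, hi⟩) = ⟨i, hi⟩ := (Equiv.ofBijective g hgb).apply_symm_apply _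
      have h2 : f (e ⟨i, hi⟩) = i := congrArg Subtype.val this
      rw [h2]
    rw [h1]
    unfold ext
    rw [dif_pos (e ⟨i, hi⟩).2]
  · have h1 := Equiv.extendSubtype_not_mem e i hi
    unfold ext
    rw [dif_neg h1]
    simpa using hi

include hgrp hpos in
theorem main_case (t : Fin (m + 2) → Option K) (Φ : (Fin (m + 2) → Option K) → ℝ)
    (hbal : ∀ (t : Fin (m + 2) → Option K) (i : Fin (m + 2)),
      ∑ x : K, Φ (Function.update t i (some x)) = 0)
    (σ : Equiv.Perm (Fin (m + 2))) :
    ∑ z : I → K, hh (kq pos t) (fun i => (t i.1).get i.2) z *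
      Φ (fun i => (ext t (kq pos t) (σ i)).map z) = NQ I K * Φ (t ∘ σ) := by
  set k := kq pos t with hk
  set tι : {i // (t i).isSome} → K := fun i => (t i.1).get i.2 with htι
  have hki := kq_inj grp pos hgrp hpos t
  set ts : I → K := Function.extend k tι (fun _ => Classical.arbitrary K) with htsd
  have hts : ∀ i, ts (k i) = tι i := fun i => hki.extend_apply _ _ _
  have h := main_perm k hki tι ts hts (Equiv.refl _) (fun y => Φ ((ext t y) ∘ σ)) (by
    intro y i0
    rw [← hbal (ext t y ∘ σ) (σ.symm i0.1)]
    refine sum_congr rfl fun x _ => ?_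
    congr 1
    rw [ext_update]
    ext1 i
    by_cases hi : σ i = i0.1
    · have : i = σ.symm i0.1 := by rw [← hi]; simp
      subst this
      simp
    · have : i ≠ σ.symm i0.1 := fun h => hi (by rw [h]; simp)
      simp [Function.update_of_ne hi, Function.update_of_ne this])
  have h2 : ext t (tι ∘ (Equiv.refl _)) = t := ext_self t
  simp only [h2] at h
  rw [← h]
  refine sum_congr rfl fun z _ => ?_
  congr 2
  funext i
  rw [ext_map]
  rfl

omit [Fintype I] [DecidableEq I] [Fintype K] [DecidableEq K] [Nonempty K] in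
theorem phi_swap (t : Fin (m + 2) → Option K) (Φ : (Fin (m + 2) → Option K) → ℝ)
    (hsym : ∀ (σ : Equiv.Perm (Fin (m + 2))) (t : Fin (m + 2) → Option K), σ 0 = 0 →
      Φ (t ∘ σ) = Φ t)
    (σ : Equiv.Perm (Fin (m + 2))) (h : t (σ 0) = t 0) : Φ (t ∘ σ) = Φ t := by
  have h2 : t ∘ (Equiv.swap 0 (σ 0)) = t := by
    ext1 i
    simp only [Function.comp]
    by_cases h0 : i = 0
    · subst h0
      simp [h]
    · by_cases h1 : i = σ 0
      · subst h1
        simp [h]
      · rw [Equiv.swap_apply_of_ne_of_ne h0 h1]
  have h3 : t ∘ (Equiv.swap 0 (σ 0) * σ : Equiv.Perm (Fin (m + 2))) = t ∘ σ := by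
    rw [Equiv.Perm.coe_mul, ← Function.comp_assoc, h2]
  rw [← h3]
  exact hsym _ t (by simp)

omit [Fintype I] [DecidableEq I] [Fintype K] [Nonempty K] in
include hgrp in
theorem sgn_sigma (t : Fin (m + 2) → Option K) (σ : Equiv.Perm (Fin (m + 2)))
    (h : t (σ 0) = t 0) :
    sgn grp (fun i => ext t (kq pos t) (σ i)) = ∏ i, s1 grp (ext t (kq pos t) i) := by
  have h0 : s0 grp (ext t (kq pos t) (σ 0)) = s1 grp (ext t (kq pos t) (σ 0)) := by
    unfold ext
    by_cases hs : (t (σ 0)).isSome
    · rw [dif_pos hs]
      simp only [s0, s1]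
      unfold kq
      rw [hgrp]
      simp [h, c0, c1]
    · rw [dif_neg hs]
      rfl
  rw [← Equiv.prod_comp σ, Fin.prod_univ_succ]
  unfold sgn
  rw [h0]

omit [Fintype I] [DecidableEq I] [Fintype K] [Nonempty K] in
include hgrp in
theorem abs_prod_s1 (t : Fin (m + 2) → Option K) :
    |∏ i, s1 grp (ext t (kq pos t) i)| = 1 := by
  rw [abs_prod]
  refine prod_eq_one fun i _ => ?_
  unfold ext
  by_cases hs : (t i).isSome
  · rw [dif_pos hs]
    simp only [s1]
    unfold kq
    rw [hgrp]
    split_ifs <;> simp [c1]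
  · rw [dif_neg hs]
    simp [s1]

theorem rk_of_nsup_lt {m : ℕ} {K : Type} (t t' : Fin (m + 2) → Option K) (h : nsup t < nsup t') :
    rk t' < rk t := by
  have h1 := nsup_le t'
  unfold rk
  have : (if (t' 0).isSome then 1 else 0) ≤ 1 := by split_ifs <;> omega
  omega

theorem rk_of_eq {m : ℕ} {K : Type} (t t' : Fin (m + 2) → Option K) (h : nsup t = nsup t')
    (h0 : (t 0).isSome) (h0' : t' 0 = none) : rk t' < rk t := by
  unfold rk
  rw [h, h0']
  simp [h0]

theorem nsup_map {n : ℕ} {K K' : Type} (t : Fin n → Option K) (z : K → K') :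
    nsup (fun i => (t i).map z) = nsup t := by
  unfold nsup
  congr 1
  ext i
  simp

include hgrp hpos in
theorem step (W : (I → K) → ℝ) (hW : ∀ z, 0 ≤ W z) (w ε : ℝ) (hw : 0 < w)
    (hT : ∀ T : Finset I, T.card ≤ 2 * (m + 2) → ∀ z, Good grp T z → |A T W z - w| ≤ ε * w)
    (e : ℝ) (he : e = 3 * ε + 2 * (((2 * (m + 2) : ℕ) : ℝ) ^ 2 / Fintype.card K))
    (Φ : (Fin (m + 2) → Option K) → ℝ)
    (hbal : ∀ (t : Fin (m + 2) → Option K) (i : Fin (m + 2)),
      ∑ x : K, Φ (Function.update t i (some x)) = 0)
    (hsym : ∀ (σ : Equiv.Perm (Fin (m + 2))) (t : Fin (m + 2) → Option K), σ 0 = 0 →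
      Φ (t ∘ σ) = Φ t)
    (hrel : ∀ z : I → K, W z ≠ 0 →
      ∑ j : Fin (m + 2) → Option I, sgn grp j * Φ (fun i => (j i).map z) = 0)
    (M : ℝ) (hM : ∀ t, |Φ t| ≤ M) (B : ℝ) (t : Fin (m + 2) → Option K)
    (hB : ∀ t', rk t' < rk t → |Φ t'| ≤ B) (hB0 : 0 ≤ B) :
    |Φ t| ≤ ((Fintype.card I : ℝ) + 1) ^ (m + 2) * 2 ^ (m + 2) * (B + e * M) := by
  classical
  have hM0 : 0 ≤ M := (abs_nonneg _).trans (hM t)
  have hNQ : 0 < NQ I K := NQ_pos
  set k := kq pos t with hk
  set tι : {i // (t i).isSome} → K := fun i => (t i.1).get i.2 with htι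
  have hki : Function.Injective k := kq_inj grp pos hgrp hpos t
  set ts : I → K := Function.extend k tι (fun _ => Classical.arbitrary K) with htsd
  have hts : ∀ i, ts (k i) = tι i := fun i => hki.extend_apply _ _ _
  have hιc : Fintype.card {i // (t i).isSome} = nsup t := Fintype.card_subtype _
  have hιm : Fintype.card {i // (t i).isSome} ≤ m + 2 := by rw [hιc]; exact nsup_le t
  have hes : 0 ≤ e := by
    have h1 := hT ∅ (by simp) (fun _ => Classical.arbitrary K) (by intro a ha; simp at ha)
    have h2 : 0 ≤ ε := by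
      have := (abs_nonneg _).trans h1
      by_contra hc
      push Not at hc
      nlinarith
    rw [he]
    positivity
  have hsum : ∑ j : Fin (m + 2) → Option I, sgn grp j *
      ((∑ z : I → K, (W z - w) * hh k tι z * Φ (fun i => (j i).map z)) +
        w * ∑ z : I → K, hh k tι z * Φ (fun i => (j i).map z)) = 0 := by
    have h1 : ∀ j : Fin (m + 2) → Option I,
      sgn grp j * ((∑ z : I → K, (W z - w) * hh k tι z * Φ (fun i => (j i).map z)) +
        w * ∑ z : I → K, hh k tι z * Φ (fun i => (j i).map z))
      = ∑ z : I → K, hh k tι z * (W z * (sgn grp j * Φ (fun i => (j i).map z))) := by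
      intro j
      rw [mul_sum, ← sum_add_distrib, mul_sum]
      refine sum_congr rfl fun z _ => ?_
      ring
    rw [sum_congr rfl fun j _ => h1 j, sum_comm]
    refine sum_eq_zero fun z _ => ?_
    rw [← mul_sum, ← mul_sum]
    by_cases h0 : W z = 0
    · rw [h0]; ring
    · rw [hrel z h0]; ring
  -- error terms
  have hD : ∀ j : Fin (m + 2) → Option I,
      |∑ z : I → K, (W z - w) * hh k tι z * Φ (fun i => (j i).map z)|
        ≤ 2 ^ (m + 2) * (M * (NQ I K * (e * w))) := by
    intro j
    have h1 := err_j grp W hW w ε hw.le (2 * (m + 2)) hT k hki tι ts hts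
      (by
        intro i i' hii' hcon
        apply hii'
        have h2 : t i.1 = t i'.1 := by
          have := congrArg some hcon
          simpa [htι] using this
        rw [hk]
        unfold kq
        rw [hgrp, hgrp, h2])
      ((univ.image j).biUnion (fun a => a.toFinset)) (by
        have h2 : ((univ.image j).biUnion (fun a => a.toFinset)).card ≤ m + 2 := by
          refine (card_biUnion_le_card_mul _ _ 1 (fun a _ => ?_)).trans ?_
          · cases a <;> simp
          · rw [mul_one]
            simpa using (card_image_le (s := (univ : Finset (Fin (m + 2)))) (f := j))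
        omega)
      (fun z => Φ (fun i => (j i).map z)) (by
        intro z z' hz
        congr 1
        ext1 i
        rcases hji : j i with _ | a
        · rfl
        · simp only [Option.map_some]
          rw [hz a (by
            rw [mem_biUnion]
            exact ⟨j i, mem_image_of_mem j (mem_univ i), by rw [hji]; simp⟩)]) M
      (fun z => hM _)
    rw [← he] at h1
    refine h1.trans ?_
    have h2 : (2 : ℝ) ^ Fintype.card {i // (t i).isSome} ≤ 2 ^ (m + 2) :=
      pow_le_pow_right₀ (by norm_num) hιm
    exact mul_le_mul_of_nonneg_right h2 (by positivity)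
  -- main terms
  let P : (Fin (m + 2) → Option I) → Prop := fun j =>
    (∀ i0 : {i // (t i).isSome}, ∃ i, j i = some (k i0)) ∧ nsup j = nsup t ∧
      (j 0 = none ↔ t 0 = none) ∧ sgn grp j ≠ 0
  set s : ℝ := ∏ i, s1 grp (ext t (kq pos t) i) with hs
  have hs1 : |s| = 1 := abs_prod_s1 grp pos hgrp t
  have hPm : ∀ j, P j → sgn grp j * ∑ z : I → K, hh k tι z * Φ (fun i => (j i).map z)
      = s * (NQ I K * Φ t) := by
    rintro j ⟨hj1, hj2, hj3, hj4⟩
    obtain ⟨σ, hσ⟩ := exists_sigma grp pos hgrp hpos t j hj1 hj2
    have hj : j = fun i => ext t (kq pos t) (σ i) := funext hσ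
    have hσ0 : t (σ 0) = t 0 := by
      by_cases h0 : t 0 = none
      · have h1 := hj3.2 h0
        rw [hσ 0] at h1
        unfold ext at h1
        by_cases h2 : (t (σ 0)).isSome
        · rw [dif_pos h2] at h1
          exact absurd h1 (by simp)
        · rw [h0]; simpa using h2
      · have h1 : j 0 ≠ none := fun h => h0 (hj3.1 h)
        rw [hσ 0] at h1
        unfold ext at h1
        by_cases h2 : (t (σ 0)).isSome
        · have h3 : s0 grp (j 0) ≠ 0 := left_ne_zero_of_mul hj4
          rw [hσ 0] at h3
          unfold ext at h3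
          rw [dif_pos h2] at h3
          simp only [s0] at h3
          unfold kq at h3
          rw [hgrp] at h3
          by_contra hc
          simp [hc, c0] at h3
        · rw [dif_neg h2] at h1
          exact absurd rfl h1
    rw [hj]
    rw [sgn_sigma grp pos hgrp t σ hσ0, main_case grp pos hgrp hpos t Φ hbal σ,
      phi_swap t Φ hsym σ hσ0]
  have hPn : ∀ j, ¬ P j → |sgn grp j * ∑ z : I → K, hh k tι z * Φ (fun i => (j i).map z)|
      ≤ 2 ^ (m + 2) * (NQ I K * B) := by
    intro j hj
    have hpos' : 0 ≤ 2 ^ (m + 2) * (NQ I K * B) := by positivity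
    by_cases h4 : sgn grp j = 0
    · rw [h4, zero_mul, abs_zero]; exact hpos'
    by_cases h1 : ∀ i0 : {i // (t i).isSome}, ∃ i, j i = some (k i0)
    · have hle : nsup t ≤ nsup j := by
        choose f hf using h1
        unfold nsup
        have hg : Function.Injective f := by
          intro a b hab
          have h2 := hf a
          rw [hab, hf b] at h2
          exact (hki (Option.some_injective _ h2)).symm
        have : (univ.image f).card ≤ (univ.filter fun i => (j i).isSome).card := by
          apply card_le_card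
          intro i hi
          obtain ⟨a, -, rfl⟩ := mem_image.1 hi
          simp [hf]
        rw [card_image_of_injective _ hg, card_univ, Fintype.card_subtype] at this
        exact this
      have hrk : ∀ z : I → K, rk (fun i => (j i).map z) < rk t := by
        intro z
        rcases hle.lt_or_eq with h2 | h2
        · exact rk_of_nsup_lt _ _ (by rw [nsup_map]; exact h2)
        · by_cases h3 : j 0 = none
          · apply rk_of_eq
            · rw [nsup_map]; exact h2
            · by_contra hc
              apply hj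
              refine ⟨h1, h2.symm, ⟨fun _ => by simpa using hc, fun _ => h3⟩, h4⟩
            · rw [h3]; rfl
          · exfalso
            have h5 : t 0 = none := by
              by_contra hc
              exact hj ⟨h1, h2.symm, ⟨fun h => absurd h h3, fun h => absurd h hc⟩, h4⟩
            obtain ⟨σ, hσ⟩ := exists_sigma grp pos hgrp hpos t j h1 h2.symm
            have h6 : s0 grp (j 0) ≠ 0 := left_ne_zero_of_mul h4
            rw [hσ 0] at h6 h3
            unfold ext at h6 h3
            by_cases h7 : (t (σ 0)).isSome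
            · rw [dif_pos h7] at h6
              simp only [s0] at h6
              unfold kq at h6
              rw [hgrp] at h6
              have h8 : t (σ 0) ≠ t 0 := by
                rw [h5]; intro h; rw [h] at h7; simp at h7
              simp [h8, c0] at h6
            · rw [dif_neg h7] at h3
              exact h3 rfl
      have h2 := hh_bound k hki tι (fun z => Φ (fun i => (j i).map z)) B (fun z => hB _ (hrk z))
      rw [abs_mul]
      calc |sgn grp j| * |∑ z : I → K, hh k tι z * Φ (fun i => (j i).map z)|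
          ≤ 1 * (2 ^ Fintype.card {i // (t i).isSome} * (NQ I K * B)) :=
            mul_le_mul (abs_sgn grp j) h2 (abs_nonneg _) (by norm_num)
        _ ≤ _ := by
            rw [one_mul]
            exact mul_le_mul_of_nonneg_right (pow_le_pow_right₀ (by norm_num) hιm)
              (by positivity)
    · push Not at h1
      obtain ⟨i0, hi0⟩ := h1
      rw [main_zero k hki tι i0 (by positivity) (fun z => Φ (fun i => (j i).map z)), mul_zero,
        abs_zero]
      · exact hpos'
      · intro z x
        congr 1
        ext1 i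
        rcases hji : j i with _ | a
        · rfl
        · simp only [Option.map_some]
          rw [Function.update_of_ne]
          intro h
          exact hi0 i (by rw [hji, h])
  have hex : P (ext t (kq pos t)) := by
    refine ⟨fun i0 => ⟨i0.1, ?_⟩, ?_, ?_, ?_⟩
    · unfold ext
      rw [dif_pos i0.2]
    · unfold nsup
      congr 1
      ext i
      simp only [mem_filter, mem_univ, true_and]
      unfold ext
      by_cases h : (t i).isSome
      · rw [dif_pos h]; simp [h]
      · rw [dif_neg h]; simpa using h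
    · unfold ext
      by_cases h : (t 0).isSome
      · rw [dif_pos h]
        simp only [reduceCtorEq, false_iff]
        intro hc; rw [hc] at h; simp at h
      · rw [dif_neg h]
        simpa using h
    · have h1 := sgn_sigma grp pos hgrp t (Equiv.refl _) rfl
      simp only [Equiv.refl_apply] at h1
      change sgn grp (fun i => ext t (kq pos t) i) ≠ 0
      rw [h1]
      intro hc
      rw [← hs] at hc
      rw [hc, abs_zero] at hs1
      exact zero_ne_one hs1
  have hcount : (1 : ℝ) ≤ ((univ.filter P).card : ℝ) := by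
    have : 0 < (univ.filter P).card := card_pos.2 ⟨_, by simpa using hex⟩
    exact_mod_cast this
  have hmain : ((univ.filter P).card : ℝ) * (s * (NQ I K * Φ t)) * w =
      - ∑ j : Fin (m + 2) → Option I, ((sgn grp j *
        ∑ z : I → K, (W z - w) * hh k tι z * Φ (fun i => (j i).map z)) +
        w * (if P j then 0 else
          sgn grp j * ∑ z : I → K, hh k tι z * Φ (fun i => (j i).map z))) := by
    have h1 : ((univ.filter P).card : ℝ) * (s * (NQ I K * Φ t)) =
        ∑ j : Fin (m + 2) → Option I, (if P j then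
          sgn grp j * ∑ z : I → K, hh k tι z * Φ (fun i => (j i).map z) else 0) := by
      rw [← sum_filter, sum_congr rfl fun j hj => hPm j (mem_filter.1 hj).2, sum_const,
        nsmul_eq_mul]
    rw [h1, eq_neg_iff_add_eq_zero, sum_mul, ← sum_add_distrib]
    refine Eq.trans ?_ hsum
    refine sum_congr rfl fun j _ => ?_
    by_cases hj : P j
    · rw [if_pos hj, if_pos hj]; ring
    · rw [if_neg hj, if_neg hj]; ring
  have hfin : |Φ t| * (NQ I K * w) ≤
      ((Fintype.card I : ℝ) + 1) ^ (m + 2) * 2 ^ (m + 2) * (B + e * M) * (NQ I K * w) := by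
    calc |Φ t| * (NQ I K * w) ≤ ((univ.filter P).card : ℝ) * (|Φ t| * (NQ I K * w)) :=
          le_mul_of_one_le_left (by positivity) hcount
      _ = |((univ.filter P).card : ℝ) * (s * (NQ I K * Φ t)) * w| := by
          rw [abs_mul, abs_mul, abs_mul, abs_mul, hs1, abs_of_pos hw, abs_of_pos hNQ,
            Nat.abs_cast]
          ring
      _ ≤ ∑ j : Fin (m + 2) → Option I, (2 ^ (m + 2) * (M * (NQ I K * (e * w))) +
          w * (2 ^ (m + 2) * (NQ I K * B))) := by
          rw [hmain, abs_neg]
          refine (abs_sum_le_sum_abs _ _).trans (sum_le_sum fun j _ => ?_)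
          refine (abs_add_le _ _).trans (add_le_add ?_ ?_)
          · rw [abs_mul]
            calc _ ≤ 1 * (2 ^ (m + 2) * (M * (NQ I K * (e * w)))) :=
                  mul_le_mul (abs_sgn grp j) (hD j) (abs_nonneg _) (by norm_num)
              _ = _ := one_mul _
          · rw [abs_mul, abs_of_pos hw]
            refine mul_le_mul_of_nonneg_left ?_ hw.le
            by_cases hj : P j
            · rw [if_pos hj, abs_zero]; positivity
            · rw [if_neg hj]; exact hPn j hj
      _ = _ := by
          rw [sum_const, card_univ, nsmul_eq_mul]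
          simp only [Fintype.card_pi, Fintype.card_option, prod_const, card_univ, Fintype.card_fin]
          push_cast
          ring
  exact le_of_mul_le_mul_right hfin (by positivity)

include hgrp hpos in
/-- The contraction theorem. -/
theorem contraction (W : (I → K) → ℝ) (hW : ∀ z, 0 ≤ W z) (w ε : ℝ) (hw : 0 < w)
    (hT : ∀ T : Finset I, T.card ≤ 2 * (m + 2) → ∀ z, Good grp T z → |A T W z - w| ≤ ε * w)
    (e : ℝ) (he : e = 3 * ε + 2 * (((2 * (m + 2) : ℕ) : ℝ) ^ 2 / Fintype.card K))
    (hsmall : (2 * (((Fintype.card I : ℝ) + 1) ^ (m + 2) * 2 ^ (m + 2))) ^ (2 * m + 6) * e < 1)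
    (Φ : (Fin (m + 2) → Option K) → ℝ)
    (hbal : ∀ (t : Fin (m + 2) → Option K) (i : Fin (m + 2)),
      ∑ x : K, Φ (Function.update t i (some x)) = 0)
    (hsym : ∀ (σ : Equiv.Perm (Fin (m + 2))) (t : Fin (m + 2) → Option K), σ 0 = 0 →
      Φ (t ∘ σ) = Φ t)
    (hrel : ∀ z : I → K, W z ≠ 0 →
      ∑ j : Fin (m + 2) → Option I, sgn grp j * Φ (fun i => (j i).map z) = 0)
    (t : Fin (m + 2) → Option K) : Φ t = 0 := by
  classical
  obtain ⟨t1, ht1⟩ := Finite.exists_max (fun t => |Φ t|)
  set M := |Φ t1| with hM
  have hM0 : 0 ≤ M := abs_nonneg _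
  set C0 : ℝ := ((Fintype.card I : ℝ) + 1) ^ (m + 2) * 2 ^ (m + 2) with hC0
  have hC1 : 1 ≤ C0 := by
    rw [hC0]
    have h1 : (1 : ℝ) ≤ ((Fintype.card I : ℝ) + 1) ^ (m + 2) :=
      one_le_pow₀ (by linarith [(Nat.cast_nonneg (Fintype.card I) : (0 : ℝ) ≤ _)])
    have h2 : (1 : ℝ) ≤ 2 ^ (m + 2) := one_le_pow₀ (by norm_num)
    nlinarith
  have hes : 0 ≤ e := by
    have h1 := hT ∅ (by simp) (fun _ => Classical.arbitrary K) (by intro a ha; simp at ha)
    have h2 : 0 ≤ ε := by
      have := (abs_nonneg _).trans h1
      by_contra hc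
      push Not at hc
      nlinarith
    rw [he]
    positivity
  have key : ∀ r : ℕ, ∀ t : Fin (m + 2) → Option K, rk t < r → |Φ t| ≤ (2 * C0) ^ r * (e * M) := by
    intro r
    induction r with
    | zero => intro t ht; omega
    | succ r ih =>
      intro t ht
      have h1 := step grp pos hgrp hpos W hW w ε hw hT e he Φ hbal hsym hrel M ht1
        ((2 * C0) ^ r * (e * M)) t (fun t' ht' => ih t' (by omega)) (by positivity)
      refine h1.trans ?_
      have h2 : (1 : ℝ) ≤ (2 * C0) ^ r := one_le_pow₀ (by linarith)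
      have h3 : e * M ≤ (2 * C0) ^ r * (e * M) := le_mul_of_one_le_left (by positivity) h2
      calc C0 * ((2 * C0) ^ r * (e * M) + e * M)
          ≤ C0 * ((2 * C0) ^ r * (e * M) + (2 * C0) ^ r * (e * M)) := by gcongr
        _ = (2 * C0) ^ (r + 1) * (e * M) := by ring
  have h1 := key (2 * m + 6) t1 (by
    unfold rk
    have h2 := nsup_le t1
    have : (if (t1 0).isSome then 1 else 0) ≤ 1 := by split_ifs <;> omega
    omega)
  have h2 : M = 0 := by
    by_contra hc
    have h3 : 0 < M := lt_of_le_of_ne hM0 (Ne.symm hc)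
    have h4 : M < M := by
      calc M ≤ (2 * C0) ^ (2 * m + 6) * (e * M) := h1
        _ = ((2 * C0) ^ (2 * m + 6) * e) * M := by ring
        _ < 1 * M := by gcongr
        _ = M := one_mul M
    exact lt_irrefl _ h4
  have h3 : |Φ t| ≤ M := ht1 t
  rw [h2] at h3
  exact abs_eq_zero.1 (le_antisymm h3 (abs_nonneg _))

end step

end Pool.Agent.Helper83.GQ
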