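import Pool.Agent.Helper83.GQ.Rel
import Pool.Graph.R_seed8.H39R2.Gon.B

/-!
# Algebra: from the relations to the duality statement (part 1)
-/

set_option autoImplicit false
set_option linter.unusedSectionVars false

namespace Pool.Agent.Helper83.GQ

open H39Gon H39Gon.A2 H39Gon.TaskB Polynomial

section poly0

variable {V : Type} [AddCommGroup V]

theorem poly0 {n : ℕ} (P : MultilinearMap ℤ (fun _ : Fin n => V) ℝ) (x y : Fin n → V)
    (t0 : ℕ) (h : ∀ t : ℕ, t0 ≤ t → P (x + (t : ℤ) • y) = 0) : P x = 0 := by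
  classical
  set p : ℝ[X] := ∑ s : Finset (Fin n), C (P (s.piecewise x y)) * X ^ (sᶜ).card with hp
  have h1 : ∀ t : ℤ, P (x + t • y) = p.eval (t : ℝ) := by
    intro t
    rw [MultilinearMap.map_add_univ, hp, eval_finsetSum]
    refine Finset.sum_congr rfl fun s _ => ?_
    have h2 : s.piecewise x (t • y) = (sᶜ).piecewise (fun i => (fun _ => t) i • (s.piecewise x y) i)
        (s.piecewise x y) := by
      funext i
      by_cases hi : i ∈ s
      · simp [hi]
      · simp [hi]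
    rw [h2, MultilinearMap.map_piecewise_smul]
    simp
    ring
  have h3 : p = 0 := by
    apply Polynomial.eq_zero_of_infinite_isRoot
    apply Set.Infinite.mono (s := (fun t : ℕ => (t : ℝ)) '' (Set.Ici t0))
    · rintro _ ⟨t, ht, rfl⟩
      have := h t ht
      rw [h1 (t : ℤ)] at this
      simpa [IsRoot] using this
    · exact (Set.Ici_infinite t0).image (Nat.cast_injective.injOn)
  have h4 := h1 0
  rw [zero_smul, add_zero, h3, eval_zero] at h4
  exact h4

theorem poly0Q {m : ℕ} (Q : MultilinearMap ℤ (fun _ : Fin (m + 1) => V) (V →ₗ[ℤ] ℚ))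
    (s s' v v' : V) (t0 : ℕ)
    (h : ∀ t : ℕ, t0 ≤ t → Q (fun _ => s + (t : ℤ) • s') (v + (t : ℤ) • v') = 0) :
    Q (fun _ => s) v = 0 := by
  have h1 := poly0 (P1 Q) (Fin.cons v (fun _ => s)) (Fin.cons v' (fun _ => s')) t0 (by
    intro t ht
    have h2 := h t ht
    rw [P1_apply]
    have h3 : (Fin.cons v (fun _ => s) + (t : ℤ) • Fin.cons v' (fun _ => s') : Fin (m + 2) → V)
        = Fin.cons (v + (t : ℤ) • v') (fun _ => s + (t : ℤ) • s') := by
      funext i
      induction i using Fin.cases with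
      | zero => rfl
      | succ j => rfl
    rw [h3, Fin.tail_cons, Fin.cons_zero, h2]
    simp)
  rw [P1_apply, Fin.tail_cons, Fin.cons_zero] at h1
  exact_mod_cast h1

theorem sum_smul_abs {ι : Type} (S : Finset ι) (L : ℕ) (e : ι → ℕ) (x : ι → V) :
    ∑ p ∈ S, (L * e p) • x p = (L : ℤ) • ∑ p ∈ S, (e p : ℤ) • x p := by
  rw [Finset.smul_sum]
  refine Finset.sum_congr rfl fun p hp => ?_
  rw [smul_smul, ← natCast_zsmul]
  push_cast
  rfl

theorem Q_smul {m : ℕ} (Q : MultilinearMap ℤ (fun _ : Fin (m + 1) => V) (V →ₗ[ℤ] ℚ))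
    (s v : V) (n : ℤ) : Q (fun _ => n • s) v = (n : ℚ) ^ (m + 1) * Q (fun _ => s) v := by
  have h2 : Q (fun _ => n • s) = (∏ _i : Fin (m + 1), n) • Q (fun _ => s) := by
    rw [← MultilinearMap.map_smul_univ]
  rw [h2, LinearMap.smul_apply]
  simp

end poly0

section primes

variable {F : Type} [Field F] [Fintype F]

theorem finite_adjoinRoot {p : F[X]} (hp : p.Monic) : Finite (AdjoinRoot p) := by
  have : Module.Finite F (AdjoinRoot p) := (AdjoinRoot.powerBasis' hp).finite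
  exact Module.finite_of_finite F

theorem exists_L {p : F[X]} (hp : p.Monic) :
    ∃ L : ℕ, 0 < L ∧ ∀ x : F[X], IsCoprime x p → p ∣ x ^ L - 1 := by
  have := finite_adjoinRoot hp
  have : Finite (AdjoinRoot p)ˣ := inferInstance
  refine ⟨Nat.card (AdjoinRoot p)ˣ, Nat.card_pos, fun x hx => ?_⟩
  obtain ⟨u, v, huv⟩ := hx
  have h1 : AdjoinRoot.mk p u * AdjoinRoot.mk p x = 1 := by
    rw [← map_mul, ← map_one (AdjoinRoot.mk p), ← huv, map_add, map_mul _ v, AdjoinRoot.mk_self,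
      mul_zero, add_zero]
  let U : (AdjoinRoot p)ˣ := ⟨AdjoinRoot.mk p x, AdjoinRoot.mk p u, by rw [mul_comm]; exact h1, h1⟩
  have h2 : U ^ Nat.card (AdjoinRoot p)ˣ = 1 := pow_card_eq_one'
  have h3 : AdjoinRoot.mk p x ^ Nat.card (AdjoinRoot p)ˣ = 1 := by
    have := congrArg Units.val h2
    rw [Units.val_pow_eq_pow_val, Units.val_one] at this
    exact this
  rw [← AdjoinRoot.mk_eq_zero, map_sub, map_pow, h3, map_one, sub_self]

theorem exists_L_SP (r : ℕ) :
    ∃ L : ℕ, 0 < L ∧ ∀ p ∈ SP F r, ∀ x : F[X], IsCoprime x p → p ∣ x ^ L - 1 := by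
  classical
  choose! f hf1 hf2 using (fun (p : F[X]) (hp : p.Monic) => exists_L hp)
  refine ⟨∏ p ∈ SP F r, f p, Finset.prod_pos fun p hp => hf1 p (mem_SP.1 hp).1, ?_⟩
  intro p hp x hx
  refine (hf2 p (mem_SP.1 hp).1 x hx).trans ?_
  obtain ⟨n, hn⟩ := Finset.dvd_prod_of_mem f hp
  rw [hn, pow_mul]
  simpa using sub_dvd_pow_sub_pow (x ^ f p) 1 n

theorem exists_big (r : ℕ) : ∃ P : F[X], P.Monic ∧ Irreducible P ∧ r < P.natDegree := by
  have h1 : ¬ IsUnit (X * R0 F r + 1) := by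
    apply not_isUnit_of_natDegree_pos
    have h2 : (X * R0 F r).natDegree = 1 + (R0 F r).natDegree := by
      rw [natDegree_mul X_ne_zero (R0_monic r).ne_zero, natDegree_X]
    have h3 : (X * R0 F r + 1).natDegree = (X * R0 F r).natDegree := by
      apply natDegree_add_eq_left_of_natDegree_lt
      rw [h2, natDegree_one]
      omega
    rw [h3, h2]
    omega
  obtain ⟨P, hP1, hP2, hP3⟩ := exists_monic_irreducible_factor _ h1
  refine ⟨P, hP1, hP2, ?_⟩
  by_contra hcon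
  push Not at hcon
  have h4 : P ∈ SP F r := mem_SP.2 ⟨hP1, hP2, hcon⟩
  have h5 : P ∣ R0 F r := (dvd_R0_iff hP1 hP2).2 h4
  have h6 : P ∣ 1 := by
    have := dvd_sub hP3 (h5.mul_left X)
    simpa using this
  exact hP2.not_isUnit (isUnit_of_dvd_one h6)

/-- product of prime powers -/
noncomputable def pw (L : ℕ) (S : Finset F[X]) (e : F[X] → ℕ) : F[X] := ∏ p ∈ S, p ^ (L * e p)

theorem pw_monic (L : ℕ) (S : Finset F[X]) (e : F[X] → ℕ) (hS : ∀ p ∈ S, p.Monic) :
    (pw L S e).Monic := monic_prod_of_monic _ _ fun p hp => (hS p hp).pow _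

theorem natDegree_pw (L : ℕ) (S : Finset F[X]) (e : F[X] → ℕ) (hS : ∀ p ∈ S, p.Monic) :
    (pw L S e).natDegree = L * ∑ p ∈ S, e p * p.natDegree := by
  unfold pw
  rw [natDegree_prod_of_monic _ _ fun p hp => (hS p hp).pow _, Finset.mul_sum]
  refine Finset.sum_congr rfl fun p hp => ?_
  rw [(hS p hp).natDegree_pow]
  ring

theorem coprime_pw {L : ℕ} {S : Finset F[X]} {e : F[X] → ℕ} (hS : ∀ p ∈ S, p.Monic ∧ Irreducible p)
    {x : F[X]} (hx1 : x.Monic) (hx2 : Irreducible x) (hx : x ∉ S) : IsCoprime (pw L S e) x := by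
  unfold pw
  refine IsCoprime.prod_left fun p hp => IsCoprime.pow_left ?_
  exact coprime_of_monic_irr (hS p hp).1 (hS p hp).2 hx1 hx2 (fun h => hx (h ▸ hp))

theorem coprime_pw_pw {L : ℕ} {S S' : Finset F[X]} {e : F[X] → ℕ}
    (hS : ∀ p ∈ S, p.Monic ∧ Irreducible p) (hS' : ∀ p ∈ S', p.Monic ∧ Irreducible p)
    (hd : Disjoint S S') : IsCoprime (pw L S e) (pw L S' e) := by
  unfold pw
  refine IsCoprime.prod_right fun p hp => IsCoprime.pow_right ?_
  exact coprime_pw hS (hS' p hp).1 (hS' p hp).2 (Finset.disjoint_right.1 hd hp)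

theorem pw_eq_pow (L : ℕ) (S : Finset F[X]) (e : F[X] → ℕ) :
    pw L S e = (pw 1 S e) ^ L := by
  unfold pw
  rw [← Finset.prod_pow]
  refine Finset.prod_congr rfl fun p _ => ?_
  rw [← pow_mul]
  congr 1
  ring

theorem pw_dvd {L : ℕ} (hL : 0 < L) {S : Finset F[X]} {e : F[X] → ℕ} {p : F[X]} (hp : p ∈ S)
    (he : 0 < e p) : p ∣ pw L S e := by
  unfold pw
  exact (dvd_pow_self p (Nat.mul_pos hL he).ne').trans (Finset.dvd_prod_of_mem _ hp)

theorem mem_of_dvd_pw {L : ℕ} {S : Finset F[X]} {e : F[X] → ℕ}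
    (hS : ∀ p ∈ S, p.Monic ∧ Irreducible p) {p : F[X]} (h1 : p.Monic) (h2 : Irreducible p)
    (h : p ∣ pw L S e) : p ∈ S := by
  by_contra hcon
  have h3 := coprime_pw (L := L) (e := e) hS h1 h2 hcon
  exact h2.not_isUnit (h3.symm.isUnit_of_dvd' dvd_rfl h)

theorem coprime_unit {x y : F[X]} (h : IsUnit x) : IsCoprime x y := by
  obtain ⟨u, rfl⟩ := h
  exact ⟨(↑u⁻¹ : F[X]), 0, by simp⟩

/-- general family of admissible triples -/
theorem trip_of {r L : ℕ} (hL : 0 < L)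
    (hL2 : ∀ p ∈ SP F r, ∀ x : F[X], IsCoprime x p → p ∣ x ^ L - 1)
    (Sa Sb Sc : Finset F[X]) (e : F[X] → ℕ) (P : F[X]) (z : F) (hz : z ≠ 0)
    (hSa : ∀ p ∈ Sa, p.Monic ∧ Irreducible p) (hSb : ∀ p ∈ Sb, p.Monic ∧ Irreducible p)
    (hSc : ∀ p ∈ Sc, p.Monic ∧ Irreducible p)
    (hab : Disjoint Sa Sb) (hac : Disjoint Sa Sc) (hbc : Disjoint Sb Sc)
    (hea : ∀ p ∈ Sa, 0 < e p) (heb : ∀ p ∈ Sb, 0 < e p) (hec : ∀ p ∈ Sc, 0 < e p)
    (hcov : ∀ p ∈ SP F r, p ∈ Sa ∨ (p ∈ Sb ∧ z = 1) ∨ (p ∈ Sc ∧ z = -1))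
    (hbig : ∀ p, r < p.natDegree → p ∈ Sa ∨ p ∈ Sb ∨ p ∈ Sc → p = P)
    (hdeg : ∑ p ∈ Sb, e p * p.natDegree = ∑ p ∈ Sc, e p * p.natDegree)
    (hdeg2 : ∑ p ∈ Sa, e p * p.natDegree < ∑ p ∈ Sc, e p * p.natDegree) :
    Trip r (C z * pw L Sa e) (pw L Sb e) (pw L Sc e) where
  ha := mul_ne_zero (by simpa using hz) (pw_monic L Sa e fun p hp => (hSa p hp).1).ne_zero
  hb := pw_monic L Sb e fun p hp => (hSb p hp).1
  hc := pw_monic L Sc e fun p hp => (hSc p hp).1
  hbc := by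
    rw [natDegree_pw L Sb e fun p hp => (hSb p hp).1, natDegree_pw L Sc e fun p hp => (hSc p hp).1,
      hdeg]
  hac := by
    rw [natDegree_C_mul hz, natDegree_pw L Sa e fun p hp => (hSa p hp).1,
      natDegree_pw L Sc e fun p hp => (hSc p hp).1]
    exact Nat.mul_lt_mul_of_pos_left hdeg2 hL
  cab := by
    exact IsCoprime.mul_left (coprime_unit (isUnit_C.2 hz.isUnit)) (coprime_pw_pw hSa hSb hab)
  cac := by
    exact IsCoprime.mul_left (coprime_unit (isUnit_C.2 hz.isUnit)) (coprime_pw_pw hSa hSc hac)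
  cbc := coprime_pw_pw hSb hSc hbc
  hR := by
    rw [R0_dvd_iff]
    intro p hp
    have h1 := mem_SP.1 hp
    have key : ∀ S : Finset F[X], (∀ p ∈ S, p.Monic ∧ Irreducible p) → p ∉ S →
        p ∣ pw L S e - 1 := by
      intro S hS hpS
      rw [pw_eq_pow]
      exact hL2 p hp _ (coprime_pw hS h1.1 h1.2.1 hpS)
    rcases hcov p hp with h2 | ⟨h2, h3⟩ | ⟨h2, h3⟩
    · have e1 := key Sb hSb (Finset.disjoint_left.1 hab h2)
      have e2 := key Sc hSc (Finset.disjoint_left.1 hac h2)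
      have e3 : p ∣ C z * pw L Sa e := (pw_dvd hL h2 (hea p h2)).mul_left _
      have := dvd_add e3 (dvd_sub e1 e2)
      convert this using 1
      ring
    · have e1 := key Sa hSa (Finset.disjoint_right.1 hab h2)
      have e2 := key Sc hSc (Finset.disjoint_left.1 hbc h2)
      have e3 : p ∣ pw L Sb e := (pw_dvd hL h2 (heb p h2))
      have := dvd_add e3 (dvd_sub e1 e2)
      rw [h3, C_1]
      convert this using 1
      ring
    · have e1 := key Sa hSa (Finset.disjoint_right.1 hac h2)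
      have e2 := key Sb hSb (Finset.disjoint_right.1 hbc h2)
      have e3 : p ∣ pw L Sc e := (pw_dvd hL h2 (hec p h2))
      have := dvd_sub (dvd_sub e2 e1) e3
      rw [h3, C_neg, C_1]
      convert this using 1
      ring
  big := by
    refine ⟨P, fun p hp1 hp2 hp3 hp4 => hbig p hp3 ?_⟩
    rcases (hp2.prime.dvd_or_dvd hp4) with h | h
    · rcases (hp2.prime.dvd_or_dvd h) with h | h
      · rcases (hp2.prime.dvd_or_dvd h) with h | h
        · exact absurd (isUnit_of_dvd_unit h (isUnit_C.2 hz.isUnit)) hp2.not_isUnit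
        · exact Or.inl (mem_of_dvd_pw hSa hp1 hp2 h)
      · exact Or.inr (Or.inl (mem_of_dvd_pw hSb hp1 hp2 h))
    · exact Or.inr (Or.inr (mem_of_dvd_pw hSc hp1 hp2 h))

theorem clp_pw {L : ℕ} (S : Finset F[X]) (e : F[X] → ℕ) (hS : ∀ p ∈ S, p.Monic ∧ Irreducible p) :
    clp (pw L S e) = (L : ℤ) • ∑ p ∈ S, (e p : ℤ) • clp p := by
  unfold pw
  rw [clp_prod _ _ (fun p hp => pow_ne_zero _ (hS p hp).1.ne_zero)]
  rw [Finset.sum_congr rfl fun p hp => clp_pow (hS p hp).1.ne_zero (L * e p)]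
  exact sum_smul_abs _ _ _ _

end primes

end Pool.Agent.Helper83.GQ
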