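import Pool.Agent.Helper83.GQ.C5a

/-!
# Algebra: from the relations to the duality statement (part 2)
-/

set_option autoImplicit false
set_option linter.unusedSectionVars false

namespace Pool.Agent.Helper83.GQ

open H39Gon H39Gon.A2 H39Gon.TaskB Polynomial

variable {F : Type} [Field F] [Fintype F] {V : Type} [AddCommGroup V] {m : ℕ}

/-- abstract relations -/
def AR (x : F[X] → V) (Q : MultilinearMap ℤ (fun _ : Fin (m + 1) => V) (V →ₗ[ℤ] ℚ)) : Prop :=
  ∃ r0 : ℕ, ∀ r, r0 ≤ r → ∀ (Sa Sb Sc : Finset F[X]) (e : F[X] → ℕ) (P : F[X]) (z : F), z ≠ 0 →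
    (∀ p ∈ Sa, p.Monic ∧ Irreducible p) → (∀ p ∈ Sb, p.Monic ∧ Irreducible p) →
    (∀ p ∈ Sc, p.Monic ∧ Irreducible p) → Disjoint Sa Sb → Disjoint Sa Sc → Disjoint Sb Sc →
    (∀ p ∈ Sa, 0 < e p) → (∀ p ∈ Sb, 0 < e p) → (∀ p ∈ Sc, 0 < e p) →
    (∀ p ∈ SP F r, p ∈ Sa ∨ (p ∈ Sb ∧ z = 1) ∨ (p ∈ Sc ∧ z = -1)) →
    (∀ p, r < p.natDegree → p ∈ Sa ∨ p ∈ Sb ∨ p ∈ Sc → p = P) →
    (∑ p ∈ Sb, e p * p.natDegree = ∑ p ∈ Sc, e p * p.natDegree) →
    (∑ p ∈ Sa, e p * p.natDegree < ∑ p ∈ Sc, e p * p.natDegree) →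
    Q (fun _ => ∑ p ∈ Sa, (e p : ℤ) • x p - ∑ p ∈ Sc, (e p : ℤ) • x p)
      (∑ p ∈ Sb, (e p : ℤ) • x p - ∑ p ∈ Sc, (e p : ℤ) • x p) = 0

theorem exists_bound (S : Finset F[X]) (u : F[X] → ℤ) :
    ∃ t0 : ℕ, ∀ t : ℕ, t0 ≤ t → ∀ p ∈ S, 0 < u p + t := by
  refine ⟨1 + ∑ p ∈ S, (u p).natAbs, fun t ht p hp => ?_⟩
  have h1 : (u p).natAbs ≤ ∑ p ∈ S, (u p).natAbs :=
    Finset.single_le_sum (f := fun p => (u p).natAbs) (fun _ _ => Nat.zero_le _) hp
  omega

theorem irr_deg_pos {p : F[X]} (h : Irreducible p) : 0 < p.natDegree := h.natDegree_pos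

theorem Qc (Q : MultilinearMap ℤ (fun _ : Fin (m + 1) => V) (V →ₗ[ℤ] ℚ)) {s s' v v' : V}
    (hs : s = s') (hv : v = v') (h : Q (fun _ => s') v' = 0) : Q (fun _ => s) v = 0 := by
  rw [hs, hv, h]

theorem starA (x : F[X] → V) (Q : MultilinearMap ℤ (fun _ : Fin (m + 1) => V) (V →ₗ[ℤ] ℚ))
    (h : AR x Q) : ∃ r0 : ℕ, ∀ r, r0 ≤ r → ∀ Sa Sb : Finset F[X],
      (∀ p, p ∈ SP F r ↔ p ∈ Sa ∨ p ∈ Sb) → Disjoint Sa Sb → Sb.Nonempty → ∀ u v : F[X] → ℤ, ∑ p ∈ Sb, v p * p.natDegree = 0 →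
      Q (fun _ => ∑ p ∈ Sa, u p • x p) (∑ p ∈ Sb, v p • x p) = 0 := by
  classical
  obtain ⟨r0, hr0⟩ := h
  refine ⟨r0, fun r hr Sa Sb hU hd hne u v hv => ?_⟩
  obtain ⟨P, hP1, hP2, hP3⟩ := exists_big (F := F) r
  have hSa : ∀ p ∈ Sa, p.Monic ∧ Irreducible p ∧ p.natDegree ≤ r := fun p hp =>
    mem_SP.1 ((hU p).2 (Or.inl hp))
  have hSb : ∀ p ∈ Sb, p.Monic ∧ Irreducible p ∧ p.natDegree ≤ r := fun p hp =>
    mem_SP.1 ((hU p).2 (Or.inr hp))
  have hPa : P ∉ Sa := fun h => by have := (hSa P h).2.2; omega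
  have hPb : P ∉ Sb := fun h => by have := (hSb P h).2.2; omega
  set dP : ℕ := P.natDegree with hdP
  set G : ℕ := ∑ p ∈ Sb, p.natDegree with hG
  have hG1 : 1 ≤ G := by
    obtain ⟨p, hp⟩ := hne
    have h1 := irr_deg_pos (hSb p hp).2.1
    have h2 : p.natDegree ≤ G := Finset.single_le_sum (f := fun p : F[X] => p.natDegree)
      (fun _ _ => Nat.zero_le _) hp
    omega
  obtain ⟨t0, ht0⟩ := exists_bound Sa u
  refine poly0Q Q _ (∑ p ∈ Sa, x p) _ 0 t0 fun t ht => ?_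
  obtain ⟨s0, hs0⟩ := exists_bound Sb v
  set A : ℤ := ∑ p ∈ Sa, (u p + t) * p.natDegree with hA
  refine poly0Q Q _ (-((G : ℤ) • x P)) _ (∑ p ∈ Sb, (dP : ℤ) • x p - (G : ℤ) • x P)
    (s0 + A.natAbs + 1) fun s hs => ?_
  let e : F[X] → ℕ := fun p => if p ∈ Sa then (u p + t).toNat else
    if p ∈ Sb then (v p + s * dP).toNat else s * G
  have hea : ∀ p ∈ Sa, (e p : ℤ) = u p + t := by
    intro p hp
    simp only [e, if_pos hp]
    exact Int.toNat_of_nonneg (ht0 t ht p hp).le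
  have hsb : ∀ p ∈ Sb, 0 < v p + s * dP := by
    intro p hp
    have h1 := hs0 s (by omega) p hp
    have h2 : (s : ℤ) ≤ s * dP := by
      have : (1 : ℤ) ≤ dP := by omega
      nlinarith
    linarith
  have heb : ∀ p ∈ Sb, (e p : ℤ) = v p + s * dP := by
    intro p hp
    simp only [e, if_neg (Finset.disjoint_right.1 hd hp), if_pos hp]
    exact Int.toNat_of_nonneg (hsb p hp).le
  have hec : (e P) = s * G := by
    simp only [e, if_neg hPa, if_neg hPb]
  have hs1 : 1 ≤ s := by omega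
  have hrel := hr0 r hr Sa Sb {P} e P 1 one_ne_zero (fun p hp => ⟨(hSa p hp).1, (hSa p hp).2.1⟩)
    (fun p hp => ⟨(hSb p hp).1, (hSb p hp).2.1⟩) (fun p hp => by
      rw [Finset.mem_singleton.1 hp]; exact ⟨hP1, hP2⟩) hd
    (Finset.disjoint_singleton_right.2 hPa) (Finset.disjoint_singleton_right.2 hPb)
    (fun p hp => by have := hea p hp; have := ht0 t ht p hp; omega)
    (fun p hp => by have := heb p hp; have := hsb p hp; omega)
    (fun p hp => by
      rw [Finset.mem_singleton.1 hp, hec]; exact Nat.mul_pos hs1 hG1)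
    (fun p hp => by
      rcases (hU p).1 hp with hp | hp
      · exact Or.inl hp
      · exact Or.inr (Or.inl ⟨hp, rfl⟩))
    (fun p hp1 hp2 => by
      rcases hp2 with h | h | h
      · have := (hSa p h).2.2; omega
      · have := (hSb p h).2.2; omega
      · exact Finset.mem_singleton.1 h)
    (by
      have h1 : ((∑ p ∈ Sb, e p * p.natDegree : ℕ) : ℤ) = ((∑ p ∈ {P}, e p * p.natDegree : ℕ) : ℤ) := by
        rw [Finset.sum_singleton, hec]
        push_cast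
        rw [Finset.sum_congr rfl fun p hp => by rw [heb p hp, add_mul], Finset.sum_add_distrib, hv,
          zero_add, hG]
        push_cast
        rw [← Finset.mul_sum]
        ring
      exact_mod_cast h1)
    (by
      have h1 : ((∑ p ∈ Sa, e p * p.natDegree : ℕ) : ℤ) < ((∑ p ∈ {P}, e p * p.natDegree : ℕ) : ℤ) := by
        rw [Finset.sum_singleton, hec]
        push_cast
        rw [Finset.sum_congr rfl fun p hp => by rw [hea p hp]]
        rw [← hA]
        have h2 : A ≤ A.natAbs := Int.le_natAbs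
        have h3 : (A.natAbs : ℤ) + 1 ≤ s := by omega
        have h4 : (1 : ℤ) ≤ G := by exact_mod_cast hG1
        have h5 : (1 : ℤ) ≤ dP := by omega
        have h6 : (s : ℤ) ≤ s * G := by nlinarith
        have h7 : (s : ℤ) * G ≤ s * G * dP := by nlinarith
        linarith
      exact_mod_cast h1)
  have E1 : ∑ p ∈ Sa, (e p : ℤ) • x p = ∑ p ∈ Sa, u p • x p + (t : ℤ) • ∑ p ∈ Sa, x p := by
    rw [Finset.smul_sum, ← Finset.sum_add_distrib]
    exact Finset.sum_congr rfl fun p hp => by rw [hea p hp, add_smul]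
  have E2 : ∑ p ∈ Sb, (e p : ℤ) • x p = ∑ p ∈ Sb, v p • x p + (s : ℤ) • ∑ p ∈ Sb, (dP : ℤ) • x p := by
    rw [Finset.smul_sum, ← Finset.sum_add_distrib]
    exact Finset.sum_congr rfl fun p hp => by rw [heb p hp, add_smul, mul_smul]
  rw [Finset.sum_singleton, hec, E1, E2] at hrel
  refine Qc Q ?_ ?_ hrel
  · push_cast
    module
  · push_cast
    module

theorem starB (x : F[X] → V) (Q : MultilinearMap ℤ (fun _ : Fin (m + 1) => V) (V →ₗ[ℤ] ℚ))
    (h : AR x Q) : ∃ r0 : ℕ, ∀ r, r0 ≤ r → ∀ p0 ∈ SP F r, ∀ P : F[X], P.Monic → Irreducible P →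
      r < P.natDegree → ∀ u : F[X] → ℤ, ∀ g : ℤ, g * P.natDegree = u p0 * p0.natDegree →
      Q (fun _ => ∑ p ∈ SP F r, u p • x p) (u p0 • x p0 - g • x P) = 0 := by
  classical
  obtain ⟨r0, hr0⟩ := h
  refine ⟨r0, fun r hr p0 hp0 P hP1 hP2 hP3 u g hg => ?_⟩
  set Sa := (SP F r).erase p0 with hSad
  have hSa : ∀ p ∈ Sa, p.Monic ∧ Irreducible p ∧ p.natDegree ≤ r := fun p hp =>
    mem_SP.1 (Finset.mem_of_mem_erase hp)
  have hp0' := mem_SP.1 hp0
  have hPa : P ∉ Sa := fun h => by have := (hSa P h).2.2; omega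
  have hP0 : P ≠ p0 := fun h => by have := hp0'.2.2; rw [h] at hP3; omega
  have hp0a : p0 ∉ Sa := Finset.notMem_erase _ _
  set dP : ℕ := P.natDegree with hdP
  set d0 : ℕ := p0.natDegree with hd0
  have hd01 : 1 ≤ d0 := irr_deg_pos hp0'.2.1
  obtain ⟨t0, ht0⟩ := exists_bound Sa u
  have hsumu : ∑ p ∈ SP F r, u p • x p = u p0 • x p0 + ∑ p ∈ Sa, u p • x p :=
    (Finset.add_sum_erase _ _ hp0).symm
  rw [hsumu]
  refine poly0Q Q _ (∑ p ∈ Sa, x p) _ 0 t0 fun t ht => ?_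
  set A : ℤ := ∑ p ∈ Sa, (u p + t) * p.natDegree with hA
  refine poly0Q Q _ (-((dP : ℤ) • x p0)) _ ((d0 : ℤ) • x P - (dP : ℤ) • x p0)
    ((u p0).natAbs + g.natAbs + A.natAbs + (u p0 * d0).natAbs + 1) fun s hs => ?_
  let e : F[X] → ℕ := fun p => if p ∈ Sa then (u p + t).toNat else
    if p = p0 then (-(u p0) + s * dP).toNat else (-g + s * d0).toNat
  have hea : ∀ p ∈ Sa, (e p : ℤ) = u p + t := by
    intro p hp
    simp only [e, if_pos hp]
    exact Int.toNat_of_nonneg (ht0 t ht p hp).le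
  have hs1 : (1 : ℤ) ≤ s := by omega
  have hdPz : (1 : ℤ) ≤ dP := by omega
  have hd0z : (1 : ℤ) ≤ d0 := by omega
  have h2 : (s : ℤ) ≤ s * dP := by nlinarith
  have h2' : (s : ℤ) ≤ s * d0 := by nlinarith
  have hc0 : 0 < -(u p0) + s * dP := by omega
  have hb0 : 0 < -g + s * d0 := by omega
  have hec : (e p0 : ℤ) = -(u p0) + s * dP := by
    simp only [e, if_neg hp0a, if_true]
    exact Int.toNat_of_nonneg hc0.le
  have heb : (e P : ℤ) = -g + s * d0 := by
    simp only [e, if_neg hPa, if_neg hP0]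
    exact Int.toNat_of_nonneg hb0.le
  have hrel := hr0 r hr Sa {P} {p0} e P (-1) (by simp)
    (fun p hp => ⟨(hSa p hp).1, (hSa p hp).2.1⟩)
    (fun p hp => by rw [Finset.mem_singleton.1 hp]; exact ⟨hP1, hP2⟩)
    (fun p hp => by rw [Finset.mem_singleton.1 hp]; exact ⟨hp0'.1, hp0'.2.1⟩)
    (Finset.disjoint_singleton_right.2 hPa) (Finset.disjoint_singleton_right.2 hp0a)
    (Finset.disjoint_singleton.2 hP0)
    (fun p hp => by have := hea p hp; have := ht0 t ht p hp; omega)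
    (fun p hp => by rw [Finset.mem_singleton.1 hp]; omega)
    (fun p hp => by rw [Finset.mem_singleton.1 hp]; omega)
    (fun p hp => by
      by_cases h : p = p0
      · exact Or.inr (Or.inr ⟨Finset.mem_singleton.2 h, rfl⟩)
      · exact Or.inl (Finset.mem_erase.2 ⟨h, hp⟩))
    (fun p hp1 hp2 => by
      rcases hp2 with h | h | h
      · have := (hSa p h).2.2; omega
      · exact Finset.mem_singleton.1 h
      · rw [Finset.mem_singleton.1 h] at hp1
        have := hp0'.2.2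
        omega)
    (by
      have h1 : ((∑ p ∈ {P}, e p * p.natDegree : ℕ) : ℤ) = ((∑ p ∈ {p0}, e p * p.natDegree : ℕ) : ℤ) := by
        rw [Finset.sum_singleton, Finset.sum_singleton]
        push_cast
        rw [hec, heb]
        rw [← hdP, ← hd0]
        linear_combination -hg
      exact_mod_cast h1)
    (by
      have h1 : ((∑ p ∈ Sa, e p * p.natDegree : ℕ) : ℤ) < ((∑ p ∈ {p0}, e p * p.natDegree : ℕ) : ℤ) := by
        rw [Finset.sum_singleton]
        push_cast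
        rw [hec, Finset.sum_congr rfl fun p hp => by rw [hea p hp]]
        rw [← hA, ← hd0]
        have h3 : A ≤ A.natAbs := Int.le_natAbs
        have h5 : u p0 * d0 ≤ (u p0 * d0).natAbs := Int.le_natAbs
        have h4 : (A.natAbs : ℤ) + (u p0 * d0).natAbs + 1 ≤ s := by omega
        have h6 : (s : ℤ) * dP ≤ s * dP * d0 := by nlinarith
        nlinarith
      exact_mod_cast h1)
  have E1 : ∑ p ∈ Sa, (e p : ℤ) • x p = ∑ p ∈ Sa, u p • x p + (t : ℤ) • ∑ p ∈ Sa, x p := by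
    rw [Finset.smul_sum, ← Finset.sum_add_distrib]
    exact Finset.sum_congr rfl fun p hp => by rw [hea p hp, add_smul]
  rw [Finset.sum_singleton, Finset.sum_singleton, hec, heb, E1] at hrel
  refine Qc Q ?_ ?_ hrel
  · module
  · module

end Pool.Agent.Helper83.GQ
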