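import Pool.Agent.Helper83.GQ.C5b

/-!
# Algebra: from the relations to the duality statement (part 3)
-/

set_option autoImplicit false
set_option linter.unusedSectionVars false

namespace Pool.Agent.Helper83.GQ

open H39Gon H39Gon.A2 H39Gon.TaskB Polynomial

section abs

variable {F : Type} [Field F] [Fintype F] {V : Type} [AddCommGroup V] {m : ℕ}

/-- linear combinations of primes -/
noncomputable def Dv (x : F[X] → V) (u : F[X] →₀ ℤ) : V := u.sum (fun p n => n • x p)

theorem Dv_add (x : F[X] → V) (u v : F[X] →₀ ℤ) : Dv x (u + v) = Dv x u + Dv x v := by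
  classical
  unfold Dv
  rw [Finsupp.sum_add_index']
  · simp
  · intro a b c; exact add_zsmul _ _ _

theorem Dv_single (x : F[X] → V) (p : F[X]) (n : ℤ) : Dv x (Finsupp.single p n) = n • x p := by
  unfold Dv
  rw [Finsupp.sum_single_index]; simp

/-- supported on primes -/
def OnP (u : F[X] →₀ ℤ) : Prop := ∀ p ∈ u.support, p.Monic ∧ Irreducible p

/-- degree -/
noncomputable def dgv (u : F[X] →₀ ℤ) : ℤ := u.sum (fun p n => n * p.natDegree)

theorem Dv_eq (x : F[X] → V) (u : F[X] →₀ ℤ) (S : Finset F[X]) (h : u.support ⊆ S) :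
    Dv x u = ∑ p ∈ S, u p • x p := by
  unfold Dv
  rw [Finsupp.sum_of_support_subset u h]
  intro i _; exact zero_smul _ _

theorem exists_deg_bound (u : F[X] →₀ ℤ) (hu : OnP u) :
    ∃ r0 : ℕ, (∀ p ∈ u.support, p.natDegree ≤ r0) ∧ ∀ r, r0 ≤ r → u.support ⊆ SP F r := by
  refine ⟨∑ p ∈ u.support, p.natDegree, fun p hp => ?_, fun r hr p hp => ?_⟩
  · exact Finset.single_le_sum (f := fun p : F[X] => p.natDegree) (fun _ _ => Nat.zero_le _) hp
  · have h1 : p.natDegree ≤ ∑ p ∈ u.support, p.natDegree :=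
      Finset.single_le_sum (f := fun p : F[X] => p.natDegree) (fun _ _ => Nat.zero_le _) hp
    exact mem_SP.2 ⟨(hu p hp).1, (hu p hp).2, by omega⟩

variable (x : F[X] → V) (Q : MultilinearMap ℤ (fun _ : Fin (m + 1) => V) (V →ₗ[ℤ] ℚ))
  (hAR : AR x Q)

include hAR in
theorem claimA (u : F[X] →₀ ℤ) (hu : OnP u) (p1 p2 : F[X]) (h1 : p1.Monic ∧ Irreducible p1)
    (h2 : p2.Monic ∧ Irreducible p2) (h1u : p1 ∉ u.support) (h2u : p2 ∉ u.support) :
    (p2.natDegree : ℚ) * Q (fun _ => Dv x u) (x p1) = p1.natDegree * Q (fun _ => Dv x u) (x p2) := by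
  classical
  by_cases h12 : p1 = p2
  · subst h12; rfl
  obtain ⟨r0, hr0⟩ := starA x Q hAR
  obtain ⟨r1, -, hr1⟩ := exists_deg_bound u hu
  set r := max (max r0 r1) (max p1.natDegree p2.natDegree) with hr
  have hp1 : p1 ∈ SP F r := mem_SP.2 ⟨h1.1, h1.2, by omega⟩
  have hp2 : p2 ∈ SP F r := mem_SP.2 ⟨h2.1, h2.2, by omega⟩
  set Sb : Finset F[X] := {p1, p2} with hSb
  have key := hr0 r (by omega) (SP F r \ Sb) Sb (by
    intro p
    constructor
    · intro hp
      by_cases h : p ∈ Sb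
      · exact Or.inr h
      · exact Or.inl (Finset.mem_sdiff.2 ⟨hp, h⟩)
    · rintro (h | h)
      · exact (Finset.mem_sdiff.1 h).1
      · rw [hSb, Finset.mem_insert, Finset.mem_singleton] at h
        rcases h with h | h
        · rw [h]; exact hp1
        · rw [h]; exact hp2) Finset.sdiff_disjoint ⟨p1, by simp [hSb]⟩ u
    (fun p => if p = p1 then (p2.natDegree : ℤ) else -(p1.natDegree : ℤ)) (by
      rw [hSb, Finset.sum_pair h12]
      simp only [if_true, if_neg (Ne.symm h12)]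
      ring)
  rw [← Dv_eq x u (SP F r \ Sb) (by
    intro p hp
    refine Finset.mem_sdiff.2 ⟨hr1 r (by omega) hp, fun h => ?_⟩
    rw [hSb, Finset.mem_insert, Finset.mem_singleton] at h
    rcases h with h | h
    · rw [h] at hp; exact h1u hp
    · rw [h] at hp; exact h2u hp), hSb, Finset.sum_pair h12] at key
  simp only [if_true, if_neg (Ne.symm h12)] at key
  rw [map_add, map_zsmul, map_zsmul] at key
  simp only [zsmul_eq_mul] at key
  push_cast at key
  linear_combination key

include hAR in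
theorem claimB (u : F[X] →₀ ℤ) (hu : OnP u) (p0 : F[X]) (h0 : p0.Monic ∧ Irreducible p0) :
    ∃ r1 : ℕ, ∀ P : F[X], P.Monic → Irreducible P → r1 < P.natDegree →
    (P.natDegree : ℚ) * Q (fun _ => Dv x u) (x p0) = p0.natDegree * Q (fun _ => Dv x u) (x P) := by
  classical
  obtain ⟨r0, hr0⟩ := starB x Q hAR
  obtain ⟨r1, hr1a, hr1⟩ := exists_deg_bound u hu
  refine ⟨max (max r0 r1) p0.natDegree, fun P hP1 hP2 hP3 => ?_⟩
  set r := max (max r0 r1) p0.natDegree with hr
  have hPu : P ∉ u.support := fun h => by have := hr1a P h; omega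
  by_cases hu0 : p0 ∈ u.support
  · have hp0 : p0 ∈ SP F r := mem_SP.2 ⟨h0.1, h0.2, by omega⟩
    have key := hr0 r (by omega) p0 hp0 P hP1 hP2 hP3 (fun p => (P.natDegree : ℤ) * u p)
      (u p0 * p0.natDegree) (by ring)
    have e1 : ∑ p ∈ SP F r, ((P.natDegree : ℤ) * u p) • x p = (P.natDegree : ℤ) • Dv x u := by
      rw [Dv_eq x u _ (hr1 r (by omega)), Finset.smul_sum]
      exact Finset.sum_congr rfl fun p _ => mul_smul _ _ _
    simp only [e1] at key
    rw [Q_smul, map_sub, map_zsmul, map_zsmul] at key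
    have h1 : ((P.natDegree : ℤ) : ℚ) ≠ 0 := by
      have := irr_deg_pos hP2
      push_cast
      positivity
    have h2 := (mul_eq_zero.1 key).resolve_left (pow_ne_zero _ h1)
    have h3 : (u p0 : ℚ) ≠ 0 := by exact_mod_cast (Finsupp.mem_support_iff.1 hu0)
    simp only [zsmul_eq_mul] at h2
    push_cast at h2
    apply mul_left_cancel₀ h3
    linear_combination h2
  · exact claimA x Q hAR u hu p0 P h0 ⟨hP1, hP2⟩ hu0 hPu

include hAR in
theorem claimC (u : F[X] →₀ ℤ) (hu : OnP u) : ∃ κ : ℚ, ∀ w : F[X] →₀ ℤ, OnP w →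
    Q (fun _ => Dv x u) (Dv x w) = κ * dgv w := by
  classical
  obtain ⟨r1, hr1a, hr1⟩ := exists_deg_bound u hu
  obtain ⟨P', hP1', hP2', hP3'⟩ := exists_big (F := F) r1
  have hPu' : P' ∉ u.support := fun h => by have := hr1a P' h; omega
  have hd' : (P'.natDegree : ℚ) ≠ 0 := by
    have := irr_deg_pos hP2'
    positivity
  have key : ∀ p : F[X], p.Monic → Irreducible p → Q (fun _ => Dv x u) (x p) =
      (Q (fun _ => Dv x u) (x P') / P'.natDegree) * p.natDegree := by
    intro p hp1 hp2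
    obtain ⟨r2, hr2⟩ := claimB x Q hAR u hu p ⟨hp1, hp2⟩
    obtain ⟨P, hP1, hP2, hP3⟩ := exists_big (F := F) (max r1 r2)
    have hPu : P ∉ u.support := fun h => by have := hr1a P h; omega
    have h1 := hr2 P hP1 hP2 (by omega)
    have h2 := claimA x Q hAR u hu P P' ⟨hP1, hP2⟩ ⟨hP1', hP2'⟩ hPu hPu'
    have hd : (P.natDegree : ℚ) ≠ 0 := by
      have := irr_deg_pos hP2
      positivity
    field_simp
    apply mul_left_cancel₀ hd
    linear_combination (P'.natDegree : ℚ) * h1 + (p.natDegree : ℚ) * h2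
  refine ⟨Q (fun _ => Dv x u) (x P') / P'.natDegree, fun w hw => ?_⟩
  have e1 : Dv x w = ∑ p ∈ w.support, w p • x p := rfl
  have e2 : dgv w = ∑ p ∈ w.support, w p * p.natDegree := rfl
  rw [e2, e1, map_sum]
  push_cast
  rw [Finset.mul_sum]
  refine Finset.sum_congr rfl fun p hp => ?_
  rw [map_zsmul, key p (hw p hp).1 (hw p hp).2, zsmul_eq_mul]
  ring

include hAR in
theorem claimD (hd : ∀ s, Q (fun _ => s) s = 0) (u w : F[X] →₀ ℤ) (hu : OnP u) (hw : OnP w) :
    Q (fun _ => Dv x u) (Dv x w) = 0 := by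
  classical
  have key : ∀ u : F[X] →₀ ℤ, OnP u → dgv u ≠ 0 → Q (fun _ => Dv x u) (Dv x w) = 0 := by
    intro u hu h0
    obtain ⟨κ, hκ⟩ := claimC x Q hAR u hu
    have h1 := hκ u hu
    rw [hd] at h1
    have h2 : κ = 0 := by
      rcases mul_eq_zero.1 h1.symm with h | h
      · exact h
      · exact absurd (by exact_mod_cast h) h0
    rw [hκ w hw, h2, zero_mul]
  by_cases h0 : dgv u = 0
  · refine poly0Q Q _ (x X) _ 0 1 fun t ht => ?_
    rw [smul_zero, add_zero]
    have h1 : Dv x u + (t : ℤ) • x X = Dv x (u + Finsupp.single X (t : ℤ)) := by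
      rw [Dv_add, Dv_single]
    rw [h1]
    apply key
    · intro p hp
      rcases Finset.mem_union.1 (Finsupp.support_add hp) with h | h
      · exact hu p h
      · have := Finset.mem_singleton.1 (Finsupp.support_single_subset h)
        rw [this]
        exact ⟨monic_X, irreducible_X⟩
    · have h2 : dgv (u + Finsupp.single X (t : ℤ)) = dgv u + t := by
        unfold dgv
        rw [Finsupp.sum_add_index', Finsupp.sum_single_index]
        · simp
        · simp
        · intro a; simp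
        · intro a b c; ring
      rw [h2, h0, zero_add]
      omega
  · exact key u hu h0

end abs

section main

variable {F : Type} [Field F] [Fintype F] {m : ℕ}

theorem tors_C' (z : F) (hz : z ≠ 0) : Tors (clp (C z : F[X])) := by
  unfold clp
  refine tors_of_pow (Fintype.card F - 1) (by have := Fintype.one_lt_card (α := F); omega) ?_
  rw [← map_pow, ← C_pow, FiniteField.pow_card_sub_one_eq_one z hz, C_1, map_one]

theorem ar_of_rels (Q : MultilinearMap ℤ (fun _ : Fin (m + 1) => UV (RatFunc F))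
    (UV (RatFunc F) →ₗ[ℤ] ℚ)) (h : Rels F (PS Q)) : AR (clp (F := F)) Q := by
  obtain ⟨r0, hr0⟩ := h
  refine ⟨r0, fun r hr Sa Sb Sc e P z hz hSa hSb hSc hab hac hbc hea heb hec hcov hbig hdeg
    hdeg2 => ?_⟩
  obtain ⟨L, hL, hL2⟩ := exists_L_SP (F := F) r
  have ht := trip_of hL hL2 Sa Sb Sc e P z hz hSa hSb hSc hab hac hbc hea heb hec hcov hbig hdeg
    hdeg2
  have h1 := hr0 r hr _ _ _ ht
  obtain ⟨c, hc, hc2⟩ := PS_diag Q (clp (C z * pw L Sa e) - clp (pw L Sc e))
    (clp (pw L Sb e) - clp (pw L Sc e))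
  rw [h1] at hc2
  have h2 : Q (fun _ => clp (C z * pw L Sa e) - clp (pw L Sc e))
    (clp (pw L Sb e) - clp (pw L Sc e)) = 0 := by
    have := (mul_eq_zero.1 hc2.symm).resolve_left hc
    exact_mod_cast this
  have hC : (C z : F[X]) ≠ 0 := by simpa using hz
  have hma : pw L Sa e ≠ 0 := (pw_monic L Sa e fun p hp => (hSa p hp).1).ne_zero
  rw [Q_eq_of_tors Q _ ((L : ℤ) • (∑ p ∈ Sa, (e p : ℤ) • clp p - ∑ p ∈ Sc, (e p : ℤ) • clp p)) _
    ((L : ℤ) • (∑ p ∈ Sb, (e p : ℤ) • clp p - ∑ p ∈ Sc, (e p : ℤ) • clp p))] at h2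
  · rw [Q_smul, map_zsmul] at h2
    have hL' : ((L : ℤ) : ℚ) ≠ 0 := by exact_mod_cast hL.ne'
    have h3 := (mul_eq_zero.1 h2).resolve_left (pow_ne_zero _ hL')
    rw [zsmul_eq_mul] at h3
    exact (mul_eq_zero.1 h3).resolve_left hL'
  · rw [clp_mul hC hma, clp_pw Sa e hSa, clp_pw Sc e hSc]
    convert tors_C' z hz using 1
    exact abs_a _ _ _ _
  · rw [clp_pw Sb e hSb, clp_pw Sc e hSc]
    convert (Tors.zero : Tors (0 : UV (RatFunc F))) using 1
    exact abs_b _ _ _
where
  abs_a {V : Type} [AddCommGroup V] (L : ℤ) (c a b : V) :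
    c + L • a - L • b - L • (a - b) = c := by module
  abs_b {V : Type} [AddCommGroup V] (L : ℤ) (a b : V) :
    L • a - L • b - L • (a - b) = 0 := by module

theorem decomp_poly' (a : F[X]) (ha : a ≠ 0) :
    ∃ g : F[X] →₀ ℤ, OnP g ∧ Tors (clp a - Dv clp g) := by
  classical
  revert ha
  refine UniqueFactorizationMonoid.induction_on_prime a (fun h => absurd rfl h) ?_ ?_
  · intro x hx _
    obtain ⟨c, hc, rfl⟩ := Polynomial.isUnit_iff.1 hx
    refine ⟨0, by intro p hp; simp at hp, ?_⟩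
    have : Dv (clp (F := F)) 0 = 0 := by simp [Dv]
    rw [this, sub_zero]
    exact tors_C' c hc.ne_zero
  · intro b p hb hp ih _
    obtain ⟨g, hg1, hg2⟩ := ih hb
    have hlc : p.leadingCoeff ≠ 0 := leadingCoeff_ne_zero.2 hp.ne_zero
    set p' := p * C (p.leadingCoeff)⁻¹ with hp'
    have hm : p'.Monic := monic_mul_leadingCoeff_inv hp.ne_zero
    have hirr : Irreducible p' := by
      have hu : IsUnit (C (p.leadingCoeff)⁻¹ : F[X]) := isUnit_C.2 (inv_ne_zero hlc).isUnit
      exact (irreducible_mul_isUnit hu).2 hp.irreducible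
    have hpe : p = C p.leadingCoeff * p' := by
      rw [hp', mul_comm p, ← mul_assoc, ← C_mul, mul_inv_cancel₀ hlc, C_1, one_mul]
    refine ⟨Finsupp.single p' 1 + g, ?_, ?_⟩
    · intro x hx
      rcases Finset.mem_union.1 (Finsupp.support_add hx) with h | h
      · have := Finset.mem_singleton.1 (Finsupp.support_single_subset h)
        rw [this]; exact ⟨hm, hirr⟩
      · exact hg1 x h
    · have hC : (C p.leadingCoeff : F[X]) ≠ 0 := by simpa using hp.ne_zero
      have h1 : clp p = clp (C p.leadingCoeff) + clp p' := by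
        conv_lhs => rw [hpe]
        exact clp_mul hC hm.ne_zero
      rw [clp_mul hp.ne_zero hb, h1, Dv_add, Dv_single]
      have h2 := (tors_C' p.leadingCoeff hlc).add hg2
      convert h2 using 1
      exact abs_c _ _ _ _
where
  abs_c {V : Type} [AddCommGroup V] (a b c d : V) :
    a + b + c - ((1 : ℤ) • b + d) = a + (c - d) := by module

theorem decomp' (u : UV (RatFunc F)) : ∃ g : F[X] →₀ ℤ, OnP g ∧ Tors (u - Dv clp g) := by
  classical
  obtain ⟨f, hf, rfl⟩ := exists_cl u
  have h1 : f.num ≠ 0 := RatFunc.num_ne_zero hf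
  have h2 : f.denom ≠ 0 := RatFunc.denom_ne_zero f
  obtain ⟨g1, hg1, hg1'⟩ := decomp_poly' f.num h1
  obtain ⟨g2, hg2, hg2'⟩ := decomp_poly' f.denom h2
  refine ⟨g1 + (-g2), ?_, ?_⟩
  · intro x hx
    rcases Finset.mem_union.1 (Finsupp.support_add hx) with h | h
    · exact hg1 x h
    · rw [Finsupp.support_neg] at h; exact hg2 x h
  · have h3 : cl f = clp f.num - clp f.denom := by
      unfold clp
      rw [← cl_div (RatFunc.algebraMap_ne_zero h1) (RatFunc.algebraMap_ne_zero h2),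
        RatFunc.num_div_denom]
    have h5 : Dv (clp (F := F)) (-g2) = - Dv clp g2 := by
      have := Dv_add (clp (F := F)) g2 (-g2)
      rw [add_neg_cancel] at this
      have h0 : Dv (clp (F := F)) 0 = 0 := by simp [Dv]
      rw [h0] at this
      exact (neg_eq_of_add_eq_zero_right this.symm).symm
    rw [h3, Dv_add, h5]
    have h4 := hg1'.sub hg2'
    convert h4 using 1
    exact abs_d _ _ _ _
where
  abs_d {V : Type} [AddCommGroup V] (a b c d : V) :
    a - b - (c + -d) = a - c - (b - d) := by module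

theorem Q_diag (Q : MultilinearMap ℤ (fun _ : Fin (m + 1) => UV (RatFunc F))
    (UV (RatFunc F) →ₗ[ℤ] ℚ))
    (hQ : ∀ f : RatFunc F, f ≠ 0 → f ≠ 1 → Q (fun _ => cl f) (cl (1 - f)) = 0)
    (s : UV (RatFunc F)) : Q (fun _ => s) s = 0 := by
  obtain ⟨f, hf, rfl⟩ := exists_cl s
  by_cases h1 : f = 1
  · subst h1
    rw [cl_one, map_zero]
  have h2 := hQ f⁻¹ (inv_ne_zero hf) (by rwa [Ne, inv_eq_one])
  have h3 : 1 - f⁻¹ = (-1) * ((1 - f) / f) := by
    field_simp
    ring
  have h4 : (1 - f) ≠ 0 := sub_ne_zero.2 (Ne.symm h1)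
  rw [h3, cl_mul (by simp) (div_ne_zero h4 hf), cl_div h4 hf, cl_inv hf] at h2
  have h5 : (fun _ : Fin (m + 1) => - cl f) = (fun _ => (-1 : ℤ) • cl f) := by
    funext _; exact (neg_one_zsmul _).symm
  rw [h5, Q_smul, map_add, map_sub, hQ f hf h1] at h2
  have h6 : Q (fun _ => cl f) (cl (-1 : RatFunc F)) = 0 := by
    rw [Q_eq_of_tors Q _ (cl f) _ 0 (by rw [sub_self]; exact Tors.zero)
      (by rw [sub_zero]; exact tors_neg_one), map_zero]
  rw [h6] at h2
  have h7 : (((-1 : ℤ) : ℚ)) ^ (m + 1) ≠ 0 := by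
    apply pow_ne_zero; norm_num
  have h8 := (mul_eq_zero.1 h2).resolve_left h7
  linarith

/-- The duality statement follows from the count theorem. -/
theorem spanDual_of_count (hcount : CountThm F (2 * (m + 2))) (hmany : ManyLetters F) :
    SpanDual (RatFunc F) m := by
  intro Q hQ s v
  have h1 := ar_of_rels Q (rels_of_count hcount hmany Q hQ)
  obtain ⟨g, hg, hg'⟩ := decomp' s
  obtain ⟨h, hh, hh'⟩ := decomp' v
  rw [Q_eq_of_tors Q s _ v _ hg' hh']
  exact claimD clp Q h1 (Q_diag Q hQ) g h hg hh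

end main

end Pool.Agent.Helper83.GQ
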