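import Pool.Agent.Helper83.GQ.Par

/-!
# The circle method identity
-/

set_option autoImplicit false
set_option linter.unusedSectionVars false

namespace Pool.Agent.Helper83.GQ

open Polynomial Finset H39Gon.A2

variable {F : Type} [Field F] [Fintype F]

section circle

variable {r D k : ℕ} (T : Finset (Fin 3 × Fin k)) (z : Fin 3 × Fin k → XL F r D)

open Classical in
/-- free positions -/
noncomputable def fr (X : Fin 3) : Finset (Fin k) := univ.filter (fun i => (X, i) ∉ T)

open Classical in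
/-- fixed positions -/
noncomputable def fx (X : Fin 3) : Finset (Fin k) := univ.filter (fun i => (X, i) ∈ T)

/-- product with the fixed letters -/
noncomputable def wx (v : F[X]) (X : Fin 3) : F[X] := v * ∏ i ∈ fx T X, (z (X, i)).1

theorem card_fr_add (X : Fin 3) : (fr T X).card + (fx T X).card = k := by
  classical
  unfold fr fx
  rw [add_comm, card_filter_add_card_filter_not]
  simp

theorem card_fx_le (X : Fin 3) : (fx T X).card ≤ T.card := by
  classical
  unfold fx
  refine card_le_card_of_injOn (fun i => (X, i)) ?_ ?_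
  · intro i hi
    rw [mem_coe, mem_filter] at hi
    exact hi.2
  · intro i _ i' _ h
    exact (Prod.ext_iff.1 h).2

variable (hXn : (XL F r D).Nonempty)

include hXn in
theorem sum_group (h : F[X] → ℂ) (v : F[X]) (X : Fin 3) :
    ∑ y : Fin k → XL F r D, h (v * ∏ i, (if (X, i) ∈ T then (z (X, i)).1 else (y i).1)) =
      ((XL F r D).card : ℂ) ^ k * (Op (XL F r D) (XL F r D).card)^[(fr T X).card] h (wx T z v X) := by
  classical
  have h1 : ∀ y : Fin k → XL F r D, v * ∏ i, (if (X, i) ∈ T then (z (X, i)).1 else (y i).1) =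
      wx T z v X * ∏ i ∈ fr T X, (y i).1 := by
    intro y
    rw [prod_ite]
    unfold wx fx fr
    rw [mul_assoc]
  simp only [h1]
  rw [sum_tuples _ hXn, Fintype.card_fin]

include hXn in
theorem circle {a b c : F[X]} (hb : b.Monic) (hc : c.Monic)
    (hbc : b.natDegree = c.natDegree) (hac : a.natDegree < c.natDegree) {n : ℕ}
    (hn : n = c.natDegree + k * D) :
    ((A T (Wt a b c) z : ℝ) : ℂ) = (∑ ψ : AddChar (degreeLT F n) ℂ,
      (Op (XL F r D) (XL F r D).card)^[(fr T 0).card] (E ψ) (wx T z a 0) *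
      (Op (XL F r D) (XL F r D).card)^[(fr T 1).card] (E ψ) (wx T z b 1) *
      star ((Op (XL F r D) (XL F r D).card)^[(fr T 2).card] (E ψ) (wx T z c 2))) /
        (Fintype.card F : ℂ) ^ n := by
  classical
  have hq : (Fintype.card F : ℂ) ≠ 0 := by
    have : 0 < Fintype.card F := Fintype.card_pos
    exact_mod_cast this.ne'
  have hX0 : (((XL F r D).card : ℕ) : ℂ) ≠ 0 := by exact_mod_cast (card_pos.2 hXn).ne'
  have hm : ∀ (z' : Fin 3 × Fin k → XL F r D) (X : Fin 3),
      (∏ i, (z' (X, i)).1).Monic ∧ (∏ i, (z' (X, i)).1).natDegree = k * D := by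
    intro z' X
    refine ⟨monic_prod_of_monic _ _ (fun i _ => (mem_XL.1 (z' (X, i)).2).1), ?_⟩
    rw [natDegree_prod_of_monic _ _ (fun i _ => (mem_XL.1 (z' (X, i)).2).1),
      sum_congr rfl (fun i _ => (mem_XL.1 (z' (X, i)).2).2.1), sum_const, card_univ,
      Fintype.card_fin, smul_eq_mul]
  have hdeg : ∀ z' : Fin 3 × Fin k → XL F r D,
      (a * ∏ i, (z' (0, i)).1 + b * ∏ i, (z' (1, i)).1 - c * ∏ i, (z' (2, i)).1).degree < n := by
    intro z'
    have h1 : (a * ∏ i, (z' (0, i)).1).degree < n := by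
      by_cases ha : a = 0
      · rw [ha, zero_mul, degree_zero]; exact WithBot.bot_lt_coe _
      · rw [degree_mul, degree_eq_natDegree ha, degree_eq_natDegree (hm z' 0).1.ne_zero,
          (hm z' 0).2, hn]
        exact_mod_cast (by omega : a.natDegree + k * D < c.natDegree + k * D)
    have hb1 : (b * ∏ i, (z' (1, i)).1).Monic := hb.mul (hm z' 1).1
    have hc1 : (c * ∏ i, (z' (2, i)).1).Monic := hc.mul (hm z' 2).1
    have hb2 : (b * ∏ i, (z' (1, i)).1).degree = n := by
      rw [degree_mul, degree_eq_natDegree hb.ne_zero, degree_eq_natDegree (hm z' 1).1.ne_zero,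
          (hm z' 1).2, hn, hbc]
      norm_cast
    have hc2 : (c * ∏ i, (z' (2, i)).1).degree = n := by
      rw [degree_mul, degree_eq_natDegree hc.ne_zero, degree_eq_natDegree (hm z' 2).1.ne_zero,
          (hm z' 2).2, hn]
      norm_cast
    have h2 : (b * ∏ i, (z' (1, i)).1 - c * ∏ i, (z' (2, i)).1).degree < n := by
      have h5 := degree_sub_lt_left (p := b * ∏ i, (z' (1, i)).1) (q := c * ∏ i, (z' (2, i)).1)
          (by rw [hb2, hc2]) hb1.ne_zero (by rw [hb1.leadingCoeff, hc1.leadingCoeff])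
      rwa [hb2] at h5
    rw [add_sub_assoc]
    exact (degree_add_le _ _).trans_lt (max_lt h1 h2)
  have hW : ∀ z' : Fin 3 × Fin k → XL F r D, ((Wt a b c z' : ℝ) : ℂ) =
      (∑ ψ : AddChar (degreeLT F n) ℂ, E ψ (a * ∏ i, (z' (0, i)).1) *
        E ψ (b * ∏ i, (z' (1, i)).1) * star (E ψ (c * ∏ i, (z' (2, i)).1))) /
        (Fintype.card F : ℂ) ^ n := by
    intro z'
    have h1 := orthE (hdeg z')
    simp only [E_sub, AddChar.map_add_eq_mul] at h1
    rw [h1]
    unfold Wt
    by_cases h : a * ∏ i, (z' (0, i)).1 + b * ∏ i, (z' (1, i)).1 = c * ∏ i, (z' (2, i)).1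
    · rw [if_pos h, if_pos (sub_eq_zero.2 h)]
      field_simp
      simp
    · rw [if_neg h, if_neg (fun h' => h (sub_eq_zero.1 h'))]
      simp
  have hA : ((A T (Wt a b c) z : ℝ) : ℂ) =
      (∑ z' : Fin 3 × Fin k → XL F r D, ((Wt a b c (T.piecewise z z') : ℝ) : ℂ)) /
        ((XL F r D).card : ℂ) ^ (3 * k) := by
    unfold A NQ
    push_cast
    congr 2
    · simp
    · simp
  rw [hA]
  simp only [hW]
  rw [← sum_div, div_div, mul_comm ((Fintype.card F : ℂ) ^ n), ← div_div]
  congr 1
  rw [div_eq_iff (pow_ne_zero _ hX0), sum_comm, sum_mul]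
  refine sum_congr rfl fun ψ _ => ?_
  -- product structure
  let hf : Fin 3 → F[X] → ℂ := ![fun u => E ψ u, fun u => E ψ u, fun u => star (E ψ u)]
  let vf : Fin 3 → F[X] := ![a, b, c]
  have h1 : ∀ z' : Fin 3 × Fin k → XL F r D,
      E ψ (a * ∏ i, ((T.piecewise z z' : Fin 3 × Fin k → XL F r D) (0, i)).1) *
      E ψ (b * ∏ i, ((T.piecewise z z' : Fin 3 × Fin k → XL F r D) (1, i)).1) *
      star (E ψ (c * ∏ i, ((T.piecewise z z' : Fin 3 × Fin k → XL F r D) (2, i)).1)) =
      ∏ X : Fin 3, hf X (vf X * ∏ i, (if (X, i) ∈ T then (z (X, i)).1 else (z' (X, i)).1)) := by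
    intro z'
    rw [Fin.prod_univ_three]
    have h2 : ∀ X : Fin 3, ∏ i, ((T.piecewise z z' : Fin 3 × Fin k → XL F r D) (X, i)).1 =
        ∏ i, (if (X, i) ∈ T then (z (X, i)).1 else (z' (X, i)).1) := by
      intro X
      refine prod_congr rfl fun i _ => ?_
      by_cases h : (X, i) ∈ T
      · rw [if_pos h, piecewise_eq_of_mem _ _ _ h]
      · rw [if_neg h, piecewise_eq_of_notMem _ _ _ h]
    rw [h2, h2, h2]
    rfl
  rw [sum_congr rfl fun z' _ => h1 z']
  have h3 : ∑ z' : Fin 3 × Fin k → XL F r D,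
      ∏ X : Fin 3, hf X (vf X * ∏ i, (if (X, i) ∈ T then (z (X, i)).1 else (z' (X, i)).1)) =
      ∏ X : Fin 3, ∑ y : Fin k → XL F r D,
        hf X (vf X * ∏ i, (if (X, i) ∈ T then (z (X, i)).1 else (y i).1)) := by
    rw [prod_univ_sum, Fintype.piFinset_univ]
    exact Fintype.sum_equiv (Equiv.curry (Fin 3) (Fin k) (XL F r D)) _ _ (fun z' => rfl)
  rw [h3, Fin.prod_univ_three, sum_group T z hXn, sum_group T z hXn, sum_group T z hXn]
  have h4 : ∀ (j : ℕ) (v : F[X]), (Op (XL F r D) (XL F r D).card)^[j] (hf 2) v =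
      star ((Op (XL F r D) (XL F r D).card)^[j] (E ψ) v) := by
    intro j
    induction j with
    | zero => intro v; rfl
    | succ j ih =>
      intro v
      rw [Function.iterate_succ_apply', Function.iterate_succ_apply']
      unfold Op at ih ⊢
      simp only [ih]
      rw [star_div₀, star_sum]
      congr 1
      simp
  rw [h4]
  have e0 : hf 0 = fun u => E ψ u := rfl
  have e1 : hf 1 = fun u => E ψ u := rfl
  rw [e0, e1]
  have e2 : vf 0 = a := rfl
  have e3 : vf 1 = b := rfl
  have e4 : vf 2 = c := rfl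
  rw [e2, e3, e4]
  ring

end circle

end Pool.Agent.Helper83.GQ
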