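import Pool.Agent.Helper83.GQ.Base

/-!
# The classes of polynomials over a finite field

`BB M κ` is the ring `F[X]/(M) × F[X]/(X^(κ+1))`; the class `cls f` of a polynomial `f` is formed by its
residue modulo `M` and its first `κ + 1` coefficients.
-/

set_option autoImplicit false
set_option linter.unusedSectionVars false

namespace Pool.Agent.Helper83.GQ

open Polynomial Finset

variable {F : Type} [Field F] [Fintype F]

/-- the ring of the classes -/
abbrev BB (M : F[X]) (κ : ℕ) : Type := AdjoinRoot M × AdjoinRoot (X ^ (κ + 1) : F[X])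

/-- the class of a polynomial -/
noncomputable def cls (M : F[X]) (κ : ℕ) (f : F[X]) : BB M κ :=
  (AdjoinRoot.mk M f, AdjoinRoot.mk (X ^ (κ + 1)) f.reverse)

theorem finite_adjR {M : F[X]} (hM : M.Monic) : Finite (AdjoinRoot M) := by
  have := hM.finite_adjoinRoot
  exact Module.finite_of_finite F

theorem finite_BB {M : F[X]} (hM : M.Monic) (κ : ℕ) : Finite (BB M κ) := by
  have := finite_adjR hM
  have := finite_adjR (M := (X ^ (κ + 1) : F[X])) (monic_X_pow _)
  infer_instance

theorem cls_mul (M : F[X]) (κ : ℕ) (f g : F[X]) : cls M κ (f * g) = cls M κ f * cls M κ g := by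
  unfold cls
  rw [reverse_mul_of_domain, map_mul, map_mul]
  rfl

theorem reverse_one' : (1 : F[X]).reverse = 1 := by
  rw [← C_1, reverse_C]

theorem cls_one (M : F[X]) (κ : ℕ) : cls M κ 1 = 1 := by
  unfold cls
  rw [reverse_one', map_one, map_one]
  rfl

theorem cls_pow (M : F[X]) (κ : ℕ) (f : F[X]) (n : ℕ) : cls M κ (f ^ n) = cls M κ f ^ n := by
  induction n with
  | zero => rw [pow_zero, pow_zero, cls_one]
  | succ n ih => rw [pow_succ, pow_succ, cls_mul, ih]

theorem isUnit_mk_iff' {M h : F[X]} : IsUnit (AdjoinRoot.mk M h) ↔ IsCoprime h M := by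
  constructor
  · intro hu
    obtain ⟨u, hu⟩ := hu.exists_right_inv
    obtain ⟨g, rfl⟩ := AdjoinRoot.mk_surjective u
    rw [← map_mul, ← map_one (AdjoinRoot.mk M), AdjoinRoot.mk_eq_mk] at hu
    obtain ⟨c, hc⟩ := hu
    exact ⟨g, -c, by linear_combination hc⟩
  · rintro ⟨a, b, hab⟩
    apply IsUnit.of_mul_eq_one (AdjoinRoot.mk M a)
    rw [← map_mul, ← map_one (AdjoinRoot.mk M), AdjoinRoot.mk_eq_mk]
    exact ⟨-b, by linear_combination hab⟩

theorem isCoprime_X_pow {h : F[X]} (κ : ℕ) (h0 : h.coeff 0 = 1) : IsCoprime h (X ^ (κ + 1)) := by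
  apply IsCoprime.pow_right
  have h1 : (X : F[X]) ∣ h - 1 := by
    rw [X_dvd_iff, coeff_sub, h0]
    simp
  obtain ⟨c, hc⟩ := h1
  exact ⟨1, -c, by linear_combination hc⟩

theorem isUnit_cls_iff {M : F[X]} {κ : ℕ} {f : F[X]} (hf : f.Monic) :
    IsUnit (cls M κ f) ↔ IsCoprime f M := by
  rw [Prod.isUnit_iff]
  constructor
  · rintro ⟨h, _⟩
    exact isUnit_mk_iff'.1 h
  · intro h
    refine ⟨isUnit_mk_iff'.2 h, ?_⟩
    unfold cls
    rw [isUnit_mk_iff']
    exact isCoprime_X_pow κ (by rw [coeff_zero_reverse]; exact hf)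

theorem reflect_dvd_iff' {m κ : ℕ} (hκ : κ ≤ m) {g : F[X]} (hg : g.degree < m) :
    X ^ (κ + 1) ∣ reflect m g ↔ g.degree < ((m - κ : ℕ) : WithBot ℕ) := by
  rw [X_pow_dvd_iff, degree_lt_iff_coeff_zero]
  constructor
  · intro h j hj
    by_cases hjm : j ≤ m
    · have h1 := h (m - j) (by omega)
      rw [coeff_reflect, revAt_le (by omega)] at h1
      rwa [show m - (m - j) = j by omega] at h1
    · exact coeff_eq_zero_of_degree_lt (hg.trans (by exact_mod_cast (by omega : m < j)))
  · intro h i hi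
    rw [coeff_reflect, revAt_le (by omega)]
    exact h _ (by omega)

theorem degree_sub_MonD {m : ℕ} {f g : F[X]} (hf : f ∈ MonD F m) (hg : g ∈ MonD F m) :
    (f - g).degree < m := by
  rw [mem_MonD] at hf hg
  have h3 := degree_sub_lt_left (p := f) (q := g)
    (by rw [degree_eq_natDegree hf.1.ne_zero, degree_eq_natDegree hg.1.ne_zero, hf.2, hg.2])
    hf.1.ne_zero (by rw [hf.1.leadingCoeff, hg.1.leadingCoeff])
  rwa [degree_eq_natDegree hf.1.ne_zero, hf.2] at h3

theorem cls_eq_iff {M : F[X]} {κ m : ℕ} (hκ : κ ≤ m) {f g : F[X]} (hf : f ∈ MonD F m)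
    (hg : g ∈ MonD F m) :
    cls M κ f = cls M κ g ↔ M ∣ f - g ∧ (f - g).degree < ((m - κ : ℕ) : WithBot ℕ) := by
  have h2 := degree_sub_MonD hf hg
  rw [mem_MonD] at hf hg
  unfold cls
  rw [Prod.mk.injEq, AdjoinRoot.mk_eq_mk, AdjoinRoot.mk_eq_mk]
  have h1 : f.reverse - g.reverse = reflect m (f - g) := by
    rw [reflect_sub, reverse, reverse, hf.2, hg.2]
  rw [h1, reflect_dvd_iff' hκ h2]

theorem exists_cls_eq {M : F[X]} (hMm : M.Monic) {κ m : ℕ} (hm : M.natDegree + κ ≤ m) (g h : F[X])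
    (hb : h.coeff 0 = 1) :
    ∃ f ∈ MonD F m, cls M κ f = (AdjoinRoot.mk M g, AdjoinRoot.mk (X ^ (κ + 1)) h) := by
  have hXm : (X ^ (κ + 1) : F[X]).Monic := monic_X_pow _
  set h' := h %ₘ (X ^ (κ + 1)) with hh'
  have hdvd : X ^ (κ + 1) ∣ h - h' := by
    refine ⟨h /ₘ (X ^ (κ + 1)), ?_⟩
    have := modByMonic_add_div h (X ^ (κ + 1) : F[X])
    linear_combination -this
  have h'deg : h'.degree < ((κ + 1 : ℕ) : WithBot ℕ) := by
    have := degree_modByMonic_lt h hXm
    rwa [degree_X_pow] at this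
  have h'nat : h'.natDegree ≤ κ := by
    rw [natDegree_le_iff_degree_le]
    exact Order.lt_succ_iff.1 (by exact_mod_cast h'deg)
  have h'0 : h'.coeff 0 = 1 := by
    have h1 := X_pow_dvd_iff.1 hdvd 0 (by omega)
    rw [coeff_sub, hb] at h1
    exact (sub_eq_zero.1 h1).symm
  set T := reflect κ h' with hT
  have hTk : T.coeff κ = 1 := by
    rw [hT, coeff_reflect, revAt_le le_rfl, Nat.sub_self, h'0]
  have hTn : T.natDegree ≤ κ := by
    rw [natDegree_le_iff_coeff_eq_zero]
    intro j hj
    rw [hT, coeff_reflect]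
    rw [revAt_eq_self_of_lt hj]
    exact coeff_eq_zero_of_natDegree_lt (by omega)
  have hTm : T.Monic := monic_of_natDegree_le_of_coeff_eq_one κ hTn hTk
  have hTd : T.natDegree = κ := by
    apply le_antisymm hTn
    apply le_natDegree_of_ne_zero
    rw [hTk]
    exact one_ne_zero
  set f1 : F[X] := X ^ (m - κ) * T with hf1
  have hf1m : f1.Monic := (monic_X_pow _).mul hTm
  have hf1d : f1.natDegree = m := by
    rw [hf1, (monic_X_pow _).natDegree_mul hTm, natDegree_X_pow, hTd]
    omega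
  set r := (g - f1) %ₘ M with hr
  have hrdeg : r.degree < M.degree := degree_modByMonic_lt _ hMm
  have hrdeg' : r.degree < ((m - κ : ℕ) : WithBot ℕ) := by
    refine hrdeg.trans_le ?_
    rw [degree_eq_natDegree hMm.ne_zero]
    exact_mod_cast (by omega : M.natDegree ≤ m - κ)
  have hrm : r.degree < m := hrdeg'.trans_le (by exact_mod_cast (by omega : m - κ ≤ m))
  have hrf1 : r.degree < f1.degree := by
    rw [degree_eq_natDegree hf1m.ne_zero, hf1d]
    exact hrm
  have hmon : f1 + r ∈ MonD F m := by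
    rw [mem_MonD]
    refine ⟨hf1m.add_of_left hrf1, ?_⟩
    rw [natDegree_add_eq_left_of_degree_lt hrf1, hf1d]
  refine ⟨f1 + r, hmon, ?_⟩
  unfold cls
  rw [Prod.mk.injEq, AdjoinRoot.mk_eq_mk, AdjoinRoot.mk_eq_mk]
  constructor
  · refine ⟨-((g - f1) /ₘ M), ?_⟩
    have := modByMonic_add_div (g - f1) M
    linear_combination this
  · have h1 : (f1 + r).reverse = reflect m f1 + reflect m r := by
      rw [reverse, (mem_MonD.1 hmon).2, reflect_add]
    have h2 : reflect m f1 = h' := by
      have h3 : m = (m - κ) + κ := by omega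
      conv_lhs => rw [h3]
      rw [hf1, reflect_mul _ _ (by rw [natDegree_X_pow]) hTn, reflect_monomial, revAt_le le_rfl, Nat.sub_self,
        pow_zero, one_mul, hT, reflect_reflect]
    have h3 : X ^ (κ + 1) ∣ reflect m r := (reflect_dvd_iff' (by omega) hrm).2 hrdeg'
    rw [h1, h2]
    have h4 : h' + reflect m r - h = reflect m r - (h - h') := by ring
    rw [h4]
    exact dvd_sub h3 hdvd

theorem exists_cls_eq' {M : F[X]} (hMm : M.Monic) {κ m : ℕ} (hm : M.natDegree + κ ≤ m) {f0 : F[X]}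
    (hf0 : f0.Monic) : ∃ f ∈ MonD F m, cls M κ f = cls M κ f0 :=
  exists_cls_eq hMm hm f0 f0.reverse (by rw [coeff_zero_reverse]; exact hf0)

theorem card_fiber_cls {M : F[X]} (hMm : M.Monic) {κ m : ℕ} (hm : M.natDegree + κ ≤ m) {f0 : F[X]}
    (hf0m : f0.Monic) [DecidableEq (BB M κ)] :
    ((MonD F m).filter (fun f => cls M κ f = cls M κ f0)).card
      = Fintype.card F ^ (m - M.natDegree - κ) := by
  classical
  obtain ⟨f1, hf1, hf1c⟩ := exists_cls_eq' hMm hm hf0m
  rw [← hf1c]
  have hM := hMm.ne_zero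
  have h1 : (MonD F m).filter (fun f => cls M κ f = cls M κ f1) =
      (Low F (m - M.natDegree - κ)).image (fun s => f1 + M * s) := by
    ext f
    rw [mem_filter, mem_image]
    constructor
    · rintro ⟨hf, hcl⟩
      rw [cls_eq_iff (by omega) hf hf1] at hcl
      obtain ⟨⟨s, hs⟩, hd⟩ := hcl
      refine ⟨s, ?_, by rw [← hs]; ring⟩
      rw [mem_Low]
      by_cases hs0 : s = 0
      · rw [hs0, degree_zero]
        exact WithBot.bot_lt_coe _
      · rw [hs, degree_mul, degree_eq_natDegree hM, degree_eq_natDegree hs0] at hd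
        rw [degree_eq_natDegree hs0]
        have hd' : M.natDegree + s.natDegree < m - κ := by exact_mod_cast hd
        exact_mod_cast (by omega : s.natDegree < m - M.natDegree - κ)
    · rintro ⟨s, hs, rfl⟩
      rw [mem_Low] at hs
      have hdeg : (M * s).degree < ((m - κ : ℕ) : WithBot ℕ) := by
        by_cases hs0 : s = 0
        · rw [hs0, mul_zero, degree_zero]
          exact WithBot.bot_lt_coe _
        · rw [degree_eq_natDegree hs0] at hs
          have hs' : s.natDegree < m - M.natDegree - κ := by exact_mod_cast hs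
          rw [degree_mul, degree_eq_natDegree hM, degree_eq_natDegree hs0]
          exact_mod_cast (by omega : M.natDegree + s.natDegree < m - κ)
      have hf0' := mem_MonD.1 hf1
      have hlt : (M * s).degree < f1.degree := by
        rw [degree_eq_natDegree hf0'.1.ne_zero, hf0'.2]
        exact hdeg.trans_le (by exact_mod_cast (by omega : m - κ ≤ m))
      have hmem : f1 + M * s ∈ MonD F m := by
        rw [mem_MonD]
        exact ⟨hf0'.1.add_of_left hlt, by rw [natDegree_add_eq_left_of_degree_lt hlt, hf0'.2]⟩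
      refine ⟨hmem, ?_⟩
      rw [cls_eq_iff (by omega) hmem hf1, add_sub_cancel_left]
      exact ⟨dvd_mul_right _ _, hdeg⟩
  rw [h1, card_image_of_injective, card_Low]
  intro s t hst
  simpa [hM] using hst

end Pool.Agent.Helper83.GQ
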