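import Pool.Agent.Helper83.GQ.Minor

/-!
# Conductors and the function `φ*`
-/

set_option autoImplicit false
set_option linter.unusedSectionVars false

namespace Pool.Agent.Helper83.GQ

open Polynomial Finset UniqueFactorizationMonoid

variable {F : Type} [Field F] [Fintype F]

noncomputable instance nmInst : NormalizationMonoid F[X] := by
  classical
  exact inferInstance

theorem normalize_monic {p : F[X]} (h : p.Monic) : normalize p = p := by
  classical
  exact h.normalize_eq_self

/-- colon: a monic generator of the ideal of the `x` with `g ∣ v x` -/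
theorem exists_col (g v : F[X]) (hg : g ≠ 0) :
    ∃ c : F[X], c.Monic ∧ ∀ x, c ∣ x ↔ g ∣ v * x := by
  let I : Ideal F[X] :=
    { carrier := {x | g ∣ v * x}
      add_mem' := by
        intro x y hx hy
        change g ∣ v * (x + y)
        rw [mul_add]
        exact dvd_add hx hy
      zero_mem' := by
        change g ∣ v * 0
        simp
      smul_mem' := by
        intro c x hx
        change g ∣ v * (c • x)
        rw [smul_eq_mul, mul_left_comm]
        exact hx.mul_left c }
  obtain ⟨g0, hg0⟩ := (IsPrincipalIdealRing.principal I).principal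
  have hg0' : ∀ x, x ∈ I ↔ g0 ∣ x := by
    intro x
    rw [hg0]
    exact Ideal.mem_span_singleton
  have hgI : g ∈ I := dvd_mul_left g v
  have hg00 : g0 ≠ 0 := by
    rintro rfl
    have := (hg0' g).1 hgI
    exact hg (zero_dvd_iff.1 this)
  have hass : Associated g0 (g0 * C (g0.leadingCoeff)⁻¹) := by
    refine (associated_mul_unit_right g0 _ ?_)
    exact isUnit_C.2 (inv_ne_zero (leadingCoeff_ne_zero.2 hg00)).isUnit
  refine ⟨g0 * C (g0.leadingCoeff)⁻¹, monic_mul_leadingCoeff_inv hg00, fun x => ?_⟩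
  rw [← hass.dvd_iff_dvd_left, ← hg0']
  rfl

open Classical in
/-- colon -/
noncomputable def col (g v : F[X]) : F[X] := if h : g ≠ 0 then (exists_col g v h).choose else 0

theorem col_monic {g v : F[X]} (hg : g ≠ 0) : (col g v).Monic := by
  unfold col
  rw [dif_pos hg]
  exact (exists_col g v hg).choose_spec.1

theorem col_dvd_iff {g v : F[X]} (hg : g ≠ 0) (x : F[X]) : col g v ∣ x ↔ g ∣ v * x := by
  unfold col
  rw [dif_pos hg]
  exact (exists_col g v hg).choose_spec.2 x

theorem dvd_mul_col {g v : F[X]} (hg : g ≠ 0) : g ∣ v * col g v :=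
  (col_dvd_iff hg _).1 dvd_rfl

theorem col_step {g v P : F[X]} (hg : g ≠ 0) : col g v ∣ P * col g (v * P) := by
  rw [col_dvd_iff hg, ← mul_assoc]
  exact dvd_mul_col hg

open Classical in
/-- factor of `φ*` -/
noncomputable def wt (R p : F[X]) : ℝ := if p ∣ R then 1 else nm p - 1

/-- `φ*` -/
noncomputable def phs (R x : F[X]) : ℝ := ((normalizedFactors x).map (wt R)).prod

theorem wt_ge_one {R p : F[X]} (hp : Irreducible p) : 1 ≤ wt R p := by
  unfold wt
  split_ifs
  · exact le_rfl
  · have := nm_ge_two hp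
    linarith

theorem prod_ge_one {m : Multiset F[X]} {f : F[X] → ℝ} (h : ∀ p ∈ m, 1 ≤ f p) :
    1 ≤ (m.map f).prod := by
  induction m using Multiset.induction_on with
  | empty => simp
  | cons a m ih =>
    rw [Multiset.map_cons, Multiset.prod_cons]
    have h1 := h a (Multiset.mem_cons_self _ _)
    have h2 := ih (fun p hp => h p (Multiset.mem_cons_of_mem hp))
    nlinarith

theorem phs_ge_one (R x : F[X]) : 1 ≤ phs R x :=
  prod_ge_one fun p hp => wt_ge_one (irreducible_of_normalized_factor p hp)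

theorem phs_pos (R x : F[X]) : 0 < phs R x := lt_of_lt_of_le one_pos (phs_ge_one R x)

theorem phs_mul {R x y : F[X]} (hx : x ≠ 0) (hy : y ≠ 0) : phs R (x * y) = phs R x * phs R y := by
  unfold phs
  rw [normalizedFactors_mul hx hy, Multiset.map_add, Multiset.prod_add]

theorem phs_mono {R x y : F[X]} (hy : y ≠ 0) (h : x ∣ y) : phs R x ≤ phs R y := by
  obtain ⟨z, rfl⟩ := h
  rw [phs_mul (left_ne_zero_of_mul hy) (right_ne_zero_of_mul hy)]
  exact le_mul_of_one_le_right (phs_pos R x).le (phs_ge_one R z)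

theorem nf_monic {p : F[X]} (h1 : p.Monic) (h2 : Irreducible p) : normalizedFactors p = {p} := by
  rw [normalizedFactors_irreducible h2, normalize_monic h1]

theorem phs_prime {R p : F[X]} (h1 : p.Monic) (h2 : Irreducible p) : phs R p = wt R p := by
  unfold phs
  rw [nf_monic h1 h2]
  simp

theorem phs_one (R : F[X]) : phs R 1 = 1 := by
  unfold phs
  simp

theorem phs_prod (R : F[X]) (J : Finset F[X]) (hJ : ∀ p ∈ J, p.Monic ∧ Irreducible p) :
    phs R (∏ p ∈ J, p) = ∏ p ∈ J, wt R p := by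
  classical
  induction J using Finset.induction_on with
  | empty => simp [phs_one]
  | insert a J ha ih =>
    have h1 := hJ a (mem_insert_self _ _)
    have h2 : ∀ p ∈ J, p.Monic ∧ Irreducible p := fun p hp => hJ p (mem_insert_of_mem hp)
    rw [prod_insert ha, prod_insert ha, phs_mul h1.1.ne_zero
      (monic_prod_of_monic _ _ fun p hp => (h2 p hp).1).ne_zero, ih h2, phs_prime h1.1 h1.2]

theorem phs_R0 (r : ℕ) : phs (R0 F r) (R0 F r) = 1 := by
  conv_lhs => rw [show R0 F r = ∏ p ∈ SP F r, p from rfl]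
  rw [phs_prod _ _ fun p hp => ⟨(mem_SP.1 hp).1, (mem_SP.1 hp).2.1⟩]
  refine prod_eq_one fun p hp => ?_
  unfold wt
  rw [if_pos]
  exact (dvd_R0_iff (mem_SP.1 hp).1 (mem_SP.1 hp).2.1).2 hp

open Classical in
/-- the bound attached to a full period `g` -/
noncomputable def Bf (r : ℕ) (g v : F[X]) : ℝ :=
  if ∃ s : F[X], IsCoprime (R0 F r) s ∧ col g v ∣ R0 F r * s then
    (phs (R0 F r) (col g v))⁻¹ else 0

theorem Bf_nonneg (r : ℕ) (g v : F[X]) : 0 ≤ Bf r g v := by
  unfold Bf
  split_ifs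
  · exact inv_nonneg.2 (phs_pos _ _).le
  · exact le_rfl

theorem Bf_le_one (r : ℕ) (g v : F[X]) : Bf r g v ≤ 1 := by
  unfold Bf
  split_ifs
  · exact inv_le_one_of_one_le₀ (phs_ge_one _ _)
  · exact zero_le_one

theorem Bf_step {r D : ℕ} {g v P : F[X]} (hg : g ≠ 0) (hP : P ∈ XL F r D) :
    Bf r g (v * P) ≤ (Fintype.card F : ℝ) ^ D * Bf r g v := by
  rw [mem_XL] at hP
  have hPc : IsCoprime (R0 F r) P := by
    obtain ⟨x, hx⟩ := hP.2.2.2
    exact ⟨-x, 1, by linear_combination hx⟩
  have hPR : ¬ P ∣ R0 F r := fun h => hP.2.2.1.not_isUnit (hPc.isUnit_of_dvd' h dvd_rfl)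
  have hstep := col_step (v := v) (P := P) hg
  have hm1 := col_monic (v := v) hg
  have hm2 := col_monic (v := v * P) hg
  unfold Bf
  split_ifs with h1 h2 h2
  · have h3 : phs (R0 F r) (col g v) ≤ phs (R0 F r) (P * col g (v * P)) :=
      phs_mono (mul_ne_zero hP.1.ne_zero hm2.ne_zero) hstep
    rw [phs_mul hP.1.ne_zero hm2.ne_zero, phs_prime hP.1 hP.2.2.1] at h3
    have h4 : wt (R0 F r) P ≤ (Fintype.card F : ℝ) ^ D := by
      unfold wt
      rw [if_neg hPR]
      unfold nm
      rw [hP.2.1]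
      linarith
    have h5 := phs_pos (R0 F r) (col g v)
    have h6 := phs_pos (R0 F r) (col g (v * P))
    rw [← div_eq_mul_inv, inv_eq_one_div, div_le_div_iff₀ h6 h5, one_mul]
    exact h3.trans (mul_le_mul_of_nonneg_right h4 h6.le)
  · exfalso
    apply h2
    obtain ⟨s, hs1, hs2⟩ := h1
    refine ⟨P * s, hPc.mul_right hs1, hstep.trans ?_⟩
    rw [mul_left_comm]
    exact mul_dvd_mul_left P hs2
  · have := phs_pos (R0 F r) (col g v)
    positivity
  · simp

open Classical in
theorem major (hRH : RHyp F) {r D n l0 kY : ℕ} (hD : 1 ≤ D) {N : ℝ}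
    (hN : 0 < N) (hNX : ((XL F r D).card : ℝ) ≤ N) {g : F[X]} (hg : g.Monic)
    (ψ : AddChar (degreeLT F n) ℂ) (hgp : FP ψ g)
    (hmin : ∀ g' : F[X], g'.Monic → FP ψ g' → g.natDegree ≤ g'.natDegree)
    (hgn : g.natDegree ≤ n)
    (h2 : (R0 F r).natDegree + 2 * g.natDegree ≤ l0 * D)
    (hkY : ((XL F r D).filter (fun P => P ∣ R0 F r * g)).card ≤ kY)
    {θ ε η G0 : ℝ} (hε0 : 0 < ε) (hε1 : ε ≤ 1) (hη : (kY : ℝ) / N ≤ η)
    (hθ : kY * (Fintype.card F : ℝ) ^ D / N ≤ θ)
    (hε : ((R0 F r).natDegree + n + 2) * √(Fintype.card F : ℝ) ^ D / N ≤ ε)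
    (hG1 : √((Fintype.card F : ℝ) ^ ((R0 F r).natDegree + g.natDegree)) ≤ G0)
    (hG2 : 1 ≤ G0 * ε ^ l0) (j : ℕ) (v : F[X]) (hv : v ≠ 0) (hvn : v.natDegree + j * D ≤ n) :
    ‖(Op (XL F r D) N)^[j] (E ψ) v‖ ≤ (1 + θ) ^ j * Bf r g v + G0 * (ε + η) ^ j := by
  have hRm := R0_monic (F := F) r
  have hMm : (R0 F r * g).Monic := hRm.mul hg
  have hMd : (R0 F r * g).natDegree = (R0 F r).natDegree + g.natDegree := hRm.natDegree_mul hg
  have hYc' : (((XL F r D).filter (fun P => P ∣ R0 F r * g)).card : ℝ) ≤ kY := by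
    exact_mod_cast hkY
  refine arc hRH hD hN hNX hMm (dvd_mul_right _ _) (κ := 0) (l0 := l0) (by rw [hMd]; omega) ψ
    (fun v l => v ≠ 0 ∧ v.natDegree + l * D ≤ n) (fun v => Bf r g v) ?_ ?_ ?_ ?_
    (le_trans (by positivity) hθ) hε0 hε1 (le_trans (by positivity) hη) ?_ ?_ ?_ hG2 ?_ j v
    ⟨hv, hvn⟩
  · rintro v l ⟨hv, hvn⟩ P hP
    rw [mem_filter, mem_XL] at hP
    refine ⟨mul_ne_zero hv hP.1.1.ne_zero, ?_⟩
    rw [natDegree_mul hv hP.1.1.ne_zero, hP.1.2.1]
    have : (l + 1) * D = l * D + D := by ring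
    omega
  · rintro v l ⟨hv, hvn⟩ hl y hy y' hy' hcl
    rw [cls_eq_iff (by omega) hy hy'] at hcl
    obtain ⟨⟨z, hz⟩, hd⟩ := hcl
    have h3 : E ψ (v * (y - y')) = 1 := by
      have h4 : v * (y - y') = g * (v * R0 F r * z) := by rw [hz]; ring
      rw [h4]
      apply hgp
      rw [← h4]
      by_cases hz0 : y - y' = 0
      · rw [hz0, mul_zero, degree_zero]; exact WithBot.bot_lt_coe _
      · rw [degree_eq_natDegree hz0] at hd
        have hd' : (y - y').natDegree < l * D - 0 := by exact_mod_cast hd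
        rw [degree_mul, degree_eq_natDegree hv, degree_eq_natDegree hz0]
        exact_mod_cast (by omega : v.natDegree + (y - y').natDegree < n)
    have h5 : v * y = v * y' + v * (y - y') := by ring
    rw [h5, AddChar.map_add_eq_mul, h3, mul_one]
  · intro v
    exact Bf_nonneg _ _ _
  · rintro v l hl ⟨hv, hvn⟩ J hJ hper
    have hJ' : ∀ p ∈ J, p.Monic ∧ Irreducible p ∧ p ∣ R0 F r * g ∧ ¬ p ∣ R0 F r := fun p hp =>
      (mem_QM hMm).1 (hJ hp)
    have hJm : (∏ p ∈ J, p).Monic := monic_prod_of_monic _ _ fun p hp => (hJ' p hp).1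
    have hJc : IsCoprime (R0 F r) (∏ p ∈ J, p) := by
      refine IsCoprime.prod_right fun p hp => ?_
      rw [isCoprime_comm, (hJ' p hp).2.1.coprime_iff_not_dvd]
      exact (hJ' p hp).2.2.2
    have hJd : (R0 F r * ∏ p ∈ J, p).natDegree ≤ (R0 F r).natDegree + g.natDegree := by
      have h3 : R0 F r * ∏ p ∈ J, p ∣ R0 F r * g := by
        apply mul_dvd_mul_left
        refine Finset.prod_dvd_of_coprime ?_ ?_
        · intro p hp p' hp' hne
          exact coprime_of_monic_irr (hJ' p hp).1 (hJ' p hp).2.1 (hJ' p' hp').1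
            (hJ' p' hp').2.1 hne
        · intro p hp
          rcases (hJ' p hp).2.1.prime.dvd_or_dvd (hJ' p hp).2.2.1 with h | h
          · exact absurd h (hJ' p hp).2.2.2
          · exact h
      have := natDegree_le_of_dvd h3 hMm.ne_zero
      rwa [hMd] at this
    have hlD : l0 * D ≤ l * D := Nat.mul_le_mul_right _ hl
    have hdeg : ∀ z : F[X], z.degree < g.natDegree →
        (R0 F r * (∏ p ∈ J, p) * z).degree < (l * D : ℕ) := by
      intro z hz
      by_cases hz0 : z = 0
      · rw [hz0, mul_zero, degree_zero]; exact WithBot.bot_lt_coe _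
      · rw [degree_eq_natDegree hz0] at hz
        have hz' : z.natDegree < g.natDegree := by exact_mod_cast hz
        rw [degree_mul, degree_eq_natDegree (hRm.mul hJm).ne_zero, degree_eq_natDegree hz0]
        exact_mod_cast (by omega :
          (R0 F r * ∏ p ∈ J, p).natDegree + z.natDegree < l * D)
    have hdvd : g ∣ v * (R0 F r * ∏ p ∈ J, p) := by
      refine minimal_dvd ψ hg hgn hgp hmin _ ?_ ?_
      · intro z hz
        rw [mul_assoc]
        exact hper z (hdeg z hz)
      · intro z hz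
        rw [mul_assoc]
        by_cases hz0 : R0 F r * (∏ p ∈ J, p) * z = 0
        · rw [hz0, mul_zero, degree_zero]; exact WithBot.bot_lt_coe _
        · have h3 := hdeg z hz
          rw [degree_eq_natDegree hz0] at h3
          have h3' : (R0 F r * (∏ p ∈ J, p) * z).natDegree < l * D := by exact_mod_cast h3
          rw [degree_mul, degree_eq_natDegree hv, degree_eq_natDegree hz0]
          exact_mod_cast (by omega : v.natDegree + (R0 F r * (∏ p ∈ J, p) * z).natDegree < n)
    rw [← col_dvd_iff hg.ne_zero] at hdvd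
    unfold Bf
    rw [if_pos ⟨_, hJc, hdvd⟩]
    have h3 := phs_mono (R := R0 F r) (hRm.mul hJm).ne_zero hdvd
    rw [phs_mul hRm.ne_zero hJm.ne_zero, phs_R0, one_mul,
      phs_prod _ _ fun p hp => ⟨(hJ' p hp).1, (hJ' p hp).2.1⟩] at h3
    have h4 : ∏ p ∈ J, wt (R0 F r) p = ∏ p ∈ J, (nm p - 1) := by
      refine prod_congr rfl fun p hp => ?_
      unfold wt
      rw [if_neg (hJ' p hp).2.2.2]
    rw [h4] at h3
    rw [prod_inv_distrib]
    exact inv_anti₀ (phs_pos _ _) h3
  · rintro v l ⟨hv, hvn⟩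
    calc (∑ P ∈ (XL F r D).filter (fun P => P ∣ R0 F r * g), Bf r g (v * P)) / N
        ≤ (∑ P ∈ (XL F r D).filter (fun P => P ∣ R0 F r * g),
          (Fintype.card F : ℝ) ^ D * Bf r g v) / N := by
          gcongr with P hP
          exact Bf_step hg.ne_zero (mem_filter.1 hP).1
      _ = ((((XL F r D).filter (fun P => P ∣ R0 F r * g)).card : ℝ) *
          (Fintype.card F : ℝ) ^ D / N) * Bf r g v := by
          rw [sum_const, nsmul_eq_mul]
          ring
      _ ≤ (kY * (Fintype.card F : ℝ) ^ D / N) * Bf r g v := by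
          have := Bf_nonneg r g v
          gcongr
      _ ≤ _ := mul_le_mul_of_nonneg_right hθ (Bf_nonneg r g v)
  · refine le_trans ?_ hε
    have : ((R0 F r * g).natDegree : ℝ) + ((0 : ℕ) : ℝ) ≤ (R0 F r).natDegree + n := by
      rw [hMd]
      have : (R0 F r).natDegree + g.natDegree + 0 ≤ (R0 F r).natDegree + n := by omega
      exact_mod_cast this
    gcongr
  · rw [hMd, add_zero]; exact hG1
  · exact le_trans (by gcongr) hη

end Pool.Agent.Helper83.GQ
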