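import Pool.Agent.Helper83.GQ.Col

/-!
# Conductors for three coprime polynomials; the Euler product bound
-/

set_option autoImplicit false
set_option linter.unusedSectionVars false

namespace Pool.Agent.Helper83.GQ

open Polynomial Finset UniqueFactorizationMonoid

variable {F : Type} [Field F] [Fintype F]

theorem mem_nf {g p : F[X]} (hp : p ∈ normalizedFactors g) : p.Monic ∧ Irreducible p := by
  have h1 := irreducible_of_normalized_factor p hp
  have h2 := normalize_normalized_factor p hp
  refine ⟨?_, h1⟩
  have h3 : (normalize p).Monic := by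
    classical
    have := Polynomial.monic_normalize (p := p) h1.ne_zero
    convert this
  rwa [h2] at h3

theorem nf_prod {m : Multiset F[X]} (hm : ∀ p ∈ m, p.Monic ∧ Irreducible p) :
    normalizedFactors m.prod = m := by
  induction m using Multiset.induction_on with
  | empty => simp
  | cons a m ih =>
    have h1 := hm a (Multiset.mem_cons_self _ _)
    have h2 : ∀ p ∈ m, p.Monic ∧ Irreducible p := fun p hp => hm p (Multiset.mem_cons_of_mem hp)
    have h3 : m.prod ≠ 0 := by
      intro h0
      rw [Multiset.prod_eq_zero_iff] at h0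
      exact (h2 0 h0).1.ne_zero rfl
    rw [Multiset.prod_cons, normalizedFactors_mul h1.1.ne_zero h3, nf_monic h1.1 h1.2, ih h2]
    rfl

theorem monic_mprod {m : Multiset F[X]} (hm : ∀ p ∈ m, p.Monic) : m.prod.Monic := by
  have := monic_multiset_prod_of_monic m (fun p => p) hm
  rwa [Multiset.map_id'] at this

theorem prod_nf {g : F[X]} (hg : g.Monic) : (normalizedFactors g).prod = g :=
  eq_of_monic_of_associated (monic_mprod fun p hp => (mem_nf hp).1) hg
    (prod_normalizedFactors hg.ne_zero)

theorem prod_filter_map {m : Multiset F[X]} (q : F[X] → Prop) [DecidablePred q] (f : F[X] → ℝ) :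
    ((m.filter q).map f).prod = (m.map (fun p => if q p then f p else 1)).prod := by
  induction m using Multiset.induction_on with
  | empty => simp
  | cons a m ih =>
    by_cases h : q a
    · simp [h, ih]
    · simp [h, ih]

theorem prod_map_le {m : Multiset F[X]} {f g : F[X] → ℝ} (h : ∀ p ∈ m, 0 ≤ f p ∧ f p ≤ g p) :
    0 ≤ (m.map f).prod ∧ (m.map f).prod ≤ (m.map g).prod := by
  induction m using Multiset.induction_on with
  | empty => simp
  | cons a m ih =>
    rw [Multiset.map_cons, Multiset.prod_cons, Multiset.map_cons, Multiset.prod_cons]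
    have h1 := h a (Multiset.mem_cons_self _ _)
    have h2 := ih (fun p hp => h p (Multiset.mem_cons_of_mem hp))
    exact ⟨mul_nonneg h1.1 h2.1, mul_le_mul h1.2 h2.2 h2.1 (h1.1.trans h1.2)⟩

theorem prod_map_inv' {m : Multiset F[X]} {f : F[X] → ℝ} :
    ((m.map f).prod)⁻¹ = (m.map (fun p => (f p)⁻¹)).prod := by
  induction m using Multiset.induction_on with
  | empty => simp
  | cons a m ih =>
    rw [Multiset.map_cons, Multiset.prod_cons, Multiset.map_cons, Multiset.prod_cons, mul_inv, ih]

/-- the condition at the small primes -/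
def CR (r : ℕ) (g v : F[X]) : Prop := ∃ s : F[X], IsCoprime (R0 F r) s ∧ col g v ∣ R0 F r * s

open Classical in
/-- part prime to the small primes -/
noncomputable def sP (r : ℕ) (g : F[X]) : F[X] :=
  ((normalizedFactors g).filter (fun p => ¬ p ∣ R0 F r)).prod

open Classical in
theorem nf_sP (r : ℕ) (g : F[X]) : normalizedFactors (sP r g) =
    (normalizedFactors g).filter (fun p => ¬ p ∣ R0 F r) := by
  unfold sP
  exact nf_prod fun p hp => mem_nf (Multiset.mem_filter.1 hp).1

theorem sP_monic (r : ℕ) (g : F[X]) : (sP r g).Monic := by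
  classical
  unfold sP
  exact monic_mprod fun p hp => (mem_nf (Multiset.mem_filter.1 hp).1).1

theorem sP_dvd (r : ℕ) {g : F[X]} (hg : g.Monic) : sP r g ∣ g := by
  classical
  conv_rhs => rw [← prod_nf hg]
  unfold sP
  exact Multiset.prod_dvd_prod_of_le (Multiset.filter_le _ _)

theorem mem_nf_sP {r : ℕ} {g p : F[X]} (hp : p ∈ normalizedFactors (sP r g)) :
    p.Monic ∧ Irreducible p ∧ ¬ p ∣ R0 F r := by
  classical
  rw [nf_sP] at hp
  exact ⟨(mem_nf (Multiset.mem_filter.1 hp).1).1, (mem_nf (Multiset.mem_filter.1 hp).1).2,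
    (Multiset.mem_filter.1 hp).2⟩

theorem coprime_sP (r : ℕ) (g : F[X]) : IsCoprime (R0 F r) (sP r g) := by
  classical
  have h : ∀ m : Multiset F[X], (∀ p ∈ m, Irreducible p ∧ ¬ p ∣ R0 F r) →
      IsCoprime (R0 F r) m.prod := by
    intro m
    induction m using Multiset.induction_on with
    | empty => intro _; simpa using isCoprime_one_right
    | cons a m ih =>
      intro hm
      rw [Multiset.prod_cons]
      have h1 := hm a (Multiset.mem_cons_self _ _)
      refine IsCoprime.mul_right ?_ (ih fun p hp => hm p (Multiset.mem_cons_of_mem hp))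
      rw [isCoprime_comm, h1.1.coprime_iff_not_dvd]
      exact h1.2
  unfold sP
  exact h _ fun p hp => ⟨(mem_nf (Multiset.mem_filter.1 hp).1).2, (Multiset.mem_filter.1 hp).2⟩

theorem R0_sq {r : ℕ} {p : F[X]} (h1 : p.Monic) (h2 : Irreducible p) (h : p * p ∣ R0 F r) :
    False := by
  classical
  have hp : p ∈ SP F r := (dvd_R0_iff h1 h2).1 ((dvd_mul_right _ _).trans h)
  have h3 : R0 F r = p * ∏ p' ∈ (SP F r).erase p, p' := (mul_prod_erase _ _ hp).symm
  rw [h3] at h
  have h4 := (mul_dvd_mul_iff_left h1.ne_zero).1 h
  obtain ⟨p', hp', h5⟩ := (h2.prime.dvd_finsetProd_iff _).1 h4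
  have h6 := mem_SP.1 (mem_of_mem_erase hp')
  have := eq_of_monic_of_associated h1 h6.1 (h2.associated_of_dvd h6.2.1 h5)
  exact (ne_of_mem_erase hp') this.symm

theorem sq_of_CR {r : ℕ} {g v p : F[X]} (hg : g ≠ 0) (hC : CR r g v) (h1 : p.Monic)
    (h2 : Irreducible p) (hpR : p ∣ R0 F r) (hpv : ¬ p ∣ v) : ¬ p * p ∣ g := by
  intro h
  obtain ⟨s, hs1, hs2⟩ := hC
  have hcp : IsCoprime p v := by rw [h2.coprime_iff_not_dvd]; exact hpv
  have h3 : p * p ∣ col g v := by
    have := h.trans (dvd_mul_col (v := v) hg)
    exact (IsCoprime.mul_left hcp hcp).dvd_of_dvd_mul_left this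
  have hps : IsCoprime p s := by
    obtain ⟨x, hx⟩ := hpR
    rw [hx] at hs1
    exact hs1.of_mul_left_left
  have h4 := (IsCoprime.mul_left hps hps).dvd_of_dvd_mul_right (h3.trans hs2)
  exact R0_sq h1 h2 h4

open Classical in
theorem dvd_R0_sP {r : ℕ} {g : F[X]} (hg : g.Monic)
    (h : ∀ p : F[X], p.Monic → Irreducible p → p ∣ R0 F r → ¬ p * p ∣ g) :
    g ∣ R0 F r * sP r g := by
  set m := (normalizedFactors g).filter (fun p => p ∣ R0 F r) with hm
  have h1 : g = m.prod * sP r g := by
    unfold sP
    rw [hm, ← Multiset.prod_add, Multiset.filter_add_not, prod_nf hg]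
  have hnd : m.Nodup := by
    rw [Multiset.nodup_iff_count_le_one]
    intro p
    by_contra hc
    push Not at hc
    have hpm : p ∈ m := Multiset.count_pos.1 (by omega)
    have hpm' := Multiset.mem_filter.1 hpm
    have hp := mem_nf hpm'.1
    have h2 : Multiset.replicate 2 p ≤ m := Multiset.le_count_iff_replicate_le.1 hc
    have h3 := Multiset.prod_dvd_prod_of_le (h2.trans (Multiset.filter_le _ _))
    rw [prod_nf hg] at h3
    rw [Multiset.prod_replicate, pow_two] at h3
    exact h p hp.1 hp.2 hpm'.2 h3
  have h2 : m.prod ∣ R0 F r := by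
    have h3 : m.prod = ∏ p ∈ m.toFinset, p := by
      rw [Finset.prod_multiset_count_of_subset m m.toFinset subset_rfl]
      refine prod_congr rfl fun p hp => ?_
      rw [Multiset.count_eq_one_of_mem hnd (Multiset.mem_toFinset.1 hp), pow_one]
    rw [h3]
    refine Finset.prod_dvd_of_coprime ?_ ?_
    · intro p hp p' hp' hne
      have h4 := mem_nf (Multiset.mem_filter.1 (Multiset.mem_toFinset.1 hp)).1
      have h5 := mem_nf (Multiset.mem_filter.1 (Multiset.mem_toFinset.1 hp')).1
      exact coprime_of_monic_irr h4.1 h4.2 h5.1 h5.2 hne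
    · intro p hp
      exact (Multiset.mem_filter.1 (Multiset.mem_toFinset.1 hp)).2
  conv_lhs => rw [h1]
  exact mul_dvd_mul_right h2 _

open Classical in
theorem phs_col_ge {r : ℕ} {g v : F[X]} (hg : g.Monic) :
    ((normalizedFactors (sP r g)).map (fun p => if p ∣ v then (1 : ℝ) else nm p - 1)).prod ≤
      phs (R0 F r) (col g v) := by
  set m := (normalizedFactors (sP r g)).filter (fun p => ¬ p ∣ v) with hm
  have hmp : ∀ p ∈ m, p.Monic ∧ Irreducible p := fun p hp =>
    mem_nf (Multiset.mem_filter.1 hp).1
  have h1 : m.prod ∣ col g v := by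
    have h2 : m.prod ∣ v * col g v := by
      refine ((?_ : m.prod ∣ sP r g).trans (sP_dvd r hg)).trans (dvd_mul_col hg.ne_zero)
      conv_rhs => rw [← prod_nf (sP_monic r g)]
      exact Multiset.prod_dvd_prod_of_le (Multiset.filter_le _ _)
    have h3 : IsCoprime m.prod v := by
      have h : ∀ m : Multiset F[X], (∀ p ∈ m, Irreducible p ∧ ¬ p ∣ v) → IsCoprime m.prod v := by
        intro m
        induction m using Multiset.induction_on with
        | empty => intro _; simpa using isCoprime_one_left
        | cons a m ih =>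
          intro hm
          rw [Multiset.prod_cons]
          have h1 := hm a (Multiset.mem_cons_self _ _)
          refine IsCoprime.mul_left ?_ (ih fun p hp => hm p (Multiset.mem_cons_of_mem hp))
          rw [h1.1.coprime_iff_not_dvd]
          exact h1.2
      exact h m fun p hp => ⟨(hmp p hp).2, (Multiset.mem_filter.1 hp).2⟩
    exact h3.dvd_of_dvd_mul_left h2
  have h2 := phs_mono (R := R0 F r) (col_monic (v := v) hg.ne_zero).ne_zero h1
  refine le_trans (le_of_eq ?_) h2
  unfold phs
  rw [nf_prod hmp, hm, prod_filter_map]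
  congr 1
  apply Multiset.map_congr rfl
  intro p hp
  have h3 := mem_nf_sP hp
  unfold wt
  by_cases h4 : p ∣ v
  · simp [h4]
  · simp [h4, h3.2.2]

open Classical in
/-- local factor -/
noncomputable def om (x p : F[X]) : ℝ := if p ∣ x then ((nm p - 1) ^ 2)⁻¹ else ((nm p - 1) ^ 3)⁻¹

open Classical in
theorem Bf_prod_le {r : ℕ} {g a b c : F[X]} (hg : g.Monic) (hab : IsCoprime a b)
    (hac : IsCoprime a c) (hbc : IsCoprime b c) :
    Bf r g a * Bf r g b * Bf r g c = 0 ∨
    (g ∣ R0 F r * sP r g ∧ Bf r g a * Bf r g b * Bf r g c ≤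
      ((normalizedFactors (sP r g)).map (om (a * b * c))).prod) := by
  by_cases hC : CR r g a ∧ CR r g b ∧ CR r g c
  · right
    obtain ⟨hCa, hCb, hCc⟩ := hC
    refine ⟨dvd_R0_sP hg ?_, ?_⟩
    · intro p h1 h2 h3
      by_cases hpa : p ∣ a
      · have hpb : ¬ p ∣ b := fun hpb => h2.not_isUnit (hab.isUnit_of_dvd' hpa hpb)
        exact sq_of_CR hg.ne_zero hCb h1 h2 h3 hpb
      · exact sq_of_CR hg.ne_zero hCa h1 h2 h3 hpa
    · have ha : Bf r g a = (phs (R0 F r) (col g a))⁻¹ := by unfold Bf; exact if_pos hCa
      have hb : Bf r g b = (phs (R0 F r) (col g b))⁻¹ := by unfold Bf; exact if_pos hCb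
      have hc : Bf r g c = (phs (R0 F r) (col g c))⁻¹ := by unfold Bf; exact if_pos hCc
      rw [ha, hb, hc]
      set m := normalizedFactors (sP r g) with hm
      have hge : ∀ v : F[X], (phs (R0 F r) (col g v))⁻¹ ≤
          (m.map (fun p => (if p ∣ v then (1 : ℝ) else nm p - 1)⁻¹)).prod := by
        intro v
        rw [← prod_map_inv']
        refine inv_anti₀ ?_ (phs_col_ge hg)
        apply lt_of_lt_of_le one_pos
        apply prod_ge_one
        intro p hp
        split_ifs
        · exact le_rfl
        · have := nm_ge_two (mem_nf hp).2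
          linarith
      have h0 : ∀ v : F[X], 0 ≤ (phs (R0 F r) (col g v))⁻¹ := fun v =>
        inv_nonneg.2 (phs_pos _ _).le
      have h1 : ∀ v : F[X], 0 ≤ (m.map (fun p => (if p ∣ v then (1 : ℝ) else nm p - 1)⁻¹)).prod :=
        fun v => (h0 v).trans (hge v)
      calc _ ≤ (m.map (fun p => (if p ∣ a then (1 : ℝ) else nm p - 1)⁻¹)).prod *
            (m.map (fun p => (if p ∣ b then (1 : ℝ) else nm p - 1)⁻¹)).prod *
            (m.map (fun p => (if p ∣ c then (1 : ℝ) else nm p - 1)⁻¹)).prod := by
            gcongr
            · exact h0 _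
            · exact mul_nonneg (h1 _) (h1 _)
            · exact h0 _
            · exact h1 _
            · exact hge _
            · exact hge _
            · exact hge _
        _ = (m.map (fun p => (if p ∣ a then (1 : ℝ) else nm p - 1)⁻¹ *
            (if p ∣ b then (1 : ℝ) else nm p - 1)⁻¹ * (if p ∣ c then (1 : ℝ) else nm p - 1)⁻¹)).prod := by
            rw [Multiset.prod_map_mul, Multiset.prod_map_mul]
        _ ≤ _ := by
            refine (prod_map_le fun p hp => ?_).2
            have hp2 := nm_ge_two (mem_nf hp).2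
            have hpi := (mem_nf hp).2
            have h3 : (0 : ℝ) < nm p - 1 := by linarith
            unfold om
            by_cases hpa : p ∣ a
            · have hpb : ¬ p ∣ b := fun h => hpi.not_isUnit (hab.isUnit_of_dvd' hpa h)
              have hpc : ¬ p ∣ c := fun h => hpi.not_isUnit (hac.isUnit_of_dvd' hpa h)
              have hpx : p ∣ a * b * c := (hpa.mul_right b).mul_right c
              simp only [hpa, hpb, hpc, hpx, if_true, if_false]
              constructor
              · positivity
              · rw [pow_two, mul_inv]; simp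
            · by_cases hpb : p ∣ b
              · have hpc : ¬ p ∣ c := fun h => hpi.not_isUnit (hbc.isUnit_of_dvd' hpb h)
                have hpx : p ∣ a * b * c := (hpb.mul_left a).mul_right c
                simp only [hpa, hpb, hpc, hpx, if_true, if_false]
                constructor
                · positivity
                · rw [pow_two, mul_inv]; simp
              · by_cases hpc : p ∣ c
                · have hpx : p ∣ a * b * c := hpc.mul_left _
                  simp only [hpa, hpb, hpc, hpx, if_true, if_false]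
                  constructor
                  · positivity
                  · rw [pow_two, mul_inv]; simp
                · have hpx : ¬ p ∣ a * b * c := by
                    intro h
                    rcases hpi.prime.dvd_or_dvd h with h | h
                    · rcases hpi.prime.dvd_or_dvd h with h | h
                      · exact hpa h
                      · exact hpb h
                    · exact hpc h
                  simp only [hpa, hpb, hpc, hpx, if_false]
                  constructor
                  · positivity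
                  · rw [pow_succ, pow_two, mul_inv, mul_inv]
  · left
    have h0 : ∀ v : F[X], ¬ CR r g v → Bf r g v = 0 := by
      intro v hv
      unfold Bf
      exact if_neg hv
    by_cases h1 : CR r g a
    · by_cases h2 : CR r g b
      · have h3 : ¬ CR r g c := fun h3 => hC ⟨h1, h2, h3⟩
        rw [h0 c h3, mul_zero]
      · rw [h0 b h2, mul_zero, zero_mul]
    · rw [h0 a h1, zero_mul, zero_mul]

/-- Euler product bound -/
theorem euler (Q : Finset F[X]) (S : Finset F[X])
    (hS : ∀ s ∈ S, s.Monic ∧ ∀ p ∈ normalizedFactors s, p ∈ Q) (h : F[X] → ℝ)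
    (h0 : ∀ p ∈ Q, 0 ≤ h p) (h1 : ∀ p ∈ Q, h p < 1) :
    ∑ s ∈ S, ((normalizedFactors s).map h).prod ≤ ∏ p ∈ Q, (1 - h p)⁻¹ := by
  classical
  set K := S.sup (fun s => (normalizedFactors s).card) with hK
  let f : F[X] → (Q → ℕ) := fun s p => (normalizedFactors s).count p.1
  have hval : ∀ s ∈ S, ((normalizedFactors s).map h).prod = ∏ p : Q, h p.1 ^ f s p := by
    intro s hs
    have h2 : (normalizedFactors s).toFinset ⊆ Q := by
      intro p hp
      exact (hS s hs).2 p (Multiset.mem_toFinset.1 hp)
    rw [Finset.prod_multiset_map_count, prod_subset h2]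
    · exact (prod_coe_sort Q (fun p => h p ^ (normalizedFactors s).count p)).symm
    · intro p _ hp
      rw [Multiset.count_eq_zero.2 (fun h => hp (Multiset.mem_toFinset.2 h)), pow_zero]
  rw [sum_congr rfl hval]
  have hinj : Set.InjOn f (S : Set F[X]) := by
    intro s hs s' hs' heq
    have h2 : normalizedFactors s = normalizedFactors s' := by
      ext p
      by_cases hp : p ∈ Q
      · exact congr_fun heq ⟨p, hp⟩
      · rw [Multiset.count_eq_zero.2 (fun h => hp ((hS s hs).2 p h)),
          Multiset.count_eq_zero.2 (fun h => hp ((hS s' hs').2 p h))]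
    rw [← prod_nf (hS s hs).1, ← prod_nf (hS s' hs').1, h2]
  calc ∑ s ∈ S, ∏ p : Q, h p.1 ^ f s p = ∑ e ∈ S.image f, ∏ p : Q, h p.1 ^ e p :=
        (sum_image (f := fun e : Q → ℕ => ∏ p : Q, h p.1 ^ e p) hinj).symm
    _ ≤ ∑ e ∈ Fintype.piFinset (fun _ : Q => range (K + 1)), ∏ p : Q, h p.1 ^ e p := by
        refine sum_le_sum_of_subset_of_nonneg ?_ ?_
        · intro e he
          obtain ⟨s, hs, rfl⟩ := mem_image.1 he
          rw [Fintype.mem_piFinset]
          intro p
          rw [mem_range]
          have h2 : (normalizedFactors s).count p.1 ≤ (normalizedFactors s).card :=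
            Multiset.count_le_card _ _
          have h3 : (normalizedFactors s).card ≤ K :=
            Finset.le_sup (f := fun s => (normalizedFactors s).card) hs
          change (normalizedFactors s).count p.1 < K + 1
          omega
        · intro e _ _
          exact prod_nonneg fun p _ => pow_nonneg (h0 p.1 p.2) _
    _ = ∏ p : Q, ∑ i ∈ range (K + 1), h p.1 ^ i := (prod_univ_sum _ _).symm
    _ ≤ ∏ p : Q, (1 - h p.1)⁻¹ := by
        refine prod_le_prod (fun p _ => sum_nonneg fun i _ => pow_nonneg (h0 p.1 p.2) _) ?_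
        intro p _
        have h2 := h0 p.1 p.2
        have h3 := h1 p.1 p.2
        rw [geom_sum_eq h3.ne]
        have h4 : (h p.1 ^ (K + 1) - 1) / (h p.1 - 1) = (1 - h p.1 ^ (K + 1)) * (1 - h p.1)⁻¹ := by
          have : h p.1 - 1 ≠ 0 := by linarith
          have : 1 - h p.1 ≠ 0 := by linarith
          field_simp
          ring
        rw [h4]
        refine mul_le_of_le_one_left (inv_nonneg.2 (by linarith)) ?_
        have : 0 ≤ h p.1 ^ (K + 1) := pow_nonneg h2 _
        linarith
    _ = _ := prod_coe_sort Q (fun p => (1 - h p)⁻¹)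

end Pool.Agent.Helper83.GQ
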