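import Pool.Agent.Helper83.GQ.Num

/-!
# Asymptotics, II
-/

set_option autoImplicit false
set_option linter.unusedSectionVars false

namespace Pool.Agent.Helper83.GQ

open Polynomial Finset

variable {F : Type} [Field F] [Fintype F]

variable (F) in
theorem numB (N0 k h j μ d Δ : ℕ) (hk : k = 2 * h) (hj : j = (h + 1) + (4 * μ + 2))
    (hjk : j + N0 = k) (hμ : μ = 3 * N0 + 1) (hμh : μ ≤ h + 1)
    {c0 : ℝ} (hc0 : 0 < c0) {δ : ℝ} (hδ : 0 < δ) :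
    ∃ D0 : ℕ, ∀ D, D0 ≤ D → ∀ N : ℝ, 1 ≤ N → c0 * (Fintype.card F : ℝ) ^ D ≤ D * N →
    ∃ θ e G0 : ℝ, 0 < e ∧ ((k + 1 : ℕ) : ℝ) / N ≤ e ∧ e + e ≤ 1 ∧
      ((k + 1 : ℕ) : ℝ) * (Fintype.card F : ℝ) ^ D / N ≤ θ ∧
      ((d : ℝ) + ((Δ + k * D : ℕ) : ℝ) + 2) * √(Fintype.card F : ℝ) ^ D / N ≤ e ∧
      √((Fintype.card F : ℝ) ^ (d + μ * D)) ≤ G0 ∧
      √((Fintype.card F : ℝ) ^ (d + (Δ + k * D - h * D))) ≤ G0 ∧
      1 ≤ G0 * e ^ (h + 1) ∧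
      (8 + 4 * ((3 * N0 + 3 : ℕ) : ℝ)) * ((1 + θ) ^ k) ^ 3 /
        (Fintype.card F : ℝ) ^ D ≤ δ ∧
      (((μ * D : ℕ) : ℝ) + 1) * (Fintype.card F : ℝ) ^ (2 * (μ * D)) *
        (3 * ((1 + θ) ^ k) ^ 2 * (G0 * (e + e) ^ j)) ≤ δ ∧
      ((1 + θ) ^ k * (√(Fintype.card F : ℝ) ^ (Δ + N0 * D + d) /
        √(Fintype.card F : ℝ) ^ (μ * D)) + G0 * (e + e) ^ j) *
        ((Fintype.card F : ℝ) ^ (Δ + k * D) * k.factorial / N ^ j) ≤ δ := by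
  obtain ⟨q, hq⟩ : ∃ q : ℝ, q = (Fintype.card F : ℝ) := ⟨_, rfl⟩
  obtain ⟨s, hs⟩ : ∃ s : ℝ, s = √(Fintype.card F : ℝ) := ⟨_, rfl⟩
  have hs1 : 1 < s := by rw [hs]; exact one_lt_s (F := F)
  have hs0 : 0 < s := by linarith
  have hq0 : 0 < q := by
    have : 0 < Fintype.card F := Fintype.card_pos
    rw [hq]; exact_mod_cast this
  have hqs : q = s ^ 2 := by rw [hs, Real.sq_sqrt (by rw [hq] at hq0; exact hq0.le), hq]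
  have hsq : ∀ m : ℕ, √(q ^ m) = s ^ m := by
    intro m
    rw [hq, hs, sqrt_qpow]
  have hsq' : √q = s := by rw [hq, hs]
  simp only [← hq, hsq']
  obtain ⟨kr, hkr⟩ : ∃ kr : ℝ, kr = (k : ℝ) := ⟨_, rfl⟩
  have hkr0 : 0 ≤ kr := by rw [hkr]; exact Nat.cast_nonneg _
  have hkr1 : ((k + 1 : ℕ) : ℝ) = kr + 1 := by rw [hkr]; push_cast; ring
  have hd0 : (0 : ℝ) ≤ d := Nat.cast_nonneg _
  have hΔ0 : (0 : ℝ) ≤ Δ := Nat.cast_nonneg _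
  obtain ⟨K2, hK2⟩ : ∃ K2 : ℝ, K2 = (d + Δ + 2 * kr + 4) / c0 + 1 := ⟨_, rfl⟩
  have hK2a : (d + Δ + 2 * kr + 4) / c0 ≤ K2 := by rw [hK2]; linarith
  have hK2b : (kr + 1) / c0 ≤ K2 := by
    refine le_trans ?_ hK2a
    refine div_le_div_of_nonneg_right ?_ hc0.le
    linarith
  have hK2p : 1 ≤ K2 := by
    rw [hK2]
    have : 0 ≤ (d + Δ + 2 * kr + 4) / c0 := by positivity
    linarith
  obtain ⟨K4, hK4⟩ : ∃ K4 : ℝ, K4 = 1 + (kr + 1) / c0 := ⟨_, rfl⟩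
  have hK4p : 0 < K4 := by rw [hK4]; positivity
  obtain ⟨K3, hK3⟩ : ∃ K3 : ℝ, K3 = s ^ (d + Δ) * (2 * K2) ^ j := ⟨_, rfl⟩
  have hK3p : 0 ≤ K3 := by rw [hK3]; positivity
  obtain ⟨K8, hK8⟩ : ∃ K8 : ℝ, K8 = q ^ Δ * k.factorial / c0 ^ j := ⟨_, rfl⟩
  have hK8p : 0 ≤ K8 := by rw [hK8]; positivity
  obtain ⟨D1, h1⟩ := small F 2 (2 * K2) (δ := 1) one_pos
  obtain ⟨D2, h2⟩ := small F (3 * k) ((8 + 4 * ((3 * N0 + 3 : ℕ) : ℝ)) * K4 ^ (3 * k)) hδ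
  obtain ⟨D3, h3⟩ := small F (1 + 2 * k + 2 * j) (3 * ((μ : ℝ) + 1) * K4 ^ (2 * k) * K3) hδ
  obtain ⟨D4, h4⟩ := small F (k + j) (K4 ^ k * s ^ (Δ + d) * K8) (half_pos hδ)
  obtain ⟨D5, h5⟩ := small F (3 * j) (K3 * K8) (half_pos hδ)
  refine ⟨max (max D1 D2) (max (max D3 D4) (max D5 1)), fun D hD N hN hcN => ?_⟩
  simp only [max_le_iff] at hD
  obtain ⟨⟨hD1, hD2⟩, ⟨hD3, hD4⟩, hD5, hD6⟩ := hD
  have g1 := h1 D hD1
  have g2 := h2 D hD2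
  have g3 := h3 D hD3
  have g4 := h4 D hD4
  have g5 := h5 D hD5
  rw [← hs] at g1 g2 g3 g4 g5
  clear h1 h2 h3 h4 h5
  have hQ1' : 1 ≤ s ^ D := by rw [hs]; exact one_le_Q (F := F) D
  have hQs' : q ^ D = (s ^ D) ^ 2 := by rw [hq, hs]; exact sq_s (F := F) D
  have hspow' : ∀ m : ℕ, s ^ (m * D) = (s ^ D) ^ m := by
    intro m
    rw [← pow_mul, mul_comm]
  have hqpow' : ∀ m : ℕ, q ^ (m * D) = (s ^ D) ^ (2 * m) := by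
    intro m
    rw [hqs, ← pow_mul, ← pow_mul]
    congr 1
    ring
  obtain ⟨Q, hQ⟩ : ∃ Q : ℝ, Q = s ^ D := ⟨_, rfl⟩
  rw [← hQ] at g1 g2 g3 g4 g5 hQ1' hQs'
  simp only [← hQ] at hspow' hqpow'
  have hQ0 : 0 < Q := by linarith
  have hDr : (1 : ℝ) ≤ D := by exact_mod_cast hD6
  have hD0 : (0 : ℝ) < D := by linarith
  have hN0 : 0 < N := by linarith
  rw [hQs'] at hcN ⊢
  rw [← hQ]
  have hNinv : 1 / N ≤ D / (c0 * Q ^ 2) := by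
    rw [div_le_div_iff₀ hN0 (by positivity)]
    linarith
  have hθ0 : 0 ≤ (kr + 1) * D / c0 := by positivity
  have hθ1 : 1 + (kr + 1) * D / c0 ≤ K4 * D := by
    have e1 : (1 + (kr + 1) / c0) * (D : ℝ) = D + (kr + 1) * D / c0 := by ring
    rw [hK4, e1]
    linarith
  have hT0 : (s ^ (d + Δ) * Q ^ (h + 1)) * (K2 * D ^ 2 / Q + K2 * D ^ 2 / Q) ^ j =
      K3 * (D : ℝ) ^ (2 * j) / Q ^ (4 * μ + 2) := by
    rw [hK3, hj]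
    exact numT0 hQ0.ne' _ _
  refine ⟨(kr + 1) * D / c0, K2 * D ^ 2 / Q, s ^ (d + Δ) * Q ^ (h + 1), by positivity,
    ?_, ?_, ?_, ?_, ?_, ?_, ?_, ?_, ?_, ?_⟩
  · rw [hkr1]
    exact num_eta hQ1' hDr hc0 hkr0 hNinv hK2b
  · have e1 : K2 * (D : ℝ) ^ 2 / Q + K2 * D ^ 2 / Q = 2 * K2 * (D : ℝ) ^ 2 / Q := by ring
    rw [e1, div_le_one hQ0]
    linarith
  · rw [hkr1]
    exact num_theta hQ1' hc0 hkr0 hNinv
  · exact num_eps hQ1' hDr hc0 hd0 hΔ0 (by rw [hkr]; push_cast; ring) (Nat.cast_nonneg _) hN0 hkr0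
      hNinv hK2a
  · rw [hsq, pow_add, hspow', pow_add]
    have e1 : 1 ≤ s ^ Δ := one_le_pow₀ hs1.le
    have e2 : Q ^ μ ≤ Q ^ (h + 1) := pow_le_pow_right₀ hQ1' hμh
    calc s ^ d * Q ^ μ = s ^ d * 1 * Q ^ μ := by ring
      _ ≤ s ^ d * s ^ Δ * Q ^ (h + 1) := by gcongr
  · have e1 : d + (Δ + k * D - h * D) = (d + Δ) + h * D := by
      have : k * D = h * D + h * D := by rw [hk]; ring
      omega
    rw [hsq, e1, pow_add, hspow']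
    have e2 : Q ^ h ≤ Q ^ (h + 1) := pow_le_pow_right₀ hQ1' (by omega)
    gcongr
  · exact num_G2 (one_le_pow₀ hs1.le) hQ1' hDr hK2p (h + 1)
  · exact num_sing (by positivity) hθ0 hθ1 hQ1' hδ g2
  · rw [hT0, ← mul_assoc 2, hqpow', show 2 * (2 * μ) = 4 * μ by ring]
    refine num_major (μ := (μ : ℝ) + 1) (by positivity) ?_ (by positivity) hθ0 hK3p hD0 hθ1 hQ1' hδ
      g3
    push_cast
    nlinarith
  · rw [hT0, hspow', show Δ + N0 * D + d = (Δ + d) + N0 * D by ring, pow_add s, hspow',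
      show 4 * μ + 2 = 2 * N0 + 1 + (10 * N0 + 5) by rw [hμ]; ring, hμ, pow_add q, hqpow']
    refine num_minor (by positivity) hK3p hK8p hθ0 hD0 hθ1 hQ1' (by positivity) ?_ g4 g5
    rw [← hjk, hK8, ← hjk]
    exact num_K8 (by positivity) (by positivity) hN0 hD0 hQ1' hc0 hNinv j N0

end Pool.Agent.Helper83.GQ
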