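import Pool.Agent.Helper83.GQ.StepA
import Pool.Agent.Helper83.GQ.Num2

/-!
# The count theorem
-/

set_option autoImplicit false
set_option linter.unusedSectionVars false

namespace Pool.Agent.Helper83.GQ

open Polynomial Finset H39Gon.A2

variable {F : Type} [Field F] [Fintype F]

theorem countThm (hRH : RHyp F) (N0 : ℕ) : CountThm F N0 := by
  obtain ⟨k, hk⟩ : ∃ k, k = 26 * N0 + 14 := ⟨_, rfl⟩
  obtain ⟨h, hh⟩ : ∃ h, h = 13 * N0 + 7 := ⟨_, rfl⟩
  obtain ⟨j, hj⟩ : ∃ j, j = 25 * N0 + 14 := ⟨_, rfl⟩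
  obtain ⟨μ, hμ⟩ : ∃ μ, μ = 3 * N0 + 1 := ⟨_, rfl⟩
  refine ⟨k, by omega, fun ε hε => ?_⟩
  have hε8 : 0 < min (1 / 4) (ε / 8) := lt_min (by norm_num) (by positivity)
  obtain ⟨δ, hδ⟩ : ∃ δ : ℝ, δ = min (1 / 4) (ε / 8) := ⟨_, rfl⟩
  have hδ0 : 0 < δ := by rw [hδ]; exact hε8
  have hδ1 : δ ≤ 1 / 4 := by rw [hδ]; exact min_le_left _ _
  have hδ2 : δ ≤ ε / 8 := by rw [hδ]; exact min_le_right _ _
  obtain ⟨r0, hr0⟩ := exists_pow_lt_of_lt_one (show 0 < δ / 12 by positivity)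
    (show (1 / 2 : ℝ) < 1 by norm_num)
  refine ⟨max r0 1, fun r hr a b c hT => ?_⟩
  have hr1 : 1 ≤ r := by omega
  have hrδ : 12 * (1 / 2 : ℝ) ^ r ≤ δ := by
    have h1 : (1 / 2 : ℝ) ^ r ≤ (1 / 2) ^ r0 :=
      pow_le_pow_of_le_one (by norm_num) (by norm_num) (by omega)
    linarith
  obtain ⟨c0, hc0, D1, hD1⟩ := many hRH r
  obtain ⟨D2, hD2⟩ := numB F N0 k h j μ (R0 F r).natDegree c.natDegree (by omega) (by omega)
    (by omega) hμ (by omega) hc0 hδ0
  obtain ⟨D3, hD3⟩ := manyLetters hRH r 1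
  refine ⟨max (max D1 D2) (max D3 ((R0 F r).natDegree + c.natDegree + 1)), fun D hD => ?_⟩
  simp only [max_le_iff] at hD
  obtain ⟨⟨hDa, hDb⟩, hDc, hDd⟩ := hD
  have hDpos : 1 ≤ D := by omega
  have hX1 := hD3 D hDc
  have hXn : (XL F r D).Nonempty := card_pos.1 hX1
  have hN1 : (1 : ℝ) ≤ ((XL F r D).card : ℝ) := by exact_mod_cast hX1
  obtain ⟨θ, e, G0, he0, n1, n2, n3, n4, n5, n6, n7, n8, n9, n10⟩ :=
    hD2 D hDb _ hN1 (hD1 D hDa)
  have hq0 : (0 : ℝ) < Fintype.card F := by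
    have : 0 < Fintype.card F := Fintype.card_pos
    exact_mod_cast this
  have hq1 : (1 : ℝ) ≤ Fintype.card F := by
    have : 0 < Fintype.card F := Fintype.card_pos
    exact_mod_cast this
  have hqd1 : 1 ≤ (Fintype.card F : ℝ) ^ (R0 F r).natDegree := one_le_pow₀ hq1
  have hqn : (0 : ℝ) < (Fintype.card F : ℝ) ^ (c.natDegree + k * D) := by positivity
  refine ⟨(Fintype.card F : ℝ) ^ (R0 F r).natDegree /
    (Fintype.card F : ℝ) ^ (c.natDegree + k * D), by positivity, fun T hTc z hgood => ?_⟩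
  have hμD : μ * D + D ≤ k * D := by
    have : (μ + 1) * D ≤ k * D := Nat.mul_le_mul_right _ (by omega)
    linarith
  have h2h : 2 * (h * D) = k * D := by rw [show k = 2 * h by omega]; ring
  have hl : (h + 1) * D = h * D + D := by ring
  have hk1 : (k + 1 + 1) * D = k * D + D + D := by ring
  have hμ2 : 2 * (μ * D) ≤ h * D := by
    have : (2 * μ) * D ≤ h * D := Nat.mul_le_mul_right _ (by omega)
    linarith
  have h1 := stepA hRH (N0 := N0) (k := k) (n := c.natDegree + k * D) (l0 := h + 1) (kY := k + 1)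
    (m1 := h * D) (m2 := μ * D) (j0 := j) hr1 hDpos hT (by omega) hXn T hTc z hgood rfl (by omega)
    (by omega) (by omega) (by omega) (by omega) (by omega) (θ := θ) (ε := e) (η := e) (G0 := G0)
    (S := δ + δ) he0 n1 n2 n3 n4 n5 n6 n7 (add_le_add hrδ n8) (by linarith)
  refine h1.trans ?_
  have h2 := add_le_add (add_le_add n9 (le_refl ((Fintype.card F : ℝ) ^ (R0 F r).natDegree *
    (2 * (δ + δ))))) n10
  refine (div_le_div_of_nonneg_right h2 hqn.le).trans ?_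
  have h3 : ε * ((Fintype.card F : ℝ) ^ (R0 F r).natDegree /
    (Fintype.card F : ℝ) ^ (c.natDegree + k * D)) = (ε * (Fintype.card F : ℝ) ^ (R0 F r).natDegree) /
    (Fintype.card F : ℝ) ^ (c.natDegree + k * D) := by ring
  rw [h3]
  refine div_le_div_of_nonneg_right ?_ hqn.le
  nlinarith

end Pool.Agent.Helper83.GQ
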