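import Mathlib

/-!
# Expansions in characters
-/

set_option autoImplicit false
set_option linter.unusedSectionVars false

namespace Pool.Agent.Helper83.GQ

open Finset

section

variable {B : Type} [CommRing B] [Finite B] [DecidableEq B]

noncomputable instance fintypeMulChar : Fintype (MulChar B ℂ) := Fintype.ofFinite _

/-- number of units -/
noncomputable def nu (B : Type) [CommRing B] : ℕ := Nat.card Bˣ

theorem nu_pos : 0 < nu B := Nat.card_pos

theorem card_mulChar : (univ : Finset (MulChar B ℂ)).card = nu B := by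
  rw [card_univ, ← Nat.card_eq_fintype_card, MulChar.card_eq_card_units_of_hasEnoughRootsOfUnity B ℂ]
  rfl

theorem sum_char (a : B) : ∑ χ : MulChar B ℂ, χ a = if a = 1 then (nu B : ℂ) else 0 := by
  split_ifs with h
  · rw [h]
    have h1 : ∀ χ : MulChar B ℂ, χ (1 : B) = 1 := fun χ => by rw [map_one]
    rw [sum_congr rfl (fun χ _ => h1 χ), sum_const, nsmul_eq_mul, mul_one, card_mulChar]
  · obtain ⟨χ0, hχ0⟩ := MulChar.exists_apply_ne_one_of_hasEnoughRootsOfUnity B ℂ h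
    have h1 : ∑ χ : MulChar B ℂ, χ a = ∑ χ : MulChar B ℂ, (χ0 * χ) a :=
      (Fintype.sum_equiv (Equiv.mulLeft χ0) _ _ (fun χ => rfl)).symm
    have h2 : ∑ χ : MulChar B ℂ, (χ0 * χ) a = χ0 a * ∑ χ : MulChar B ℂ, χ a := by
      rw [mul_sum]
      exact sum_congr rfl fun χ _ => MulChar.mul_apply χ0 χ a
    rw [h2] at h1
    have h3 : (χ0 a - 1) * ∑ χ : MulChar B ℂ, χ a = 0 := by linear_combination -h1
    rcases mul_eq_zero.1 h3 with h4 | h4
    · exact absurd (sub_eq_zero.1 h4) hχ0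
    · exact h4

theorem orth {s : B} (hs : IsUnit s) (b : B) :
    ∑ χ : MulChar B ℂ, χ⁻¹ s * χ b = if b = s then (nu B : ℂ) else 0 := by
  have h1 : ∀ χ : MulChar B ℂ, χ⁻¹ s * χ b = χ (Ring.inverse s * b) := by
    intro χ
    rw [map_mul, MulChar.inv_apply]
  rw [sum_congr rfl fun χ _ => h1 χ, sum_char]
  have h2 : Ring.inverse s * b = 1 ↔ b = s := by
    constructor
    · intro h
      have := congrArg (fun x => s * x) h
      simp only [mul_one] at this
      rwa [← mul_assoc, Ring.mul_inverse_cancel s hs, one_mul] at this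
    · rintro rfl
      exact Ring.inverse_mul_cancel b hs
  simp only [h2]

theorem norm_char {χ : MulChar B ℂ} {b : B} (hb : IsUnit b) : ‖χ b‖ = 1 := by
  obtain ⟨u, rfl⟩ := hb
  have h1 : (χ (u : B)) ^ (Nat.card Bˣ) = 1 := by
    rw [← map_pow, ← Units.val_pow_eq_pow_val, pow_card_eq_one', Units.val_one, map_one]
  exact Complex.norm_eq_one_of_pow_eq_one h1 Nat.card_pos.ne'

theorem norm_char_le (χ : MulChar B ℂ) (b : B) : ‖χ b‖ ≤ 1 := by
  by_cases hb : IsUnit b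
  · exact (norm_char hb).le
  · rw [χ.map_nonunit hb, norm_zero]
    exact zero_le_one

variable (G : Finset B)

/-- characters trivial on `G` -/
def Xi (χ : MulChar B ℂ) : Prop := ∀ b ∈ G, χ b = 1

/-- Fourier coefficient -/
noncomputable def fc (f : B → ℂ) (χ : MulChar B ℂ) : ℂ := (∑ s ∈ G, f s * χ⁻¹ s) / nu B

variable {G}

theorem inversion (hG : ∀ b ∈ G, IsUnit b) (f : B → ℂ) (b : B) :
    ∑ χ : MulChar B ℂ, fc G f χ * χ b = if b ∈ G then f b else 0 := by
  have hn : (nu B : ℂ) ≠ 0 := by exact_mod_cast (nu_pos (B := B)).ne'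
  have h1 : ∑ χ : MulChar B ℂ, fc G f χ * χ b
      = (∑ s ∈ G, f s * ∑ χ : MulChar B ℂ, χ⁻¹ s * χ b) / nu B := by
    unfold fc
    simp only [mul_sum, div_mul_eq_mul_div, sum_mul]
    rw [← sum_div, sum_comm]
    congr 1
    refine sum_congr rfl fun s _ => sum_congr rfl fun χ _ => by ring
  rw [h1]
  have h2 : ∀ s ∈ G, f s * ∑ χ : MulChar B ℂ, χ⁻¹ s * χ b
      = if b = s then f s * (nu B : ℂ) else 0 := by
    intro s hs
    rw [orth (hG s hs)]
    split_ifs <;> simp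
  rw [sum_congr rfl h2, sum_ite_eq]
  split_ifs
  · field_simp
  · simp

theorem parseval_fc (hG : ∀ b ∈ G, IsUnit b) (f : B → ℂ) :
    ∑ χ : MulChar B ℂ, ‖fc G f χ‖ ^ 2 = (∑ s ∈ G, ‖f s‖ ^ 2) / nu B := by
  have hn : (nu B : ℂ) ≠ 0 := by exact_mod_cast (nu_pos (B := B)).ne'
  have h0 : ∀ z : ℂ, ((‖z‖ ^ 2 : ℝ) : ℂ) = z * star z := by
    intro z
    rw [Complex.star_def, Complex.mul_conj, Complex.normSq_eq_norm_sq]
  have key : ((∑ χ : MulChar B ℂ, ‖fc G f χ‖ ^ 2 : ℝ) : ℂ)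
      = (((∑ s ∈ G, ‖f s‖ ^ 2) / nu B : ℝ) : ℂ) := by
    push_cast
    have h1 : ∀ χ : MulChar B ℂ, ((‖fc G f χ‖ : ℂ)) ^ 2
        = (∑ t ∈ G, star (f t) * (fc G f χ * χ t)) / nu B := by
      intro χ
      rw [← Complex.ofReal_pow, h0]
      have h2 : star (fc G f χ) = (∑ t ∈ G, star (f t) * χ t) / nu B := by
        unfold fc
        rw [star_div₀, star_sum]
        congr 1
        · refine sum_congr rfl fun t _ => ?_
          rw [star_mul', MulChar.star_apply', inv_inv]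
        · simp
      rw [h2, mul_div_assoc', mul_sum]
      congr 1
      exact sum_congr rfl fun t _ => by ring
    rw [sum_congr rfl fun χ _ => h1 χ, ← sum_div, sum_comm]
    congr 1
    refine sum_congr rfl fun t ht => ?_
    rw [← mul_sum, inversion hG, if_pos ht, ← Complex.ofReal_pow, h0]
    ring
  exact_mod_cast key

theorem sum_fc_le (hG : ∀ b ∈ G, IsUnit b) (f : B → ℂ) (hf : ∀ b, ‖f b‖ ≤ 1) :
    ∑ χ : MulChar B ℂ, ‖fc G f χ‖ ≤ √(G.card : ℝ) := by
  have hn : (0 : ℝ) < nu B := by exact_mod_cast (nu_pos (B := B))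
  apply Real.le_sqrt_of_sq_le
  calc (∑ χ : MulChar B ℂ, ‖fc G f χ‖) ^ 2
      ≤ ((univ : Finset (MulChar B ℂ)).card : ℝ) * ∑ χ : MulChar B ℂ, ‖fc G f χ‖ ^ 2 :=
        sq_sum_le_card_mul_sum_sq
    _ = ∑ s ∈ G, ‖f s‖ ^ 2 := by
        rw [parseval_fc hG, card_mulChar]
        field_simp
    _ ≤ ∑ s ∈ G, (1 : ℝ) := sum_le_sum fun s _ => by
        have := hf s
        have h0 := norm_nonneg (f s)
        nlinarith
    _ = G.card := by simp

theorem sum_G_eq_zero (hG : ∀ b ∈ G, IsUnit b) (hGm : ∀ a ∈ G, ∀ b ∈ G, a * b ∈ G)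
    (χ : MulChar B ℂ) (h : ¬ Xi G χ) : ∑ b ∈ G, χ b = 0 := by
  unfold Xi at h
  push Not at h
  obtain ⟨a, ha, hne⟩ := h
  have h1 : ∑ b ∈ G, χ b = ∑ b ∈ G, χ (a * b) := by
    symm
    apply sum_nbij (fun b => a * b)
    · intro b hb
      exact hGm a ha b hb
    · intro b _ b' _ h
      exact (hG a ha).mul_left_cancel h
    · have hinj : Set.InjOn (fun b => a * b) (G : Set B) := fun b _ b' _ h =>
        (hG a ha).mul_left_cancel h
      exact Finset.surjOn_of_injOn_of_card_le _ (fun b hb => hGm a ha b hb) hinj le_rfl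
    · intro b _
      rfl
  simp only [map_mul] at h1
  rw [← mul_sum] at h1
  have h2 : (χ a - 1) * ∑ b ∈ G, χ b = 0 := by linear_combination -h1
  rcases mul_eq_zero.1 h2 with h3 | h3
  · exact absurd (sub_eq_zero.1 h3) hne
  · exact h3

theorem Xi_inv {χ : MulChar B ℂ} (h : Xi G χ) : ∀ b ∈ G, χ⁻¹ b = 1 := by
  intro b hb
  rw [← MulChar.star_apply', h b hb, star_one]

theorem Xi_inv_iff {χ : MulChar B ℂ} : Xi G χ⁻¹ ↔ Xi G χ := by
  constructor
  · intro h b hb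
    have := Xi_inv h b hb
    rwa [inv_inv] at this
  · intro h
    exact Xi_inv h

open Classical in
theorem exp_G (hG : ∀ b ∈ G, IsUnit b) (hGm : ∀ a ∈ G, ∀ b ∈ G, a * b ∈ G) (b : B) :
    (if b ∈ G then (1 : ℂ) else 0) = (G.card : ℂ) / nu B *
      ∑ χ ∈ (univ : Finset (MulChar B ℂ)).filter (Xi G), χ b := by
  have h1 := inversion hG (fun _ => (1 : ℂ)) b
  have h2 : ∀ χ : MulChar B ℂ, fc G (fun _ => (1 : ℂ)) χ
      = if Xi G χ then (G.card : ℂ) / nu B else 0 := by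
    intro χ
    unfold fc
    simp only [one_mul]
    split_ifs with h
    · rw [sum_congr rfl fun s hs => Xi_inv h s hs]
      simp
    · rw [sum_G_eq_zero hG hGm χ⁻¹ (fun h' => h (Xi_inv_iff.1 h')), zero_div]
  rw [← h1, mul_sum, sum_filter]
  refine sum_congr rfl fun χ _ => ?_
  rw [h2]
  split_ifs <;> simp

open Classical in
theorem card_Xi (hG : ∀ b ∈ G, IsUnit b) (hG1 : (1 : B) ∈ G) (hGm : ∀ a ∈ G, ∀ b ∈ G, a * b ∈ G) :
    (G.card : ℂ) * (((univ : Finset (MulChar B ℂ)).filter (Xi G)).card : ℂ) = nu B := by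
  have h1 := exp_G hG hGm (1 : B)
  rw [if_pos hG1] at h1
  simp only [map_one, sum_const, nsmul_eq_mul, mul_one] at h1
  have hn : (nu B : ℂ) ≠ 0 := by exact_mod_cast (nu_pos (B := B)).ne'
  field_simp at h1
  rw [h1]

open Classical in
/-- bound of a character sum of products, by the average over `G` and an error term -/
theorem fourier_bound (hG : ∀ b ∈ G, IsUnit b) (hG1 : (1 : B) ∈ G)
    (hGm : ∀ a ∈ G, ∀ b ∈ G, a * b ∈ G) (f : B → ℂ) (hf : ∀ b, ‖f b‖ ≤ 1)
    (S : MulChar B ℂ → ℂ) (τ : ℝ) (hτ : 0 ≤ τ) (hS : ∀ χ, ¬ Xi G χ → ‖S χ‖ ≤ τ) (s0 : ℂ) (hs0 : ‖s0‖ ≤ 1)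
    (hS0 : ∀ χ, Xi G χ → S χ = s0) (l : ℕ) :
    ‖∑ χ : MulChar B ℂ, fc G f χ * S χ ^ l‖ ≤
      ‖∑ b ∈ G, f b‖ / G.card + √(G.card : ℝ) * τ ^ l := by
  have hn : (nu B : ℂ) ≠ 0 := by exact_mod_cast (nu_pos (B := B)).ne'
  have hGc : (G.card : ℂ) ≠ 0 := by
    have : 0 < G.card := card_pos.2 ⟨1, hG1⟩
    exact_mod_cast this.ne'
  have h1 : ∑ χ : MulChar B ℂ, fc G f χ * S χ ^ l =
      ∑ χ ∈ univ.filter (Xi G), fc G f χ * S χ ^ l +
      ∑ χ ∈ univ.filter (fun χ => ¬ Xi G χ), fc G f χ * S χ ^ l :=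
    (sum_filter_add_sum_filter_not _ _ _).symm
  rw [h1]
  refine (norm_add_le _ _).trans (add_le_add ?_ ?_)
  · have h2 : ∑ χ ∈ univ.filter (Xi G), fc G f χ * S χ ^ l
        = ((∑ b ∈ G, f b) / G.card) * s0 ^ l := by
      have h3 : ∀ χ ∈ univ.filter (Xi G), fc G f χ * S χ ^ l =
          (∑ b ∈ G, f b) / nu B * s0 ^ l := by
        intro χ hχ
        have hχ' : Xi G χ := (mem_filter.1 hχ).2
        rw [hS0 χ hχ']
        unfold fc
        rw [sum_congr rfl fun s hs => by rw [Xi_inv hχ' s hs, mul_one]]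
      rw [sum_congr rfl h3, sum_const, nsmul_eq_mul]
      have h4 := card_Xi hG hG1 hGm
      have h5 : ((univ.filter (Xi G)).card : ℂ) = nu B / G.card := by
        rw [← h4]; field_simp
      rw [h5]
      field_simp
    rw [h2, norm_mul, norm_pow, norm_div, Complex.norm_natCast]
    exact mul_le_of_le_one_right (by positivity) (pow_le_one₀ (norm_nonneg _) hs0)
  · refine (norm_sum_le _ _).trans ?_
    calc ∑ χ ∈ univ.filter (fun χ => ¬ Xi G χ), ‖fc G f χ * S χ ^ l‖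
        ≤ ∑ χ ∈ univ.filter (fun χ => ¬ Xi G χ), ‖fc G f χ‖ * τ ^ l := by
          refine sum_le_sum fun χ hχ => ?_
          rw [norm_mul, norm_pow]
          have := hS χ (mem_filter.1 hχ).2
          gcongr
      _ ≤ ∑ χ : MulChar B ℂ, ‖fc G f χ‖ * τ ^ l := by
          refine sum_le_sum_of_subset_of_nonneg (filter_subset _ _) fun χ _ _ => by positivity
      _ = (∑ χ : MulChar B ℂ, ‖fc G f χ‖) * τ ^ l := by rw [sum_mul]
      _ ≤ _ := mul_le_mul_of_nonneg_right (sum_fc_le hG f hf) (by positivity)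

end

end Pool.Agent.Helper83.GQ
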