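import Pool.Agent.Helper83.GQ.Base

/-!
# Ramanujan sums
-/

set_option autoImplicit false
set_option linter.unusedSectionVars false

namespace Pool.Agent.Helper83.GQ

open Polynomial Finset

variable {F : Type} [Field F] [Fintype F]

open Classical in
/-- monic polynomials of degree `n` with `a y ≡ 1` modulo `R`, prime to `Π`. -/
noncomputable def YY (n : ℕ) (Q : Finset F[X]) (R a : F[X]) : Finset F[X] :=
  (MonD F n).filter (fun y => R ∣ a * y - 1 ∧ ∀ p ∈ Q, ¬ p ∣ y)

theorem mem_YY {n : ℕ} {Q : Finset F[X]} {R a y : F[X]} :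
    y ∈ YY n Q R a ↔ y ∈ MonD F n ∧ R ∣ a * y - 1 ∧ ∀ p ∈ Q, ¬ p ∣ y := by
  classical
  unfold YY
  rw [mem_filter]

/-- norm of a prime -/
noncomputable def nm (p : F[X]) : ℝ := (Fintype.card F : ℝ) ^ p.natDegree

theorem add_mem_MonD {n : ℕ} {y z : F[X]} (hy : y ∈ MonD F n) (hz : z.degree < n) :
    y + z ∈ MonD F n := by
  rw [mem_MonD] at hy ⊢
  have h1 : z.degree < y.degree := by
    rw [degree_eq_natDegree hy.1.ne_zero, hy.2]
    exact hz
  exact ⟨hy.1.add_of_left h1, by rw [natDegree_add_eq_left_of_degree_lt h1, hy.2]⟩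

theorem add_mem_YY {n : ℕ} {Q : Finset F[X]} {R a y M z : F[X]} (hRM : R ∣ M)
    (hQM : ∀ p ∈ Q, p ∣ M) (hz : (M * z).degree < n) (hy : y ∈ YY n Q R a) :
    y + M * z ∈ YY n Q R a := by
  rw [mem_YY] at hy ⊢
  refine ⟨add_mem_MonD hy.1 hz, ?_, fun p hp h => ?_⟩
  · have h1 : a * (y + M * z) - 1 = (a * y - 1) + M * (a * z) := by ring
    rw [h1]
    exact dvd_add hy.2.1 (hRM.mul_right _)
  · apply hy.2.2 p hp
    have := dvd_sub h ((hQM p hp).mul_right z)
    simpa using this

theorem sum_translate {n : ℕ} {Q : Finset F[X]} {R a M z : F[X]} (hRM : R ∣ M)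
    (hQM : ∀ p ∈ Q, p ∣ M) (hz : (M * z).degree < n) (f : F[X] → ℂ) :
    ∑ y ∈ YY n Q R a, f (y + M * z) = ∑ y ∈ YY n Q R a, f y := by
  refine sum_nbij' (fun y => y + M * z) (fun y => y - M * z) ?_ ?_ ?_ ?_ ?_
  · intro y hy
    exact add_mem_YY hRM hQM hz hy
  · intro y hy
    have h1 : y - M * z = y + M * (-z) := by ring
    rw [h1]
    exact add_mem_YY hRM hQM (by rw [mul_neg, degree_neg]; exact hz) hy
  · intro y _; ring
  · intro y _; ring
  · intro y _; rfl

variable (e : AddChar F[X] ℂ)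

theorem kill {n : ℕ} {Q : Finset F[X]} {R a w M : F[X]} (hRM : R ∣ M)
    (hQM : ∀ p ∈ Q, p ∣ M) (h : ∃ z : F[X], (M * z).degree < n ∧ e (w * (M * z)) ≠ 1) :
    ∑ y ∈ YY n Q R a, e (w * y) = 0 := by
  obtain ⟨z, hz, hne⟩ := h
  have h1 := sum_translate (a := a) hRM hQM hz (fun y => e (w * y))
  have h2 : ∀ y, e (w * (y + M * z)) = e (w * y) * e (w * (M * z)) := by
    intro y
    rw [mul_add, AddChar.map_add_eq_mul]
  rw [sum_congr rfl fun y _ => h2 y, ← sum_mul] at h1
  have h3 : (∑ y ∈ YY n Q R a, e (w * y)) * (e (w * (M * z)) - 1) = 0 := by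
    linear_combination h1
  exact (mul_eq_zero.1 h3).resolve_right (sub_ne_zero.2 hne)

open Classical in
theorem card_div {p M y : F[X]} (hp : p.Monic) (hc : IsCoprime M p) :
    ((Low F p.natDegree).filter (fun z => p ∣ y + M * z)).card = 1 := by
  rw [card_eq_one]
  obtain ⟨u, v, huv⟩ := hc
  refine ⟨(-(u * y)) %ₘ p, ?_⟩
  ext z
  rw [mem_filter, mem_singleton, mem_Low]
  have hdd := modByMonic_add_div (-(u * y)) p
  have hdl : ((-(u * y)) %ₘ p).degree < (p.natDegree : WithBot ℕ) := by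
    have := degree_modByMonic_lt (-(u * y)) hp
    rwa [degree_eq_natDegree hp.ne_zero] at this
  have hd1 : p ∣ y + M * ((-(u * y)) %ₘ p) := by
    have h1 : (-(u * y)) %ₘ p = -(u * y) - p * ((-(u * y)) /ₘ p) := by linear_combination hdd
    rw [h1]
    refine ⟨y * v - M * ((-(u * y)) /ₘ p), ?_⟩
    linear_combination (-y) * huv
  constructor
  · rintro ⟨h1, h2⟩
    have h3 : p ∣ M * (z - (-(u * y)) %ₘ p) := by
      have := dvd_sub h2 hd1
      convert this using 1
      ring
    have h4 : p ∣ z - (-(u * y)) %ₘ p := (IsCoprime.symm ⟨u, v, huv⟩ : IsCoprime p M).dvd_of_dvd_mul_left h3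
    have h5 : (z - (-(u * y)) %ₘ p).degree < p.degree := by
      rw [degree_eq_natDegree hp.ne_zero]
      exact (degree_sub_le _ _).trans_lt (max_lt h1 hdl)
    exact sub_eq_zero.1 (eq_zero_of_dvd_of_degree_lt h4 h5)
  · rintro rfl
    exact ⟨hdl, hd1⟩

open Classical in
theorem per_sum {n : ℕ} {Q : Finset F[X]} {R a w M p : F[X]} (hRM : R ∣ M)
    (hQM : ∀ p ∈ Q, p ∣ M) (hp : p.Monic) (hc : IsCoprime M p)
    (hn : M.natDegree + p.natDegree ≤ n)
    (hper : ∀ z : F[X], (M * z).degree < n → e (w * (M * z)) = 1) :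
    (nm p : ℂ) * ∑ y ∈ (YY n Q R a).filter (fun y => p ∣ y), e (w * y)
      = ∑ y ∈ YY n Q R a, e (w * y) := by
  have hdeg : ∀ z ∈ Low F p.natDegree, (M * z).degree < n := by
    intro z hz
    rw [mem_Low] at hz
    by_cases hM0 : M * z = 0
    · rw [hM0, degree_zero]; exact WithBot.bot_lt_coe _
    · have hz0 : z ≠ 0 := right_ne_zero_of_mul hM0
      have hM0 : M ≠ 0 := left_ne_zero_of_mul hM0
      rw [degree_eq_natDegree hz0] at hz
      have hz' : z.natDegree < p.natDegree := by exact_mod_cast hz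
      rw [degree_mul, degree_eq_natDegree hM0, degree_eq_natDegree hz0]
      exact_mod_cast (by omega : M.natDegree + z.natDegree < n)
  have h1 : ∑ z ∈ Low F p.natDegree, ∑ y ∈ YY n Q R a,
      (if p ∣ y + M * z then e (w * (y + M * z)) else 0)
      = (nm p : ℂ) * ∑ y ∈ (YY n Q R a).filter (fun y => p ∣ y), e (w * y) := by
    have h2 : ∀ z ∈ Low F p.natDegree, ∑ y ∈ YY n Q R a,
      (if p ∣ y + M * z then e (w * (y + M * z)) else 0)
      = ∑ y ∈ (YY n Q R a).filter (fun y => p ∣ y), e (w * y) := by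
      intro z hz
      rw [sum_filter]
      exact sum_translate hRM hQM (hdeg z hz) (fun y => if p ∣ y then e (w * y) else 0)
    rw [sum_congr rfl h2, sum_const, card_Low, nsmul_eq_mul]
    congr 1
    unfold nm
    push_cast
    rfl
  rw [← h1, sum_comm]
  refine sum_congr rfl fun y _ => ?_
  have h3 : ∀ z ∈ Low F p.natDegree, (if p ∣ y + M * z then e (w * (y + M * z)) else 0)
      = if p ∣ y + M * z then e (w * y) else 0 := by
    intro z hz
    rw [mul_add, AddChar.map_add_eq_mul, hper z (hdeg z hz), mul_one]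
  rw [sum_congr rfl h3, ← sum_filter, sum_const, card_div hp hc, one_smul]

open Classical in
theorem sum_YY_div {n : ℕ} {Q : Finset F[X]} {R a p : F[X]} (hp : p.Monic) (hpi : Irreducible p)
    (hQ : ∀ p' ∈ Q, p'.Monic ∧ Irreducible p') (hpQ : p ∉ Q)
    (hn : p.natDegree ≤ n) (f : F[X] → ℂ) :
    ∑ y ∈ (YY n Q R a).filter (fun y => p ∣ y), f y
      = ∑ y ∈ YY (n - p.natDegree) Q R (a * p), f (p * y) := by
  symm
  refine sum_nbij (fun y => p * y) ?_ ?_ ?_ ?_
  · intro y hy
    rw [mem_YY, mem_MonD] at hy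
    rw [mem_filter, mem_YY, mem_MonD]
    refine ⟨⟨⟨hp.mul hy.1.1, ?_⟩, ?_, ?_⟩, dvd_mul_right _ _⟩
    · rw [hp.natDegree_mul hy.1.1, hy.1.2]; omega
    · rw [← mul_assoc]; exact hy.2.1
    · intro p' hp' h
      have h1 := (hQ p' hp').2.prime.dvd_or_dvd h
      rcases h1 with h1 | h1
      · apply hpQ
        rw [← eq_of_monic_of_associated (hQ p' hp').1 hp ((hQ p' hp').2.associated_of_dvd hpi h1)]
        exact hp'
      · exact hy.2.2 p' hp' h1
  · intro y _ y' _ h
    exact mul_left_cancel₀ hp.ne_zero h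
  · intro y hy
    rw [mem_coe, mem_filter, mem_YY, mem_MonD] at hy
    obtain ⟨⟨⟨h1, h2⟩, h3, h4⟩, x, rfl⟩ := hy
    have hx : x.Monic := by
      have := hp.of_mul_monic_left h1
      exact this
    refine ⟨x, ?_, rfl⟩
    rw [mem_coe, mem_YY, mem_MonD]
    refine ⟨⟨hx, ?_⟩, ?_, ?_⟩
    · rw [hp.natDegree_mul hx] at h2; omega
    · rw [mul_assoc]; exact h3
    · intro p' hp' h
      exact h4 p' hp' (h.mul_left p)
  · intro y _; rfl

open Classical in
theorem sum_YY_insert {n : ℕ} {Q : Finset F[X]} {R a p : F[X]} (f : F[X] → ℂ) :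
    ∑ y ∈ YY n (insert p Q) R a, f y
      = ∑ y ∈ YY n Q R a, f y - ∑ y ∈ (YY n Q R a).filter (fun y => p ∣ y), f y := by
  rw [← sum_filter_add_sum_filter_not (YY n Q R a) (fun y => p ∣ y), add_sub_cancel_left]
  apply sum_congr _ fun _ _ => rfl
  ext y
  rw [mem_filter, mem_YY, mem_YY]
  constructor
  · rintro ⟨h1, h2, h3⟩
    exact ⟨⟨h1, h2, fun p' hp' => h3 p' (mem_insert_of_mem hp')⟩, h3 p (mem_insert_self _ _)⟩
  · rintro ⟨⟨h1, h2, h3⟩, h4⟩
    refine ⟨h1, h2, fun p' hp' => ?_⟩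
    rcases mem_insert.1 hp' with h | h
    · rw [h]; exact h4
    · exact h3 p' h

theorem nm_pos (p : F[X]) : 0 < nm p := by
  unfold nm
  have := Fintype.card_pos (α := F)
  positivity

theorem nm_ge_two {p : F[X]} (hp : Irreducible p) : 2 ≤ nm p := by
  unfold nm
  have h1 : 2 ≤ Fintype.card F := Fintype.one_lt_card
  have h2 : 0 < p.natDegree := hp.natDegree_pos
  calc (2 : ℝ) ≤ Fintype.card F := by exact_mod_cast h1
    _ = (Fintype.card F : ℝ) ^ 1 := (pow_one _).symm
    _ ≤ _ := pow_le_pow_right₀ (by exact_mod_cast (by omega : 1 ≤ Fintype.card F)) h2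

/-- the bound for the Ramanujan sums -/
theorem ram {R : F[X]} (hR : R.Monic) (he : ∀ x, ‖e x‖ ≤ 1) (Q : Finset F[X]) :
    (∀ p ∈ Q, p.Monic ∧ Irreducible p ∧ IsCoprime R p) →
    ∀ (n : ℕ) (a w : F[X]), R.natDegree + ∑ p ∈ Q, p.natDegree ≤ n →
    ∑ y ∈ YY n Q R a, e (w * y) = 0 ∨ ∃ J ⊆ Q,
      (∀ z : F[X], (R * (∏ p ∈ J, p) * z).degree < n → e (w * (R * (∏ p ∈ J, p) * z)) = 1) ∧
      ‖∑ y ∈ YY n Q R a, e (w * y)‖ ≤ ((YY n Q R a).card : ℝ) * ∏ p ∈ J, (nm p - 1)⁻¹ := by
  classical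
  induction Q using Finset.induction_on with
  | empty =>
    intro _ n a w _
    by_cases h : ∃ z : F[X], (R * z).degree < n ∧ e (w * (R * z)) ≠ 1
    · left
      exact kill e dvd_rfl (by simp) h
    · right
      push Not at h
      refine ⟨∅, subset_rfl, ?_, ?_⟩
      · simpa using h
      · rw [prod_empty, mul_one]
        refine (norm_sum_le _ _).trans ?_
        calc _ ≤ ∑ y ∈ YY n ∅ R a, (1 : ℝ) := sum_le_sum fun y _ => he _
          _ = _ := by simp
  | insert p Q hpQ ih =>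
    intro hQ n a w hn
    have hp := hQ p (mem_insert_self _ _)
    have hQ' : ∀ p ∈ Q, p.Monic ∧ Irreducible p ∧ IsCoprime R p := fun p' hp' =>
      hQ p' (mem_insert_of_mem hp')
    have hQ'' : ∀ p ∈ Q, p.Monic ∧ Irreducible p := fun p' hp' => ⟨(hQ' p' hp').1, (hQ' p' hp').2.1⟩
    rw [sum_insert hpQ] at hn
    set M := R * ∏ p ∈ Q, p with hM
    have hMm : (∏ p ∈ Q, p).Monic := monic_prod_of_monic _ _ fun p' hp' => (hQ' p' hp').1
    have hMd : M.natDegree = R.natDegree + ∑ p ∈ Q, p.natDegree := by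
      rw [hM, hR.natDegree_mul hMm, natDegree_prod_of_monic _ _ fun p' hp' => (hQ' p' hp').1]
    have hRM : R ∣ M := dvd_mul_right _ _
    have hQM : ∀ p ∈ Q, p ∣ M := fun p' hp' => (dvd_prod_of_mem _ hp').mul_left _
    have hc : IsCoprime M p := by
      refine IsCoprime.mul_left hp.2.2 (IsCoprime.prod_left fun p' hp' => ?_)
      exact coprime_of_monic_irr (hQ' p' hp').1 (hQ' p' hp').2.1 hp.1 hp.2.1
        (fun h => hpQ (h ▸ hp'))
    have hn' : M.natDegree + p.natDegree ≤ n := by rw [hMd]; omega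
    have hnp : (nm p : ℂ) ≠ 0 := by
      have := nm_pos p
      exact_mod_cast this.ne'
    have hnp2 := nm_ge_two hp.2.1
    -- cardinalities
    have hcard0 := per_sum (Q := Q) (R := R) (a := a) (w := w) (1 : AddChar F[X] ℂ) hRM hQM hp.1 hc
      hn' (fun z _ => by simp)
    have hcard1 := sum_YY_insert (n := n) (Q := Q) (R := R) (a := a) (p := p)
      (fun y => (1 : AddChar F[X] ℂ) (w * y))
    simp only [AddChar.one_apply, sum_const, nsmul_eq_mul, mul_one] at hcard0 hcard1
    have hc0 : nm p * ((((YY n Q R a).filter (fun y => p ∣ y)).card : ℕ) : ℝ) =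
      ((YY n Q R a).card : ℝ) := by exact_mod_cast hcard0
    have hc1 : ((YY n (insert p Q) R a).card : ℝ) = ((YY n Q R a).card : ℝ) -
      (((YY n Q R a).filter (fun y => p ∣ y)).card : ℝ) := by exact_mod_cast hcard1
    set c0 : ℝ := (((YY n Q R a).filter (fun y => p ∣ y)).card : ℝ) with hc0d
    have hc2 : ((YY n (insert p Q) R a).card : ℝ) = (nm p - 1) * c0 := by rw [hc1, ← hc0]; ring
    rw [sum_YY_insert]
    by_cases hper : ∃ z : F[X], (M * z).degree < n ∧ e (w * (M * z)) ≠ 1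
    · have h0 := kill e (a := a) hRM hQM hper
      have h1 := sum_YY_div (R := R) (a := a) (Q := Q) hp.1 hp.2.1 hQ'' hpQ (by omega : p.natDegree ≤ n)
        (fun y => e (w * y))
      rw [h0, zero_sub, h1]
      have h2 : ∀ y, e (w * (p * y)) = e ((w * p) * y) := fun y => by rw [mul_assoc]
      simp only [h2]
      rcases ih hQ' (n - p.natDegree) (a * p) (w * p) (by omega) with h3 | ⟨J, hJ, h4, h5⟩
      · left
        rw [h3, neg_zero]
      · right
        have hpJ : p ∉ J := fun h => hpQ (hJ h)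
        refine ⟨insert p J, insert_subset_insert _ hJ, ?_, ?_⟩
        · intro z hz
          rw [prod_insert hpJ] at hz ⊢
          have h6 : w * (R * (p * ∏ p ∈ J, p) * z) = (w * p) * (R * (∏ p ∈ J, p) * z) := by ring
          rw [h6]
          apply h4
          by_cases hz0 : R * (∏ p ∈ J, p) * z = 0
          · rw [hz0, degree_zero]; exact WithBot.bot_lt_coe _
          · have h7 : R * (p * ∏ p ∈ J, p) * z = p * (R * (∏ p ∈ J, p) * z) := by ring
            rw [h7, degree_mul, degree_eq_natDegree hp.1.ne_zero, degree_eq_natDegree hz0] at hz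
            rw [degree_eq_natDegree hz0]
            have : p.natDegree + (R * (∏ p ∈ J, p) * z).natDegree < n := by exact_mod_cast hz
            exact_mod_cast (by omega :
              (R * (∏ p ∈ J, p) * z).natDegree < n - p.natDegree)
        · have h8 : ((YY (n - p.natDegree) Q R (a * p)).card : ℝ) = c0 := by
            have := sum_YY_div (R := R) (a := a) (Q := Q) hp.1 hp.2.1 hQ'' hpQ
              (by omega : p.natDegree ≤ n) (fun _ => (1 : ℂ))
            simp only [sum_const, nsmul_eq_mul, mul_one] at this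
            rw [hc0d]
            exact_mod_cast this.symm
          rw [norm_neg, prod_insert hpJ]
          refine h5.trans (le_of_eq ?_)
          rw [h8, hc2]
          have : nm p - 1 ≠ 0 := by linarith
          field_simp
    · push Not at hper
      have h0 := per_sum (R := R) (Q := Q) (a := a) e hRM hQM hp.1 hc hn' hper
      have h1 : ∑ y ∈ (YY n Q R a).filter (fun y => p ∣ y), e (w * y) =
          (∑ y ∈ YY n Q R a, e (w * y)) / nm p := by
        rw [eq_div_iff hnp, ← h0]; ring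
      rw [h1]
      have h2 : (∑ y ∈ YY n Q R a, e (w * y)) - (∑ y ∈ YY n Q R a, e (w * y)) / nm p =
          (∑ y ∈ YY n Q R a, e (w * y)) * (((nm p - 1) / nm p : ℝ) : ℂ) := by
        push_cast
        field_simp
      rw [h2]
      rcases ih hQ' n a w (by omega) with h3 | ⟨J, hJ, h4, h5⟩
      · left
        rw [h3, zero_mul]
      · right
        refine ⟨J, hJ.trans (subset_insert _ _), h4, ?_⟩
        have h6 : 0 ≤ (nm p - 1) / nm p := div_nonneg (by linarith) (by linarith)
        rw [norm_mul, Complex.norm_real, Real.norm_of_nonneg h6]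
        calc _ ≤ ((YY n Q R a).card : ℝ) * (∏ p ∈ J, (nm p - 1)⁻¹) * ((nm p - 1) / nm p) :=
              mul_le_mul_of_nonneg_right h5 h6
          _ = _ := by
              rw [hc2, ← hc0]
              field_simp

end Pool.Agent.Helper83.GQ
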