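import Pool.Agent.Helper83.GQ.Cls
import Pool.Agent.Helper83.GQ.Exp
import Pool.Agent.Helper83.GQ.Ram
import Pool.Agent.Helper83.GQ.Avg

/-!
# Equidistribution of products of letters
-/

set_option autoImplicit false
set_option linter.unusedSectionVars false

namespace Pool.Agent.Helper83.GQ

open Polynomial Finset

variable (F : Type) [Field F] [Fintype F]

/-- the Riemann hypothesis for the `L`-functions of the ray class characters of `F(t)`, in the
form of bounds of the character sums over the primes; and the prime number theorem. -/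
structure RHyp : Prop where
  bound : ∀ (M : F[X]) (κ : ℕ), M.Monic → ∀ χ : MulChar (BB M κ) ℂ,
    (∃ f : F[X], f.Monic ∧ IsCoprime f M ∧ χ (cls M κ f) ≠ 1) → ∀ D : ℕ, 1 ≤ D →
    ‖∑ P ∈ Pr F D, χ (cls M κ P)‖ ≤ (M.natDegree + κ + 2) * √(Fintype.card F : ℝ) ^ D
  count : ∀ D : ℕ, 1 ≤ D → (Fintype.card F : ℝ) ^ D ≤ D * (Pr F D).card +
    2 * √(Fintype.card F : ℝ) ^ D

variable {F}

open Classical in
/-- primes dividing `M` and not `R` -/
noncomputable def QM (R M : F[X]) : Finset F[X] :=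
  (SP F M.natDegree).filter (fun p => p ∣ M ∧ ¬ p ∣ R)

theorem mem_QM {R M p : F[X]} (hM : M.Monic) :
    p ∈ QM R M ↔ p.Monic ∧ Irreducible p ∧ p ∣ M ∧ ¬ p ∣ R := by
  classical
  unfold QM
  rw [mem_filter, mem_SP]
  constructor
  · rintro ⟨⟨h1, h2, h3⟩, h4, h5⟩
    exact ⟨h1, h2, h4, h5⟩
  · rintro ⟨h1, h2, h4, h5⟩
    exact ⟨⟨h1, h2, natDegree_le_of_dvd h4 hM.ne_zero⟩, h4, h5⟩

theorem coprime_iff_QM {R M y : F[X]} (hM : M.Monic) (hy : R ∣ y - 1) :
    IsCoprime y M ↔ ∀ p ∈ QM R M, ¬ p ∣ y := by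
  constructor
  · intro h p hp hd
    rw [mem_QM hM] at hp
    exact hp.2.1.not_isUnit (h.isUnit_of_dvd' hd hp.2.2.1)
  · intro h
    classical
    refine EuclideanDomain.isCoprime_of_dvd (fun h0 => hM.ne_zero h0.2) ?_
    intro z hz _ hzy hzM
    obtain ⟨p, hp1, hp2, hp3⟩ := exists_monic_irreducible_factor _ hz
    have hpy := hp3.trans hzy
    have hpM := hp3.trans hzM
    refine h p ((mem_QM hM).2 ⟨hp1, hp2, hpM, fun hpR => ?_⟩) hpy
    have h1 := dvd_sub hpy (hpR.trans hy)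
    rw [sub_sub_cancel] at h1
    exact hp2.not_isUnit (isUnit_of_dvd_one h1)

section

variable {R M : F[X]} (hR : R.Monic) (hM : M.Monic) (hRM : R ∣ M) {κ n : ℕ}
  (hn : M.natDegree + κ ≤ n)

open Classical in
/-- the group of the classes `≡ 1 mod R` -/
noncomputable def GG (R M : F[X]) (κ n : ℕ) : Finset (BB M κ) :=
  (YY n (QM R M) R 1).image (cls M κ)

include hM hRM hn in
theorem mem_GG {b : BB M κ} : b ∈ GG R M κ n ↔
    ∃ f : F[X], f.Monic ∧ IsCoprime f M ∧ R ∣ f - 1 ∧ cls M κ f = b := by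
  classical
  unfold GG
  rw [mem_image]
  constructor
  · rintro ⟨y, hy, rfl⟩
    rw [mem_YY, one_mul, mem_MonD] at hy
    exact ⟨y, hy.1.1, (coprime_iff_QM hM hy.2.1).2 hy.2.2, hy.2.1, rfl⟩
  · rintro ⟨f, hf1, hf2, hf3, rfl⟩
    obtain ⟨y, hy1, hy2⟩ := exists_cls_eq' hM hn hf1
    refine ⟨y, ?_, hy2⟩
    have h1 : M ∣ y - f := by
      have := congrArg Prod.fst hy2
      exact AdjoinRoot.mk_eq_mk.1 this
    have hyc : IsCoprime y M := by
      have : cls M κ y = cls M κ f := hy2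
      rw [← isUnit_cls_iff (κ := κ) (mem_MonD.1 hy1).1, this, isUnit_cls_iff hf1]
      exact hf2
    have hyR : R ∣ y - 1 := by
      have := dvd_add (hRM.trans h1) hf3
      convert this using 1
      ring
    rw [mem_YY, one_mul]
    exact ⟨hy1, hyR, (coprime_iff_QM hM hyR).1 hyc⟩

include hM hRM hn in
theorem GG_unit : ∀ b ∈ GG R M κ n, IsUnit b := by
  intro b hb
  obtain ⟨f, h1, h2, -, rfl⟩ := (mem_GG hM hRM hn).1 hb
  exact (isUnit_cls_iff h1).2 h2

include hM hRM hn in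
theorem GG_one : (1 : BB M κ) ∈ GG R M κ n :=
  (mem_GG hM hRM hn).2 ⟨1, monic_one, isCoprime_one_left, by simp, cls_one M κ⟩

include hM hRM hn in
theorem GG_mul : ∀ a ∈ GG R M κ n, ∀ b ∈ GG R M κ n, a * b ∈ GG R M κ n := by
  intro a ha b hb
  obtain ⟨f, h1, h2, h3, rfl⟩ := (mem_GG hM hRM hn).1 ha
  obtain ⟨g, h1', h2', h3', rfl⟩ := (mem_GG hM hRM hn).1 hb
  refine (mem_GG hM hRM hn).2 ⟨f * g, h1.mul h1', h2.mul_left h2', ?_, cls_mul M κ f g⟩
  have h4 : f * g - 1 = f * (g - 1) + (f - 1) := by ring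
  rw [h4]
  exact dvd_add (h3'.mul_left _) h3

open Classical in
include hM hRM hn in
/-- sums over the classes -/
theorem sum_YY_GG (f : BB M κ → ℂ) :
    ∑ y ∈ YY n (QM R M) R 1, f (cls M κ y) =
      ((Fintype.card F ^ (n - M.natDegree - κ) : ℕ) : ℂ) * ∑ b ∈ GG R M κ n, f b := by
  have h1 : ∑ y ∈ YY n (QM R M) R 1, f (cls M κ y) =
      ∑ b ∈ GG R M κ n, ∑ y ∈ (YY n (QM R M) R 1).filter (fun y => cls M κ y = b), f (cls M κ y) :=
    (sum_fiberwise_of_maps_to (fun y hy => mem_image_of_mem _ hy) _).symm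
  rw [h1, mul_sum]
  refine sum_congr rfl fun b hb => ?_
  obtain ⟨f0, h2, h3, h4, rfl⟩ := (mem_GG hM hRM hn).1 hb
  have h5 : (YY n (QM R M) R 1).filter (fun y => cls M κ y = cls M κ f0) =
      (MonD F n).filter (fun y => cls M κ y = cls M κ f0) := by
    ext y
    rw [mem_filter, mem_filter, mem_YY, one_mul]
    constructor
    · rintro ⟨⟨h, -, -⟩, h'⟩; exact ⟨h, h'⟩
    · rintro ⟨hy, h'⟩
      have h6 : M ∣ y - f0 := AdjoinRoot.mk_eq_mk.1 (congrArg Prod.fst h')
      have hyc : IsCoprime y M := by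
        rw [← isUnit_cls_iff (κ := κ) (mem_MonD.1 hy).1, h', isUnit_cls_iff h2]
        exact h3
      have hyR : R ∣ y - 1 := by
        have := dvd_add (hRM.trans h6) h4
        convert this using 1
        ring
      exact ⟨⟨hy, hyR, (coprime_iff_QM hM hyR).1 hyc⟩, h'⟩
  have h6 : ∀ y ∈ (YY n (QM R M) R 1).filter (fun y => cls M κ y = cls M κ f0),
      f (cls M κ y) = f (cls M κ f0) := by
    intro y hy
    rw [(mem_filter.1 hy).2]
  rw [sum_congr rfl h6, sum_const, h5, card_fiber_cls hM hn h2, nsmul_eq_mul]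

include hM hRM hn in
theorem card_YY_GG : (YY n (QM R M) R 1).card =
    Fintype.card F ^ (n - M.natDegree - κ) * (GG R M κ n).card := by
  have h := sum_YY_GG hM hRM hn (fun _ => (1 : ℂ))
  simp only [sum_const, nsmul_eq_mul, mul_one] at h
  exact_mod_cast h

include hM hRM hn in
theorem card_GG_le : (GG R M κ n).card ≤ Fintype.card F ^ (M.natDegree + κ) := by
  classical
  have h1 := card_YY_GG hM hRM hn
  have h2 : (YY n (QM R M) R 1).card ≤ Fintype.card F ^ n := by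
    rw [← card_MonD]
    unfold YY
    exact card_filter_le _ _
  have h3 : Fintype.card F ^ n = Fintype.card F ^ (n - M.natDegree - κ) *
      Fintype.card F ^ (M.natDegree + κ) := by
    rw [← pow_add]
    congr 1
    omega
  rw [h1, h3] at h2
  have hq : 0 < Fintype.card F := Fintype.card_pos
  exact Nat.le_of_mul_le_mul_left h2 (by positivity)

end

theorem iter_char {M : F[X]} {κ : ℕ} [Fintype (MulChar (BB M κ) ℂ)] (X' : Finset F[X]) (N : ℝ)
    (c : MulChar (BB M κ) ℂ → ℂ) (l : ℕ) (v : F[X]) :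
    (Op X' N)^[l] (fun y => ∑ χ : MulChar (BB M κ) ℂ, c χ * χ (cls M κ y)) v =
      ∑ χ : MulChar (BB M κ) ℂ, c χ * ((∑ P ∈ X', χ (cls M κ P)) / N) ^ l * χ (cls M κ v) := by
  induction l generalizing v with
  | zero => simp
  | succ l ih =>
    rw [Function.iterate_succ_apply']
    unfold Op at ih ⊢
    simp only [ih, cls_mul, map_mul]
    rw [sum_comm, sum_div]
    refine sum_congr rfl fun χ _ => ?_
    rw [← mul_sum, ← mul_sum]
    ring

theorem iter_agree {r D : ℕ} {M : F[X]} (hM : M.Monic) [DecidablePred (fun P : F[X] => ¬ P ∣ M)]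
    (N : ℝ) (h h' : F[X] → ℂ) (l : ℕ) (v : F[X])
    (hh : ∀ y ∈ YY (l * D) (QM (R0 F r) M) (R0 F r) 1, h (v * y) = h' (v * y)) :
    (Op ((XL F r D).filter (fun P => ¬ P ∣ M)) N)^[l] h v =
      (Op ((XL F r D).filter (fun P => ¬ P ∣ M)) N)^[l] h' v := by
  induction l generalizing v with
  | zero =>
    have := hh 1 (by
      rw [mem_YY, mem_MonD]
      refine ⟨⟨monic_one, by simp⟩, by simp, fun p hp h => ?_⟩
      exact ((mem_QM hM).1 hp).2.1.not_isUnit (isUnit_of_dvd_one h))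
    simpa using this
  | succ l ih =>
    rw [Function.iterate_succ_apply', Function.iterate_succ_apply']
    change (∑ P ∈ _, _) / _ = (∑ P ∈ _, _) / _
    congr 1
    refine sum_congr rfl fun P hP => ?_
    rw [mem_filter, mem_XL] at hP
    apply ih
    intro y hy
    rw [mul_assoc]
    apply hh
    rw [mem_YY, mem_MonD, one_mul] at hy ⊢
    refine ⟨⟨hP.1.1.mul hy.1.1, ?_⟩, ?_, ?_⟩
    · rw [hP.1.1.natDegree_mul hy.1.1, hy.1.2, hP.1.2.1]; ring
    · have h4 : P * y - 1 = P * (y - 1) + (P - 1) := by ring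
      rw [h4]
      exact dvd_add (hy.2.1.mul_left _) hP.1.2.2.2
    · intro p hp hd
      have hp' := (mem_QM hM).1 hp
      rcases hp'.2.1.prime.dvd_or_dvd hd with h1 | h1
      · apply hP.2
        rw [← eq_of_monic_of_associated hp'.1 hP.1.1 (hp'.2.1.associated_of_dvd hP.1.2.2.1 h1)]
        exact hp'.2.2.1
      · exact hy.2.2 p hp h1

open Classical in
/-- bound of the sums of the nontrivial characters over the letters -/
theorem letter_sum (hRH : RHyp F) {r D : ℕ} (hD : 1 ≤ D) {M : F[X]} (hM : M.Monic)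
    (hRM : R0 F r ∣ M) {κ n : ℕ} (hn : M.natDegree + κ ≤ n) [Finite (BB M κ)]
    (χ : MulChar (BB M κ) ℂ) (hχ : ¬ Xi (GG (R0 F r) M κ n) χ) :
    ‖∑ P ∈ (XL F r D).filter (fun P => ¬ P ∣ M), χ (cls M κ P)‖ ≤
      (M.natDegree + κ + 2) * √(Fintype.card F : ℝ) ^ D := by
  set G := GG (R0 F r) M κ n with hG
  have hGu := GG_unit hM hRM hn (κ := κ)
  have hG1 := GG_one hM hRM hn (κ := κ)
  have hGm := GG_mul hM hRM hn (κ := κ)
  have h1 : ∑ P ∈ (XL F r D).filter (fun P => ¬ P ∣ M), χ (cls M κ P) =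
      ∑ P ∈ Pr F D, (if cls M κ P ∈ G then (1 : ℂ) else 0) * χ (cls M κ P) := by
    have h2 : (XL F r D).filter (fun P => ¬ P ∣ M) ⊆ Pr F D := by
      intro P hP
      rw [mem_filter, mem_XL] at hP
      exact mem_Pr.2 ⟨hP.1.1, hP.1.2.1, hP.1.2.2.1⟩
    rw [← sum_subset h2]
    · refine sum_congr rfl fun P hP => ?_
      rw [mem_filter, mem_XL] at hP
      have hc : IsCoprime P M := by
        rw [hP.1.2.2.1.coprime_iff_not_dvd]; exact hP.2
      rw [if_pos, one_mul]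
      exact (mem_GG hM hRM hn).2 ⟨P, hP.1.1, hc, hP.1.2.2.2, rfl⟩
    · intro P hP hP'
      rw [mem_Pr] at hP
      by_cases hPM : P ∣ M
      · rw [χ.map_nonunit, mul_zero]
        rw [isUnit_cls_iff hP.1, hP.2.2.coprime_iff_not_dvd]
        exact fun h => h hPM
      · rw [if_neg, zero_mul]
        intro hmem
        apply hP'
        obtain ⟨f, h3, h4, h5, h6⟩ := (mem_GG hM hRM hn).1 hmem
        have h7 : M ∣ f - P := AdjoinRoot.mk_eq_mk.1 (congrArg Prod.fst h6)
        rw [mem_filter, mem_XL]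
        refine ⟨⟨hP.1, hP.2.1, hP.2.2, ?_⟩, hPM⟩
        have := dvd_sub h5 (hRM.trans h7)
        convert this using 1
        ring
  have h2 : ∑ P ∈ Pr F D, (if cls M κ P ∈ G then (1 : ℂ) else 0) * χ (cls M κ P) =
      (G.card : ℂ) / nu (BB M κ) * ∑ η ∈ univ.filter (Xi G),
        ∑ P ∈ Pr F D, (χ * η) (cls M κ P) := by
    have h3 : ∀ P : F[X], (if cls M κ P ∈ G then (1 : ℂ) else 0) = (G.card : ℂ) / nu (BB M κ) *
        ∑ χ ∈ univ.filter (Xi G), χ (cls M κ P) := by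
      intro P
      convert exp_G hGu hGm (cls M κ P)
    simp only [h3]
    rw [sum_comm, mul_sum]
    refine sum_congr rfl fun P _ => ?_
    rw [mul_assoc, sum_mul]
    congr 1
    refine sum_congr rfl fun η _ => ?_
    rw [MulChar.mul_apply, mul_comm]
  rw [h1, h2, norm_mul]
  unfold Xi at hχ
  push Not at hχ
  obtain ⟨b, hb, hne⟩ := hχ
  obtain ⟨f, h3, h4, h5, h6⟩ := (mem_GG hM hRM hn).1 hb
  have h7 : ‖∑ η ∈ univ.filter (Xi G), ∑ P ∈ Pr F D, (χ * η) (cls M κ P)‖ ≤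
      ((univ.filter (Xi G) : Finset (MulChar (BB M κ) ℂ)).card : ℝ) *
        ((M.natDegree + κ + 2) * √(Fintype.card F : ℝ) ^ D) := by
    refine (norm_sum_le _ _).trans ?_
    rw [← nsmul_eq_mul, ← sum_const]
    refine sum_le_sum fun η hη => ?_
    apply hRH.bound M κ hM (χ * η) _ D hD
    refine ⟨f, h3, h4, ?_⟩
    rw [MulChar.mul_apply, h6, (mem_filter.1 hη).2 b hb, mul_one]
    exact hne
  have h8 := card_Xi hGu hG1 hGm
  have h9 : ((G.card : ℝ)) * ((univ.filter (Xi G) : Finset (MulChar (BB M κ) ℂ)).card : ℝ) =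
      nu (BB M κ) := by exact_mod_cast h8
  have hnu : (0 : ℝ) < nu (BB M κ) := by exact_mod_cast (nu_pos (B := BB M κ))
  rw [norm_div, Complex.norm_natCast, Complex.norm_natCast]
  calc _ ≤ (G.card : ℝ) / nu (BB M κ) *
        (((univ.filter (Xi G) : Finset (MulChar (BB M κ) ℂ)).card : ℝ) *
        ((M.natDegree + κ + 2) * √(Fintype.card F : ℝ) ^ D)) :=
        mul_le_mul_of_nonneg_left h7 (by positivity)
    _ = ((G.card : ℝ) * ((univ.filter (Xi G) : Finset (MulChar (BB M κ) ℂ)).card : ℝ)) /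
        nu (BB M κ) * ((M.natDegree + κ + 2) * √(Fintype.card F : ℝ) ^ D) := by ring
    _ = _ := by rw [h9, div_self hnu.ne', one_mul]

open Classical in
/-- Lemma K -/
theorem lemK (hRH : RHyp F) {r D : ℕ} (hD : 1 ≤ D) {M : F[X]} (hM : M.Monic)
    (hRM : R0 F r ∣ M) {κ l : ℕ} (hn : M.natDegree + κ ≤ l * D) {N : ℝ} (hN : 0 < N)
    (hNX : ((XL F r D).card : ℝ) ≤ N) (e : AddChar F[X] ℂ) (he : ∀ x, ‖e x‖ ≤ 1) (v : F[X])
    (hcomp : ∀ y ∈ MonD F (l * D), ∀ y' ∈ MonD F (l * D), cls M κ y = cls M κ y' →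
      e (v * y) = e (v * y')) :
    ‖(Op ((XL F r D).filter (fun P => ¬ P ∣ M)) N)^[l] e v‖ ≤
      ‖∑ y ∈ YY (l * D) (QM (R0 F r) M) (R0 F r) 1, e (v * y)‖ /
        ((YY (l * D) (QM (R0 F r) M) (R0 F r) 1).card : ℝ) +
      √((Fintype.card F : ℝ) ^ (M.natDegree + κ)) *
        ((M.natDegree + κ + 2) * √(Fintype.card F : ℝ) ^ D / N) ^ l := by
  have := finite_BB hM κ
  set G := GG (R0 F r) M κ (l * D) with hG
  have hGu := GG_unit hM hRM hn (κ := κ)
  have hG1 := GG_one hM hRM hn (κ := κ)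
  have hGm := GG_mul hM hRM hn (κ := κ)
  let f : BB M κ → ℂ := fun b => if h : ∃ y ∈ MonD F (l * D), cls M κ y = b then
    e (v * h.choose) else 0
  have hf1 : ∀ b, ‖f b‖ ≤ 1 := by
    intro b
    by_cases h : ∃ y ∈ MonD F (l * D), cls M κ y = b
    · simp only [f, dif_pos h]; exact he _
    · simp only [f, dif_neg h, norm_zero]; exact zero_le_one
  have hf2 : ∀ y ∈ MonD F (l * D), f (cls M κ y) = e (v * y) := by
    intro y hy
    have h : ∃ y' ∈ MonD F (l * D), cls M κ y' = cls M κ y := ⟨y, hy, rfl⟩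
    simp only [f, dif_pos h]
    exact hcomp _ h.choose_spec.1 _ hy h.choose_spec.2
  have h1 : (Op ((XL F r D).filter (fun P => ¬ P ∣ M)) N)^[l] e v =
      (Op ((XL F r D).filter (fun P => ¬ P ∣ M)) N)^[l] (fun y => e (v * y)) 1 := by
    have : ∀ (l : ℕ) (u : F[X]), (Op ((XL F r D).filter (fun P => ¬ P ∣ M)) N)^[l] e (v * u) =
      (Op ((XL F r D).filter (fun P => ¬ P ∣ M)) N)^[l] (fun y => e (v * y)) u := by
      intro l
      induction l with
      | zero => intro u; rfl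
      | succ l ih =>
        intro u
        rw [Function.iterate_succ_apply', Function.iterate_succ_apply']
        unfold Op at ih ⊢
        simp only [mul_assoc, ih]
    have h2 := this l 1
    rwa [mul_one] at h2
  have h2 : (Op ((XL F r D).filter (fun P => ¬ P ∣ M)) N)^[l] (fun y => e (v * y)) 1 =
      (Op ((XL F r D).filter (fun P => ¬ P ∣ M)) N)^[l]
        (fun y => ∑ χ : MulChar (BB M κ) ℂ, fc G f χ * χ (cls M κ y)) 1 := by
    apply iter_agree hM
    intro y hy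
    rw [one_mul, inversion hGu, if_pos, hf2 y (mem_YY.1 hy).1]
    exact mem_image_of_mem _ hy
  rw [h1, h2, iter_char]
  simp only [cls_one, map_one, mul_one]
  have h3 := fourier_bound hGu hG1 hGm f hf1
    (fun χ => (∑ P ∈ (XL F r D).filter (fun P => ¬ P ∣ M), χ (cls M κ P)) / N)
    ((M.natDegree + κ + 2) * √(Fintype.card F : ℝ) ^ D / N) (by positivity)
    (fun χ hχ => by
      rw [norm_div, Complex.norm_real, Real.norm_of_nonneg hN.le]
      exact div_le_div_of_nonneg_right (letter_sum hRH hD hM hRM hn χ hχ) hN.le)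
    ((((XL F r D).filter (fun P => ¬ P ∣ M)).card : ℂ) / N) (by
      rw [norm_div, Complex.norm_real, Real.norm_of_nonneg hN.le, Complex.norm_natCast]
      apply div_le_one_of_le₀ _ hN.le
      refine le_trans ?_ hNX
      exact_mod_cast card_filter_le _ _)
    (fun χ hχ => by
      have h4 : ∀ P ∈ (XL F r D).filter (fun P => ¬ P ∣ M), χ (cls M κ P) = 1 := by
        intro P hP
        rw [mem_filter, mem_XL] at hP
        apply hχ
        refine (mem_GG hM hRM hn).2 ⟨P, hP.1.1, ?_, hP.1.2.2.2, rfl⟩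
        rw [hP.1.2.2.1.coprime_iff_not_dvd]; exact hP.2
      rw [sum_congr rfl h4]
      simp) l
  refine h3.trans (add_le_add ?_ ?_)
  · have h4 : ∑ y ∈ YY (l * D) (QM (R0 F r) M) (R0 F r) 1, e (v * y) =
        ∑ y ∈ YY (l * D) (QM (R0 F r) M) (R0 F r) 1, f (cls M κ y) :=
      sum_congr rfl fun y hy => (hf2 y (mem_YY.1 hy).1).symm
    rw [h4, sum_YY_GG hM hRM hn, card_YY_GG hM hRM hn, norm_mul, Complex.norm_natCast]
    have hq : (0 : ℝ) < ((Fintype.card F ^ (l * D - M.natDegree - κ) : ℕ) : ℝ) := by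
      have : 0 < Fintype.card F := Fintype.card_pos
      positivity
    rw [Nat.cast_mul]
    rw [mul_div_mul_left _ _ hq.ne']
  · gcongr
    exact_mod_cast card_GG_le hM hRM hn

open Classical in
/-- Lemma K with the Ramanujan bound -/
theorem lemK' (hRH : RHyp F) {r D : ℕ} (hD : 1 ≤ D) {M : F[X]} (hM : M.Monic)
    (hRM : R0 F r ∣ M) {κ l : ℕ} (hn : M.natDegree + κ ≤ l * D) {N : ℝ} (hN : 0 < N)
    (hNX : ((XL F r D).card : ℝ) ≤ N) (e : AddChar F[X] ℂ) (he : ∀ x, ‖e x‖ ≤ 1) (v : F[X])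
    (hcomp : ∀ y ∈ MonD F (l * D), ∀ y' ∈ MonD F (l * D), cls M κ y = cls M κ y' →
      e (v * y) = e (v * y')) :
    ‖(Op ((XL F r D).filter (fun P => ¬ P ∣ M)) N)^[l] e v‖ ≤
      √((Fintype.card F : ℝ) ^ (M.natDegree + κ)) *
        ((M.natDegree + κ + 2) * √(Fintype.card F : ℝ) ^ D / N) ^ l ∨
    ∃ J ⊆ QM (R0 F r) M,
      (∀ z : F[X], (R0 F r * (∏ p ∈ J, p) * z).degree < (l * D : ℕ) →
        e (v * (R0 F r * (∏ p ∈ J, p) * z)) = 1) ∧
      ‖(Op ((XL F r D).filter (fun P => ¬ P ∣ M)) N)^[l] e v‖ ≤ (∏ p ∈ J, (nm p - 1)⁻¹) +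
      √((Fintype.card F : ℝ) ^ (M.natDegree + κ)) *
        ((M.natDegree + κ + 2) * √(Fintype.card F : ℝ) ^ D / N) ^ l := by
  have h1 := lemK hRH hD hM hRM hn hN hNX e he v hcomp
  have hcop : ∀ p ∈ QM (R0 F r) M, p.Monic ∧ Irreducible p ∧ IsCoprime (R0 F r) p := by
    intro p hp
    rw [mem_QM hM] at hp
    refine ⟨hp.1, hp.2.1, ?_⟩
    rw [isCoprime_comm, hp.2.1.coprime_iff_not_dvd]
    exact hp.2.2.2
  have hdeg : (R0 F r).natDegree + ∑ p ∈ QM (R0 F r) M, p.natDegree ≤ l * D := by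
    have hm : (∏ p ∈ QM (R0 F r) M, p).Monic := monic_prod_of_monic _ _ fun p hp => (hcop p hp).1
    have h2 : R0 F r * ∏ p ∈ QM (R0 F r) M, p ∣ M := by
      apply IsCoprime.mul_dvd
      · exact IsCoprime.prod_right fun p hp => (hcop p hp).2.2
      · exact hRM
      · refine Finset.prod_dvd_of_coprime ?_ ?_
        · intro p hp p' hp' hne
          exact coprime_of_monic_irr (hcop p hp).1 (hcop p hp).2.1 (hcop p' hp').1
            (hcop p' hp').2.1 hne
        · intro p hp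
          exact ((mem_QM hM).1 hp).2.2.1
    have h3 := natDegree_le_of_dvd h2 hM.ne_zero
    rw [(R0_monic r).natDegree_mul hm, natDegree_prod_of_monic _ _ fun p hp => (hcop p hp).1] at h3
    omega
  rcases ram e (R0_monic r) he (QM (R0 F r) M) hcop (l * D) 1 v hdeg with h2 | ⟨J, hJ, h3, h4⟩
  · left
    rw [h2, norm_zero, zero_div, zero_add] at h1
    exact h1
  · right
    refine ⟨J, hJ, h3, ?_⟩
    have h5 : ‖∑ y ∈ YY (l * D) (QM (R0 F r) M) (R0 F r) 1, e (v * y)‖ /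
        ((YY (l * D) (QM (R0 F r) M) (R0 F r) 1).card : ℝ) ≤ ∏ p ∈ J, (nm p - 1)⁻¹ := by
      have hpos : 0 < ((YY (l * D) (QM (R0 F r) M) (R0 F r) 1).card : ℝ) := by
        rw [card_YY_GG hM hRM hn]
        have h6 : 0 < (GG (R0 F r) M κ (l * D)).card := card_pos.2 ⟨1, GG_one hM hRM hn⟩
        have : 0 < Fintype.card F := Fintype.card_pos
        positivity
      rw [div_le_iff₀ hpos]
      refine h4.trans (le_of_eq (mul_comm _ _))
    exact h1.trans (add_le_add_left h5 _)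

end Pool.Agent.Helper83.GQ
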