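import Pool.Agent.Helper83.GQ.LemK

/-!
# The number of letters
-/

set_option autoImplicit false
set_option linter.unusedSectionVars false

namespace Pool.Agent.Helper83.GQ

open Polynomial Finset

variable {F : Type} [Field F] [Fintype F]

theorem one_lt_s : (1 : ℝ) < √(Fintype.card F : ℝ) := by
  rw [Real.lt_sqrt zero_le_one]
  have : 1 < Fintype.card F := Fintype.one_lt_card
  have : (1 : ℝ) < Fintype.card F := by exact_mod_cast this
  simpa using this

variable (F) in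
theorem small (A : ℕ) (K : ℝ) {δ : ℝ} (hδ : 0 < δ) : ∃ D0 : ℕ, ∀ D, D0 ≤ D →
    K * (D : ℝ) ^ A ≤ δ * √(Fintype.card F : ℝ) ^ D := by
  have hs := one_lt_s (F := F)
  have hs0 : 0 < √(Fintype.card F : ℝ) := by linarith
  have h1 := tendsto_pow_const_mul_const_pow_of_abs_lt_one A (r := (√(Fintype.card F : ℝ))⁻¹) (by
    rw [abs_of_pos (by positivity)]
    exact inv_lt_one_of_one_lt₀ hs)
  have h2 := h1.const_mul K
  rw [mul_zero] at h2
  have h3 := (h2.eventually_lt_const hδ).exists_forall_of_atTop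
  obtain ⟨D0, h⟩ := h3
  refine ⟨D0, fun D hD => ?_⟩
  have h4 := h D hD
  rw [inv_pow, ← mul_assoc, ← div_eq_mul_inv, div_lt_iff₀ (by positivity)] at h4
  exact h4.le

theorem sq_s (D : ℕ) : (Fintype.card F : ℝ) ^ D = (√(Fintype.card F : ℝ) ^ D) ^ 2 := by
  rw [← pow_mul, mul_comm, pow_mul, Real.sq_sqrt (Nat.cast_nonneg _)]

theorem one_le_Q (D : ℕ) : (1 : ℝ) ≤ √(Fintype.card F : ℝ) ^ D :=
  one_le_pow₀ (one_lt_s (F := F)).le

open Classical in
theorem XL_ge (hRH : RHyp F) (r : ℕ) {D : ℕ} (hD : 1 ≤ D) (hd : (R0 F r).natDegree < D) :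
    ((Pr F D).card : ℝ) - nu (BB (R0 F r) 0) * (((R0 F r).natDegree + 2) *
      √(Fintype.card F : ℝ) ^ D) ≤ nu (BB (R0 F r) 0) * ((XL F r D).card : ℝ) := by
  have hM := R0_monic (F := F) r
  have := finite_BB hM 0
  set M := R0 F r with hMd
  set ν := nu (BB M 0) with hν
  have hsub : (Pr F D).filter (fun P => cls M 0 P = 1) ⊆ XL F r D := by
    intro P hP
    rw [mem_filter, mem_Pr] at hP
    rw [mem_XL]
    refine ⟨hP.1.1, hP.1.2.1, hP.1.2.2, ?_⟩
    have h := hP.2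
    rw [← cls_one M 0] at h
    exact AdjoinRoot.mk_eq_mk.1 (congrArg Prod.fst h)
  have hC : (((Pr F D).filter (fun P => cls M 0 P = 1)).card : ℝ) ≤ (XL F r D).card := by
    exact_mod_cast card_le_card hsub
  have h1 : ∑ χ : MulChar (BB M 0) ℂ, ∑ P ∈ Pr F D, χ (cls M 0 P) =
      (ν : ℂ) * (((Pr F D).filter (fun P => cls M 0 P = 1)).card : ℂ) := by
    rw [sum_comm]
    have h2 : ∀ P ∈ Pr F D, ∑ χ : MulChar (BB M 0) ℂ, χ (cls M 0 P) =
        if cls M 0 P = 1 then (ν : ℂ) else 0 := fun P _ => by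
      have := sum_char (cls M 0 P)
      convert this
    rw [sum_congr rfl h2, ← sum_filter, sum_const, nsmul_eq_mul, mul_comm]
  set Tr := (univ : Finset (MulChar (BB M 0) ℂ)).filter
    (fun χ => ∀ f : F[X], f.Monic → IsCoprime f M → χ (cls M 0 f) = 1) with hTr
  have h1m : (1 : MulChar (BB M 0) ℂ) ∈ Tr := by
    rw [hTr, mem_filter]
    refine ⟨mem_univ _, fun f hf hc => ?_⟩
    exact MulChar.one_apply ((isUnit_cls_iff hf).2 hc)
  have hTc : (1 : ℝ) ≤ (Tr.card : ℝ) := by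
    exact_mod_cast card_pos.2 ⟨_, h1m⟩
  have h2 : ∑ χ ∈ Tr, ∑ P ∈ Pr F D, χ (cls M 0 P) = (Tr.card : ℂ) * ((Pr F D).card : ℂ) := by
    have h3 : ∀ χ ∈ Tr, ∑ P ∈ Pr F D, χ (cls M 0 P) = ((Pr F D).card : ℂ) := by
      intro χ hχ
      rw [hTr, mem_filter] at hχ
      have h4 : ∀ P ∈ Pr F D, χ (cls M 0 P) = 1 := by
        intro P hP
        rw [mem_Pr] at hP
        apply hχ.2 P hP.1
        rw [hP.2.2.coprime_iff_not_dvd]
        intro h5
        have := natDegree_le_of_dvd h5 hM.ne_zero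
        omega
      rw [sum_congr rfl h4, sum_const, nsmul_eq_mul, mul_one]
    rw [sum_congr rfl h3, sum_const, nsmul_eq_mul]
  have h3 : ‖∑ χ ∈ univ \ Tr, ∑ P ∈ Pr F D, χ (cls M 0 P)‖ ≤
      ν * ((M.natDegree + 2) * √(Fintype.card F : ℝ) ^ D) := by
    refine (norm_sum_le _ _).trans ?_
    have h4 : ∀ χ ∈ univ \ Tr, ‖∑ P ∈ Pr F D, χ (cls M 0 P)‖ ≤
        (M.natDegree + 2) * √(Fintype.card F : ℝ) ^ D := by
      intro χ hχ
      rw [mem_sdiff, hTr, mem_filter] at hχ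
      have h5 : ∃ f : F[X], f.Monic ∧ IsCoprime f M ∧ χ (cls M 0 f) ≠ 1 := by
        by_contra hcon
        push Not at hcon
        exact hχ.2 ⟨mem_univ _, hcon⟩
      have := hRH.bound M 0 hM χ h5 D hD
      simpa using this
    refine (sum_le_sum h4).trans ?_
    rw [sum_const, nsmul_eq_mul]
    refine mul_le_mul_of_nonneg_right ?_ (by positivity)
    have h6 : (univ \ Tr).card ≤ ν := by
      rw [hν, ← card_mulChar]
      exact card_le_card sdiff_subset
    exact_mod_cast h6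
  have h4 : (Tr.card : ℂ) * ((Pr F D).card : ℂ) = (ν : ℂ) *
      (((Pr F D).filter (fun P => cls M 0 P = 1)).card : ℂ) -
      ∑ χ ∈ univ \ Tr, ∑ P ∈ Pr F D, χ (cls M 0 P) := by
    rw [← h1, ← h2, ← sum_sdiff (subset_univ Tr)]
    ring
  have h5 : (Tr.card : ℝ) * ((Pr F D).card : ℝ) ≤ ν *
      (((Pr F D).filter (fun P => cls M 0 P = 1)).card : ℝ) +
      ν * ((M.natDegree + 2) * √(Fintype.card F : ℝ) ^ D) := by
    have h6 := congrArg norm h4
    rw [norm_mul, Complex.norm_natCast, Complex.norm_natCast] at h6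
    rw [h6]
    refine (norm_sub_le _ _).trans (add_le_add ?_ h3)
    rw [norm_mul, Complex.norm_natCast, Complex.norm_natCast]
  have h6 : ((Pr F D).card : ℝ) ≤ (Tr.card : ℝ) * ((Pr F D).card : ℝ) :=
    le_mul_of_one_le_left (Nat.cast_nonneg _) hTc
  have h7 : (ν : ℝ) * (((Pr F D).filter (fun P => cls M 0 P = 1)).card : ℝ) ≤
    ν * ((XL F r D).card : ℝ) := mul_le_mul_of_nonneg_left hC (Nat.cast_nonneg _)
  linarith

theorem many (hRH : RHyp F) (r : ℕ) : ∃ c0 : ℝ, 0 < c0 ∧ ∃ D0 : ℕ, ∀ D, D0 ≤ D →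
    c0 * (Fintype.card F : ℝ) ^ D ≤ D * ((XL F r D).card : ℝ) := by
  classical
  have := finite_BB (R0_monic (F := F) r) 0
  set ν : ℝ := (nu (BB (R0 F r) 0) : ℝ) with hν
  have hν0 : 0 < ν := by
    rw [hν]
    exact_mod_cast (nu_pos (B := BB (R0 F r) 0))
  set d := (R0 F r).natDegree with hd
  obtain ⟨D1, h1⟩ := small F 1 (ν * (d + 2) + 2) (δ := 1 / 2) (by norm_num)
  refine ⟨1 / (2 * ν), by positivity, max D1 (d + 1), fun D hD => ?_⟩
  have hD1 : 1 ≤ D := by omega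
  have h2 := h1 D (by omega)
  have h3 := XL_ge hRH r hD1 (by omega)
  have h4 := hRH.count D hD1
  rw [← hν, ← hd] at h3
  set Q := √(Fintype.card F : ℝ) ^ D with hQ
  have hQ1 : 1 ≤ Q := one_le_Q D
  rw [sq_s D, ← hQ] at h4 ⊢
  have hDr : (1 : ℝ) ≤ D := by exact_mod_cast hD1
  have h5 : (D : ℝ) * ((Pr F D).card : ℝ) - D * (ν * ((d + 2) * Q)) ≤
      D * (ν * ((XL F r D).card : ℝ)) := by
    have := mul_le_mul_of_nonneg_left h3 (by positivity : (0 : ℝ) ≤ D)
    linarith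
  have h6 : Q * ((ν * (d + 2) + 2) * D) ≤ Q * (1 / 2 * Q) := by
    apply mul_le_mul_of_nonneg_left _ (by positivity)
    simpa using h2
  have h7 : 2 * Q ≤ 2 * Q * D := by nlinarith
  have h8 : Q ^ 2 ≤ 2 * (D * (ν * ((XL F r D).card : ℝ))) := by nlinarith
  rw [div_mul_eq_mul_div, one_mul, div_le_iff₀ (by positivity)]
  nlinarith

theorem manyLetters (hRH : RHyp F) : ManyLetters F := by
  intro r n
  obtain ⟨c0, hc0, D1, h1⟩ := many hRH r
  obtain ⟨D2, h2⟩ := small F 1 (n : ℝ) hc0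
  refine ⟨max D1 (max D2 1), fun D hD => ?_⟩
  have e1 := h1 D (by omega)
  have e2 := h2 D (by omega)
  have hQ1 : (1 : ℝ) ≤ √(Fintype.card F : ℝ) ^ D := one_le_Q D
  rw [sq_s D] at e1
  have hDr : (1 : ℝ) ≤ D := by exact_mod_cast (by omega : 1 ≤ D)
  set Q := √(Fintype.card F : ℝ) ^ D with hQ
  rw [pow_one] at e2
  have e3 : (n : ℝ) * D ≤ c0 * Q ^ 2 := by
    refine e2.trans ?_
    apply mul_le_mul_of_nonneg_left _ hc0.le
    nlinarith
  have e4 : (D : ℝ) * n ≤ D * ((XL F r D).card : ℝ) := by linarith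
  have e5 : (n : ℝ) ≤ ((XL F r D).card : ℝ) := le_of_mul_le_mul_left e4 (by linarith)
  exact_mod_cast e5

end Pool.Agent.Helper83.GQ
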