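import Pool.Agent.Helper83.GQ.Main
import Pool.Graph.R_pool_sql_team_seeded_1e53cb71.Helper70K9.GC.Perf

/-!
# Examples of fields which are locally rational function fields over finite fields
-/

set_option autoImplicit false

namespace Pool.Agent.Helper83.GQ

open Polynomial

/-- `k(x)`, `k` algebraic over `F_p`. -/
theorem locRatFin_ratFunc (p : ℕ) [Fact p.Prime] (k : Type) [Field k]
    [Algebra (ZMod p) k] [Algebra.IsAlgebraic (ZMod p) k] : LocRatFin (RatFunc k) := by
  classical
  intro s
  let T : Finset k := s.biUnion (fun f => f.num.support.image f.num.coeff ∪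
    f.denom.support.image f.denom.coeff)
  let K := IntermediateField.adjoin (ZMod p) (T : Set k)
  have hint : ∀ x ∈ (T : Set k), IsIntegral (ZMod p) x :=
    fun x _ => (Algebra.IsAlgebraic.isAlgebraic x).isIntegral
  have h1 : FiniteDimensional (ZMod p) K :=
    IntermediateField.finiteDimensional_adjoin hint
  have h2 : Finite K := Module.finite_of_finite (ZMod p)
  have hinj : Function.Injective (algebraMap K k) := (algebraMap K k).injective
  have hle : (nonZeroDivisors K[X]) ≤
      (nonZeroDivisors k[X]).comap (mapRingHom (algebraMap K k)) := by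
    intro g hg
    rw [Submonoid.mem_comap, mem_nonZeroDivisors_iff_ne_zero]
    rw [mem_nonZeroDivisors_iff_ne_zero] at hg
    rw [coe_mapRingHom, Ne, Polynomial.map_eq_zero]
    exact hg
  refine ⟨K, inferInstance, h2, RatFunc.mapRingHom (mapRingHom (algebraMap K k)) hle,
    fun f hf => ?_⟩
  have hlift : ∀ g : k[X], (∀ i ∈ g.support, g.coeff i ∈ T) →
      ∃ g' : K[X], g'.map (algebraMap K k) = g := by
    intro g hg
    have h3 : g ∈ Polynomial.lifts (algebraMap K k) := by
      rw [Polynomial.lifts_iff_coeff_lifts]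
      intro i
      by_cases hi : i ∈ g.support
      · exact ⟨⟨g.coeff i, IntermediateField.subset_adjoin _ _ (hg i hi)⟩, rfl⟩
      · exact ⟨0, by rw [map_zero, notMem_support_iff.1 hi]⟩
    rw [Polynomial.mem_lifts] at h3
    exact h3
  obtain ⟨a, ha⟩ := hlift f.num (fun i hi => Finset.mem_biUnion.2 ⟨f, hf,
    Finset.mem_union_left _ (Finset.mem_image_of_mem _ hi)⟩)
  obtain ⟨b, hb⟩ := hlift f.denom (fun i hi => Finset.mem_biUnion.2 ⟨f, hf,
    Finset.mem_union_right _ (Finset.mem_image_of_mem _ hi)⟩)
  have hb0 : b ≠ 0 := by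
    rintro rfl
    rw [Polynomial.map_zero] at hb
    exact f.denom_ne_zero hb.symm
  refine ⟨algebraMap K[X] (RatFunc K) a / algebraMap K[X] (RatFunc K) b, ?_⟩
  rw [RatFunc.coe_mapRingHom_eq_coe_map, RatFunc.map_apply_div, coe_mapRingHom, ha, hb,
    RatFunc.num_div_denom]

/-- the perfect closure of `k(x)`, `k` finite -/
theorem locRatFin_perfect (k : Type) [Field k] [Finite k] (p : ℕ) [Fact p.Prime]
    [CharP (RatFunc k) p] : LocRatFin (PerfectClosure (RatFunc k) p) := by
  intro s
  obtain ⟨n, hn⟩ := Pool.Agent.Helper70K9.GC.perf_mem (RatFunc k) p s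
  exact ⟨k, inferInstance, inferInstance, Pool.Agent.Helper70K9.GC.rootMap (RatFunc k) p n, hn⟩

end Pool.Agent.Helper83.GQ
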