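import Pool.Agent.Helper83.GQ.RFin
import Pool.Agent.Helper83.GQ.Count
import Pool.Agent.Helper83.GQ.C5c
import Pool.Graph.R_seed8.TH358.GP.Cls
import Pool.Graph.R_pool_sql_team_seeded_1e53cb71.Helper70K9.GC.Un2
import Pool.Graph.R_pool_sql_team_seeded_1e53cb71.Helper70K9.GC.LocRat

/-!
# Acyclicity for the fields which are locally rational function fields over finite fields
-/

set_option autoImplicit false

namespace Pool.Agent.Helper83.GQ

open H39Gon Pool.Agent.TH358.GP Pool.Agent.Helper70K9.GC

/-- the duality statement for `k(x)`, `k` a finite field -/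
theorem spanDual_finite (k : Type) [Field k] [Finite k] (m : ℕ) : SpanDual (RatFunc k) m := by
  haveI : Fintype k := Fintype.ofFinite k
  exact spanDual_of_count (countThm rhyp _) (manyLetters rhyp)

/-- Every finite subset of `F` is contained in a subfield of `F` which is isomorphic to the field
`k(x)` of rational functions over a finite field `k`. -/
def LocRatFin (F : Type) [Field F] : Prop :=
  ∀ s : Finset F, ∃ (k : Type) (_ : Field k) (_ : Finite k) (φ : RatFunc k →+* F),
    ∀ x ∈ s, ∃ y, φ y = x

theorem evS_finite (k : Type) [Field k] [Finite k] : EvS (RatFunc k) := by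
  obtain ⟨p, hp⟩ := CharP.exists k
  haveI : Fact p.Prime := ⟨CharP.char_is_prime k p⟩
  letI : Algebra (ZMod p) k := ZMod.algebra k p
  haveI : Algebra.IsAlgebraic (ZMod p) k := inferInstance
  exact evS_ratFunc' p k

theorem acyclic_locRatFin (F : Type) [Field F] (h : LocRatFin F) :
    Nonempty (Differentials F) ∧ ∀ D : Differentials F, D.Acyclic := by
  have hF : EvS F := by
    apply evS_union
    intro s
    obtain ⟨k, i1, i2, φ, hφ⟩ := h s
    exact ⟨RatFunc k, inferInstance, φ, evS_finite k, hφ⟩
  have hsd : ∀ m, SpanDual F m := by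
    intro m
    apply spanDual_union
    intro s
    obtain ⟨k, i1, i2, φ, hφ⟩ := h s
    exact ⟨RatFunc k, inferInstance, φ, spanDual_finite k m, hφ⟩
  exact ⟨exists_D hF, acyclic_of hF hsd⟩

end Pool.Agent.Helper83.GQ
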