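import Pool.Agent.Helper83.GQ.Chr

/-!
# Tuples of letters; Parseval; the circle method identity
-/

set_option autoImplicit false
set_option linter.unusedSectionVars false

namespace Pool.Agent.Helper83.GQ

open Polynomial Finset H39Gon.A2

variable {F : Type} [Field F] [Fintype F]

section tuples

theorem sum_updateC {I K : Type} [Fintype I] [DecidableEq I] [Fintype K] (a : I)
    (f : (I → K) → ℂ) :
    ∑ z : I → K, ∑ x : K, f (Function.update z a x) = (Fintype.card K : ℂ) * ∑ z, f z := by
  classical
  let e : ((I → K) × K) ≃ ((I → K) × K) :=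
    { toFun := fun p => (Function.update p.1 a p.2, p.1 a)
      invFun := fun p => (Function.update p.1 a p.2, p.1 a)
      left_inv := fun p => by simp
      right_inv := fun p => by simp }
  have h1 : ∑ z : I → K, ∑ x : K, f (Function.update z a x)
      = ∑ p : (I → K) × K, f ((e p).1) := by
    rw [Fintype.sum_prod_type]
    rfl
  rw [h1, Equiv.sum_comp e (fun p => f p.1), Fintype.sum_prod_type]
  simp only [sum_const, card_univ, nsmul_eq_mul]
  rw [← mul_sum]

theorem sum_tuples {ι : Type} [Fintype ι] [DecidableEq ι] (X : Finset F[X]) (hX : X.Nonempty)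
    (h : F[X] → ℂ) (s : Finset ι) (v : F[X]) :
    ∑ y : ι → X, h (v * ∏ i ∈ s, (y i).1) =
      (X.card : ℂ) ^ Fintype.card ι * (Op X X.card)^[s.card] h v := by
  have hX0 : (X.card : ℂ) ≠ 0 := by exact_mod_cast (card_pos.2 hX).ne'
  induction s using Finset.induction_on generalizing v with
  | empty =>
    simp only [prod_empty, mul_one, sum_const, card_univ, Fintype.card_pi, prod_const,
      Fintype.card_coe, nsmul_eq_mul, card_empty, Function.iterate_zero, id]
    push_cast
    rfl
  | insert a s ha ih =>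
    have h1 := sum_updateC a (fun y : ι → X => h (v * ∏ i ∈ insert a s, (y i).1))
    have h2 : ∀ (y : ι → X) (x : X), h (v * ∏ i ∈ insert a s, (Function.update y a x i).1) =
        h ((v * x.1) * ∏ i ∈ s, (y i).1) := by
      intro y x
      rw [prod_insert ha, Function.update_self, mul_assoc]
      congr 3
      refine prod_congr rfl fun i hi => ?_
      rw [Function.update_of_ne]
      rintro rfl
      exact ha hi
    simp only [h2] at h1
    rw [sum_comm] at h1
    simp only [ih] at h1
    rw [Fintype.card_coe] at h1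
    apply mul_left_cancel₀ hX0
    rw [← h1, card_insert_of_notMem ha, Function.iterate_succ_apply', ← mul_sum]
    unfold Op
    rw [sum_coe_sort X (fun P => (fun h v => (∑ P ∈ X, h (v * P)) / ((X.card : ℝ) : ℂ))^[s.card] h
      (v * P))]
    push_cast
    field_simp

theorem card_div_letters [DecidableEq F[X]] {X : Finset F[X]} {D : ℕ}
    (hX : ∀ P ∈ X, P.Monic ∧ Irreducible P ∧ P.natDegree = D) {w : F[X]} (hw : w ≠ 0)
    [DecidablePred (fun P : F[X] => P ∣ w)] :
    (X.filter (fun P => P ∣ w)).card * D ≤ w.natDegree := by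
  have h1 : ∏ P ∈ X.filter (fun P => P ∣ w), P ∣ w := by
    refine Finset.prod_dvd_of_coprime ?_ (fun P hP => (mem_filter.1 hP).2)
    intro P hP P' hP' hne
    have h1 := hX P (mem_filter.1 hP).1
    have h2 := hX P' (mem_filter.1 hP').1
    exact coprime_of_monic_irr h1.1 h1.2.1 h2.1 h2.2.1 hne
  have h2 := natDegree_le_of_dvd h1 hw
  rw [natDegree_prod_of_monic _ _ (fun P hP => (hX P (mem_filter.1 hP).1).1),
    sum_congr rfl (fun P hP => (hX P (mem_filter.1 hP).1).2.2), sum_const, smul_eq_mul] at h2
  exact h2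

open Classical in
theorem card_rep {X : Finset F[X]} {D : ℕ} (hD : 1 ≤ D)
    (hX : ∀ P ∈ X, P.Monic ∧ Irreducible P ∧ P.natDegree = D) (j : ℕ) (w : F[X]) (hw : w ≠ 0) :
    ((univ : Finset (Fin j → X)).filter (fun y => ∏ i, (y i).1 = w)).card ≤ j.factorial := by
  induction j generalizing w with
  | zero =>
    refine (card_le_univ _).trans ?_
    simp
  | succ j ih =>
    by_cases hdeg : w.natDegree = (j + 1) * D
    · have h1 : ((univ : Finset (Fin (j + 1) → X)).filter (fun y => ∏ i, (y i).1 = w)).card ≤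
          ∑ P ∈ X.attach.filter (fun P => P.1 ∣ w), ((univ : Finset (Fin j → X)).filter
            (fun y => P.1 * ∏ i, (y i).1 = w)).card := by
        rw [← card_sigma]
        refine card_le_card_of_injOn (fun y => ⟨y 0, Fin.tail y⟩) ?_ ?_
        · intro y hy
          rw [mem_coe, mem_filter] at hy
          rw [mem_coe, mem_sigma, mem_filter, mem_filter]
          have h2 := hy.2
          rw [Fin.prod_univ_succ] at h2
          exact ⟨⟨mem_attach _ _, Dvd.intro _ h2⟩, mem_univ _, h2⟩
        · intro y _ y' _ h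
          have h1 : y 0 = y' 0 := by
            have := congrArg Sigma.fst h
            exact this
          have h2 : Fin.tail y = Fin.tail y' := by
            simp only [Sigma.mk.injEq, heq_eq_eq] at h
            exact h.2
          rw [← Fin.cons_self_tail y, ← Fin.cons_self_tail y', h1, h2]
      refine h1.trans ?_
      have h2 : ∀ P ∈ X.attach.filter (fun P => P.1 ∣ w), ((univ : Finset (Fin j → X)).filter
            (fun y => P.1 * ∏ i, (y i).1 = w)).card ≤ j.factorial := by
        intro P hP
        obtain ⟨x, hx⟩ := (mem_filter.1 hP).2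
        have hP0 : P.1 ≠ 0 := (hX P.1 P.2).1.ne_zero
        have hx0 : x ≠ 0 := by rintro rfl; rw [mul_zero] at hx; exact hw hx
        refine (card_le_card ?_).trans (ih x hx0)
        intro y hy
        rw [mem_filter] at hy ⊢
        refine ⟨mem_univ _, mul_left_cancel₀ hP0 ?_⟩
        rw [hy.2, hx]
      refine (sum_le_sum h2).trans ?_
      rw [sum_const, smul_eq_mul, Nat.factorial_succ]
      refine Nat.mul_le_mul_right _ ?_
      have h3 := card_div_letters hX hw
      have h4 : (X.attach.filter (fun P => P.1 ∣ w)).card = (X.filter (fun P => P ∣ w)).card := by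
        rw [← card_map (Function.Embedding.subtype _)]
        congr 1
        ext P
        simp only [mem_map, mem_filter, mem_attach, true_and, Function.Embedding.subtype_apply,
          Subtype.exists, exists_and_left, exists_prop, exists_eq_right_right]
        tauto
      rw [h4]
      rw [hdeg] at h3
      exact Nat.le_of_mul_le_mul_right h3 hD
    · have : ((univ : Finset (Fin (j + 1) → X)).filter (fun y => ∏ i, (y i).1 = w)) = ∅ := by
        rw [filter_eq_empty_iff]
        rintro y - rfl
        apply hdeg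
        rw [natDegree_prod_of_monic _ _ (fun i _ => (hX _ (y i).2).1),
          sum_congr rfl (fun i _ => (hX _ (y i).2).2.2), sum_const, card_univ, Fintype.card_fin,
          smul_eq_mul]
      rw [this, card_empty]
      exact Nat.zero_le _

/-- Parseval -/
theorem parseval_letters {X : Finset F[X]} (hXn : X.Nonempty) {D : ℕ} (hD : 1 ≤ D)
    (hX : ∀ P ∈ X, P.Monic ∧ Irreducible P ∧ P.natDegree = D) {n j : ℕ} {v : F[X]} (hv : v ≠ 0)
    (hn : v.natDegree + j * D ≤ n) :
    ∑ ψ : AddChar (degreeLT F n) ℂ, ‖(Op X X.card)^[j] (E ψ) v‖ ^ 2 ≤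
      (Fintype.card F : ℝ) ^ n * j.factorial / (X.card : ℝ) ^ j := by
  classical
  have hN0 : (0 : ℝ) < X.card := by exact_mod_cast card_pos.2 hXn
  have hN0' : ((X.card : ℕ) : ℂ) ≠ 0 := by exact_mod_cast hN0.ne'
  have h1 : ∀ ψ : AddChar (degreeLT F n) ℂ, (Op X X.card)^[j] (E ψ) v =
      (∑ y : Fin j → X, E ψ (v * ∏ i, (y i).1)) / (X.card : ℂ) ^ j := by
    intro ψ
    rw [sum_tuples X hXn, card_univ, Fintype.card_fin]
    field_simp
  have hdeg : ∀ y y' : Fin j → X, (v * ∏ i, (y i).1 - v * ∏ i, (y' i).1).degree < n := by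
    intro y y'
    have hm : ∀ y : Fin j → X, ∏ i, (y i).1 ∈ MonD F (j * D) := by
      intro y
      rw [mem_MonD]
      refine ⟨monic_prod_of_monic _ _ (fun i _ => (hX _ (y i).2).1), ?_⟩
      rw [natDegree_prod_of_monic _ _ (fun i _ => (hX _ (y i).2).1),
          sum_congr rfl (fun i _ => (hX _ (y i).2).2.2), sum_const, card_univ, Fintype.card_fin,
          smul_eq_mul]
    rw [← mul_sub]
    by_cases h0 : ∏ i, (y i).1 - ∏ i, (y' i).1 = 0
    · rw [h0, mul_zero, degree_zero]; exact WithBot.bot_lt_coe _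
    · have h2 : (∏ i, (y i).1 - ∏ i, (y' i).1).degree < ((j * D : ℕ) : WithBot ℕ) := by
        have h3 := mem_MonD.1 (hm y)
        have h4 := mem_MonD.1 (hm y')
        have h5 := degree_sub_lt_left (p := ∏ i, (y i).1) (q := ∏ i, (y' i).1)
          (by rw [degree_eq_natDegree h3.1.ne_zero, degree_eq_natDegree h4.1.ne_zero, h3.2, h4.2])
          h3.1.ne_zero (by rw [h3.1.leadingCoeff, h4.1.leadingCoeff])
        rwa [degree_eq_natDegree h3.1.ne_zero, h3.2] at h5
      rw [degree_eq_natDegree h0] at h2
      have h2' : (∏ i, (y i).1 - ∏ i, (y' i).1).natDegree < j * D := by exact_mod_cast h2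
      rw [degree_mul, degree_eq_natDegree hv, degree_eq_natDegree h0]
      exact_mod_cast (by omega : v.natDegree + (∏ i, (y i).1 - ∏ i, (y' i).1).natDegree < n)
  have h0 : ∀ z : ℂ, ((‖z‖ ^ 2 : ℝ) : ℂ) = z * star z := by
    intro z
    rw [Complex.star_def, Complex.mul_conj, Complex.normSq_eq_norm_sq]
  have h2 : ((∑ ψ : AddChar (degreeLT F n) ℂ, ‖(Op X X.card)^[j] (E ψ) v‖ ^ 2 : ℝ) : ℂ) =
      (((Fintype.card F : ℝ) ^ n * ((∑ y : Fin j → X, ((univ : Finset (Fin j → X)).filter
        (fun y' => ∏ i, (y' i).1 = ∏ i, (y i).1)).card : ℕ) : ℝ) / (X.card : ℝ) ^ (2 * j) : ℝ) : ℂ) := by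
    rw [Complex.ofReal_sum]
    have h3 : ∀ ψ : AddChar (degreeLT F n) ℂ, ((‖(Op X X.card)^[j] (E ψ) v‖ ^ 2 : ℝ) : ℂ) =
        (∑ y : Fin j → X, ∑ y' : Fin j → X, E ψ (v * ∏ i, (y i).1 - v * ∏ i, (y' i).1)) /
          (X.card : ℂ) ^ (2 * j) := by
      intro ψ
      rw [h0, h1, star_div₀, star_sum, div_mul_div_comm, sum_mul_sum]
      congr 1
      · refine sum_congr rfl fun y _ => sum_congr rfl fun y' _ => ?_
        rw [E_sub]
      · simp only [star_pow, star_natCast]
        ring
    rw [sum_congr rfl fun ψ _ => h3 ψ, ← sum_div, sum_comm]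
    push_cast
    congr 1
    rw [mul_sum]
    refine sum_congr rfl fun y _ => ?_
    rw [sum_comm]
    have h4 : ∀ y' : Fin j → X, ∑ ψ : AddChar (degreeLT F n) ℂ,
        E ψ (v * ∏ i, (y i).1 - v * ∏ i, (y' i).1) =
        if ∏ i, (y' i).1 = ∏ i, (y i).1 then (Fintype.card F : ℂ) ^ n else 0 := by
      intro y'
      rw [orthE (hdeg y y')]
      have : v * ∏ i, (y i).1 - v * ∏ i, (y' i).1 = 0 ↔ ∏ i, (y' i).1 = ∏ i, (y i).1 := by
        rw [sub_eq_zero]
        constructor
        · intro h; exact (mul_left_cancel₀ hv h).symm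
        · intro h; rw [h]
      simp only [this]
    rw [sum_congr rfl fun y' _ => h4 y', ← sum_filter, sum_const, nsmul_eq_mul, mul_comm]
  have h3 := Complex.ofReal_injective h2
  rw [h3]
  have h4 : ((∑ y : Fin j → X, ((univ : Finset (Fin j → X)).filter
        (fun y' => ∏ i, (y' i).1 = ∏ i, (y i).1)).card : ℕ) : ℝ) ≤ (X.card : ℝ) ^ j * j.factorial := by
    have : (∑ y : Fin j → X, ((univ : Finset (Fin j → X)).filter
        (fun y' => ∏ i, (y' i).1 = ∏ i, (y i).1)).card) ≤ X.card ^ j * j.factorial := by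
      refine (sum_le_sum fun y _ => card_rep hD hX j _ ?_).trans ?_
      · exact (monic_prod_of_monic _ _ (fun i _ => (hX _ (y i).2).1)).ne_zero
      · rw [sum_const, card_univ, smul_eq_mul]
        simp
    exact_mod_cast this
  calc _ ≤ (Fintype.card F : ℝ) ^ n * ((X.card : ℝ) ^ j * j.factorial) / (X.card : ℝ) ^ (2 * j) := by
        gcongr
    _ = _ := by
        rw [two_mul, pow_add]
        field_simp

end tuples

end Pool.Agent.Helper83.GQ
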