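import Pool.Agent.Helper83.GQ.Arc
import Pool.Agent.Helper83.GQ.Par

/-!
# Minor arcs
-/

set_option autoImplicit false
set_option linter.unusedSectionVars false

namespace Pool.Agent.Helper83.GQ

open Polynomial Finset

variable {F : Type} [Field F] [Fintype F]

/-- Dirichlet's theorem -/
theorem dirichlet' {n m1 : ℕ} (ψ : AddChar (degreeLT F n) ℂ) :
    ∃ g : F[X], g.Monic ∧ g.natDegree ≤ m1 ∧ ∀ z : F[X], z.degree < m1 → E ψ (g * z) = 1 := by
  classical
  let χ : F[X] → AddChar (degreeLT F m1) ℂ := fun y => (E ψ).compAddMonoidHom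
    ((AddMonoidHom.mulLeft y).comp (degreeLT F m1).subtype.toAddMonoidHom)
  have hχ : ∀ y (z : degreeLT F m1), χ y z = E ψ (y * z.1) := fun y z => rfl
  have hcard : (univ : Finset (AddChar (degreeLT F m1) ℂ)).card < (Low F (m1 + 1)).card := by
    have h1 : Fintype.card (AddChar (degreeLT F m1) ℂ) = Fintype.card F ^ m1 := by
      rw [← card_degreeLT]
      exact AddChar.card_eq
    rw [card_univ, h1, card_Low]
    exact Nat.pow_lt_pow_right Fintype.one_lt_card (by omega)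
  obtain ⟨y, hy, y', hy', hne, heq⟩ := exists_ne_map_eq_of_card_lt_of_maps_to hcard
    (f := χ) (fun y _ => mem_univ _)
  set g := y - y' with hg
  have hg0 : g ≠ 0 := sub_ne_zero.2 hne
  have hgd : g.natDegree ≤ m1 := by
    rw [mem_Low] at hy hy'
    have h1 : g.degree < (m1 + 1 : ℕ) := (degree_sub_le _ _).trans_lt (max_lt hy hy')
    rw [degree_eq_natDegree hg0] at h1
    have : g.natDegree < m1 + 1 := by exact_mod_cast h1
    omega
  have hgp : ∀ z : F[X], z.degree < m1 → E ψ (g * z) = 1 := by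
    intro z hz
    have h1 := hχ y ⟨z, mem_degreeLT.2 hz⟩
    have h2 := hχ y' ⟨z, mem_degreeLT.2 hz⟩
    rw [heq, h2] at h1
    simp only at h1
    rw [hg, sub_mul, E_sub, ← h1]
    have h3 := norm_E ψ (y' * z)
    rw [Complex.star_def, Complex.mul_conj, Complex.normSq_eq_norm_sq, h3]
    simp
  refine ⟨g * C (g.leadingCoeff)⁻¹, monic_mul_leadingCoeff_inv hg0, ?_, ?_⟩
  · rw [natDegree_mul_C (inv_ne_zero (leadingCoeff_ne_zero.2 hg0))]
    exact hgd
  · intro z hz
    rw [mul_assoc]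
    apply hgp
    rw [degree_C_mul (inv_ne_zero (leadingCoeff_ne_zero.2 hg0))]
    exact hz

open Classical in
theorem card_letters_le {r D kY : ℕ} {M : F[X]} (hM : M ≠ 0) (hk : M.natDegree < (kY + 1) * D) :
    ((XL F r D).filter (fun P => P ∣ M)).card ≤ kY := by
  have h1 := card_div_letters (X := XL F r D) (D := D) (fun P hP => by
    rw [mem_XL] at hP; exact ⟨hP.1, hP.2.2.1, hP.2.1⟩) hM
  by_contra hc
  push Not at hc
  have h2 : (kY + 1) * D ≤ ((XL F r D).filter (fun P => P ∣ M)).card * D :=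
    Nat.mul_le_mul_right _ hc
  omega

theorem nm_sub_one_ge {r : ℕ} (hr : 1 ≤ r) {p : F[X]} (hp : r < p.natDegree) :
    √(Fintype.card F : ℝ) ^ p.natDegree ≤ nm p - 1 := by
  have hq : (0 : ℝ) ≤ Fintype.card F := Nat.cast_nonneg _
  have h1 : nm p = (√(Fintype.card F : ℝ) ^ p.natDegree) ^ 2 := by
    unfold nm
    rw [← pow_mul, mul_comm, pow_mul, Real.sq_sqrt hq]
  have h2 : (2 : ℝ) ≤ √(Fintype.card F : ℝ) ^ p.natDegree := by
    have h3 : (2 : ℝ) ≤ √(Fintype.card F : ℝ) ^ 2 := by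
      rw [Real.sq_sqrt hq]
      exact_mod_cast (Fintype.one_lt_card : 1 < Fintype.card F)
    have h4 : (1 : ℝ) ≤ √(Fintype.card F : ℝ) := by
      rw [Real.one_le_sqrt]
      exact_mod_cast (Fintype.card_pos : 0 < Fintype.card F)
    exact h3.trans (pow_le_pow_right₀ h4 (by omega))
  rw [h1]
  nlinarith

theorem not_dvd_R0_deg {r : ℕ} {p : F[X]} (h1 : p.Monic) (h2 : Irreducible p)
    (h3 : ¬ p ∣ R0 F r) : r < p.natDegree := by
  by_contra hc
  push Not at hc
  exact h3 ((dvd_R0_iff h1 h2).2 (mem_SP.2 ⟨h1, h2, hc⟩))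

open Classical in
theorem minor (hRH : RHyp F) {r D n m1 m2 l0 kY : ℕ} (hr : 1 ≤ r) (hD : 1 ≤ D) {N : ℝ}
    (hN : 0 < N) (hNX : ((XL F r D).card : ℝ) ≤ N) (h1 : 2 * m1 ≤ n)
    (h2 : (R0 F r).natDegree + (n - m1) ≤ l0 * D) (hkY : (R0 F r).natDegree + n < (kY + 1) * D)
    (ψ : AddChar (degreeLT F n) ℂ) (hψ : ∀ g : F[X], g.Monic → FP ψ g → m2 < g.natDegree)
    {θ ε η G0 : ℝ} (hε0 : 0 < ε) (hε1 : ε ≤ 1) (hη : (kY : ℝ) / N ≤ η)
    (hθ : kY * √(Fintype.card F : ℝ) ^ D / N ≤ θ)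
    (hε : ((R0 F r).natDegree + n + 2) * √(Fintype.card F : ℝ) ^ D / N ≤ ε)
    (hG1 : √((Fintype.card F : ℝ) ^ ((R0 F r).natDegree + (n - m1))) ≤ G0)
    (hG2 : 1 ≤ G0 * ε ^ l0) (j : ℕ) (v : F[X]) (hv : v.Monic) (hvn : v.natDegree + j * D = n) :
    ‖(Op (XL F r D) N)^[j] (E ψ) v‖ ≤ (1 + θ) ^ j *
      (√(Fintype.card F : ℝ) ^ (v.natDegree + (R0 F r).natDegree) /
        √(Fintype.card F : ℝ) ^ m2) + G0 * (ε + η) ^ j := by
  obtain ⟨g, hg, hgd, hgp⟩ := dirichlet' (m1 := m1) ψ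
  have hRm := R0_monic (F := F) r
  set s := √(Fintype.card F : ℝ) with hs
  have hs1 : (1 : ℝ) ≤ s := by
    rw [hs, Real.one_le_sqrt]
    exact_mod_cast (Fintype.card_pos : 0 < Fintype.card F)
  have hs0 : 0 < s := by linarith
  set M := R0 F r * g with hM
  have hMm : M.Monic := hRm.mul hg
  have hMd : M.natDegree = (R0 F r).natDegree + g.natDegree := hRm.natDegree_mul hg
  set κ := n - m1 - g.natDegree with hκ
  have hMκ : M.natDegree + κ = (R0 F r).natDegree + (n - m1) := by rw [hMd]; omega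
  have hYc : ((XL F r D).filter (fun P => P ∣ M)).card ≤ kY :=
    card_letters_le hMm.ne_zero (by rw [hMd]; omega)
  have hYc' : (((XL F r D).filter (fun P => P ∣ M)).card : ℝ) ≤ kY := by exact_mod_cast hYc
  refine arc hRH hD hN hNX hMm (dvd_mul_right _ _) (κ := κ) (l0 := l0) (by rw [hMκ]; exact h2) ψ
    (fun v l => v.Monic ∧ v.natDegree + l * D = n)
    (fun v => s ^ (v.natDegree + (R0 F r).natDegree) / s ^ m2) ?_ ?_ ?_ ?_
    (le_trans (by positivity) hθ) hε0 hε1 (le_trans (by positivity) hη) ?_ ?_ ?_ hG2 ?_ j v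
    ⟨hv, hvn⟩
  · rintro v l ⟨hv, hvn⟩ P hP
    rw [mem_filter, mem_XL] at hP
    refine ⟨hv.mul hP.1.1, ?_⟩
    rw [hv.natDegree_mul hP.1.1, hP.1.2.1, ← hvn]
    ring
  · rintro v l ⟨hv, hvn⟩ hl y hy y' hy' hcl
    rw [cls_eq_iff (by omega) hy hy'] at hcl
    obtain ⟨⟨z, hz⟩, hd⟩ := hcl
    have h3 : E ψ (v * (y - y')) = 1 := by
      have h4 : v * (y - y') = g * (v * R0 F r * z) := by rw [hz, hM]; ring
      rw [h4]
      apply hgp
      by_cases hz0 : z = 0
      · rw [hz0, mul_zero, degree_zero]; exact WithBot.bot_lt_coe _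
      · rw [hz, degree_mul, degree_eq_natDegree hMm.ne_zero, degree_eq_natDegree hz0, hMd] at hd
        have hd' : (R0 F r).natDegree + g.natDegree + z.natDegree < l * D - κ := by
          exact_mod_cast hd
        rw [degree_mul, degree_mul, degree_eq_natDegree hv.ne_zero,
          degree_eq_natDegree hRm.ne_zero, degree_eq_natDegree hz0]
        exact_mod_cast (by omega : v.natDegree + (R0 F r).natDegree + z.natDegree < m1)
    have h5 : v * y = v * y' + v * (y - y') := by ring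
    rw [h5, AddChar.map_add_eq_mul, h3, mul_one]
  · intro v
    positivity
  · rintro v l hl ⟨hv, hvn⟩ J hJ hper
    have hJ' : ∀ p ∈ J, p.Monic ∧ Irreducible p ∧ r < p.natDegree := by
      intro p hp
      have := (mem_QM hMm).1 (hJ hp)
      exact ⟨this.1, this.2.1, not_dvd_R0_deg this.1 this.2.1 this.2.2.2⟩
    have hJm : (∏ p ∈ J, p).Monic := monic_prod_of_monic _ _ fun p hp => (hJ' p hp).1
    have hFP : FP ψ (v * (R0 F r * ∏ p ∈ J, p)) := by
      intro z hz
      rw [mul_assoc] at hz ⊢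
      apply hper
      by_cases hz0 : R0 F r * (∏ p ∈ J, p) * z = 0
      · rw [hz0, degree_zero]; exact WithBot.bot_lt_coe _
      · rw [degree_mul, degree_eq_natDegree hv.ne_zero, degree_eq_natDegree hz0] at hz
        rw [degree_eq_natDegree hz0]
        have : v.natDegree + (R0 F r * (∏ p ∈ J, p) * z).natDegree < n := by exact_mod_cast hz
        exact_mod_cast (by omega : (R0 F r * (∏ p ∈ J, p) * z).natDegree < l * D)
    have h3 := hψ _ (hv.mul (hRm.mul hJm)) hFP
    rw [hv.natDegree_mul (hRm.mul hJm), hRm.natDegree_mul hJm,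
      natDegree_prod_of_monic _ _ fun p hp => (hJ' p hp).1] at h3
    have h4 : ∏ p ∈ J, (nm p - 1)⁻¹ ≤ ∏ p ∈ J, (s ^ p.natDegree)⁻¹ := by
      refine prod_le_prod (fun p hp => ?_) (fun p hp => ?_)
      · have := nm_ge_two (hJ' p hp).2.1
        exact inv_nonneg.2 (by linarith)
      · exact inv_anti₀ (by positivity) (nm_sub_one_ge hr (hJ' p hp).2.2)
    refine h4.trans ?_
    rw [prod_inv_distrib, prod_pow_eq_pow_sum, inv_eq_one_div,
      div_le_div_iff₀ (by positivity) (by positivity), one_mul, ← pow_add]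
    exact pow_le_pow_right₀ hs1 (by omega)
  · rintro v l ⟨hv, hvn⟩
    have h3 : ∀ P ∈ (XL F r D).filter (fun P => P ∣ M),
        s ^ ((v * P).natDegree + (R0 F r).natDegree) / s ^ m2 =
        s ^ D * (s ^ (v.natDegree + (R0 F r).natDegree) / s ^ m2) := by
      intro P hP
      rw [mem_filter, mem_XL] at hP
      rw [hv.natDegree_mul hP.1.1, hP.1.2.1, show v.natDegree + D + (R0 F r).natDegree =
        D + (v.natDegree + (R0 F r).natDegree) by ring, pow_add]
      ring
    rw [sum_congr rfl h3, sum_const, nsmul_eq_mul]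
    calc _ = ((((XL F r D).filter (fun P => P ∣ M)).card : ℝ) * s ^ D / N) *
          (s ^ (v.natDegree + (R0 F r).natDegree) / s ^ m2) := by ring
      _ ≤ (kY * s ^ D / N) * (s ^ (v.natDegree + (R0 F r).natDegree) / s ^ m2) := by gcongr
      _ ≤ _ := by gcongr
  · refine le_trans ?_ hε
    have : (M.natDegree : ℝ) + κ ≤ (R0 F r).natDegree + n := by
      have : M.natDegree + κ ≤ (R0 F r).natDegree + n := by omega
      exact_mod_cast this
    gcongr
  · rw [hMκ]; exact hG1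
  · exact le_trans (by gcongr) hη

end Pool.Agent.Helper83.GQ
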