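import Pool.Agent.Helper83.GQ.Lett

/-!
# Asymptotics
-/

set_option autoImplicit false
set_option linter.unusedSectionVars false

namespace Pool.Agent.Helper83.GQ

open Polynomial Finset

variable {F : Type} [Field F] [Fintype F]

theorem sqrt_qpow (m : ℕ) : √((Fintype.card F : ℝ) ^ m) = √(Fintype.card F : ℝ) ^ m := by
  rw [sq_s m, Real.sqrt_sq (by positivity)]

theorem numT0 {s' K2 D Q : ℝ} (hQ : Q ≠ 0) (h1 t : ℕ) :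
    (s' * Q ^ h1) * (K2 * D ^ 2 / Q + K2 * D ^ 2 / Q) ^ (h1 + t) =
      (s' * (2 * K2) ^ (h1 + t)) * D ^ (2 * (h1 + t)) / Q ^ t := by
  have e1 : K2 * D ^ 2 / Q + K2 * D ^ 2 / Q = 2 * K2 * D ^ 2 / Q := by ring
  rw [e1, div_pow, mul_pow (2 * K2), ← pow_mul, pow_add Q]
  have h2 : Q ^ h1 ≠ 0 := pow_ne_zero _ hQ
  have h3 : Q ^ t ≠ 0 := pow_ne_zero _ hQ
  generalize (2 * K2) ^ (h1 + t) = A
  generalize D ^ (2 * (h1 + t)) = B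
  generalize Q ^ h1 = X1 at *
  generalize Q ^ t = Y1 at *
  field_simp

theorem num_eta {kr N D Q c0 K2 : ℝ} (hQ : 1 ≤ Q) (hD : 1 ≤ D) (hc0 : 0 < c0)
    (hkr : 0 ≤ kr) (hNinv : 1 / N ≤ D / (c0 * Q ^ 2)) (hK2 : (kr + 1) / c0 ≤ K2) :
    (kr + 1) / N ≤ K2 * D ^ 2 / Q := by
  have hQ0 : 0 < Q := by linarith
  calc (kr + 1) / N = (kr + 1) * (1 / N) := by ring
    _ ≤ (kr + 1) * (D / (c0 * Q ^ 2)) := by gcongr
    _ = ((kr + 1) / c0) * D / (Q * Q) := by field_simp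
    _ ≤ K2 * D ^ 2 / (Q * 1) := by
      have e2 : (D : ℝ) ≤ D ^ 2 := by nlinarith
      have h5 : 0 ≤ (kr + 1) / c0 := by positivity
      have h6 : 0 ≤ K2 := h5.trans hK2
      gcongr
    _ = _ := by rw [mul_one]

theorem num_theta {kr N D Q c0 : ℝ} (hQ : 1 ≤ Q) (hc0 : 0 < c0)
    (hkr : 0 ≤ kr) (hNinv : 1 / N ≤ D / (c0 * Q ^ 2)) :
    (kr + 1) * Q ^ 2 / N ≤ (kr + 1) * D / c0 := by
  have hQ0 : 0 < Q := by linarith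
  calc (kr + 1) * Q ^ 2 / N = (kr + 1) * Q ^ 2 * (1 / N) := by ring
    _ ≤ (kr + 1) * Q ^ 2 * (D / (c0 * Q ^ 2)) := by gcongr
    _ = _ := by field_simp

theorem num_eps {d Δ n kr N D Q c0 K2 : ℝ} (hQ : 1 ≤ Q) (hD : 1 ≤ D) (hc0 : 0 < c0)
    (hd : 0 ≤ d) (hΔ : 0 ≤ Δ) (hn : n = Δ + kr * D) (hn0 : 0 ≤ n)
    (hN : 0 < N) (hkr : 0 ≤ kr) (hNinv : 1 / N ≤ D / (c0 * Q ^ 2))
    (hK2 : (d + Δ + 2 * kr + 4) / c0 ≤ K2) :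
    (d + n + 2) * Q / N ≤ K2 * D ^ 2 / Q := by
  have hQ0 : 0 < Q := by linarith
  have e1 : d + n + 2 ≤ (d + Δ + 2 * kr + 4) * D := by
    rw [hn]
    have e3 : d ≤ d * D := le_mul_of_one_le_right hd hD
    have e4 : Δ ≤ Δ * D := le_mul_of_one_le_right hΔ hD
    nlinarith
  calc (d + n + 2) * Q / N = (d + n + 2) * Q * (1 / N) := by ring
    _ ≤ ((d + Δ + 2 * kr + 4) * D) * Q * (D / (c0 * Q ^ 2)) := by gcongr
    _ = ((d + Δ + 2 * kr + 4) / c0) * D ^ 2 / Q := by field_simp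
    _ ≤ _ := by gcongr

theorem num_G2 {s' K2 D Q : ℝ} (hs' : 1 ≤ s') (hQ : 1 ≤ Q) (hD : 1 ≤ D) (hK2 : 1 ≤ K2) (l : ℕ) :
    1 ≤ (s' * Q ^ l) * (K2 * D ^ 2 / Q) ^ l := by
  have hQ0 : 0 < Q := by linarith
  have e1 : 1 / Q ≤ K2 * D ^ 2 / Q := by
    have : (1 : ℝ) ≤ D ^ 2 := by nlinarith
    have : (1 : ℝ) ≤ K2 * D ^ 2 := by nlinarith
    gcongr
  have e2 : (1 / Q) ^ l ≤ (K2 * D ^ 2 / Q) ^ l := by gcongr
  calc (1 : ℝ) ≤ s' := hs'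
    _ = s' * Q ^ l * (1 / Q) ^ l := by
      rw [one_div, inv_pow, mul_assoc, mul_inv_cancel₀ (pow_ne_zero _ hQ0.ne'), mul_one]
    _ ≤ _ := by gcongr

theorem num_sing {K K4 D Q θ δ : ℝ} (hK : 0 ≤ K) (hθ : 0 ≤ θ) (hθ1 : 1 + θ ≤ K4 * D) (hQ : 1 ≤ Q)
    (hδ : 0 < δ) {k : ℕ} (hs : K * K4 ^ (3 * k) * D ^ (3 * k) ≤ δ * Q) :
    K * ((1 + θ) ^ k) ^ 3 / Q ^ 2 ≤ δ := by
  have hQ0 : 0 < Q := by linarith
  have e1 : ((1 + θ) ^ k) ^ 3 ≤ (K4 * D) ^ (3 * k) := by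
    rw [← pow_mul, mul_comm k 3]
    gcongr
  rw [div_le_iff₀ (by positivity)]
  calc _ ≤ K * (K4 * D) ^ (3 * k) := by gcongr
    _ = K * K4 ^ (3 * k) * D ^ (3 * k) := by rw [mul_pow, mul_assoc]
    _ ≤ δ * Q := hs
    _ ≤ δ * Q ^ 2 := by
      apply mul_le_mul_of_nonneg_left _ hδ.le
      nlinarith

theorem num_major {μ mr K3 K4 D Q θ δ : ℝ} (hμ : 0 ≤ μ) (hmr : mr ≤ μ * D) (hmr0 : 0 ≤ mr)
    (hθ : 0 ≤ θ) (hK3 : 0 ≤ K3) (hD : 0 < D)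
    (hθ1 : 1 + θ ≤ K4 * D) (hQ : 1 ≤ Q) (hδ : 0 < δ) {k j u : ℕ}
    (hs : 3 * μ * K4 ^ (2 * k) * K3 * D ^ (1 + 2 * k + 2 * j) ≤ δ * Q) :
    mr * Q ^ u * (3 * ((1 + θ) ^ k) ^ 2 * (K3 * D ^ (2 * j) / Q ^ (u + 2))) ≤ δ := by
  have hQ0 : 0 < Q := by linarith
  have hK4D : 0 ≤ K4 * D := by linarith
  have e1 : ((1 + θ) ^ k) ^ 2 ≤ (K4 * D) ^ (2 * k) := by
    rw [← pow_mul, mul_comm k 2]
    gcongr
  have hT : 0 ≤ K3 * D ^ (2 * j) / Q ^ (u + 2) := by positivity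
  calc _ ≤ (μ * D) * Q ^ u * (3 * (K4 * D) ^ (2 * k) * (K3 * D ^ (2 * j) / Q ^ (u + 2))) := by
        gcongr
    _ = (3 * μ * K4 ^ (2 * k) * K3 * D ^ (1 + 2 * k + 2 * j)) / Q ^ 2 := by
      rw [mul_pow, pow_add Q, pow_add D, pow_add D, pow_one]
      have h3 : Q ^ u ≠ 0 := pow_ne_zero _ hQ0.ne'
      generalize Q ^ u = A at *
      generalize D ^ (2 * k) = B
      generalize D ^ (2 * j) = C
      generalize K4 ^ (2 * k) = E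
      field_simp
    _ ≤ δ * Q / Q ^ 2 := by gcongr
    _ = δ / Q := by field_simp
    _ ≤ δ := div_le_self hδ.le hQ

theorem num_K8 {qΔ N D Q c0 fk : ℝ} (hqΔ : 0 ≤ qΔ) (hfk : 0 ≤ fk) (hN : 0 < N) (hD : 0 < D)
    (hQ : 1 ≤ Q) (hc0 : 0 < c0) (hNinv : 1 / N ≤ D / (c0 * Q ^ 2)) (j N0 : ℕ) :
    qΔ * Q ^ (2 * (j + N0)) * fk / N ^ j ≤ (qΔ * fk / c0 ^ j) * D ^ j * Q ^ (2 * N0) := by
  have hQ0 : 0 < Q := by linarith
  calc qΔ * Q ^ (2 * (j + N0)) * fk / N ^ j = qΔ * Q ^ (2 * (j + N0)) * fk * (1 / N) ^ j := by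
        rw [one_div, inv_pow]; ring
    _ ≤ qΔ * Q ^ (2 * (j + N0)) * fk * (D / (c0 * Q ^ 2)) ^ j := by gcongr
    _ = (qΔ * fk / c0 ^ j) * D ^ j * Q ^ (2 * N0) := by
      rw [div_pow, mul_pow, ← pow_mul, mul_add 2 j N0, pow_add Q]
      have h3 : Q ^ (2 * j) ≠ 0 := pow_ne_zero _ hQ0.ne'
      have h4 : c0 ^ j ≠ 0 := pow_ne_zero _ hc0.ne'
      generalize Q ^ (2 * j) = A at *
      generalize Q ^ (2 * N0) = B
      generalize D ^ j = C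
      generalize c0 ^ j = E at *
      field_simp

theorem num_minor {s' K3 K4 K8 D Q θ δ R : ℝ} (hs' : 0 ≤ s') (hK3 : 0 ≤ K3) (hK8 : 0 ≤ K8)
    (hθ : 0 ≤ θ) (hD : 0 < D) (hθ1 : 1 + θ ≤ K4 * D) (hQ : 1 ≤ Q) {k j N0 u : ℕ}
    (hR0 : 0 ≤ R) (hR : R ≤ K8 * D ^ j * Q ^ (2 * N0))
    (hs1 : K4 ^ k * s' * K8 * D ^ (k + j) ≤ δ / 2 * Q)
    (hs2 : K3 * K8 * D ^ (3 * j) ≤ δ / 2 * Q) :
    ((1 + θ) ^ k * (s' * Q ^ N0 / Q ^ (3 * N0 + 1)) + K3 * D ^ (2 * j) / Q ^ (2 * N0 + 1 + u)) *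
      R ≤ δ := by
  have hQ0 : 0 < Q := by linarith
  have hK4D : 0 ≤ K4 * D := by linarith
  have e1 : (1 + θ) ^ k ≤ (K4 * D) ^ k := by gcongr
  have e4 : Q ^ (2 * N0) * (Q ^ N0 / Q ^ (3 * N0 + 1)) = 1 / Q := by
    rw [show 3 * N0 + 1 = 2 * N0 + N0 + 1 by ring, pow_add Q, pow_add Q, pow_one]
    have h3 : Q ^ (2 * N0) ≠ 0 := pow_ne_zero _ hQ0.ne'
    have h4 : Q ^ N0 ≠ 0 := pow_ne_zero _ hQ0.ne'
    generalize Q ^ (2 * N0) = A at *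
    generalize Q ^ N0 = B at *
    field_simp
  have e5 : Q ^ (2 * N0) / Q ^ (2 * N0 + 1 + u) ≤ 1 / Q := by
    rw [pow_add Q, pow_add Q, pow_one, div_le_div_iff₀ (by positivity) hQ0]
    have h6 : 1 ≤ Q ^ u := one_le_pow₀ hQ
    have h7 : 0 < Q ^ (2 * N0) * Q := by positivity
    nlinarith
  have hP1 : 0 ≤ s' * Q ^ N0 / Q ^ (3 * N0 + 1) := by positivity
  have hP2 : 0 ≤ K3 * D ^ (2 * j) / Q ^ (2 * N0 + 1 + u) := by positivity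
  calc _ ≤ ((K4 * D) ^ k * (s' * Q ^ N0 / Q ^ (3 * N0 + 1)) +
        K3 * D ^ (2 * j) / Q ^ (2 * N0 + 1 + u)) * (K8 * D ^ j * Q ^ (2 * N0)) := by gcongr
    _ = K4 ^ k * s' * K8 * D ^ (k + j) * (Q ^ (2 * N0) * (Q ^ N0 / Q ^ (3 * N0 + 1))) +
        K3 * K8 * D ^ (3 * j) * (Q ^ (2 * N0) / Q ^ (2 * N0 + 1 + u)) := by
      rw [show 3 * j = 2 * j + j by ring, pow_add D, pow_add D, mul_pow]
      generalize Q ^ (2 * N0) = A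
      generalize Q ^ N0 = B
      generalize Q ^ (3 * N0 + 1) = C
      generalize Q ^ (2 * N0 + 1 + u) = E
      generalize D ^ k = A1
      generalize D ^ j = A2
      generalize D ^ (2 * j) = A3
      generalize K4 ^ k = A4
      ring
    _ ≤ (δ / 2 * Q) * (1 / Q) + (δ / 2 * Q) * (1 / Q) := by
      rw [e4]
      have : 0 ≤ K3 * K8 * D ^ (3 * j) := by positivity
      refine add_le_add ?_ ?_
      · exact mul_le_mul_of_nonneg_right hs1 (by positivity)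
      · exact mul_le_mul hs2 e5 (by positivity) (this.trans hs2)
    _ = δ := by field_simp; ring

end Pool.Agent.Helper83.GQ
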