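import Pool.Agent.Helper83.GQ.RSpec
import Pool.Graph.R_pool_sql_team_seeded_35f281b4.K7.H76.SI.Spread

/-!
# The plane curve of the unit solutions

(A generalisation to all finite fields of the library module `SI.Count1`.)
-/

set_option autoImplicit false
set_option linter.style.haveILetI false
set_option linter.unusedSectionVars false

namespace Pool.Agent.Helper83.GQ

open Polynomial Finset

variable {F : Type} [Field F] [Fintype F]

section Red

variable {E : Type*} [Field E] [Algebra F E]

theorem reduce_sol {τ : E[X]} {M : F[X]} (hMm : M.Monic) {v : E[X]} (h : Sol τ M v) :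
    ∃ v1 v1' : E[X], v1.degree < M.natDegree ∧ v1'.degree < M.natDegree ∧
      im E M ∣ sq F v1 - τ * v1 ∧ im E M ∣ v1 * v1' - 1 ∧ im E M ∣ v - v1 := by
  have hMm' : (im E M).Monic := hMm.map _
  have hMd : (im E M).natDegree = M.natDegree := hMm.natDegree_map _
  obtain ⟨h1, a, b, hab⟩ := h
  have hd : ∀ u : E[X], (u %ₘ (im E M)).degree < M.natDegree := by
    intro u
    have := degree_modByMonic_lt u hMm'
    rwa [degree_eq_natDegree hMm'.ne_zero, hMd] at this
  refine ⟨v %ₘ (im E M), a %ₘ (im E M), hd _, hd _, ?_, ?_, ?_⟩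
  · have h2 := modByMonic_add_div v (im E M)
    set q := v /ₘ (im E M) with hq
    have h3 : v %ₘ (im E M) = v - im E M * q := by linear_combination h2
    have h4 : sq F (v %ₘ (im E M)) - τ * (v %ₘ (im E M)) =
        (sq F v - τ * v) - im E M * (sq F q - τ * q) := by
      rw [h3, sq_sub, sq_mul, sq_im]
      ring
    rw [h4]
    exact dvd_sub h1 (dvd_mul_right _ _)
  · have h2 := modByMonic_add_div v (im E M)
    have h3 := modByMonic_add_div a (im E M)
    set q := v /ₘ (im E M) with hq
    set t := a /ₘ (im E M) with ht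
    refine ⟨-(b + q * a + t * v) + im E M * q * t, ?_⟩
    have h4 : v %ₘ (im E M) = v - im E M * q := by linear_combination h2
    have h5 : a %ₘ (im E M) = a - im E M * t := by linear_combination h3
    rw [h4, h5]
    linear_combination hab
  · have h2 := modByMonic_add_div v (im E M)
    exact ⟨v /ₘ (im E M), by linear_combination -h2⟩

end Red

section

variable {k : Type} [Field k] [Algebra F k]

/-- the factor at the finite places -/
noncomputable def tf (x : k) : k[X] := X - C x

/-- the factor at infinity -/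
noncomputable def ti (x : k) : k[X] := 1 - C x * X

theorem sq_tf (x : k) : sq F (tf x) = tf (x ^ Fintype.card F) := by
  unfold tf
  rw [sq_sub, sq_X, sq_C]

theorem sq_ti (x : k) : sq F (ti x) = ti (x ^ Fintype.card F) := by
  unfold ti
  rw [sq_sub, sq_one, sq_mul, sq_C, sq_X]

/-- the conditions satisfied by the specialised solutions and their inverses -/
def Pkg (M : F[X]) (κ : ℕ) (x : k) (U : Fin 4 → k[X]) : Prop :=
  (U 0).degree < M.natDegree ∧ (U 1).degree < M.natDegree ∧
  (U 2).degree < (X ^ (κ + 1) : F[X]).natDegree ∧ (U 3).degree < (X ^ (κ + 1) : F[X]).natDegree ∧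
  im k M ∣ sq F (U 0) - tf x * U 0 ∧ im k M ∣ U 0 * U 1 - 1 ∧
  im k (X ^ (κ + 1) : F[X]) ∣ sq F (U 2) - ti x * U 2 ∧
  im k (X ^ (κ + 1) : F[X]) ∣ U 2 * U 3 - 1 ∧ (U 2).coeff 0 = 1

theorem step1 {E : Type} [Field E] [Algebra k[X] E] [Algebra (RatFunc k) E]
    [IsScalarTower k[X] (RatFunc k) E] [Algebra.IsSeparable (RatFunc k) E] [IsSepClosed E]
    (M : F[X]) (hM : M.Monic) (κ : ℕ) :
    ∃ (f A B : k[X][X]) (D δ b : k[X]) (n : ℕ) (P : Fin 4 × Fin n → k[X][X])
      (p : MvPolynomial (Fin 4 × Fin n) k[X]),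
      f.Monic ∧ 0 < f.natDegree ∧ Irreducible f ∧ D ≠ 0 ∧ A * f + B * derivative f = C D ∧
      δ ≠ 0 ∧ b ∣ δ ∧
      ∀ x θ : k, δ.eval x ≠ 0 → evalEval x θ f = 0 → ∃ U : Fin 4 → k[X], Pkg M κ x U ∧
        (∀ (a : Fin 4) (i : Fin n), (U a).coeff i = evalEval x θ (P (a, i)) / δ.eval x) ∧
        (∀ (a : Fin 4) (i : ℕ), n ≤ i → (U a).coeff i = 0) ∧
        b.eval x * θ = p.eval₂ (evalRingHom x) (fun q => (U q.1).coeff q.2) := by
  classical
  letI algE : Algebra F E :=
    ((algebraMap k[X] E).comp ((C : k →+* k[X]).comp (algebraMap F k))).toAlgebra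
  have hmapE : algebraMap F E =
    (algebraMap k[X] E).comp ((C : k →+* k[X]).comp (algebraMap F k)) := rfl
  set xE : E := algebraMap k[X] E X with hxE
  have hinjk : Function.Injective (algebraMap k[X] E) := by
    rw [IsScalarTower.algebraMap_eq k[X] (RatFunc k) E]
    exact (algebraMap (RatFunc k) E).injective.comp (IsFractionRing.injective k[X] (RatFunc k))
  have hx : ∀ Q : F[X], Q ≠ 0 → (im E Q).eval xE ≠ 0 := by
    intro Q hQ h
    have h1 : algebraMap k[X] E (im k Q) = (im E Q).eval xE := by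
      have h2 := Polynomial.hom_eval₂ Q ((C : k →+* k[X]).comp (algebraMap F k))
        (algebraMap k[X] E) X
      rw [eval_map, hmapE]
      exact h2
    rw [h, map_eq_zero_iff _ hinjk] at h1
    exact hQ ((Polynomial.map_eq_zero (algebraMap F k)).1 h1)
  have hXm : (X ^ (κ + 1) : F[X]).Monic := monic_X_pow _
  obtain ⟨v, hv⟩ := exists_sol_fin xE hx M hM.ne_zero
  obtain ⟨w, hw, hwc⟩ := exists_sol_inf (F := F) xE κ
  obtain ⟨v0, v1, hv0d, hv1d, hv0, hv1, -⟩ := reduce_sol hM hv
  obtain ⟨w0, w1, hw0d, hw1d, hw0, hw1, hww⟩ := reduce_sol hXm hw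
  have hw0c : w0.coeff 0 = 1 := by
    have hXi : im E (X ^ (κ + 1) : F[X]) = X ^ (κ + 1) := by
      rw [im, Polynomial.map_pow, Polynomial.map_X]
    rw [hXi] at hww
    have h3 : (X : E[X]) ∣ X ^ (κ + 1) := dvd_pow_self _ (by omega)
    have h4 := X_dvd_iff.1 (h3.trans hww)
    rw [coeff_sub, hwc, sub_eq_zero] at h4
    exact h4.symm
  set d : Fin 4 → ℕ := ![M.natDegree, M.natDegree, (X ^ (κ + 1) : F[X]).natDegree,
    (X ^ (κ + 1) : F[X]).natDegree] with hd
  set vec : Fin 4 → E[X] := ![v0, v1, w0, w1] with hvec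
  have hvd : ∀ a, (vec a).degree < d a := by
    intro a
    fin_cases a <;> assumption
  set n := max M.natDegree (X ^ (κ + 1) : F[X]).natDegree with hn
  have hdn : ∀ a, d a ≤ n := by
    intro a
    fin_cases a
    · exact le_max_left _ _
    · exact le_max_left _ _
    · exact le_max_right _ _
    · exact le_max_right _ _
  obtain ⟨f, A, B, D, δ, b, P, p, hfm, hf0, hfi, hD, hAB, hδ, hbδ, R, _, c, j, s, hjinj, hjc, hjs,
    hspec⟩ :=
    Pool.Agent.K7.H76.SI.spread (k := k) (E := E) (ι := Fin 4 × Fin n)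
      (fun q => (vec q.1).coeff q.2)
  letI algR : Algebra F R := (c.comp ((C : k →+* k[X]).comp (algebraMap F k))).toAlgebra
  refine ⟨f, A, B, D, δ, b, n, P, p, hfm, hf0, hfi, hD, hAB, hδ, hbδ, ?_⟩
  set V : Fin 4 → R[X] := fun a => ∑ i : Fin n, C (s (a, i)) * X ^ (i : ℕ) with hV
  have hVc : ∀ (a : Fin 4) (i : ℕ), (V a).coeff i = if h : i < n then s (a, ⟨i, h⟩) else 0 := by
    intro a i
    rw [hV]
    simp only [finsetSum_coeff, coeff_C_mul_X_pow]
    split_ifs with h
    · rw [Finset.sum_eq_single (⟨i, h⟩ : Fin n)]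
      · simp
      · intro q _ hq
        rw [if_neg]
        intro h2
        exact hq (Fin.ext h2.symm)
      · intro h2
        exact absurd (mem_univ _) h2
    · apply Finset.sum_eq_zero
      intro q _
      rw [if_neg]
      intro h2
      exact h (h2 ▸ q.2)
  have hVj : ∀ a, (V a).map j = vec a := by
    intro a
    ext i
    rw [coeff_map, hVc]
    split_ifs with h
    · exact hjs (a, ⟨i, h⟩)
    · rw [map_zero]
      symm
      apply coeff_eq_zero_of_degree_lt
      refine (hvd a).trans_le ?_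
      exact_mod_cast (hdn a).trans (by omega)
  have hVd : ∀ a i, d a ≤ i → (V a).coeff i = 0 := by
    intro a i hi
    apply hjinj
    rw [map_zero, ← coeff_map, hVj]
    apply coeff_eq_zero_of_degree_lt
    exact (hvd a).trans_le (by exact_mod_cast hi)
  have hV20 : (V 2).coeff 0 = 1 := by
    apply hjinj
    rw [map_one, ← coeff_map, hVj]
    exact hw0c
  -- moduli over `R`
  set NR : F[X] → R[X] := fun N => (im k N).map (c.comp C) with hNR
  have hNRm : ∀ N : F[X], N.Monic → (NR N).Monic := fun N hN => (hN.map _).map _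
  have hNj : ∀ N : F[X], (NR N).map j = im E N := by
    intro N
    rw [hNR]
    simp only [Polynomial.map_map]
    congr 1
    rw [hmapE, ← hjc]
    rfl
  have hjX : j (c X) = xE := by
    have : j (c X) = (j.comp c) X := rfl
    rw [this, hjc]
  have r1 : NR M ∣ sq F (V 0) - (X - C (c X)) * V 0 := by
    rw [← Polynomial.map_dvd_map j hjinj (hNRm M hM), hNj, Polynomial.map_sub, Polynomial.map_mul,
      map_sq, Polynomial.map_sub, map_X, map_C, hjX, hVj]
    exact hv0
  have r2 : NR M ∣ V 0 * V 1 - 1 := by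
    rw [← Polynomial.map_dvd_map j hjinj (hNRm M hM), hNj, Polynomial.map_sub, Polynomial.map_mul,
      hVj, hVj, Polynomial.map_one]
    exact hv1
  have r3 : NR (X ^ (κ + 1)) ∣ sq F (V 2) - (1 - C (c X) * X) * V 2 := by
    rw [← Polynomial.map_dvd_map j hjinj (hNRm _ hXm), hNj, Polynomial.map_sub, Polynomial.map_mul,
      map_sq, Polynomial.map_sub, Polynomial.map_mul, map_X, map_C, hjX, hVj, Polynomial.map_one]
    exact hw0
  have r4 : NR (X ^ (κ + 1)) ∣ V 2 * V 3 - 1 := by
    rw [← Polynomial.map_dvd_map j hjinj (hNRm _ hXm), hNj, Polynomial.map_sub, Polynomial.map_mul,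
      hVj, hVj, Polynomial.map_one]
    exact hw1
  intro x θ hδx hfx
  obtain ⟨e, hec, hes, heb⟩ := hspec x θ hδx hfx
  have heX : e (c X) = x := by
    have : e (c X) = (e.comp c) X := rfl
    rw [this, hec]
    simp
  have hNe : ∀ N : F[X], (NR N).map e = im k N := by
    intro N
    rw [hNR]
    simp only [Polynomial.map_map]
    congr 1
    refine RingHom.ext fun a => ?_
    change (e.comp c) (C (algebraMap F k a)) = _
    rw [hec]
    simp
  have hUc : ∀ (a : Fin 4) (i : Fin n), ((V a).map e).coeff i = e (s (a, i)) := by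
    intro a i
    rw [coeff_map, hVc, dif_pos i.2]
  have hUd : ∀ a, ((V a).map e).degree < d a := by
    intro a
    rw [degree_lt_iff_coeff_zero]
    intro i hi
    rw [coeff_map, hVd a i hi, map_zero]
  refine ⟨fun a => (V a).map e, ⟨hUd 0, hUd 1, hUd 2, hUd 3, ?_, ?_, ?_, ?_, ?_⟩, ?_, ?_, ?_⟩
  · have := Polynomial.map_dvd e r1
    rw [hNe, Polynomial.map_sub, Polynomial.map_mul, map_sq, Polynomial.map_sub, map_X, map_C,
      heX] at this
    exact this
  · have := Polynomial.map_dvd e r2
    rw [hNe, Polynomial.map_sub, Polynomial.map_mul, Polynomial.map_one] at this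
    exact this
  · have := Polynomial.map_dvd e r3
    rw [hNe, Polynomial.map_sub, Polynomial.map_mul, map_sq, Polynomial.map_sub,
      Polynomial.map_mul, map_X, map_C, heX, Polynomial.map_one] at this
    exact this
  · have := Polynomial.map_dvd e r4
    rw [hNe, Polynomial.map_sub, Polynomial.map_mul, Polynomial.map_one] at this
    exact this
  · rw [coeff_map, hV20, map_one]
  · intro a i
    rw [hUc, hes]
  · intro a i hi
    rw [coeff_map, hVd a i ((hdn a).trans hi), map_zero]
  · rw [heb]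
    congr 1
    funext q
    rw [← hUc]

end

end Pool.Agent.Helper83.GQ
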