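import Pool.Agent.Helper83.GQ.RRH

/-!
# The hypothesis `RHyp F` holds
-/

set_option autoImplicit false
set_option linter.style.haveILetI false
set_option linter.unusedSectionVars false

namespace Pool.Agent.Helper83.GQ

open Polynomial Finset Pool.Agent.H341R2.Sharp Pool.Agent.K7.H76.SI

variable {F : Type} [Field F] [Fintype F]

theorem one_mult : IsMult (fun _ : F[X] => (1 : ℂ)) where
  one := rfl
  mul _ _ _ _ := by simp

open scoped Classical in
/-- the prime polynomials of degree dividing `m` -/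
noncomputable def ID (F : Type) [Field F] [Fintype F] (m : ℕ) : Finset F[X] :=
  (Irr F m).filter (fun P => P.natDegree ∣ m)

theorem mem_ID {m : ℕ} {P : F[X]} :
    P ∈ ID F m ↔ P.Monic ∧ Irreducible P ∧ P.natDegree ≤ m ∧ P.natDegree ∣ m := by
  classical
  unfold ID
  rw [mem_filter, mem_Irr]
  tauto

theorem sum_ID {m : ℕ} (hm : 1 ≤ m) :
    ∑ P ∈ ID F m, (P.natDegree : ℝ) = (Fintype.card F : ℝ) ^ m := by
  classical
  obtain ⟨A, hAc, hA⟩ := exists_fixedq (F := F) (k := AlgebraicClosure F) m (by omega)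
  have h := TT_eq_sum (one_mult (F := F)) hm A hA
  rw [sum_const, hAc, nsmul_eq_mul, mul_one] at h
  unfold TT at h
  simp only [one_pow, mul_one] at h
  have h2 : ((∑ P ∈ ID F m, (P.natDegree : ℝ) : ℝ) : ℂ) = (((Fintype.card F : ℝ) ^ m : ℝ) : ℂ) := by
    push_cast
    unfold ID
    push_cast at h
    exact h
  exact_mod_cast h2

open scoped Classical in
theorem Pr_subset_ID (m : ℕ) : Pr F m ⊆ ID F m := by
  intro P hP
  rw [mem_Pr] at hP
  rw [mem_ID]
  exact ⟨hP.1, hP.2.2, hP.2.1.le, by rw [hP.2.1]⟩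

theorem card_Pr_le {m : ℕ} (hm : 1 ≤ m) :
    (m : ℝ) * (Pr F m).card ≤ (Fintype.card F : ℝ) ^ m := by
  rw [← sum_ID hm]
  have h1 : ∑ P ∈ Pr F m, (P.natDegree : ℝ) = m * (Pr F m).card := by
    rw [sum_congr rfl (fun P hP => by rw [(mem_Pr.1 hP).2.1]), sum_const, nsmul_eq_mul, mul_comm]
  rw [← h1]
  exact sum_le_sum_of_subset_of_nonneg (Pr_subset_ID m) (fun _ _ _ => Nat.cast_nonneg _)

theorem geom2 (h : ℕ) : ∑ i ∈ Ioc 0 h, (Fintype.card F : ℝ) ^ i ≤ 2 * (Fintype.card F : ℝ) ^ h := by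
  have hq : (2 : ℝ) ≤ Fintype.card F := by
    exact_mod_cast (Fintype.one_lt_card : 1 < Fintype.card F)
  induction h with
  | zero => simp
  | succ h ih =>
    have e1 : Ioc 0 (h + 1) = insert (h + 1) (Ioc 0 h) := by
      ext i; simp only [mem_Ioc, mem_insert]; omega
    rw [e1, sum_insert (by simp), pow_succ]
    have : 0 < (Fintype.card F : ℝ) ^ h := by positivity
    nlinarith

open scoped Classical in
theorem proper_le {m : ℕ} :
    ∑ P ∈ (ID F m).filter (fun P => P.natDegree ≠ m), (P.natDegree : ℝ) ≤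
      2 * √(Fintype.card F : ℝ) ^ m := by
  have hsub : (ID F m).filter (fun P => P.natDegree ≠ m) ⊆ (Ioc 0 (m / 2)).biUnion (Pr F) := by
    intro P hP
    rw [mem_filter, mem_ID] at hP
    obtain ⟨⟨h1, h2, h3, h4⟩, h5⟩ := hP
    have hpos := h2.natDegree_pos
    rw [mem_biUnion]
    refine ⟨P.natDegree, mem_Ioc.2 ⟨hpos, ?_⟩, mem_Pr.2 ⟨h1, rfl, h2⟩⟩
    obtain ⟨c, hc⟩ := h4
    have hc2 : 2 ≤ c := by
      rcases c with _ | _ | c
      · omega
      · omega
      · omega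
    rw [Nat.le_div_iff_mul_le (by norm_num)]
    calc P.natDegree * 2 ≤ P.natDegree * c := Nat.mul_le_mul_left _ hc2
      _ = m := hc.symm
  refine (sum_le_sum_of_subset_of_nonneg hsub (fun _ _ _ => Nat.cast_nonneg _)).trans ?_
  have hdisj : ∀ i ∈ Ioc 0 (m / 2), ∀ j ∈ Ioc 0 (m / 2), i ≠ j → Disjoint (Pr F i) (Pr F j) := by
    intro i _ j _ hij
    rw [disjoint_left]
    intro p h1 h2
    exact hij ((mem_Pr.1 h1).2.1.symm.trans (mem_Pr.1 h2).2.1)
  rw [sum_biUnion hdisj]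
  have h3 : ∀ i ∈ Ioc 0 (m / 2), ∑ P ∈ Pr F i, (P.natDegree : ℝ) ≤ (Fintype.card F : ℝ) ^ i := by
    intro i hi
    rw [mem_Ioc] at hi
    have h1 : ∑ P ∈ Pr F i, (P.natDegree : ℝ) = i * (Pr F i).card := by
      rw [sum_congr rfl (fun P hP => by rw [(mem_Pr.1 hP).2.1]), sum_const, nsmul_eq_mul, mul_comm]
    rw [h1]
    exact card_Pr_le (by omega)
  refine (sum_le_sum h3).trans ((geom2 (m / 2)).trans ?_)
  have hs1 : (1 : ℝ) ≤ √(Fintype.card F : ℝ) := by
    rw [Real.one_le_sqrt]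
    exact_mod_cast (Fintype.card_pos : 0 < Fintype.card F)
  have h4 : (Fintype.card F : ℝ) ^ (m / 2) = √(Fintype.card F : ℝ) ^ (2 * (m / 2)) := by
    rw [pow_mul, Real.sq_sqrt (Nat.cast_nonneg _)]
  rw [h4]
  apply mul_le_mul_of_nonneg_left _ (by norm_num)
  exact pow_le_pow_right₀ hs1 (by omega)

open scoped Classical in
theorem ID_filter (m : ℕ) : (ID F m).filter (fun P => P.natDegree = m) = Pr F m := by
  ext P
  rw [mem_filter, mem_ID, mem_Pr]
  constructor
  · rintro ⟨⟨h1, h2, h3, h4⟩, h5⟩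
    exact ⟨h1, h5, h2⟩
  · rintro ⟨h1, h2, h3⟩
    exact ⟨⟨h1, h3, h2.le, by rw [h2]⟩, h2⟩

/-- the Riemann hypothesis and the prime number theorem for `F(t)` -/
theorem rhyp : RHyp F where
  bound := by
    classical
    rintro M κ hM χ ⟨f, hf, hc, hne⟩ D hD
    have hχ : ¬ Xi (GG 1 M κ (M.natDegree + κ)) χ := by
      intro h
      apply hne
      apply h
      rw [mem_GG hM (one_dvd M) le_rfl]
      exact ⟨f, hf, hc, one_dvd _, rfl⟩
    have h1 := RH hM κ hχ hD
    have h2 : TT (gχ M κ χ) D = (D : ℂ) * ∑ P ∈ Pr F D, χ (cls M κ P) +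
        ∑ P ∈ (ID F D).filter (fun P => P.natDegree ≠ D),
          (P.natDegree : ℂ) * gχ M κ χ P ^ (D / P.natDegree) := by
      have h3 : TT (gχ M κ χ) D =
          ∑ P ∈ ID F D, (P.natDegree : ℂ) * gχ M κ χ P ^ (D / P.natDegree) := rfl
      rw [h3, ← sum_filter_add_sum_filter_not (ID F D) (fun P => P.natDegree = D), ID_filter,
        mul_sum]
      congr 1
      refine sum_congr rfl fun P hP => ?_
      rw [(mem_Pr.1 hP).2.1, Nat.div_self (by omega), pow_one]
      rfl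
    have h3 : ‖∑ P ∈ (ID F D).filter (fun P => P.natDegree ≠ D),
          (P.natDegree : ℂ) * gχ M κ χ P ^ (D / P.natDegree)‖ ≤
          2 * √(Fintype.card F : ℝ) ^ D := by
      refine le_trans ((norm_sum_le _ _).trans (sum_le_sum fun P _ => ?_)) proper_le
      rw [norm_mul, Complex.norm_natCast, norm_pow]
      haveI := finite_BB hM κ
      have h4 : ‖gχ M κ χ P‖ ≤ 1 := norm_char_le χ _
      exact mul_le_of_le_one_right (Nat.cast_nonneg _) (pow_le_one₀ (norm_nonneg _) h4)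
    have h4 : (D : ℂ) * ∑ P ∈ Pr F D, χ (cls M κ P) = TT (gχ M κ χ) D -
        ∑ P ∈ (ID F D).filter (fun P => P.natDegree ≠ D),
          (P.natDegree : ℂ) * gχ M κ χ P ^ (D / P.natDegree) := by
      rw [h2]; ring
    have h5 : (D : ℝ) * ‖∑ P ∈ Pr F D, χ (cls M κ P)‖ ≤
        (M.natDegree + κ + 2) * √(Fintype.card F : ℝ) ^ D := by
      have h6 := congrArg norm h4
      rw [norm_mul, Complex.norm_natCast] at h6
      rw [h6]
      refine (norm_sub_le _ _).trans ?_
      push_cast at h1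
      linarith
    have hD1 : (1 : ℝ) ≤ D := by exact_mod_cast hD
    have h7 : ‖∑ P ∈ Pr F D, χ (cls M κ P)‖ ≤ (D : ℝ) * ‖∑ P ∈ Pr F D, χ (cls M κ P)‖ :=
      le_mul_of_one_le_left (norm_nonneg _) hD1
    exact h7.trans h5
  count := by
    classical
    intro D hD
    have h1 := sum_ID (F := F) hD
    rw [← sum_filter_add_sum_filter_not (ID F D) (fun P => P.natDegree = D), ID_filter] at h1
    have h2 : ∑ P ∈ Pr F D, (P.natDegree : ℝ) = D * (Pr F D).card := by
      rw [sum_congr rfl (fun P hP => by rw [(mem_Pr.1 hP).2.1]), sum_const, nsmul_eq_mul, mul_comm]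
    have h3 := proper_le (F := F) (m := D)
    rw [← h1, h2]
    linarith

end Pool.Agent.Helper83.GQ
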