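import Pool.Agent.Helper83.GQ.RXSum
import Pool.Graph.R_pool_sql_team_seeded_35f281b4.K7.H76.SI.PS

/-!
# The Riemann hypothesis for the `L`-functions of the ray class characters of `F(t)`

(A generalisation to all finite fields of the library module `SI.RH`.)
-/

set_option autoImplicit false
set_option linter.style.haveILetI false
set_option linter.unusedSectionVars false

namespace Pool.Agent.Helper83.GQ

open Polynomial Finset Pool.Agent.H341R2.Sharp Pool.Agent.K7.H76.SI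

variable {F : Type} [Field F] [Fintype F]

section

variable (M : F[X]) (κ : ℕ)

/-- the character as a function of polynomials -/
noncomputable def gχ (χ : MulChar (BB M κ) ℂ) (f : F[X]) : ℂ := χ (cls M κ f)

theorem gχ_mult (χ : MulChar (BB M κ) ℂ) : IsMult (gχ M κ χ) where
  one := by
    unfold gχ
    rw [cls_one, map_one]
  mul a b _ _ := by
    unfold gχ
    rw [cls_mul, map_mul]

variable {M} {κ}

theorem GG_eq (hM : M.Monic) {n : ℕ} (hn : M.natDegree + κ ≤ n) :
    GG 1 M κ n = GG 1 M κ (M.natDegree + κ) := by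
  ext b
  rw [mem_GG hM (one_dvd M) hn, mem_GG hM (one_dvd M) le_rfl]

open scoped Classical in
theorem Mon_eq_MonD (n : ℕ) : Mon F n = MonD F n := by
  ext h
  rw [mem_Mon, mem_MonD]

open scoped Classical in
theorem AA_eq_zero (hM : M.Monic) {χ : MulChar (BB M κ) ℂ}
    (hχ : ¬ Xi (GG 1 M κ (M.natDegree + κ)) χ) {n : ℕ} (hn : M.natDegree + κ ≤ n) :
    AA (gχ M κ χ) n = 0 := by
  haveI := finite_BB hM κ
  unfold AA gχ
  rw [Mon_eq_MonD]
  have h1 : ∑ f ∈ MonD F n, χ (cls M κ f) = ∑ f ∈ YY n (QM 1 M) 1 1, χ (cls M κ f) := by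
    symm
    refine sum_subset ?_ ?_
    · intro y hy
      exact (mem_YY.1 hy).1
    · intro y hy hy'
      apply χ.map_nonunit
      rw [isUnit_cls_iff (mem_MonD.1 hy).1, coprime_iff_QM hM (one_dvd _)]
      intro h
      exact hy' (mem_YY.2 ⟨hy, one_dvd _, h⟩)
  rw [h1, sum_YY_GG hM (one_dvd M) hn (fun b => χ b), GG_eq hM hn,
    sum_G_eq_zero (GG_unit hM (one_dvd M) le_rfl) (GG_mul hM (one_dvd M) le_rfl) χ hχ, mul_zero]

open scoped Classical in
/-- the reciprocal roots of the `L`-function -/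
theorem exists_roots (hM : M.Monic) {χ : MulChar (BB M κ) ℂ}
    (hχ : ¬ Xi (GG 1 M κ (M.natDegree + κ)) χ) :
    ∃ s : Multiset ℂ, s.card ≤ M.natDegree + κ ∧ ∀ m, 1 ≤ m → TT (gχ M κ χ) m = - ps s m := by
  set N := M.natDegree + κ with hN
  set L : ℂ[X] := ∑ n ∈ range N, C (AA (gχ M κ χ) n) * X ^ n with hL
  have hcoeff : ∀ n, L.coeff n = AA (gχ M κ χ) n := by
    intro n
    rw [hL, finsetSum_coeff]
    simp_rw [coeff_C_mul_X_pow]
    rw [sum_ite_eq (range N) n (fun n => AA (gχ M κ χ) n)]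
    split_ifs with h
    · rfl
    · rw [mem_range] at h
      rw [AA_eq_zero hM hχ (by omega)]
  have h0 : L.coeff 0 = 1 := by rw [hcoeff, AA_zero (gχ_mult M κ χ)]
  obtain ⟨s, hs, hsc⟩ := exists_rp L h0
  have hdeg : L.natDegree ≤ N := by
    rw [natDegree_le_iff_coeff_eq_zero]
    intro n hn
    rw [hcoeff, AA_eq_zero hM hχ (by omega)]
  refine ⟨s, hsc.trans hdeg, ?_⟩
  apply newton_unique (fun n => L.coeff n) (TT (gχ M κ χ)) (fun m => - ps s m) h0
  · intro n
    simp_rw [hcoeff]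
    exact n_mul_AA (gχ_mult M κ χ) n
  · intro n
    rw [hs]
    exact rp_newton s n

end

section

variable {k : Type} [Field k] [Algebra F k] [IsAlgClosed k] [Algebra.IsAlgebraic F k]

open scoped Classical in
theorem sum_TT {M : F[X]} (hM : M.Monic) (κ : ℕ) [Finite (BB M κ)] {m : ℕ} (hm : 1 ≤ m)
    (A : Finset k) (hA : ∀ x, x ∈ A ↔ Fx F m x) :
    ∑ χ : MulChar (BB M κ) ℂ, TT (gχ M κ χ) m = (nu (BB M κ) : ℂ) * NN F k M κ m := by
  have h1 : ∀ χ : MulChar (BB M κ) ℂ, TT (gχ M κ χ) m = ∑ x ∈ A, χ (cls M κ (pol F m x)) := by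
    intro χ
    rw [TT_eq_sum (gχ_mult M κ χ) hm A hA]
    rfl
  rw [sum_congr rfl (fun χ _ => h1 χ), sum_comm]
  have h2 : ∀ x ∈ A, ∑ χ : MulChar (BB M κ) ℂ, χ (cls M κ (pol F m x)) =
      if cls M κ (pol F m x) = 1 then (nu (BB M κ) : ℂ) else 0 := by
    intro x _
    have := sum_char (cls M κ (pol F m x))
    convert this
  rw [sum_congr rfl h2, ← sum_filter, sum_const, nsmul_eq_mul, mul_comm]
  congr 2
  unfold NN
  rw [← Set.ncard_coe_finset]
  congr 1
  ext x
  rw [mem_coe, mem_filter, hA]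
  constructor
  · rintro ⟨h3, h4⟩
    exact ⟨h3, (class_iff h3 M κ).2 h4⟩
  · rintro ⟨h3, h4⟩
    exact ⟨h3, (class_iff h3 M κ).1 h4⟩

theorem isCoprime_pol_iff {M : F[X]} {m : ℕ} (hm : 1 ≤ m) {x : k} (hx : Fx F m x) :
    IsCoprime (pol F m x) M ↔ (im k M).eval x ≠ 0 := by
  have hint : IsIntegral F x := Algebra.IsIntegral.isIntegral x
  have hirr := minpoly.irreducible hint
  obtain ⟨-, a, ha⟩ := pol_spec hx
  have hpos : 0 < (minpoly F x).natDegree := minpoly.natDegree_pos hint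
  have ha0 : 0 < m / (minpoly F x).natDegree := by
    rw [ha, Nat.mul_div_cancel_left _ hpos]
    rcases Nat.eq_zero_or_pos a with h | h
    · rw [h] at ha; omega
    · exact h
  unfold pol
  rw [IsCoprime.pow_left_iff ha0, hirr.coprime_iff_not_dvd, minpoly.dvd_iff, eval_map]
  rfl

open scoped Classical in
/-- the sum for the characters trivial on the classes of the monic polynomials -/
theorem TT_one {M : F[X]} (hM : M.Monic) (κ : ℕ) {m : ℕ} (hm : 1 ≤ m) (A : Finset k)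
    (hA : ∀ x, x ∈ A ↔ Fx F m x)
    (hAc : A.card = Fintype.card F ^ m) : ∃ e : ℕ, e ≤ M.natDegree ∧
      ∀ χ : MulChar (BB M κ) ℂ, Xi (GG 1 M κ (M.natDegree + κ)) χ →
        TT (gχ M κ χ) m = (Fintype.card F : ℂ) ^ m - e := by
  refine ⟨(A.filter (fun x => (im k M).eval x = 0)).card, ?_, ?_⟩
  · have h2 : A.filter (fun x => (im k M).eval x = 0) ⊆ (im k M).roots.toFinset := by
      intro x hx
      rw [Multiset.mem_toFinset, mem_roots (hM.map _).ne_zero]
      exact (mem_filter.1 hx).2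
    refine (card_le_card h2).trans ((Multiset.toFinset_card_le _).trans
      ((card_roots' _).trans ?_))
    exact natDegree_map_le
  · intro χ hχ
    rw [TT_eq_sum (gχ_mult M κ χ) hm A hA]
    have h1 : ∀ x ∈ A, gχ M κ χ (pol F m x) = 1 - if (im k M).eval x = 0 then 1 else 0 := by
      intro x hx
      rw [hA] at hx
      unfold gχ
      by_cases h : (im k M).eval x = 0
      · rw [if_pos h, MulChar.map_nonunit, sub_self]
        rw [isUnit_cls_iff (pol_monic m x), isCoprime_pol_iff hm hx]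
        exact fun h' => h' h
      · rw [if_neg h, sub_zero]
        apply hχ
        rw [mem_GG hM (one_dvd M) le_rfl]
        exact ⟨pol F m x, pol_monic m x, (isCoprime_pol_iff hm hx).2 h, one_dvd _, rfl⟩
    rw [sum_congr rfl h1, sum_sub_distrib, sum_const, hAc, sum_boole]
    simp

open scoped Classical in
theorem roots_bound {E : Type} [Field E] [Algebra k[X] E] [Algebra (RatFunc k) E]
    [IsScalarTower k[X] (RatFunc k) E] [Algebra.IsSeparable (RatFunc k) E] [IsSepClosed E]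
    {M : F[X]} (hM : M.Monic) (κ : ℕ) {χ : MulChar (BB M κ) ℂ}
    (hχ : ¬ Xi (GG 1 M κ (M.natDegree + κ)) χ) {m : ℕ} (hm : 1 ≤ m) :
    ‖TT (gχ M κ χ) m‖ ≤ (M.natDegree + κ : ℕ) * (√(Fintype.card F : ℝ)) ^ m := by
  haveI := finite_BB hM κ
  set Gs := GG 1 M κ (M.natDegree + κ) with hGs
  have hs : ∀ ψ : MulChar (BB M κ) ℂ, ∃ s : Multiset ℂ, ¬ Xi Gs ψ → (s.card ≤ M.natDegree + κ ∧
      ∀ m, 1 ≤ m → TT (gχ M κ ψ) m = - ps s m) := by
    intro ψ
    by_cases h : Xi Gs ψ
    · exact ⟨0, fun h' => absurd h h'⟩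
    · obtain ⟨s, h1, h2⟩ := exists_roots hM h
      exact ⟨s, fun _ => ⟨h1, h2⟩⟩
  choose s hs using hs
  obtain ⟨r, D1, C1, n0, hr, hD1, hD1G, hcount⟩ := countT (k := k) (E := E) M hM κ
  rw [← hGs] at hD1G
  set G := Gs.card with hG
  set Ξ : Finset (MulChar (BB M κ) ℂ) := univ.filter (Xi Gs) with hΞ
  set Ξc : Finset (MulChar (BB M κ) ℂ) := univ.filter (fun ψ => ¬ Xi Gs ψ) with hΞc
  have hcardXi : (G : ℂ) * (Ξ.card : ℂ) = nu (BB M κ) :=
    card_Xi (GG_unit hM (one_dvd M) le_rfl) (GG_one hM (one_dvd M) le_rfl)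
      (GG_mul hM (one_dvd M) le_rfl)
  set x0 := Ξ.card with hx0
  set st : Multiset ℂ := ∑ ψ ∈ Ξc, s ψ with hst
  have hps : ∀ n, ps st n = ∑ ψ ∈ Ξc, ps (s ψ) n := by
    intro n
    rw [hst]
    induction Ξc using Finset.induction_on with
    | empty => simp [ps]
    | insert a t ha ih => rw [sum_insert ha, sum_insert ha, ps_add, ih]
  set β : Multiset ℂ := D1 • (st.map fun α => α ^ r) +
    (x0 * (G - D1)) • ({(Fintype.card F : ℂ) ^ r} : Multiset ℂ) with hβ
  have hpsβ : ∀ n, ps β n = D1 * ps st (r * n) + x0 * (G - D1) * (Fintype.card F : ℂ) ^ (r * n) := by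
    intro n
    rw [hβ, ps_add, ps_nsmul, ps_nsmul, Nat.cast_mul, Nat.cast_sub hD1G]
    congr 2
    · unfold ps
      rw [Multiset.map_map]
      congr 1
      apply Multiset.map_congr rfl
      intro α _
      rw [Function.comp, ← pow_mul]
    · unfold ps
      rw [Multiset.map_singleton, Multiset.sum_singleton, ← pow_mul]
  have hs1 : (1 : ℝ) ≤ √(Fintype.card F : ℝ) := by
    rw [Real.one_le_sqrt]
    exact_mod_cast (Fintype.card_pos : 0 < Fintype.card F)
  have hs0 : 0 < √(Fintype.card F : ℝ) := by linarith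
  have hρ : 0 < (√(Fintype.card F : ℝ)) ^ r := by positivity
  have hmain : ∀ n, max n0 1 ≤ n → ‖ps β n‖ ≤ (x0 * (G * C1 + D1 * M.natDegree)) *
      ((√(Fintype.card F : ℝ)) ^ r) ^ n := by
    intro n hn
    have hn0 : n0 ≤ n := (le_max_left _ _).trans hn
    have hn1 : 1 ≤ n := (le_max_right _ _).trans hn
    have hrn : 1 ≤ r * n := Nat.mul_pos hr hn1
    obtain ⟨A, hAc, hA⟩ := exists_fixedq (F := F) (k := k) (r * n) (by omega)
    have h1 := sum_TT (k := k) hM κ hrn A hA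
    rw [← sum_filter_add_sum_filter_not univ (Xi Gs)] at h1
    obtain ⟨e, he, hT1⟩ := TT_one (k := k) hM κ hrn A hA hAc
    have h2 : ∑ ψ ∈ Ξc, TT (gχ M κ ψ) (r * n) = - ps st (r * n) := by
      rw [hps, ← sum_neg_distrib]
      apply sum_congr rfl
      intro ψ hψ
      exact (hs ψ (mem_filter.1 hψ).2).2 _ hrn
    have h2' : ∑ ψ ∈ Ξ, TT (gχ M κ ψ) (r * n) = x0 * ((Fintype.card F : ℂ) ^ (r * n) - e) := by
      rw [sum_congr rfl (fun ψ hψ => hT1 ψ (mem_filter.1 hψ).2), sum_const, nsmul_eq_mul]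
    rw [← hΞ, ← hΞc, h2, h2', ← hcardXi] at h1
    have h3 : ps β n = -(x0 * (G * ((D1 : ℂ) * NN F k M κ (r * n) -
        (Fintype.card F : ℂ) ^ (r * n)))) - x0 * (D1 * e) := by
      rw [hpsβ]
      linear_combination (-(D1 : ℂ)) * h1
    have h4 := hcount n hn0
    have h5 : ‖(D1 : ℂ) * NN F k M κ (r * n) - (Fintype.card F : ℂ) ^ (r * n)‖ ≤
        C1 * (√(Fintype.card F : ℝ)) ^ (r * n) := by
      have h6 : (D1 : ℂ) * NN F k M κ (r * n) - (Fintype.card F : ℂ) ^ (r * n) =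
          (((D1 : ℝ) * NN F k M κ (r * n) - (Fintype.card F : ℝ) ^ (r * n) : ℝ) : ℂ) := by
        push_cast
        rfl
      rw [h6, Complex.norm_real]
      exact h4
    rw [h3]
    refine (norm_sub_le _ _).trans ?_
    rw [norm_neg, norm_mul, norm_mul, norm_mul, norm_mul, Complex.norm_natCast,
      Complex.norm_natCast, Complex.norm_natCast, Complex.norm_natCast, ← pow_mul]
    have h7 : (1 : ℝ) ≤ (√(Fintype.card F : ℝ)) ^ (r * n) := one_le_pow₀ hs1
    have h8 : (e : ℝ) ≤ M.natDegree := by exact_mod_cast he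
    have h9 : (x0 : ℝ) * (G * ‖(D1 : ℂ) * NN F k M κ (r * n) - (Fintype.card F : ℂ) ^ (r * n)‖) ≤
        x0 * (G * (C1 * (√(Fintype.card F : ℝ)) ^ (r * n))) := by
      gcongr
    have h10 : (x0 : ℝ) * ((D1 : ℝ) * e) ≤
        x0 * (D1 * M.natDegree * (√(Fintype.card F : ℝ)) ^ (r * n)) := by
      apply mul_le_mul_of_nonneg_left _ (Nat.cast_nonneg _)
      calc (D1 : ℝ) * e ≤ D1 * M.natDegree := mul_le_mul_of_nonneg_left h8 (by positivity)
        _ ≤ D1 * M.natDegree * (√(Fintype.card F : ℝ)) ^ (r * n) :=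
          le_mul_of_one_le_right (by positivity) h7
    linarith
  have hall := ps_bound_imp β _ _ _ hρ hmain
  have hst2 : ∀ α ∈ st, ‖α‖ ≤ √(Fintype.card F : ℝ) := by
    intro α hα
    have h1 : α ^ r ∈ β := by
      rw [hβ, Multiset.mem_add]
      left
      rw [Multiset.mem_nsmul_of_ne_zero (by omega), Multiset.mem_map]
      exact ⟨α, hα, rfl⟩
    have h2 := hall _ h1
    rw [norm_pow] at h2
    exact le_of_pow_le_pow_left₀ (by omega) (by positivity) h2
  obtain ⟨hc, hT⟩ := hs χ hχ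
  rw [hT m hm, norm_neg]
  have h3 : ∀ α ∈ s χ, ‖α‖ ≤ √(Fintype.card F : ℝ) := by
    intro α hα
    apply hst2
    have h4 : s χ ≤ st := by
      rw [hst]
      exact single_le_sum (f := s) (fun _ _ => Multiset.zero_le _)
        (mem_filter.2 ⟨mem_univ _, hχ⟩)
    exact Multiset.mem_of_le h4 hα
  refine (norm_ps_le (s χ) _ h3 m).trans ?_
  exact mul_le_mul_of_nonneg_right (by exact_mod_cast hc) (by positivity)

end

open scoped Classical in
/-- **The Riemann hypothesis** for the `L`-functions of the ray class characters of `F(t)` -/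
theorem RH {M : F[X]} (hM : M.Monic) (κ : ℕ) {χ : MulChar (BB M κ) ℂ}
    (hχ : ¬ Xi (GG 1 M κ (M.natDegree + κ)) χ) {m : ℕ} (hm : 1 ≤ m) :
    ‖TT (gχ M κ χ) m‖ ≤ (M.natDegree + κ : ℕ) * (√(Fintype.card F : ℝ)) ^ m :=
  roots_bound (k := AlgebraicClosure F) (E := SeparableClosure (RatFunc (AlgebraicClosure F)))
    hM κ hχ hm

end Pool.Agent.Helper83.GQ
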