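import Pool.Agent.Helper83.GQ.RSys

/-!
# Solutions over the algebraic closure of a finite field

(A generalisation to all finite fields of the library modules `SI.Spec` and `SI.Fix`.)
-/

set_option autoImplicit false
set_option linter.style.haveILetI false
set_option linter.unusedSectionVars false

namespace Pool.Agent.Helper83.GQ

open Polynomial Finset

variable {F : Type} [Field F] [Fintype F]

section

variable {k : Type*} [Field k] [Algebra F k]

variable (F) in
/-- the product of the `τ (x ^ (q ^ i))`, `i < m` -/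
noncomputable def QQ (τ : k → k[X]) (m : ℕ) (x : k) : k[X] :=
  ∏ i ∈ range m, τ (x ^ Fintype.card F ^ i)

theorem card_pow_ne (m : ℕ) : Fintype.card F ^ m ≠ 0 := pow_ne_zero _ Fintype.card_ne_zero

theorem coeff_sq_iter (v : k[X]) (m i : ℕ) :
    ((sq F)^[m] v).coeff i = v.coeff i ^ Fintype.card F ^ m := by
  induction m with
  | zero => simp
  | succ m ih => rw [Function.iterate_succ_apply', coeff_sq, ih, ← pow_mul, pow_succ]

theorem iter_dvd {τ : k → k[X]} (hτ : ∀ x, sq F (τ x) = τ (x ^ Fintype.card F)) {M : F[X]}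
    {v : k[X]} {x : k} (h : im k M ∣ sq F v - τ x * v) (m : ℕ) :
    im k M ∣ (sq F)^[m] v - QQ F τ m x * v := by
  induction m with
  | zero =>
    unfold QQ
    simp
  | succ m ih =>
    rw [Function.iterate_succ_apply']
    have h1 : sq F (QQ F τ m x) * τ x = QQ F τ (m + 1) x := by
      unfold QQ
      rw [sq_prod, prod_range_succ']
      have h2 : ∀ i ∈ range m, sq F (τ (x ^ Fintype.card F ^ i)) =
          τ (x ^ Fintype.card F ^ (i + 1)) := by
        intro i _
        rw [hτ, ← pow_mul, pow_succ]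
      rw [prod_congr rfl h2, pow_zero, pow_one]
    have h3 : sq F ((sq F)^[m] v) - QQ F τ (m + 1) x * v =
        sq F ((sq F)^[m] v - QQ F τ m x * v) + sq F (QQ F τ m x) * (sq F v - τ x * v) := by
      rw [sq_sub, sq_mul, ← h1]
      ring
    rw [h3]
    refine dvd_add ?_ (h.mul_left _)
    have := sq_dvd F ih
    rwa [sq_im] at this

theorem dvd_of_rational {τ : k → k[X]} (hτ : ∀ x, sq F (τ x) = τ (x ^ Fintype.card F)) {M : F[X]}
    {v : k[X]} {x : k} (h : im k M ∣ sq F v - τ x * v) (hv : IsCoprime v (im k M)) {m : ℕ}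
    (hr : ∀ i, v.coeff i ^ Fintype.card F ^ m = v.coeff i) :
    im k M ∣ QQ F τ m x - 1 := by
  have h1 : (sq F)^[m] v = v := by
    ext i
    rw [coeff_sq_iter, hr]
  have h2 := iter_dvd hτ h m
  rw [h1] at h2
  have h3 : im k M ∣ v * (QQ F τ m x - 1) := by
    rw [← dvd_neg]
    have h4 : -(v * (QQ F τ m x - 1)) = v - QQ F τ m x * v := by ring
    rwa [h4]
  exact hv.symm.dvd_of_dvd_mul_left h3

theorem sq_iter_degree_lt {n : ℕ} {v : k[X]} (hv : v.degree < n) (m : ℕ) :
    ((sq F)^[m] v).degree < n := by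
  rw [degree_lt_iff_coeff_zero] at hv ⊢
  intro j hj
  rw [coeff_sq_iter, hv j hj, zero_pow (card_pow_ne m)]

theorem eq_of_dvd_sub {M : F[X]} (hMm : M.Monic) {v w : k[X]} (hv : v.degree < M.natDegree)
    (hw : w.degree < M.natDegree) (h : im k M ∣ v - w) : v = w := by
  have h1 : (v - w).degree < (im k M).degree := by
    rw [degree_eq_natDegree (hMm.map _).ne_zero, hMm.natDegree_map]
    exact (degree_sub_le _ _).trans_lt (max_lt hv hw)
  exact sub_eq_zero.1 (eq_zero_of_dvd_of_degree_lt h h1)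

theorem rational_of_dvd {τ : k → k[X]} (hτ : ∀ x, sq F (τ x) = τ (x ^ Fintype.card F)) {M : F[X]}
    (hM : M.Monic) {v : k[X]} {x : k}
    (h : im k M ∣ sq F v - τ x * v) (hd : v.degree < M.natDegree) {m : ℕ}
    (hQ : im k M ∣ QQ F τ m x - 1) : (sq F)^[m] v = v := by
  refine eq_of_dvd_sub hM (sq_iter_degree_lt hd m) hd ?_
  have h1 : (sq F)^[m] v - v = ((sq F)^[m] v - QQ F τ m x * v) + (QQ F τ m x - 1) * v := by ring
  rw [h1]
  exact dvd_add (iter_dvd hτ h m) (hQ.mul_right _)

theorem sq_iter_mul (v w : k[X]) (m : ℕ) : (sq F)^[m] (v * w) = (sq F)^[m] v * (sq F)^[m] w := by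
  induction m with
  | zero => rfl
  | succ m ih => rw [Function.iterate_succ_apply', ih, sq_mul, Function.iterate_succ_apply',
      Function.iterate_succ_apply']

theorem sq_iter_sub (v w : k[X]) (m : ℕ) : (sq F)^[m] (v - w) = (sq F)^[m] v - (sq F)^[m] w := by
  induction m with
  | zero => rfl
  | succ m ih => rw [Function.iterate_succ_apply', ih, sq_sub, Function.iterate_succ_apply',
      Function.iterate_succ_apply']

theorem sq_iter_one (m : ℕ) : (sq F)^[m] (1 : k[X]) = 1 := by
  induction m with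
  | zero => rfl
  | succ m ih => rw [Function.iterate_succ_apply', ih, sq_one]

theorem sq_iter_im (M : F[X]) (m : ℕ) : (sq F)^[m] (im k M) = im k M := by
  induction m with
  | zero => rfl
  | succ m ih => rw [Function.iterate_succ_apply', ih, sq_im]

theorem sq_iter_dvd {v w : k[X]} (h : v ∣ w) (m : ℕ) : (sq F)^[m] v ∣ (sq F)^[m] w := by
  obtain ⟨c, rfl⟩ := h
  rw [sq_iter_mul]
  exact dvd_mul_right _ _

theorem isCoprime_of_inv {M : F[X]} {v v' : k[X]} (h : im k M ∣ v * v' - 1) :
    IsCoprime v (im k M) := by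
  obtain ⟨c, hc⟩ := h
  exact ⟨v', -c, by linear_combination hc⟩

/-- inverses are unique -/
theorem inv_unique {M : F[X]} (hM : M.Monic) {v v' v'' : k[X]} (h1 : im k M ∣ v * v' - 1)
    (h2 : im k M ∣ v * v'' - 1)
    (hd1 : v'.degree < M.natDegree) (hd2 : v''.degree < M.natDegree) : v' = v'' := by
  refine eq_of_dvd_sub hM hd1 hd2 ?_
  have h4 : im k M ∣ v * (v' - v'') := by
    have h3 : v * (v' - v'') = (v * v' - 1) - (v * v'' - 1) := by ring
    rw [h3]
    exact dvd_sub h1 h2
  exact (isCoprime_of_inv h1).symm.dvd_of_dvd_mul_left h4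

theorem rational_inv {M : F[X]} (hM : M.Monic) {v v' : k[X]} (h1 : im k M ∣ v * v' - 1)
    (hd : v'.degree < M.natDegree) {m : ℕ} (hr : (sq F)^[m] v = v) : (sq F)^[m] v' = v' := by
  refine inv_unique hM (v := v) ?_ h1 (sq_iter_degree_lt hd m) hd
  have h2 := sq_iter_dvd (F := F) h1 m
  rwa [sq_iter_im, sq_iter_sub, sq_iter_mul, sq_iter_one, hr] at h2

/-- two solutions differ by a polynomial over `F` -/
theorem exists_ratio {M : F[X]} (hM : M.Monic) {τ v1 v1' v2 : k[X]}
    (h1 : im k M ∣ sq F v1 - τ * v1)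
    (h1' : im k M ∣ v1 * v1' - 1) (h2 : im k M ∣ sq F v2 - τ * v2) :
    ∃ b : F[X], im k M ∣ v2 - im k b * v1 := by
  have hMm' : (im k M).Monic := hM.map _
  have hMd : (im k M).natDegree = M.natDegree := hM.natDegree_map _
  obtain ⟨a, ha⟩ := h1
  obtain ⟨b, hb⟩ := h1'
  obtain ⟨c, hc⟩ := h2
  set b0 := (v2 * v1') %ₘ (im k M) with hb0
  have hb0' := modByMonic_add_div (v2 * v1') (im k M)
  set d := (v2 * v1') /ₘ (im k M) with hd
  have hb0d : b0.degree < M.natDegree := by
    have := degree_modByMonic_lt (v2 * v1') hMm'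
    rwa [degree_eq_natDegree hMm'.ne_zero, hMd] at this
  have hsq1 := congrArg (sq F) (show v1 * v1' = 1 + im k M * b by linear_combination hb)
  rw [sq_mul, sq_add, sq_one, sq_mul, sq_im] at hsq1
  have hsq2 := congrArg (sq F) (show b0 = v2 * v1' - im k M * d by linear_combination hb0')
  rw [sq_sub, sq_mul, sq_mul, sq_im] at hsq2
  have key : im k M ∣ sq F b0 - b0 := by
    refine ⟨c * sq F v1' - sq F d + d +
      v2 * (v1' * sq F b - v1' * a * sq F v1' - τ * sq F v1' * b), ?_⟩
    have e1 : b0 = v2 * v1' - im k M * d := by linear_combination hb0'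
    rw [hsq2]
    have e2 : τ * sq F v1' - v1' =
        im k M * (v1' * sq F b - v1' * a * sq F v1' - τ * sq F v1' * b) := by
      linear_combination (-(τ * sq F v1')) * hb + v1' * hsq1 - (v1' * sq F v1') * ha
    rw [e1]
    linear_combination (sq F v1') * hc + v2 * e2
  have h3 : sq F b0 = b0 := eq_of_dvd_sub hM (sq_iter_degree_lt (F := F) hb0d 1) hb0d key
  obtain ⟨q, hq⟩ := exists_im_of_sq_eq h3
  refine ⟨q, ?_⟩
  rw [hq]
  refine ⟨d * v1 - v2 * b, ?_⟩
  have e1 : b0 = v2 * v1' - im k M * d := by linear_combination hb0'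
  rw [e1]
  linear_combination (-v2) * hb

theorem isCoprime_ratio {M : F[X]} {v1 v2 : k[X]} {b : F[X]} (hv2 : IsCoprime v2 (im k M))
    (h : im k M ∣ v2 - im k b * v1) : IsCoprime b M := by
  rw [← Polynomial.isCoprime_map (algebraMap F k)]
  change IsCoprime (im k b) (im k M)
  obtain ⟨c, hc⟩ := h
  have h1 : im k b * v1 = v2 + im k M * (-c) := by linear_combination -hc
  have h2 : IsCoprime (im k b * v1) (im k M) := by
    rw [h1]
    exact IsCoprime.add_mul_left_left hv2 _
  exact h2.of_mul_left_left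

/-- the constant coefficient of the ratio -/
theorem coeff_zero_ratio {n : ℕ} {v1 v2 : k[X]} {b : F[X]} (h1 : v1.coeff 0 = 1)
    (h2 : v2.coeff 0 = 1) (h : im k (X ^ (n + 1) : F[X]) ∣ v2 - im k b * v1) : b.coeff 0 = 1 := by
  have hXi : im k (X ^ (n + 1) : F[X]) = X ^ (n + 1) := by
    rw [im, Polynomial.map_pow, Polynomial.map_X]
  rw [hXi] at h
  have h3 : (X : k[X]) ∣ X ^ (n + 1) := dvd_pow_self _ (by omega)
  have h4 := X_dvd_iff.1 (h3.trans h)
  rw [coeff_sub, mul_coeff_zero, h1, h2, mul_one, coeff_map, sub_eq_zero] at h4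
  apply (algebraMap F k).injective
  rw [map_one]
  exact h4.symm

end

section

variable {k : Type} [Field k] [Algebra F k]

variable (F) in
/-- the iterated Frobenius -/
noncomputable def Frm (k : Type) [Field k] [Algebra F k] (m : ℕ) : k →+* k :=
  ((FiniteField.frobeniusAlgHom F k ^ m : k →ₐ[F] k) : k →+* k)

theorem Frm_apply (m : ℕ) (x : k) : Frm F k m x = x ^ Fintype.card F ^ m := by
  unfold Frm
  change (FiniteField.frobeniusAlgHom F k ^ m) x = _
  rw [AlgHom.coe_pow, FiniteField.coe_frobeniusAlgHom, pow_iterate]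

variable (F) in
/-- an element of the field with `q ^ r` elements -/
def Fx (r : ℕ) (c : k) : Prop := c ^ Fintype.card F ^ r = c

theorem Fx.mul_right {r : ℕ} {c : k} (h : Fx F r c) (n : ℕ) : Fx F (r * n) c := by
  unfold Fx at *
  induction n with
  | zero => simp
  | succ n ih => rw [Nat.mul_succ, pow_add, pow_mul, ih, h]

theorem eval_fix {m : ℕ} {g : k[X]} (hg : ∀ i, Fx F m (g.coeff i)) (x : k) :
    (g.eval x) ^ Fintype.card F ^ m = g.eval (x ^ Fintype.card F ^ m) := by
  have h1 : g.map (Frm F k m) = g := by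
    ext i
    rw [coeff_map, Frm_apply]
    exact hg i
  have h2 := Polynomial.hom_eval₂ g (RingHom.id k) (Frm F k m) x
  rw [RingHom.comp_id] at h2
  have h3 : eval₂ (RingHom.id k) x g = g.eval x := rfl
  rw [h3, Frm_apply, Frm_apply] at h2
  rw [h2, ← eval_map, h1]

theorem evalEval_fix {m : ℕ} {g : k[X][X]} (hg : ∀ i j, Fx F m ((g.coeff i).coeff j)) (x y : k) :
    (evalEval x y g) ^ Fintype.card F ^ m =
      evalEval (x ^ Fintype.card F ^ m) (y ^ Fintype.card F ^ m) g := by
  rw [← eval₂_evalRingHom, ← eval₂_evalRingHom, ← Frm_apply, hom_eval₂, Frm_apply,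
    eval₂_eq_sum_range, eval₂_eq_sum_range]
  apply sum_congr rfl
  intro i _
  congr 1
  rw [RingHom.comp_apply, coe_evalRingHom, coe_evalRingHom, Frm_apply]
  exact eval_fix (hg i) x

theorem mv_fix {ι : Type} {m : ℕ} {p : MvPolynomial ι k[X]}
    (hp : ∀ d j, Fx F m ((p.coeff d).coeff j)) (x : k)
    (u : ι → k) : (p.eval₂ (evalRingHom x) u) ^ Fintype.card F ^ m =
      p.eval₂ (evalRingHom (x ^ Fintype.card F ^ m)) (fun i => u i ^ Fintype.card F ^ m) := by
  rw [← Frm_apply, MvPolynomial.eval₂_comp_left, MvPolynomial.eval₂_eq, MvPolynomial.eval₂_eq]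
  apply sum_congr rfl
  intro d _
  congr 1
  · rw [RingHom.comp_apply, coe_evalRingHom, coe_evalRingHom, Frm_apply]
    exact eval_fix (hp d) x
  · apply prod_congr rfl
    intro i _
    rw [Function.comp, Frm_apply]

end

section Alg

variable {k : Type} [Field k] [Algebra F k] [Algebra.IsAlgebraic F k]

theorem exists_fx (c : k) : ∃ r : ℕ, 1 ≤ r ∧ Fx F r c := by
  have h1 : IsIntegral F c := Algebra.IsIntegral.isIntegral c
  haveI : FiniteDimensional F (IntermediateField.adjoin F {c}) :=
    IntermediateField.adjoin.finiteDimensional h1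
  haveI : Finite (IntermediateField.adjoin F {c}) := Module.finite_of_finite F
  haveI : Fintype (IntermediateField.adjoin F {c}) := Fintype.ofFinite _
  refine ⟨Module.finrank F (IntermediateField.adjoin F {c}), Module.finrank_pos, ?_⟩
  have h2 := FiniteField.pow_card (K := IntermediateField.adjoin F {c})
    ⟨c, IntermediateField.mem_adjoin_simple_self F c⟩
  rw [Module.card_eq_pow_finrank (K := F)] at h2
  exact congrArg Subtype.val h2

theorem exists_fx_finset (T : Finset k) : ∃ r : ℕ, 1 ≤ r ∧ ∀ c ∈ T, Fx F r c := by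
  classical
  induction T using Finset.induction_on with
  | empty => exact ⟨1, le_rfl, fun c hc => absurd hc (Finset.notMem_empty c)⟩
  | insert a s ha ih =>
    obtain ⟨r, hr, h⟩ := ih
    obtain ⟨r', hr', h'⟩ := exists_fx (F := F) a
    refine ⟨r * r', Nat.mul_pos hr hr', ?_⟩
    intro c hc
    rcases Finset.mem_insert.1 hc with rfl | hc
    · rw [mul_comm]
      exact h'.mul_right r
    · exact (h c hc).mul_right r'

theorem fx_zero (r : ℕ) : Fx F r (0 : k) := by
  unfold Fx
  rw [zero_pow (card_pow_ne r)]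

variable (F) in
/-- the coefficients of a polynomial -/
theorem exists_finset_coeff (g : k[X]) :
    ∃ T : Finset k, ∀ r : ℕ, (∀ c ∈ T, Fx F r c) → ∀ i, Fx F r (g.coeff i) := by
  classical
  refine ⟨g.support.image (fun i => g.coeff i), fun r hr i => ?_⟩
  by_cases hi : i ∈ g.support
  · exact hr _ (mem_image_of_mem _ hi)
  · rw [notMem_support_iff.1 hi]
    exact fx_zero r

variable (F) in
theorem exists_finset_coeff₂ (g : k[X][X]) : ∃ T : Finset k, ∀ r : ℕ, (∀ c ∈ T, Fx F r c) →
    ∀ i j, Fx F r ((g.coeff i).coeff j) := by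
  classical
  choose T hT using fun i => exists_finset_coeff (k := k) F (g.coeff i)
  refine ⟨g.support.biUnion T, fun r hr i j => ?_⟩
  by_cases hi : i ∈ g.support
  · exact hT i r (fun c hc => hr c (mem_biUnion.2 ⟨i, hi, hc⟩)) j
  · rw [notMem_support_iff.1 hi, coeff_zero]
    exact fx_zero r

variable (F) in
theorem exists_finset_coeff_mv {ι : Type} (p : MvPolynomial ι k[X]) :
    ∃ T : Finset k, ∀ r : ℕ, (∀ c ∈ T, Fx F r c) → ∀ d j, Fx F r ((p.coeff d).coeff j) := by
  classical
  choose T hT using fun d => exists_finset_coeff (k := k) F (p.coeff d)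
  refine ⟨p.support.biUnion T, fun r hr d j => ?_⟩
  by_cases hi : d ∈ p.support
  · exact hT d r (fun c hc => hr c (mem_biUnion.2 ⟨d, hi, hc⟩)) j
  · rw [MvPolynomial.notMem_support_iff.1 hi, coeff_zero]
    exact fx_zero r

end Alg

end Pool.Agent.Helper83.GQ
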