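import Pool.Agent.Helper83.GQ.Cls
import Pool.Graph.R_pool_sql_team_seeded_35f281b4.K7.H76.SI.Mon

/-!
# Unit solutions of `v ^ (q) = (X - x) v` modulo `M`

Here `v ^ (q)` is obtained from the polynomial `v` by raising the coefficients to the power `q`.
(A generalisation to all finite fields of the library module `SI.Sys`.)
-/

set_option autoImplicit false
set_option linter.style.haveILetI false
set_option linter.unusedSectionVars false

namespace Pool.Agent.Helper83.GQ

open Polynomial Finset

section Sq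

variable (F : Type) [Field F] [Fintype F]
variable {S T : Type*} [CommRing S] [CommRing T] [Algebra F S] [Algebra F T]

/-- the Frobenius on the coefficients -/
noncomputable def sq (v : S[X]) : S[X] := v.map (FiniteField.frobeniusAlgHom F S : S →+* S)

@[simp] theorem coeff_sq (v : S[X]) (i : ℕ) : (sq F v).coeff i = v.coeff i ^ Fintype.card F := by
  unfold sq
  rw [coeff_map]
  rfl

theorem map_sq (e : S →+* T) (v : S[X]) : (sq F v).map e = sq F (v.map e) := by
  ext i
  simp

theorem sq_mul (v w : S[X]) : sq F (v * w) = sq F v * sq F w := by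
  simp only [sq, Polynomial.map_mul]

theorem sq_add (v w : S[X]) : sq F (v + w) = sq F v + sq F w := by
  simp only [sq, Polynomial.map_add]

theorem sq_sub (v w : S[X]) : sq F (v - w) = sq F v - sq F w := by
  simp only [sq, Polynomial.map_sub]

theorem sq_one : sq F (1 : S[X]) = 1 := by
  simp only [sq, Polynomial.map_one]

theorem sq_C (a : S) : sq F (C a : S[X]) = C (a ^ Fintype.card F) := by
  simp only [sq, Polynomial.map_C]
  rfl

theorem sq_X : sq F (X : S[X]) = X := by
  simp only [sq, Polynomial.map_X]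

theorem sq_prod {ι : Type*} (s : Finset ι) (f : ι → S[X]) :
    sq F (∏ i ∈ s, f i) = ∏ i ∈ s, sq F (f i) := by
  simp only [sq, Polynomial.map_prod]

theorem sq_dvd {v w : S[X]} (h : v ∣ w) : sq F v ∣ sq F w := by
  obtain ⟨c, rfl⟩ := h
  rw [sq_mul]
  exact dvd_mul_right _ _

end Sq

variable {F : Type} [Field F] [Fintype F]

section Alg

variable {S : Type*} [CommRing S] [Algebra F S]

/-- the image of a polynomial over `F` -/
noncomputable abbrev im (S : Type*) [CommRing S] [Algebra F S] (M : F[X]) : S[X] :=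
  M.map (algebraMap F S)

theorem sq_im (M : F[X]) : sq F (im S M) = im S M := by
  ext i
  rw [coeff_sq, coeff_map, ← map_pow, FiniteField.pow_card]

theorem card_zero : (Fintype.card F : S) = 0 := by
  have h1 : (Fintype.card F : F) = 0 := Nat.cast_card_eq_zero F
  have h2 := congrArg (algebraMap F S) h1
  rwa [map_natCast, map_zero] at h2

end Alg

section Fld

variable {E : Type*} [Field E] [Algebra F E]

theorem mem_F_of_pow {y : E} (h : y ^ Fintype.card F = y) : ∃ a : F, algebraMap F E a = y := by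
  classical
  by_contra hno
  push Not at hno
  have hinj : Function.Injective (algebraMap F E) := (algebraMap F E).injective
  have hne : (X ^ Fintype.card F - X : E[X]) ≠ 0 :=
    FiniteField.X_pow_card_sub_X_ne_zero E Fintype.one_lt_card
  have h1 : insert y ((univ : Finset F).image (algebraMap F E)) ⊆
      (X ^ Fintype.card F - X : E[X]).roots.toFinset := by
    intro z hz
    rw [Multiset.mem_toFinset, mem_roots hne, IsRoot.def, eval_sub, eval_pow, eval_X, sub_eq_zero]
    rcases mem_insert.1 hz with rfl | hz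
    · exact h
    · obtain ⟨a, _, rfl⟩ := mem_image.1 hz
      rw [← map_pow, FiniteField.pow_card]
  have h2 := (card_le_card h1).trans ((Multiset.toFinset_card_le _).trans (card_roots' _))
  rw [FiniteField.X_pow_card_sub_X_natDegree_eq E Fintype.one_lt_card, card_insert_of_notMem,
    card_image_of_injective _ hinj, card_univ] at h2
  · omega
  · rw [mem_image]
    rintro ⟨a, _, ha⟩
    exact hno a ha

theorem exists_im_of_sq_eq {g : E[X]} (h : sq F g = g) : ∃ q : F[X], im E q = g := by
  have h1 : g ∈ Polynomial.lifts (algebraMap F E) := by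
    rw [Polynomial.lifts_iff_coeff_lifts]
    intro i
    have h2 := congrArg (fun p => coeff p i) h
    simp only [coeff_sq] at h2
    obtain ⟨a, ha⟩ := mem_F_of_pow h2
    exact ⟨a, ha⟩
  rw [Polynomial.mem_lifts] at h1
  exact h1

/-- `v` is a unit solution of `v ^ (q) = τ v` modulo `M` -/
def Sol (τ : E[X]) (M : F[X]) (v : E[X]) : Prop := im E M ∣ sq F v - τ * v ∧ IsCoprime v (im E M)

theorem im_mul (M N : F[X]) : im E (M * N) = im E M * im E N := Polynomial.map_mul _

theorem isCoprime_im {M N : F[X]} (h : IsCoprime M N) : IsCoprime (im E M) (im E N) :=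
  h.map (mapRingHom (algebraMap F E))

theorem exists_monic_assoc {M : F[X]} (hM : M ≠ 0) : ∃ M' : F[X], M'.Monic ∧ Associated M M' := by
  refine ⟨M * C (M.leadingCoeff)⁻¹, monic_mul_leadingCoeff_inv hM, ?_⟩
  refine (associated_mul_unit_right M _ ?_)
  exact isUnit_C.2 (inv_ne_zero (leadingCoeff_ne_zero.2 hM)).isUnit

theorem assoc_im {M M' : F[X]} (h : Associated M M') : Associated (im E M) (im E M') :=
  h.map (mapRingHom (algebraMap F E))

theorem exists_sol (τ : E[X]) (M : F[X]) (hM : M ≠ 0)
    (H1 : ∀ π : F[X], π.Monic → Irreducible π → π ∣ M → ∀ c : E[X], ∃ z : E[X],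
      im E π ∣ sq F z - τ * z - c)
    (H2 : ∀ π : F[X], π.Monic → Irreducible π → π ∣ M → ∃ z : E[X], Sol τ π z) :
    ∃ v : E[X], Sol τ M v := by
  replace H1 : ∀ π : F[X], Irreducible π → π ∣ M → ∀ c : E[X], ∃ z : E[X],
      im E π ∣ sq F z - τ * z - c := by
    intro π h1 h2 c
    obtain ⟨π', h3, h4⟩ := exists_monic_assoc h1.ne_zero
    obtain ⟨z, hz⟩ := H1 π' h3 (h4.irreducible h1) (h4.symm.dvd.trans h2) c
    exact ⟨z, (assoc_im h4).dvd.trans hz⟩
  replace H2 : ∀ π : F[X], Irreducible π → π ∣ M → ∃ z : E[X], Sol τ π z := by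
    intro π h1 h2
    obtain ⟨π', h3, h4⟩ := exists_monic_assoc h1.ne_zero
    obtain ⟨z, hz1, hz2⟩ := H2 π' h3 (h4.irreducible h1) (h4.symm.dvd.trans h2)
    exact ⟨z, (assoc_im h4).dvd.trans hz1, hz2.of_isCoprime_of_dvd_right (assoc_im h4).dvd⟩
  revert hM H1 H2
  refine WfDvdMonoid.induction_on_irreducible (motive := fun M : F[X] => M ≠ 0 →
    (∀ π : F[X], Irreducible π → π ∣ M → ∀ c : E[X], ∃ z : E[X], im E π ∣ sq F z - τ * z - c) →
    (∀ π : F[X], Irreducible π → π ∣ M → ∃ z : E[X], Sol τ π z) → ∃ v : E[X], Sol τ M v) M ?_ ?_ ?_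
  · intro h
    exact absurd rfl h
  · intro u hu _ _ _
    have h1 : IsUnit (im E u) := hu.map (mapRingHom (algebraMap F E))
    exact ⟨1, h1.dvd, isCoprime_one_left⟩
  · intro a p ha hp ih _ H1 H2
    obtain ⟨v', hv1, hv2⟩ := ih ha (fun π h1 h2 => H1 π h1 (h2.mul_left p))
      (fun π h1 h2 => H2 π h1 (h2.mul_left p))
    by_cases hpa : p ∣ a
    · obtain ⟨c, hc⟩ := hv1
      obtain ⟨z, hz⟩ := H1 p hp (dvd_mul_right _ _) (-c)
      refine ⟨v' + im E a * z, ?_, ?_⟩
      · have h1 : sq F (v' + im E a * z) - τ * (v' + im E a * z) =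
            im E a * (sq F z - τ * z - -c) := by
          rw [sq_add, sq_mul, sq_im]
          linear_combination hc
        rw [h1, im_mul, mul_comm]
        exact mul_dvd_mul_left _ hz
      · rw [im_mul]
        have h1 : IsCoprime (v' + im E a * z) (im E a) := by
          rw [mul_comm]
          exact IsCoprime.add_mul_right_left hv2 z
        refine IsCoprime.mul_right ?_ h1
        exact h1.of_isCoprime_of_dvd_right (Polynomial.map_dvd _ hpa)
    · have hcop : IsCoprime p a := (hp.coprime_iff_not_dvd).2 hpa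
      obtain ⟨z, hz1, hz2⟩ := H2 p hp (dvd_mul_right _ _)
      obtain ⟨r, s, hrs⟩ := isCoprime_im (E := E) hcop
      -- `v ≡ v'` modulo `a`, `v ≡ z` modulo `p`
      set v : E[X] := v' * (r * im E p) + z * (s * im E a) with hv
      have e1 : v = v' + im E a * ((z - v') * s) := by
        rw [hv]
        linear_combination v' * hrs
      have e2 : v = z + im E p * ((v' - z) * r) := by
        rw [hv]
        linear_combination z * hrs
      refine ⟨v, ?_, ?_⟩
      · rw [im_mul]
        refine (isCoprime_im hcop).mul_dvd ?_ ?_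
        · have h1 : sq F v - τ * v = (sq F z - τ * z) +
              im E p * (sq F ((v' - z) * r) - τ * ((v' - z) * r)) := by
            rw [e2, sq_add, sq_mul, sq_im]
            ring
          rw [h1]
          exact dvd_add hz1 (dvd_mul_right _ _)
        · have h1 : sq F v - τ * v = (sq F v' - τ * v') +
              im E a * (sq F ((z - v') * s) - τ * ((z - v') * s)) := by
            rw [e1, sq_add, sq_mul, sq_im]
            ring
          rw [h1]
          exact dvd_add hv1 (dvd_mul_right _ _)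
      · rw [im_mul]
        refine IsCoprime.mul_right ?_ ?_
        · rw [e2, mul_comm (im E p)]
          exact IsCoprime.add_mul_right_left hz2 _
        · rw [e1, mul_comm (im E a)]
          exact IsCoprime.add_mul_right_left hv2 _

end Fld

section Sep

variable {E : Type*} [Field E] [Algebra F E] (x : E)

variable (F) in
/-- the elimination polynomials -/
noncomputable def ZZ (M : E[X]) (c : E[X]) (D : ℕ) : ℕ → E[X]
  | 0 => X
  | i + 1 => ZZ M c D i ^ Fintype.card F + C x * ZZ M c D i + C (M.coeff (D - 1 - i)) * X -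
      C (c.coeff (D - 1 - i))

theorem ZZ_monic (M c : E[X]) (D i : ℕ) :
    (ZZ F x M c D i).Monic ∧ (ZZ F x M c D i).natDegree = Fintype.card F ^ i := by
  have hq : 1 < Fintype.card F := Fintype.one_lt_card
  induction i with
  | zero => exact ⟨monic_X, by rw [ZZ, natDegree_X, pow_zero]⟩
  | succ i ih =>
    obtain ⟨h1, h2⟩ := ih
    have h3 : (ZZ F x M c D i ^ Fintype.card F).Monic := h1.pow _
    have h4 : (ZZ F x M c D i ^ Fintype.card F).natDegree = Fintype.card F ^ (i + 1) := by
      rw [h1.natDegree_pow, h2, pow_succ, mul_comm]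
    have h5 : ZZ F x M c D (i + 1) = ZZ F x M c D i ^ Fintype.card F +
        (C x * ZZ F x M c D i + C (M.coeff (D - 1 - i)) * X - C (c.coeff (D - 1 - i))) := by
      rw [ZZ]
      ring
    have hpos : 1 ≤ Fintype.card F ^ i := Nat.one_le_pow _ _ (by omega)
    have h6 : (C x * ZZ F x M c D i + C (M.coeff (D - 1 - i)) * X -
        C (c.coeff (D - 1 - i))).natDegree ≤ Fintype.card F ^ i := by
      refine (natDegree_sub_le _ _).trans (max_le ((natDegree_add_le _ _).trans (max_le ?_ ?_)) ?_)
      · exact (natDegree_C_mul_le _ _).trans h2.le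
      · exact (natDegree_C_mul_le _ _).trans (by rw [natDegree_X]; exact hpos)
      · rw [natDegree_C]
        exact Nat.zero_le _
    have h7 : (C x * ZZ F x M c D i + C (M.coeff (D - 1 - i)) * X -
        C (c.coeff (D - 1 - i))).degree < (ZZ F x M c D i ^ Fintype.card F).degree := by
      rw [degree_eq_natDegree h3.ne_zero, h4]
      refine lt_of_le_of_lt degree_le_natDegree ?_
      have : Fintype.card F ^ i < Fintype.card F ^ (i + 1) := Nat.pow_lt_pow_right hq (by omega)
      exact_mod_cast h6.trans_lt this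
    rw [h5]
    exact ⟨h3.add_of_left h7, by rw [natDegree_add_eq_left_of_degree_lt h7, h4]⟩

theorem ZZ_derivative (M c : E[X]) (D i : ℕ) (hM : M.coeff D = 1) (hi : i ≤ D) :
    derivative (ZZ F x M c D i) = C (∑ j ∈ range (i + 1), M.coeff (D - i + j) * x ^ j) := by
  induction i with
  | zero =>
    rw [ZZ, derivative_X]
    simp [hM]
  | succ i ih =>
    rw [ZZ, derivative_sub, derivative_add, derivative_add, derivative_pow, derivative_C_mul,
      derivative_C_mul, derivative_X, derivative_C, ih (by omega), sum_range_succ' _ (i + 1)]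
    have h3 : ∀ j ∈ range (i + 1), M.coeff (D - (i + 1) + (j + 1)) * x ^ (j + 1) =
        x * (M.coeff (D - i + j) * x ^ j) := by
      intro j _
      rw [show D - (i + 1) + (j + 1) = D - i + j by omega]
      ring
    rw [sum_congr rfl h3, ← mul_sum, C_add, C_mul]
    have h4 : D - 1 - i = D - (i + 1) + 0 := by omega
    rw [h4]
    have h5 : (C ((Fintype.card F : ℕ) : E) : E[X]) = 0 := by
      rw [card_zero (F := F), C_0]
    rw [h5]
    simp

theorem ZZ_derivative_last (M c : E[X]) (D : ℕ) (hM : M.coeff D = 1) (hD : M.natDegree = D) :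
    derivative (ZZ F x M c D D) = C (M.eval x) := by
  rw [ZZ_derivative x M c D D hM le_rfl, eval_eq_sum_range, hD, Nat.sub_self]
  simp

/-- the solution determined by its top coefficient -/
theorem exists_of_root (M c : E[X]) (D : ℕ) (hD0 : 1 ≤ D) (hM : M.Monic) (hD : M.natDegree = D)
    (hc : c.degree < D) (y : E) (hy : (ZZ F x M c D D).eval y = 0) :
    ∃ z : E[X], z.degree < D ∧ z.coeff (D - 1) = y ∧ M ∣ sq F z - (X - C x) * z - c := by
  have hq : Fintype.card F ≠ 0 := Fintype.card_ne_zero
  set s : ℕ → E := fun i => (ZZ F x M c D i).eval y with hs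
  have hs0 : s 0 = y := by simp [hs, ZZ]
  have hs1 : ∀ i, s (i + 1) = s i ^ Fintype.card F + x * s i + M.coeff (D - 1 - i) * y -
      c.coeff (D - 1 - i) := by
    intro i
    simp [hs, ZZ]
  have hsD : s D = 0 := hy
  set z : E[X] := ∑ j ∈ range D, C (s (D - 1 - j)) * X ^ j with hz
  have hzc : ∀ j, z.coeff j = if j < D then s (D - 1 - j) else 0 := by
    intro j
    rw [hz, finsetSum_coeff]
    simp_rw [coeff_C_mul_X_pow]
    rw [sum_ite_eq (range D) j (fun j => s (D - 1 - j))]
    simp
  refine ⟨z, ?_, ?_, ?_⟩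
  · rw [degree_lt_iff_coeff_zero]
    intro m hm
    rw [hzc, if_neg (by omega)]
  · rw [hzc, if_pos (by omega), show D - 1 - (D - 1) = 0 by omega, hs0]
  · refine ⟨-C y, ?_⟩
    have hMD : M.coeff D = 1 := by
      rw [← hD]
      exact hM
    have hM' : ∀ j, D < j → M.coeff j = 0 := fun j hj => coeff_eq_zero_of_natDegree_lt (by omega)
    have hc' : ∀ j, D ≤ j → c.coeff j = 0 := (degree_lt_iff_coeff_zero c D).1 hc
    ext j
    rw [coeff_sub, coeff_sub, coeff_sq, sub_mul, coeff_sub, coeff_C_mul, mul_neg, coeff_neg,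
      mul_comm M (C y), coeff_C_mul]
    rcases j with _ | j
    · rw [coeff_X_mul_zero, hzc, if_pos (by omega)]
      have h1 := hs1 (D - 1)
      rw [show D - 1 + 1 = D by omega, hsD, show D - 1 - (D - 1) = 0 by omega] at h1
      rw [Nat.sub_zero]
      linear_combination -h1
    · rw [coeff_X_mul, hzc, hzc]
      rcases lt_trichotomy (j + 1) D with h | h | h
      · rw [if_pos h, if_pos (by omega)]
        have h1 := hs1 (D - 1 - (j + 1))
        rw [show D - 1 - (j + 1) + 1 = D - 1 - j by omega,
          show D - 1 - (D - 1 - (j + 1)) = j + 1 by omega] at h1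
        linear_combination -h1
      · rw [if_neg (by omega), if_pos (by omega), h, hMD, hc' D le_rfl,
          show D - 1 - j = 0 by omega, hs0, zero_pow hq]
        ring
      · rw [if_neg (by omega), if_neg (by omega), hM' _ h, hc' _ (by omega), zero_pow hq]
        ring

variable [IsSepClosed E] (hx : ∀ P : F[X], P ≠ 0 → (im E P).eval x ≠ 0)

include hx

theorem lang_surj (M : F[X]) (hMm : M.Monic) (c : E[X]) :
    ∃ z : E[X], im E M ∣ sq F z - (X - C x) * z - c := by
  have hMm' : (im E M).Monic := hMm.map _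
  have hMd : (im E M).natDegree = M.natDegree := hMm.natDegree_map _
  rcases Nat.eq_zero_or_pos M.natDegree with h0 | h0
  · have h1 : im E M = 1 := by
      rw [eq_one_of_monic_natDegree_zero hMm h0]
      exact Polynomial.map_one _
    rw [h1]
    exact ⟨0, one_dvd _⟩
  set c' := c %ₘ (im E M) with hc'
  have hc'd : c'.degree < (M.natDegree : WithBot ℕ) := by
    have := degree_modByMonic_lt c hMm'
    rwa [degree_eq_natDegree hMm'.ne_zero, hMd] at this
  obtain ⟨h1, h2⟩ := ZZ_monic (F := F) x (im E M) c' M.natDegree M.natDegree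
  have h3 : (ZZ F x (im E M) c' M.natDegree M.natDegree).Separable := by
    rw [Polynomial.separable_def,
      ZZ_derivative_last x (im E M) c' M.natDegree (by rw [← hMd]; exact hMm') hMd]
    exact (isCoprime_one_right.of_isCoprime_of_dvd_right
      (isUnit_C.2 (hx M hMm.ne_zero).isUnit).dvd)
  obtain ⟨y, hy⟩ := IsSepClosed.exists_root _ (by
    rw [degree_eq_natDegree h1.ne_zero, h2]
    exact_mod_cast (pow_pos (Fintype.card_pos : 0 < Fintype.card F) _).ne') h3
  obtain ⟨z, -, -, hz⟩ := exists_of_root x (im E M) c' M.natDegree h0 hMm' hMd hc'd y hy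
  refine ⟨z, ?_⟩
  have h4 : sq F z - (X - C x) * z - c =
      (sq F z - (X - C x) * z - c') - im E M * (c /ₘ (im E M)) := by
    have := modByMonic_add_div c (im E M)
    linear_combination this
  rw [h4]
  exact dvd_sub hz (dvd_mul_right _ _)

theorem lang_nonzero (M : F[X]) (hMm : M.Monic) (h0 : 1 ≤ M.natDegree) :
    ∃ z : E[X], z ≠ 0 ∧ z.degree < M.natDegree ∧ im E M ∣ sq F z - (X - C x) * z := by
  have hM : M ≠ 0 := hMm.ne_zero
  have hMm' : (im E M).Monic := hMm.map _
  have hMd : (im E M).natDegree = M.natDegree := hMm.natDegree_map _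
  obtain ⟨h1, h2⟩ := ZZ_monic (F := F) x (im E M) 0 M.natDegree M.natDegree
  set Z := ZZ F x (im E M) 0 M.natDegree M.natDegree with hZ
  have hder : derivative Z = C ((im E M).eval x) :=
    ZZ_derivative_last x (im E M) 0 M.natDegree (by rw [← hMd]; exact hMm') hMd
  have h3 : Z.Separable := by
    rw [Polynomial.separable_def, hder]
    exact (isCoprime_one_right.of_isCoprime_of_dvd_right (isUnit_C.2 (hx M hM).isUnit).dvd)
  have hZ0 : ∀ i, (ZZ F x (im E M) 0 M.natDegree i).coeff 0 = 0 := by
    intro i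
    induction i with
    | zero => simp [ZZ]
    | succ i ih =>
      have h5 : (ZZ F x (im E M) 0 M.natDegree i ^ Fintype.card F).coeff 0 = 0 := by
        rw [coeff_zero_eq_eval_zero, eval_pow, ← coeff_zero_eq_eval_zero, ih,
          zero_pow Fintype.card_ne_zero]
      rw [ZZ, coeff_sub, coeff_add, coeff_add, h5, coeff_C_mul, ih]
      simp
  obtain ⟨g, hg⟩ := X_dvd_iff.2 (hZ0 M.natDegree)
  rw [← hZ] at hg
  have hg0 : g.coeff 0 = (im E M).eval x := by
    have h4 := congrArg (fun p => coeff p 0) hder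
    simp only [coeff_C_zero] at h4
    rw [hg, derivative_mul, derivative_X, one_mul, coeff_add, coeff_X_mul_zero, add_zero] at h4
    exact h4
  have hg1 : g ≠ 0 := by
    rintro rfl
    rw [coeff_zero] at hg0
    exact hx M hM hg0.symm
  have hgd : g.natDegree + 1 = Fintype.card F ^ M.natDegree := by
    rw [← h2, hg, natDegree_X_mul hg1]
  have h2D : 2 ≤ Fintype.card F ^ M.natDegree := by
    have hq : 2 ≤ Fintype.card F := Fintype.one_lt_card
    calc 2 ≤ Fintype.card F := hq
      _ = Fintype.card F ^ 1 := (pow_one _).symm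
      _ ≤ Fintype.card F ^ M.natDegree := Nat.pow_le_pow_right (by omega) h0
  obtain ⟨y, hy⟩ := IsSepClosed.exists_root g (by
    rw [degree_eq_natDegree hg1]
    exact_mod_cast (by omega : g.natDegree ≠ 0)) (h3.of_dvd ⟨X, by rw [hg]; ring⟩)
  have hy0 : y ≠ 0 := by
    rintro rfl
    rw [IsRoot.def, ← coeff_zero_eq_eval_zero, hg0] at hy
    exact hx M hM hy
  obtain ⟨z, hz1, hz2, hz3⟩ := exists_of_root (F := F) x (im E M) 0 M.natDegree h0 hMm' hMd
    (by rw [degree_zero]; exact WithBot.bot_lt_coe _) y (by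
      rw [← hZ, hg, eval_mul, hy.eq_zero, mul_zero])
  refine ⟨z, ?_, hz1, ?_⟩
  · rintro rfl
    rw [coeff_zero] at hz2
    exact hy0 hz2.symm
  · rwa [sub_zero] at hz3

theorem isCoprime_of_irreducible (π : F[X]) (hπm : π.Monic) (hπ : Irreducible π) (z : E[X])
    (hz0 : z ≠ 0) (hz1 : z.degree < π.natDegree) (hz : im E π ∣ sq F z - (X - C x) * z) :
    IsCoprime z (im E π) := by
  classical
  have hπm' : (im E π).Monic := hπm.map _
  set g0 := EuclideanDomain.gcd z (im E π) with hg0
  have hg0z : g0 ∣ z := EuclideanDomain.gcd_dvd_left _ _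
  have hg0π : g0 ∣ im E π := EuclideanDomain.gcd_dvd_right _ _
  have hg00 : g0 ≠ 0 := fun h => hz0 (zero_dvd_iff.1 (h ▸ hg0z))
  set g := normalize g0 with hg
  have hassoc : Associated g0 g := normalize_associated g0 |>.symm
  have hgm : g.Monic := monic_normalize hg00
  have hgz : g ∣ z := hassoc.symm.dvd.trans hg0z
  have hgπ : g ∣ im E π := hassoc.symm.dvd.trans hg0π
  have h1 : sq F g ∣ im E π := by
    rw [← sq_im (S := E) π]
    exact sq_dvd F hgπ
  have hcop : IsCoprime (im E π) (X - C x) := by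
    refine IsCoprime.symm ?_
    rw [(irreducible_X_sub_C x).coprime_iff_not_dvd, dvd_iff_isRoot]
    exact hx π hπ.ne_zero
  have h2 : sq F g ∣ (X - C x) * z := by
    have h3 : (X - C x) * z = sq F z - (sq F z - (X - C x) * z) := by ring
    rw [h3]
    exact dvd_sub (sq_dvd F hgz) (h1.trans hz)
  have h3 : sq F g ∣ z := (hcop.of_isCoprime_of_dvd_left h1).dvd_of_dvd_mul_left h2
  have h4 : sq F g ∣ g := by
    have h5 : sq F g ∣ g0 := EuclideanDomain.dvd_gcd h3 h1
    exact h5.trans hassoc.dvd
  have hsqm : (sq F g).Monic := by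
    unfold sq
    exact hgm.map _
  have hsqd : (sq F g).natDegree = g.natDegree := by
    unfold sq
    exact hgm.natDegree_map _
  have h5 : g = sq F g := eq_of_monic_of_dvd_of_natDegree_le hsqm hgm h4 hsqd.ge
  obtain ⟨q, hq⟩ := exists_im_of_sq_eq h5.symm
  have hqπ : q ∣ π := by
    rw [← Polynomial.map_dvd_map' (algebraMap F E)]
    change im E q ∣ im E π
    rw [hq]
    exact hgπ
  rcases (hπ.dvd_iff).1 hqπ with hu | ha
  · have h6 : IsUnit g := by
      rw [← hq]
      exact hu.map (mapRingHom (algebraMap F E))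
    have h7 : IsUnit g0 := hassoc.isUnit_iff.2 h6
    exact EuclideanDomain.gcd_isUnit_iff.1 h7
  · exfalso
    have h6 : im E π ∣ z := by
      have h7 : im E π ∣ im E q := Polynomial.map_dvd _ ha.dvd
      rw [hq] at h7
      exact h7.trans hgz
    have h7 := degree_le_of_dvd h6 hz0
    rw [degree_eq_natDegree hπm'.ne_zero, hπm.natDegree_map] at h7
    exact absurd hz1 (not_lt.2 h7)

/-- there is a unit solution of `v ^ (q) = (X - x) v` modulo `M` -/
theorem exists_sol_fin (M : F[X]) (hM : M ≠ 0) : ∃ v : E[X], Sol (X - C x) M v := by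
  refine exists_sol _ M hM (fun π hπm _ _ c => lang_surj x hx π hπm c) ?_
  intro π hπm hπ _
  obtain ⟨z, h1, h2, h3⟩ := lang_nonzero x hx π hπm hπ.natDegree_pos
  exact ⟨z, h3, isCoprime_of_irreducible x hx π hπm hπ z h1 h2 h3⟩

omit hx in
/-- there is a unit solution of `w ^ (q) = (1 - x X) w` modulo `X ^ n` -/
theorem exists_sol_inf' (n : ℕ) : ∃ w : E[X], Sol (1 - C x * X) (X ^ n : F[X]) w := by
  have hq : 1 < Fintype.card F := Fintype.one_lt_card
  have hX : ∀ π : F[X], π.Monic → Irreducible π → π ∣ X ^ n → π = X := by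
    intro π hπm hπ hd
    have h1 : π ∣ X := hπ.prime.dvd_of_dvd_pow hd
    have h2 : Associated π X := hπ.associated_of_dvd irreducible_X h1
    exact eq_of_monic_of_associated hπm monic_X h2
  have hXi : im E (X : F[X]) = X := by
    exact Polynomial.map_X _
  refine exists_sol _ _ (pow_ne_zero _ X_ne_zero) ?_ ?_
  · intro π hπm hπ hd c
    rw [hX π hπm hπ hd, hXi]
    -- solve `a ^ q - a = c₀`
    set p : E[X] := X ^ Fintype.card F - (X + C (c.coeff 0)) with hp
    have hlt : (X + C (c.coeff 0) : E[X]).degree < ((Fintype.card F : ℕ) : WithBot ℕ) := by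
      rw [degree_X_add_C]
      exact_mod_cast hq
    have hp1 : p.Monic := monic_X_pow_sub hlt
    have hp2 : p.natDegree = Fintype.card F := by
      rw [hp]
      refine natDegree_eq_of_degree_eq_some ?_
      rw [degree_sub_eq_left_of_degree_lt (by rw [degree_X_pow]; exact hlt), degree_X_pow]
    have hp3 : p.Separable := by
      rw [Polynomial.separable_def, hp, derivative_sub, derivative_X_pow, derivative_add,
        derivative_X, derivative_C, card_zero (F := F), C_0, zero_mul, zero_sub, add_zero]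
      exact isCoprime_one_right.neg_right
    obtain ⟨a, ha⟩ := IsSepClosed.exists_root p (by
      rw [degree_eq_natDegree hp1.ne_zero, hp2]
      exact_mod_cast (by omega : Fintype.card F ≠ 0)) hp3
    rw [IsRoot.def, hp, eval_sub, eval_pow, eval_add, eval_X, eval_C] at ha
    refine ⟨C a, ?_⟩
    rw [X_dvd_iff, coeff_sub, coeff_sub, coeff_sq, coeff_C_zero, sub_mul, one_mul, coeff_sub,
      coeff_C_zero]
    have h1 : (C x * X * C a : E[X]).coeff 0 = 0 := by
      rw [mul_assoc, coeff_C_mul, coeff_X_mul_zero, mul_zero]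
    rw [h1]
    linear_combination ha
  · intro π hπm hπ hd
    rw [hX π hπm hπ hd]
    refine ⟨1, ?_, isCoprime_one_left⟩
    rw [hXi, sq_one]
    exact ⟨C x, by ring⟩

omit hx in
/-- there is a solution of `w ^ (q) = (1 - x X) w` modulo `X ^ (n + 1)` with `w (0) = 1` -/
theorem exists_sol_inf (n : ℕ) :
    ∃ w : E[X], Sol (1 - C x * X) (X ^ (n + 1) : F[X]) w ∧ w.coeff 0 = 1 := by
  obtain ⟨w, hw1, hw2⟩ := exists_sol_inf' (F := F) x (n + 1)
  have hXi : im E (X ^ (n + 1) : F[X]) = X ^ (n + 1) := by
    rw [im, Polynomial.map_pow, Polynomial.map_X]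
  rw [hXi] at hw1 hw2
  have h0 : w.coeff 0 ≠ 0 := by
    intro h
    have h1 : (X : E[X]) ∣ w := X_dvd_iff.2 h
    have h2 : (X : E[X]) ∣ X ^ (n + 1) := dvd_pow_self _ (by omega)
    exact not_isUnit_X (hw2.isUnit_of_dvd' h1 h2)
  have hfix : w.coeff 0 ^ Fintype.card F = w.coeff 0 := by
    have h2 : (X : E[X]) ∣ X ^ (n + 1) := dvd_pow_self _ (by omega)
    have h3 := X_dvd_iff.1 (h2.trans hw1)
    rw [coeff_sub, coeff_sq, sub_mul, one_mul, coeff_sub, mul_assoc, coeff_C_mul,
      coeff_X_mul_zero, mul_zero, sub_zero] at h3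
    exact sub_eq_zero.1 h3
  refine ⟨C (w.coeff 0)⁻¹ * w, ⟨?_, ?_⟩, ?_⟩
  · rw [hXi, sq_mul, sq_C, inv_pow, hfix]
    have h4 : C (w.coeff 0)⁻¹ * sq F w - (1 - C x * X) * (C (w.coeff 0)⁻¹ * w) =
      C (w.coeff 0)⁻¹ * (sq F w - (1 - C x * X) * w) := by ring
    rw [h4]
    exact hw1.mul_left _
  · rw [hXi]
    refine IsCoprime.mul_left ?_ hw2
    have : IsUnit (C (w.coeff 0)⁻¹ : E[X]) := isUnit_C.2 (inv_ne_zero h0).isUnit
    exact isCoprime_one_left.of_isCoprime_of_dvd_left this.dvd
  · rw [coeff_C_mul, inv_mul_cancel₀ h0]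

end Sep

end Pool.Agent.Helper83.GQ
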