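import Pool.Agent.Helper83.GQ.RCnt2
import Pool.Graph.R_seed8.H341R2.FieldSum

/-!
# Sums over the elements of the field with `q ^ m` elements

(A generalisation to all finite fields of the library module `SI.XSum`.)
-/

set_option autoImplicit false
set_option linter.style.haveILetI false
set_option linter.unusedSectionVars false

namespace Pool.Agent.Helper83.GQ

open Polynomial Finset Pool.Agent.H341R2.Sharp Pool.Agent.K7.H76.SI

variable {F : Type} [Field F] [Fintype F]

section

variable {k : Type} [Field k] [Algebra F k] [IsAlgClosed k] [Algebra.IsAlgebraic F k]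

theorem sq_QQ_tf {m : ℕ} {x : k} (hx : Fx F m x) : sq F (QQ F tf m x) = QQ F tf m x := by
  have h1 : ∀ i ∈ range m, sq F (tf (x ^ Fintype.card F ^ i)) =
      tf (x ^ Fintype.card F ^ (i + 1)) := by
    intro i _
    rw [sq_tf, ← pow_mul, pow_succ]
  unfold QQ
  rw [sq_prod, prod_congr rfl h1]
  have h2 := prod_range_succ' (fun i => tf (x ^ Fintype.card F ^ i)) m
  rw [prod_range_succ, hx, pow_zero, pow_one] at h2
  have h3 : tf x ≠ 0 := X_sub_C_ne_zero x
  exact (mul_right_cancel₀ h3 h2).symm

theorem QQ_tf_monic (m : ℕ) (x : k) : (QQ F tf m x).Monic :=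
  monic_prod_of_monic _ _ fun i _ => monic_X_sub_C _

theorem QQ_tf_natDegree (m : ℕ) (x : k) : (QQ F tf m x).natDegree = m := by
  unfold QQ
  rw [natDegree_prod_of_monic _ _ (fun i _ => monic_X_sub_C _)]
  unfold tf
  rw [Finset.sum_congr rfl (fun i _ => natDegree_X_sub_C _)]
  simp

theorem reverse_tf (x : k) : (tf x).reverse = ti x := by
  unfold tf ti
  have h1 : (X - C x : k[X]) = X ^ 1 + C (-x) * X ^ 0 := by
    simp [sub_eq_add_neg]
  rw [reverse, natDegree_X_sub_C, h1, reflect_add, reflect_C_mul_X_pow, reflect_monomial]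
  simp [sub_eq_add_neg]

theorem reverse_QQ (m : ℕ) (x : k) : (QQ F tf m x).reverse = QQ F ti m x := by
  induction m with
  | zero =>
    unfold QQ
    rw [range_zero, prod_empty, prod_empty, ← C_1, reverse_C]
  | succ m ih =>
    unfold QQ at *
    rw [prod_range_succ, reverse_mul_of_domain, ih, reverse_tf, prod_range_succ]

theorem im_reverse (q : F[X]) : im k q.reverse = (im k q).reverse := by
  have hinj := (algebraMap F k).injective
  ext i
  rw [coeff_map, reverse, reverse, coeff_reflect, coeff_reflect, coeff_map, natDegree_map]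

theorem fx_algebraMap (a : F) (m : ℕ) : Fx F m (algebraMap F k a) := by
  unfold Fx
  rw [← map_pow, FiniteField.pow_card_pow]

omit [IsAlgClosed k] in
theorem minpoly_pow {x : k} (i : ℕ) :
    minpoly F (x ^ Fintype.card F ^ i) = minpoly F x := by
  have hint : IsIntegral F x := Algebra.IsIntegral.isIntegral x
  symm
  apply minpoly.eq_of_irreducible_of_monic (minpoly.irreducible hint) _ (minpoly.monic hint)
  have h1 := eval_fix (F := F) (m := i) (g := im k (minpoly F x)) ?_ x
  · rw [eval_map] at h1
    have h2 : eval₂ (algebraMap F k) x (minpoly F x) = 0 := minpoly.aeval _ _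
    rw [h2, zero_pow (card_pow_ne i), eval_map] at h1
    exact h1.symm
  · intro j
    rw [coeff_map]
    unfold Fx
    rw [← map_pow, FiniteField.pow_card_pow]

variable (F) in
/-- the characteristic polynomial of `x` over `F` -/
noncomputable def pol (m : ℕ) (x : k) : F[X] := minpoly F x ^ (m / (minpoly F x).natDegree)

theorem pol_spec {m : ℕ} {x : k} (hx : Fx F m x) :
    im k (pol F m x) = QQ F tf m x ∧ (minpoly F x).natDegree ∣ m := by
  classical
  obtain ⟨q, hq⟩ := exists_im_of_sq_eq (sq_QQ_tf hx)
  have hint : IsIntegral F x := Algebra.IsIntegral.isIntegral x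
  have hinj := (algebraMap F k).injective
  have hqm : q.Monic := by
    have h1 := QQ_tf_monic (F := F) m x
    rw [← hq] at h1
    exact monic_of_injective hinj h1
  have hqd : q.natDegree = m := by
    have h1 := QQ_tf_natDegree (F := F) m x
    rw [← hq, hqm.natDegree_map] at h1
    exact h1
  have hfac : ∀ π ∈ UniqueFactorizationMonoid.normalizedFactors q, π = minpoly F x := by
    intro π hπ
    have hirr : Irreducible π := UniqueFactorizationMonoid.irreducible_of_normalized_factor π hπ
    have hmon : π.Monic := by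
      have h1 := UniqueFactorizationMonoid.normalize_normalized_factor π hπ
      rw [← h1]
      exact monic_normalize hirr.ne_zero
    have hdvd : π ∣ q := UniqueFactorizationMonoid.dvd_of_mem_normalizedFactors hπ
    obtain ⟨ρ, hρ⟩ := IsAlgClosed.exists_root (im k π) (by
      rw [degree_eq_natDegree (hmon.map _).ne_zero, hmon.natDegree_map]
      exact_mod_cast hirr.natDegree_pos.ne')
    have h1 : (QQ F tf m x).eval ρ = 0 := by
      rw [← hq]
      exact eval_eq_zero_of_dvd_of_eval_eq_zero (Polynomial.map_dvd _ hdvd) hρ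
    unfold QQ at h1
    rw [eval_prod, prod_eq_zero_iff] at h1
    obtain ⟨i, _, hi⟩ := h1
    unfold tf at hi
    rw [eval_sub, eval_X, eval_C, sub_eq_zero] at hi
    rw [IsRoot.def, eval_map] at hρ
    rw [minpoly.eq_of_irreducible_of_monic hirr hρ hmon, hi, minpoly_pow]
  have hrep := Multiset.eq_replicate_card.2 hfac
  set a := Multiset.card (UniqueFactorizationMonoid.normalizedFactors q) with ha
  have hq' : q = minpoly F x ^ a := by
    have h1 := UniqueFactorizationMonoid.prod_normalizedFactors_eq hqm.ne_zero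
    rw [hqm.normalize_eq_self, hrep, Multiset.prod_replicate] at h1
    exact h1.symm
  have hdeg : a * (minpoly F x).natDegree = m := by
    rw [← hqd, hq', natDegree_pow]
  have hpos : 0 < (minpoly F x).natDegree := minpoly.natDegree_pos hint
  have ha' : m / (minpoly F x).natDegree = a := by
    rw [← hdeg, Nat.mul_div_cancel _ hpos]
  refine ⟨?_, ⟨a, by rw [← hdeg, mul_comm]⟩⟩
  unfold pol
  rw [ha', ← hq', hq]

theorem pol_monic (m : ℕ) (x : k) : (pol F m x).Monic :=
  (minpoly.monic (Algebra.IsIntegral.isIntegral x)).pow _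

theorem im_dvd_iff {M N : F[X]} : im k M ∣ im k N ↔ M ∣ N := Polynomial.map_dvd_map' _

/-- the class of `x` is trivial -/
theorem class_iff {m : ℕ} {x : k} (hx : Fx F m x) (M : F[X]) (κ : ℕ) :
    (im k M ∣ QQ F tf m x - 1 ∧ im k (X ^ (κ + 1) : F[X]) ∣ QQ F ti m x - 1) ↔
      cls M κ (pol F m x) = 1 := by
  rw [← reverse_QQ, ← (pol_spec hx).1, ← im_reverse]
  have h1 : (1 : k[X]) = im k (1 : F[X]) := (Polynomial.map_one _).symm
  rw [h1, ← Polynomial.map_sub, ← Polynomial.map_sub, im_dvd_iff, im_dvd_iff]
  unfold cls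
  rw [← Prod.mk_one_one, Prod.mk.injEq, ← map_one (AdjoinRoot.mk M),
    ← map_one (AdjoinRoot.mk (X ^ (κ + 1) : F[X])), AdjoinRoot.mk_eq_mk, AdjoinRoot.mk_eq_mk]

open scoped Classical in
/-- the sum over irreducible polynomials as a sum over the field with `q ^ m` elements -/
theorem TT_eq_sum {g : F[X] → ℂ} (hg : IsMult g) {m : ℕ} (hm : 1 ≤ m) (A : Finset k)
    (hA : ∀ x, x ∈ A ↔ Fx F m x) :
    TT g m = ∑ x ∈ A, g (pol F m x) := by
  unfold TT
  have h1 : ∀ x ∈ A, minpoly F x ∈ (Irr F m).filter (fun P => P.natDegree ∣ m) := by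
    intro x hx
    have hint : IsIntegral F x := Algebra.IsIntegral.isIntegral x
    rw [hA] at hx
    have h2 := (pol_spec hx).2
    rw [mem_filter, mem_Irr]
    exact ⟨⟨minpoly.monic hint, minpoly.irreducible hint, Nat.le_of_dvd (by omega) h2⟩, h2⟩
  rw [← sum_fiberwise_of_maps_to h1]
  apply sum_congr rfl
  intro P hP
  rw [mem_filter, mem_Irr] at hP
  obtain ⟨⟨hmon, hirr, _⟩, hdvd⟩ := hP
  have h2 : ∀ x ∈ A.filter (fun x => minpoly F x = P),
      g (pol F m x) = g P ^ (m / P.natDegree) := by
    intro x hx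
    rw [mem_filter] at hx
    unfold pol
    rw [hx.2, hg.pow P hmon]
  rw [sum_congr rfl h2, sum_const, nsmul_eq_mul]
  congr 2
  have h3 : A.filter (fun x => minpoly F x = P) = (im k P).roots.toFinset := by
    ext x
    rw [mem_filter, Multiset.mem_toFinset, mem_roots (hmon.map _).ne_zero, IsRoot.def, eval_map]
    constructor
    · rintro ⟨_, rfl⟩
      exact minpoly.aeval _ x
    · intro h
      refine ⟨?_, (minpoly.eq_of_irreducible_of_monic hirr h hmon).symm⟩
      rw [hA]
      have h4 : P ∣ X ^ (Nat.card F) ^ m - X :=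
        (hirr.natDegree_dvd_iff_dvd_X_pow_card_pow_sub_X).1 hdvd
      rw [Nat.card_eq_fintype_card] at h4
      obtain ⟨c, hc⟩ := h4
      have h5 := congrArg (fun q : F[X] => eval₂ (algebraMap F k) x q) hc
      simp only [eval₂_sub, eval₂_X_pow, eval₂_X, eval₂_mul] at h5
      rw [h, zero_mul, sub_eq_zero] at h5
      exact h5
  rw [h3, Multiset.toFinset_card_of_nodup,
    ← (IsAlgClosed.splits (im k P)).natDegree_eq_card_roots, hmon.natDegree_map]
  haveI : PerfectField F := inferInstance
  exact nodup_roots (PerfectField.separable_of_irreducible hirr).map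

end

end Pool.Agent.Helper83.GQ
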