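import Pool.Agent.Helper83.GQ.Base
import Pool.Agent.Helper83.GQ.C4
import Pool.Graph.R_seed8.H39R2.Gon.B3

/-!
# From the count theorem to the relations
-/

set_option autoImplicit false
set_option linter.unusedSectionVars false

namespace Pool.Agent.Helper83.GQ

open H39Gon H39Gon.A2 H39Gon.TaskB Polynomial

variable {F : Type} [Field F] [Fintype F]

/-- the class of a polynomial -/
noncomputable def clp (a : F[X]) : UV (RatFunc F) := cl (algebraMap F[X] (RatFunc F) a)

theorem alg_ne_zero {a : F[X]} (h : a ≠ 0) : algebraMap F[X] (RatFunc F) a ≠ 0 :=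
  RatFunc.algebraMap_ne_zero h

theorem clp_mul {a b : F[X]} (ha : a ≠ 0) (hb : b ≠ 0) : clp (a * b) = clp a + clp b := by
  unfold clp
  rw [map_mul, cl_mul (alg_ne_zero ha) (alg_ne_zero hb)]

theorem clp_prod {ι : Type} (s : Finset ι) (f : ι → F[X]) (h : ∀ i ∈ s, f i ≠ 0) :
    clp (∏ i ∈ s, f i) = ∑ i ∈ s, clp (f i) := by
  unfold clp
  rw [map_prod, cl_prod _ _ (fun i hi => alg_ne_zero (h i hi))]

theorem clp_pow {a : F[X]} (ha : a ≠ 0) (n : ℕ) : clp (a ^ n) = n • clp a := by
  unfold clp
  rw [map_pow, cl_pow (alg_ne_zero ha)]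

/-- integral signs -/
def s0z {I : Type} (grp : I → Fin 3) : Option I → ℤ
  | none => 1
  | some a => c0z (grp a)

/-- integral signs -/
def s1z {I : Type} (grp : I → Fin 3) : Option I → ℤ
  | none => 1
  | some a => c1z (grp a)

theorem s0z_cast {I : Type} (grp : I → Fin 3) (a : Option I) : ((s0z grp a : ℤ) : ℝ) = s0 grp a := by
  cases a with
  | none => simp [s0z, s0]
  | some a => exact c0z_cast _

theorem s1z_cast {I : Type} (grp : I → Fin 3) (a : Option I) : ((s1z grp a : ℤ) : ℝ) = s1 grp a := by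
  cases a with
  | none => simp [s1z, s1]
  | some a => exact c1z_cast _

/-- value of a slot -/
noncomputable def val {V K : Type} (y : K → V) (u : V) : Option K → V
  | none => u
  | some x => y x

theorem sum_s0z {V K : Type} [AddCommGroup V] {k : ℕ} (y : K → V) (u : V)
    (z : Fin 3 × Fin k → K) :
    ∑ j : Option (Fin 3 × Fin k), s0z (fun a : Fin 3 × Fin k => a.1) j • val y u (j.map z)
      = u + (∑ i, y (z (1, i)) - ∑ i, y (z (2, i))) := by
  rw [Fintype.sum_option]
  simp only [s0z, Option.map_none, Option.map_some, val, one_smul]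
  rw [sum_c0z (fun a => y (z a))]

theorem sum_s1z {V K : Type} [AddCommGroup V] {k : ℕ} (y : K → V) (u : V)
    (z : Fin 3 × Fin k → K) :
    ∑ j : Option (Fin 3 × Fin k), s1z (fun a : Fin 3 × Fin k => a.1) j • val y u (j.map z)
      = u + (∑ i, y (z (0, i)) - ∑ i, y (z (2, i))) := by
  rw [Fintype.sum_option]
  simp only [s1z, Option.map_none, Option.map_some, val, one_smul]
  rw [sum_c1z (fun a => y (z a))]

theorem PS_smul_diag {V : Type} [AddCommGroup V] {m : ℕ}
    (Q : MultilinearMap ℤ (fun _ : Fin (m + 1) => V) (V →ₗ[ℤ] ℚ)) (N : ℕ) (v u : V) :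
    PS Q (Fin.cons (N • v) (fun _ => N • u) : Fin (m + 2) → V)
      = (N : ℝ) ^ (m + 2) * PS Q (Fin.cons v (fun _ => u) : Fin (m + 2) → V) := by
  have h1 : (Fin.cons (N • v) (fun _ => N • u) : Fin (m + 2) → V) =
      fun i => (N : ℤ) • (Fin.cons v (fun _ => u) : Fin (m + 2) → V) i := by
    funext i
    induction i using Fin.cases with
    | zero => simp
    | succ j => simp
  rw [h1, MultilinearMap.map_smul_univ]
  simp

theorem abs_lin {V : Type} [AddCommGroup V] (n k : ℕ) (b c s1 s2 t : V) :
    n • ((b + s1) - (c + s2)) = n • (b - c) + ((n • s1 - k • t) - (n • s2 - k • t)) := by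
  simp only [smul_add, smul_sub]
  abel

variable (F) in
/-- the relations coming from the count theorem -/
def Rels {m : ℕ} (P : MultilinearMap ℤ (fun _ : Fin (m + 2) => UV (RatFunc F)) ℝ) : Prop :=
  ∃ r0 : ℕ, ∀ r, r0 ≤ r → ∀ a b c : F[X], Trip r a b c →
    P (Fin.cons (clp b - clp c) (fun _ => clp a - clp c)) = 0

theorem rel_diag {m : ℕ}
    (Q : MultilinearMap ℤ (fun _ : Fin (m + 1) => UV (RatFunc F)) (UV (RatFunc F) →ₗ[ℤ] ℚ))
    (hQ : ∀ f : RatFunc F, f ≠ 0 → f ≠ 1 → Q (fun _ => cl f) (cl (1 - f)) = 0)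
    (a b c : F[X]) (ha : a ≠ 0) (hb : b ≠ 0) (hc : c ≠ 0) (h : a + b = c) :
    PS Q (Fin.cons (clp b - clp c) (fun _ => clp a - clp c) : Fin (m + 2) → UV (RatFunc F))
      = 0 := by
  have ha' := alg_ne_zero ha
  have hb' := alg_ne_zero hb
  have hc' := alg_ne_zero hc
  have h1 : 1 - algebraMap F[X] (RatFunc F) a / algebraMap F[X] (RatFunc F) c
      = algebraMap F[X] (RatFunc F) b / algebraMap F[X] (RatFunc F) c := by
    rw [eq_div_iff hc', sub_mul, div_mul_cancel₀ _ hc', ← h, map_add]
    ring
  have h2 := hQ (algebraMap F[X] (RatFunc F) a / algebraMap F[X] (RatFunc F) c)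
    (div_ne_zero ha' hc') (by
      intro h3
      rw [h3, sub_self] at h1
      exact (div_ne_zero hb' hc') h1.symm)
  rw [h1, cl_div hb' hc', cl_div ha' hc'] at h2
  obtain ⟨x, -, hx⟩ := PS_diag Q (clp a - clp c) (clp b - clp c)
  rw [hx]
  unfold clp
  rw [h2]
  simp

theorem rels_of_count {m : ℕ} (hcount : CountThm F (2 * (m + 2))) (hmany : ManyLetters F)
    (Q : MultilinearMap ℤ (fun _ : Fin (m + 1) => UV (RatFunc F)) (UV (RatFunc F) →ₗ[ℤ] ℚ))
    (hQ : ∀ f : RatFunc F, f ≠ 0 → f ≠ 1 → Q (fun _ => cl f) (cl (1 - f)) = 0) :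
    Rels F (PS Q) := by
  classical
  obtain ⟨k, hk, hk2⟩ := hcount
  set C1 : ℝ := (2 * ((((3 * k : ℕ) : ℝ) + 1) ^ (m + 2) * 2 ^ (m + 2))) ^ (2 * m + 6) with hC1
  have hC1p : 0 < C1 := by positivity
  obtain ⟨r0, hr0⟩ := hk2 (1 / (12 * C1)) (by positivity)
  refine ⟨r0, fun r hr a b c htr => ?_⟩
  obtain ⟨D0, hD0⟩ := hr0 r hr a b c htr
  obtain ⟨n0, hn0⟩ := exists_nat_gt (8 * C1 * ((2 * (m + 2) : ℕ) : ℝ) ^ 2)
  obtain ⟨D1, hD1⟩ := hmany r (n0 + 1)
  set D := max D0 D1 with hD
  obtain ⟨w, hw, hT⟩ := hD0 D (le_max_left _ _)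
  have hcardK : n0 + 1 ≤ Fintype.card (XL F r D) := by
    rw [Fintype.card_coe]
    exact hD1 D (le_max_right _ _)
  have : Nonempty (XL F r D) := Fintype.card_pos_iff.1 (by omega)
  set NN : ℕ := Fintype.card (XL F r D) with hNN
  have hNpos : 0 < NN := by omega
  set y : XL F r D → UV (RatFunc F) := mV (fun P => clp P.1) with hy
  set v0 := NN • (clp b - clp c) with hv0
  set u0 := NN • (clp a - clp c) with hu0
  let Φ : (Fin (m + 2) → Option (XL F r D)) → ℝ := fun t =>
    PS Q (Fin.cons (val y v0 (t 0)) (fun i : Fin (m + 1) => val y u0 (t i.succ)))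
  have hΦ : ∀ t, Φ t = PS Q (Fin.cons (val y v0 (t 0))
      (fun i : Fin (m + 1) => val y u0 (t i.succ))) := fun t => rfl
  have hb0 := htr.hb.ne_zero
  have hc0 := htr.hc.ne_zero
  have ha0 := htr.ha
  have hxl : ∀ P : XL F r D, P.1 ≠ 0 := fun P => (mem_XL.1 P.2).1.ne_zero
  have hmk : m + 2 ≤ k := by omega
  have hfin : Φ (fun _ => none) = 0 := by
    refine contraction (m := m) (fun a : Fin 3 × Fin k => a.1)
      (fun X i => (X, Fin.castLE hmk i)) (fun _ _ => rfl) (fun X i i' h => by
        have := (Prod.ext_iff.1 h).2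
        exact Fin.castLE_injective hmk this) (Wt a b c) (fun z => by unfold Wt; split_ifs <;> simp)
      w (1 / (12 * C1)) hw hT _ rfl ?_ Φ ?_ ?_ ?_ (fun _ => none)
    · have h1 : (Fintype.card (Fin 3 × Fin k) : ℝ) = ((3 * k : ℕ) : ℝ) := by simp
      rw [h1, ← hC1]
      have h7 : (n0 : ℝ) ≤ NN := by
        have : n0 ≤ NN := by omega
        exact_mod_cast this
      have h8 : C1 * (2 * (((2 * (m + 2) : ℕ) : ℝ) ^ 2 / NN)) ≤ 1 / 4 := by
        rw [← mul_div_assoc, ← mul_div_assoc, div_le_iff₀ (by positivity)]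
        nlinarith
      have h9 : C1 * (3 * (1 / (12 * C1))) = 1 / 4 := by
        field_simp
        norm_num
      calc C1 * (3 * (1 / (12 * C1)) + 2 * (((2 * (m + 2) : ℕ) : ℝ) ^ 2 / NN))
          = C1 * (3 * (1 / (12 * C1))) + C1 * (2 * (((2 * (m + 2) : ℕ) : ℝ) ^ 2 / NN)) := by ring
        _ < 1 := by linarith
    · intro t i
      have hs : ∑ x : XL F r D, y x = 0 := sum_mV _
      induction i using Fin.cases with
      | zero =>
        have h1 : ∀ x : XL F r D, Φ (Function.update t 0 (some x)) =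
            PS Q (Function.update (Fin.cons (val y v0 (t 0))
              (fun i : Fin (m + 1) => val y u0 (t i.succ))) 0 (y x)) := by
          intro x
          rw [hΦ, Fin.update_cons_zero]
          congr 1
        simp only [h1]
        rw [← MultilinearMap.map_update_sum, hs, MultilinearMap.map_update_zero]
      | succ i =>
        have h1 : ∀ x : XL F r D, Φ (Function.update t i.succ (some x)) =
            PS Q (Function.update (Fin.cons (val y v0 (t 0))
              (fun i : Fin (m + 1) => val y u0 (t i.succ))) i.succ (y x)) := by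
          intro x
          rw [hΦ, ← Fin.cons_update]
          congr 1
          funext l
          induction l using Fin.cases with
          | zero => simp [Function.update_of_ne (Fin.succ_ne_zero i).symm]
          | succ l =>
            simp only [Fin.cons_succ]
            by_cases hl : l = i
            · subst hl; simp [val]
            · rw [Function.update_of_ne hl, Function.update_of_ne]
              intro h; exact hl (Fin.succ_injective _ h)
        simp only [h1]
        rw [← MultilinearMap.map_update_sum, hs, MultilinearMap.map_update_zero]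
    · intro σ t hσ
      rw [hΦ, hΦ]
      have h1 := PS_symm Q (Fin.cons (val y v0 (t 0))
              (fun i : Fin (m + 1) => val y u0 (t i.succ))) σ hσ
      rw [← h1]
      congr 1
      funext l
      induction l using Fin.cases with
      | zero => simp [hσ]
      | succ l =>
        have h1 : σ l.succ ≠ 0 := by
          intro h
          have : l.succ = 0 := σ.injective (by rw [h, hσ])
          exact Fin.succ_ne_zero l this
        obtain ⟨l', hl'⟩ := Fin.exists_succ_eq.2 h1
        simp [← hl']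
    · intro z hz
      have hrel : (a * ∏ i, (z (0, i)).1) + (b * ∏ i, (z (1, i)).1) = c * ∏ i, (z (2, i)).1 := by
        by_contra hcon
        apply hz
        unfold Wt
        rw [if_neg hcon]
      have hp : ∀ X : Fin 3, ∏ i, (z (X, i)).1 ≠ 0 := fun X =>
        Finset.prod_ne_zero_iff.2 (fun i _ => hxl _)
      have h1 := rel_diag Q hQ _ _ _ (mul_ne_zero ha0 (hp 0)) (mul_ne_zero hb0 (hp 1))
        (mul_ne_zero hc0 (hp 2)) hrel
      have h2 : ∀ (x : F[X]) (X : Fin 3), x ≠ 0 →
          clp (x * ∏ i, (z (X, i)).1) = clp x + ∑ i, clp (z (X, i)).1 := by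
        intro x X hx
        rw [clp_mul hx (hp X), clp_prod _ _ (fun i _ => hxl _)]
      have h3 : ∀ X : Fin 3, ∑ i, y (z (X, i)) = NN • ∑ i, clp (z (X, i)).1 -
          k • ∑ P : XL F r D, clp P.1 := fun X => sum_mV_fin _ (fun i => z (X, i))
      have h4 := PS_smul_diag Q NN (clp (b * ∏ i, (z (1, i)).1) - clp (c * ∏ i, (z (2, i)).1))
        (clp (a * ∏ i, (z (0, i)).1) - clp (c * ∏ i, (z (2, i)).1))
      rw [h1, mul_zero] at h4
      rw [← h4]
      set G : Fin (m + 2) → (Option (Fin 3 × Fin k) → ℤ) :=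
        Fin.cons (s0z (fun a => a.1)) (fun _ => s1z (fun a => a.1)) with hG
      set Xv : Fin (m + 2) → (Option (Fin 3 × Fin k) → UV (RatFunc F)) :=
        Fin.cons (fun j => val y v0 (j.map z)) (fun _ j => val y u0 (j.map z)) with hXv
      clear hk2 hr0 hD0 hT
      have h5 : (Fin.cons (NN • (clp (b * ∏ i, (z (1, i)).1) - clp (c * ∏ i, (z (2, i)).1)))
          (fun _ => NN • (clp (a * ∏ i, (z (0, i)).1) - clp (c * ∏ i, (z (2, i)).1))) :
            Fin (m + 2) → UV (RatFunc F)) = fun i => ∑ j, G i j • Xv i j := by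
        funext i
        induction i using Fin.cases with
        | zero =>
          have e1 : G 0 = s0z (fun a => a.1) := rfl
          have e2 : Xv 0 = (fun j => val y v0 (j.map z)) := rfl
          rw [e1, e2, Fin.cons_zero]
          rw [sum_s0z, h3, h3, h2 b 1 hb0, h2 c 2 hc0, hv0]
          exact abs_lin _ _ _ _ _ _ _
        | succ i =>
          have e1 : G i.succ = s1z (fun a => a.1) := rfl
          have e2 : Xv i.succ = (fun j => val y u0 (j.map z)) := rfl
          rw [e1, e2, Fin.cons_succ]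
          rw [sum_s1z, h3, h3, h2 a 0 ha0, h2 c 2 hc0, hu0]
          exact abs_lin _ _ _ _ _ _ _
      rw [h5, MultilinearMap.map_sum]
      refine Finset.sum_congr rfl fun j _ => ?_
      rw [MultilinearMap.map_smul_univ]
      have h6 : ((∏ i, G i (j i) : ℤ) : ℝ) = sgn (fun a : Fin 3 × Fin k => a.1) j := by
        rw [Fin.prod_univ_succ]
        simp only [hG, Fin.cons_zero, Fin.cons_succ]
        push_cast
        unfold sgn
        rw [s0z_cast]
        simp only [s1z_cast]
      rw [zsmul_eq_mul, h6]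
      congr 1
      change PS Q _ = _
      congr 1
      funext l
      induction l using Fin.cases with
      | zero => rfl
      | succ l => rfl
  have h1 : Φ (fun _ => none) = PS Q (Fin.cons v0 (fun _ => u0)) := rfl
  rw [h1, hv0, hu0, PS_smul_diag] at hfin
  exact (mul_eq_zero.1 hfin).resolve_left (by positivity)

end Pool.Agent.Helper83.GQ
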