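import Pool.Agent.Helper83.GQ.Tot

/-!
# The singular product
-/

set_option autoImplicit false
set_option linter.unusedSectionVars false

namespace Pool.Agent.Helper83.GQ

open Polynomial Finset UniqueFactorizationMonoid H39Gon.A2

variable {F : Type} [Field F] [Fintype F]

theorem weier {ι : Type} (Q : Finset ι) (h : ι → ℝ) (h0 : ∀ p ∈ Q, 0 ≤ h p)
    (h1 : ∀ p ∈ Q, h p ≤ 1) : 1 - ∑ p ∈ Q, h p ≤ ∏ p ∈ Q, (1 - h p) ∧
      0 ≤ ∏ p ∈ Q, (1 - h p) ∧ ∏ p ∈ Q, (1 - h p) ≤ 1 := by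
  classical
  induction Q using Finset.induction_on with
  | empty => simp
  | insert a Q ha ih =>
    obtain ⟨i1, i2, i3⟩ := ih (fun p hp => h0 p (mem_insert_of_mem hp))
      (fun p hp => h1 p (mem_insert_of_mem hp))
    have e0 := h0 a (mem_insert_self _ _)
    have e1 := h1 a (mem_insert_self _ _)
    rw [sum_insert ha, prod_insert ha]
    refine ⟨?_, mul_nonneg (by linarith) i2, ?_⟩
    · nlinarith
    · nlinarith

theorem prod_inv_le {ι : Type} (Q : Finset ι) (h : ι → ℝ) (h0 : ∀ p ∈ Q, 0 ≤ h p) {S : ℝ}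
    (hS : ∑ p ∈ Q, h p ≤ S) (hS1 : S ≤ 1 / 2) :
    ∏ p ∈ Q, (1 - h p)⁻¹ - 1 ≤ 2 * S ∧ ∀ p ∈ Q, h p < 1 := by
  have h1 : ∀ p ∈ Q, h p ≤ S := fun p hp => (single_le_sum (fun p hp => h0 p hp) hp).trans hS
  have hS0 : 0 ≤ S := (sum_nonneg h0).trans hS
  refine ⟨?_, fun p hp => by linarith [h1 p hp]⟩
  obtain ⟨i1, i2, i3⟩ := weier Q h h0 (fun p hp => by linarith [h1 p hp])
  rw [prod_inv_distrib]
  have h2 : (1 - S) ≤ ∏ p ∈ Q, (1 - h p) := by linarith
  have h3 : (∏ p ∈ Q, (1 - h p))⁻¹ ≤ (1 - S)⁻¹ := inv_anti₀ (by linarith) h2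
  have h4 : (1 - S)⁻¹ ≤ 1 + 2 * S := by
    rw [inv_le_iff_one_le_mul₀ (by linarith)]
    nlinarith
  linarith

theorem geom_half (r m : ℕ) : ∑ i ∈ Ioc r m, (1 / 2 : ℝ) ^ i ≤ (1 / 2) ^ r := by
  by_cases h : r ≤ m
  · have : ∑ i ∈ Ioc r m, (1 / 2 : ℝ) ^ i = (1 / 2) ^ r - (1 / 2) ^ m := by
      induction m, h using Nat.le_induction with
      | base => simp
      | succ m hm ih =>
        have e1 : Ioc r (m + 1) = insert (m + 1) (Ioc r m) := by
          ext i; simp only [mem_Ioc, mem_insert]; omega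
        rw [e1, sum_insert (by simp), ih]
        ring
    rw [this]
    have : (0 : ℝ) ≤ (1 / 2) ^ m := by positivity
    linarith
  · rw [Ioc_eq_empty (by omega), sum_empty]
    positivity

theorem nm_bound {y : ℝ} (hy : 2 ≤ y) : y * ((y - 1) ^ 2)⁻¹ ≤ 4 / y ∧
    y * ((y - 1) ^ 3)⁻¹ ≤ 8 / y ^ 2 := by
  have h1 : 0 < y - 1 := by linarith
  have h2 : y ≤ 2 * (y - 1) := by linarith
  have hy0 : 0 < y := by linarith
  constructor
  · rw [← div_eq_mul_inv, div_le_div_iff₀ (by positivity) hy0]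
    nlinarith
  · rw [← div_eq_mul_inv, div_le_div_iff₀ (by positivity) (by positivity)]
    have h3 : y ^ 3 ≤ (2 * (y - 1)) ^ 3 := pow_le_pow_left₀ hy0.le h2 3
    nlinarith

open Classical in
theorem sing {r D m2 K : ℕ} (hD : 1 ≤ D) {a b c x : F[X]}
    (hbig : ∃ P : F[X], ∀ p : F[X], p.Monic → Irreducible p → r < p.natDegree →
      p ∣ a * b * c → p = P)
    (hx0 : x ≠ 0) (hx : ∀ p : F[X], p.Monic → Irreducible p → p ∣ x → p ∣ a * b * c ∨ p ∈ XL F r D)
    (hK : x.natDegree ≤ K * D) {C : ℝ} (hC : 1 ≤ C) :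
    ∑ p ∈ PP F r m2, nm p * hw (XL F r D) C x p ≤
      12 * (1 / 2) ^ r + (8 + 4 * K) * C ^ 3 / (Fintype.card F : ℝ) ^ D := by
  obtain ⟨P, hP⟩ := hbig
  have hq2 : (2 : ℝ) ≤ Fintype.card F := by
    exact_mod_cast (Fintype.one_lt_card : 1 < Fintype.card F)
  have hqD : (0 : ℝ) < (Fintype.card F : ℝ) ^ D := by positivity
  set X := XL F r D with hX
  let g1 : F[X] → ℝ := fun p => 8 / (nm p) ^ 2
  let g2 : F[X] → ℝ := fun p => if p = P then 4 * (1 / 2) ^ r else 0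
  let g3 : F[X] → ℝ := fun p => if p ∈ X then C ^ 3 * (8 / (nm p) ^ 2) else 0
  let g4 : F[X] → ℝ := fun p => if p ∈ X.filter (fun p => p ∣ x) then C ^ 3 * (4 / nm p) else 0
  have hg1 : ∀ p, 0 ≤ g1 p := fun p => by
    have := nm_pos p
    simp only [g1]; positivity
  have hg2 : ∀ p, 0 ≤ g2 p := fun p => by
    simp only [g2]; split_ifs <;> positivity
  have hg3 : ∀ p, 0 ≤ g3 p := fun p => by
    have := nm_pos p
    simp only [g3]; split_ifs <;> positivity
  have hg4 : ∀ p, 0 ≤ g4 p := fun p => by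
    have := nm_pos p
    simp only [g4]; split_ifs <;> positivity
  have hpt : ∀ p ∈ PP F r m2, nm p * hw X C x p ≤ g1 p + g2 p + g3 p + g4 p := by
    intro p hp
    rw [mem_PP] at hp
    have hrp := not_dvd_R0_deg hp.1 hp.2.1 hp.2.2.2
    have hn2 := nm_ge_two hp.2.1
    obtain ⟨b1, b2⟩ := nm_bound hn2
    have e1 := hg1 p
    have e2 := hg2 p
    have e3 := hg3 p
    have e4 := hg4 p
    unfold hw om
    by_cases hpX : p ∈ X
    · rw [if_pos hpX]
      by_cases hpx : p ∣ x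
      · rw [if_pos hpx]
        have h3 : g4 p = C ^ 3 * (4 / nm p) := if_pos (mem_filter.2 ⟨hpX, hpx⟩)
        calc nm p * (((nm p - 1) ^ 2)⁻¹ * C ^ 3) = C ^ 3 * (nm p * ((nm p - 1) ^ 2)⁻¹) := by ring
          _ ≤ C ^ 3 * (4 / nm p) := by gcongr
          _ ≤ _ := by rw [← h3]; linarith
      · rw [if_neg hpx]
        have h3 : g3 p = C ^ 3 * (8 / (nm p) ^ 2) := if_pos hpX
        calc nm p * (((nm p - 1) ^ 3)⁻¹ * C ^ 3) = C ^ 3 * (nm p * ((nm p - 1) ^ 3)⁻¹) := by ring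
          _ ≤ C ^ 3 * (8 / (nm p) ^ 2) := by gcongr
          _ ≤ _ := by rw [← h3]; linarith
    · rw [if_neg hpX, mul_one]
      by_cases hpx : p ∣ x
      · rw [if_pos hpx]
        have hpP : p = P := by
          rcases hx p hp.1 hp.2.1 hpx with h | h
          · exact hP p hp.1 hp.2.1 hrp h
          · exact absurd h hpX
        have h3 : g2 p = 4 * (1 / 2) ^ r := if_pos hpP
        have h4 : 4 / nm p ≤ 4 * (1 / 2) ^ r := by
          have h5 : (2 : ℝ) ^ r ≤ nm p := by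
            unfold nm
            calc (2 : ℝ) ^ r ≤ (Fintype.card F : ℝ) ^ r := by gcongr
              _ ≤ _ := pow_le_pow_right₀ (by linarith) hrp.le
          rw [one_div, inv_pow, ← div_eq_mul_inv]
          gcongr
        linarith
      · rw [if_neg hpx]
        have h3 : g1 p = 8 / (nm p) ^ 2 := rfl
        linarith
  refine (sum_le_sum hpt).trans ?_
  rw [sum_add_distrib, sum_add_distrib, sum_add_distrib]
  have hsub : PP F r m2 ⊆ (Ioc r m2).biUnion (Pr F) := by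
    intro p hp
    rw [mem_PP] at hp
    have hrp := not_dvd_R0_deg hp.1 hp.2.1 hp.2.2.2
    rw [mem_biUnion]
    exact ⟨p.natDegree, mem_Ioc.2 ⟨hrp, hp.2.2.1⟩, mem_Pr.2 ⟨hp.1, rfl, hp.2.1⟩⟩
  have hdisj : ∀ i ∈ Ioc r m2, ∀ j ∈ Ioc r m2, i ≠ j → Disjoint (Pr F i) (Pr F j) := by
    intro i _ j _ hij
    rw [disjoint_left]
    intro p h1 h2
    exact hij ((mem_Pr.1 h1).2.1.symm.trans (mem_Pr.1 h2).2.1)
  have hPrc : ∀ i, ((Pr F i).card : ℝ) ≤ (Fintype.card F : ℝ) ^ i := by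
    intro i
    have : (Pr F i).card ≤ Fintype.card F ^ i := by
      rw [← card_MonD]
      exact card_filter_le _ _
    exact_mod_cast this
  have s1 : ∑ p ∈ PP F r m2, g1 p ≤ 8 * (1 / 2) ^ r := by
    refine (sum_le_sum_of_subset_of_nonneg hsub (fun p _ _ => hg1 p)).trans ?_
    rw [sum_biUnion hdisj]
    have h3 : ∀ i ∈ Ioc r m2, ∑ p ∈ Pr F i, g1 p ≤ 8 * (1 / 2 : ℝ) ^ i := by
      intro i _
      have h4 : ∀ p ∈ Pr F i, g1 p = 8 / ((Fintype.card F : ℝ) ^ i) ^ 2 := by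
        intro p hp
        simp only [g1, nm, (mem_Pr.1 hp).2.1]
      rw [sum_congr rfl h4, sum_const, nsmul_eq_mul]
      have hqi : (0 : ℝ) < (Fintype.card F : ℝ) ^ i := by positivity
      calc ((Pr F i).card : ℝ) * (8 / ((Fintype.card F : ℝ) ^ i) ^ 2) ≤
          (Fintype.card F : ℝ) ^ i * (8 / ((Fintype.card F : ℝ) ^ i) ^ 2) := by
            gcongr
            exact hPrc i
        _ = 8 / (Fintype.card F : ℝ) ^ i := by field_simp
        _ ≤ 8 / 2 ^ i := by gcongr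
        _ = _ := by rw [one_div, inv_pow, ← div_eq_mul_inv]
    refine (sum_le_sum h3).trans ?_
    rw [← mul_sum]
    exact mul_le_mul_of_nonneg_left (geom_half r m2) (by norm_num)
  have s2 : ∑ p ∈ PP F r m2, g2 p ≤ 4 * (1 / 2) ^ r := by
    simp only [g2]
    rw [sum_ite_eq']
    split_ifs
    · exact le_rfl
    · positivity
  have hXnm : ∀ p ∈ X, nm p = (Fintype.card F : ℝ) ^ D := by
    intro p hp
    unfold nm
    rw [(mem_XL.1 hp).2.1]
  have s3 : ∑ p ∈ PP F r m2, g3 p ≤ 8 * C ^ 3 / (Fintype.card F : ℝ) ^ D := by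
    have h3 : ∑ p ∈ PP F r m2, g3 p ≤ ∑ p ∈ X, C ^ 3 * (8 / (nm p) ^ 2) := by
      simp only [g3]
      rw [← sum_filter]
      refine sum_le_sum_of_subset_of_nonneg ?_ ?_
      · intro p hp
        exact (mem_filter.1 hp).2
      · intro p _ _
        have := nm_pos p
        positivity
    refine h3.trans ?_
    rw [sum_congr rfl (fun p hp => by rw [hXnm p hp]), sum_const, nsmul_eq_mul]
    have h4 : (X.card : ℝ) ≤ (Fintype.card F : ℝ) ^ D := by
      refine le_trans ?_ (hPrc D)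
      exact_mod_cast card_filter_le _ _
    calc (X.card : ℝ) * (C ^ 3 * (8 / ((Fintype.card F : ℝ) ^ D) ^ 2)) ≤
        (Fintype.card F : ℝ) ^ D * (C ^ 3 * (8 / ((Fintype.card F : ℝ) ^ D) ^ 2)) := by gcongr
      _ = _ := by field_simp
  have s4 : ∑ p ∈ PP F r m2, g4 p ≤ 4 * K * C ^ 3 / (Fintype.card F : ℝ) ^ D := by
    have h3 : ∑ p ∈ PP F r m2, g4 p ≤ ∑ p ∈ X.filter (fun p => p ∣ x), C ^ 3 * (4 / nm p) := by
      simp only [g4]
      rw [← sum_filter]
      refine sum_le_sum_of_subset_of_nonneg ?_ ?_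
      · intro p hp
        exact (mem_filter.1 hp).2
      · intro p _ _
        have := nm_pos p
        positivity
    refine h3.trans ?_
    rw [sum_congr rfl (fun p hp => by rw [hXnm p (mem_filter.1 hp).1]), sum_const, nsmul_eq_mul]
    have h4 : ((X.filter (fun p => p ∣ x)).card : ℝ) ≤ K := by
      have h5 := card_div_letters (X := X) (D := D) (fun p hp => by
        rw [hX, mem_XL] at hp; exact ⟨hp.1, hp.2.2.1, hp.2.1⟩) hx0
      have h6 : (X.filter (fun p => p ∣ x)).card * D ≤ K * D := h5.trans hK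
      exact_mod_cast Nat.le_of_mul_le_mul_right h6 hD
    calc _ ≤ (K : ℝ) * (C ^ 3 * (4 / (Fintype.card F : ℝ) ^ D)) := by gcongr
      _ = _ := by ring
  have : (8 + 4 * K) * C ^ 3 / (Fintype.card F : ℝ) ^ D = 8 * C ^ 3 / (Fintype.card F : ℝ) ^ D +
    4 * K * C ^ 3 / (Fintype.card F : ℝ) ^ D := by ring
  rw [this]
  linarith

end Pool.Agent.Helper83.GQ
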