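import Pool.Agent.Helper83.GQ.Wx

/-!
# The count for one `D`
-/

set_option autoImplicit false
set_option linter.unusedSectionVars false

namespace Pool.Agent.Helper83.GQ

open Polynomial Finset UniqueFactorizationMonoid H39Gon.A2

variable {F : Type} [Field F] [Fintype F]

theorem stepA (hRH : RHyp F) {N0 k r D n l0 kY m1 m2 j0 : ℕ} (hr : 1 ≤ r) (hD : 1 ≤ D)
    {a b c : F[X]} (hT : Trip r a b c) (hcD : c.natDegree < D) (hXn : (XL F r D).Nonempty)
    (T : Finset (Fin 3 × Fin k)) (hTc : T.card ≤ N0) (z : Fin 3 × Fin k → XL F r D)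
    (hgood : Good (fun a : Fin 3 × Fin k => a.1) T z) (hn : n = c.natDegree + k * D)
    (hj0 : j0 + N0 = k)
    (hm : (R0 F r).natDegree + m2 ≤ n) (h1 : 2 * m1 ≤ n)
    (h2 : (R0 F r).natDegree + (n - m1) ≤ l0 * D) (h2' : (R0 F r).natDegree + 2 * m2 ≤ l0 * D)
    (hkY : (R0 F r).natDegree + n < (kY + 1) * D)
    {θ ε η G0 S : ℝ} (hε0 : 0 < ε) (hη : (kY : ℝ) / (XL F r D).card ≤ η) (hεη : ε + η ≤ 1)
    (hθ : kY * (Fintype.card F : ℝ) ^ D / (XL F r D).card ≤ θ)
    (hε : ((R0 F r).natDegree + n + 2) * √(Fintype.card F : ℝ) ^ D / (XL F r D).card ≤ ε)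
    (hG1 : √((Fintype.card F : ℝ) ^ ((R0 F r).natDegree + m2)) ≤ G0)
    (hG1' : √((Fintype.card F : ℝ) ^ ((R0 F r).natDegree + (n - m1))) ≤ G0)
    (hG2 : 1 ≤ G0 * ε ^ l0)
    (hS : 12 * (1 / 2) ^ r + (8 + 4 * ((3 * N0 + 3 : ℕ) : ℝ)) * ((1 + θ) ^ k) ^ 3 /
      (Fintype.card F : ℝ) ^ D ≤ S) (hS2 : S ≤ 1 / 2) :
    |A T (Wt a b c) z - (Fintype.card F : ℝ) ^ (R0 F r).natDegree / (Fintype.card F : ℝ) ^ n| ≤
    ((m2 + 1) * (Fintype.card F : ℝ) ^ (2 * m2) * (3 * ((1 + θ) ^ k) ^ 2 * (G0 * (ε + η) ^ j0)) +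
    (Fintype.card F : ℝ) ^ (R0 F r).natDegree * (2 * S) +
    ((1 + θ) ^ k * (√(Fintype.card F : ℝ) ^ (c.natDegree + N0 * D + (R0 F r).natDegree) /
        √(Fintype.card F : ℝ) ^ m2) + G0 * (ε + η) ^ j0) *
      ((Fintype.card F : ℝ) ^ n * k.factorial / ((XL F r D).card : ℝ) ^ j0)) /
      (Fintype.card F : ℝ) ^ n := by
  have hθ1 : 0 ≤ θ := le_trans (by positivity) hθ
  have hG00 : 0 ≤ G0 := (Real.sqrt_nonneg _).trans hG1
  have hη1 : 0 ≤ η := le_trans (by positivity) hη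
  have hC1 : (1 : ℝ) ≤ (1 + θ) ^ k := one_le_pow₀ (by linarith)
  have hqn : (0 : ℝ) < (Fintype.card F : ℝ) ^ n := by
    have : 0 < Fintype.card F := Fintype.card_pos
    positivity
  have hb0 := hT.hb.ne_zero
  have hc0 := hT.hc.ne_zero
  have haD : a.natDegree < D := hT.hac.trans hcD
  have hbD : b.natDegree < D := by rw [hT.hbc]; exact hcD
  have hfr := fun X : Fin 3 => card_fr_add (k := k) T X
  have hfx := fun X : Fin 3 => (card_fx_le (k := k) T X).trans hTc
  have hdeg : ∀ {v : F[X]} (_ : v ≠ 0) (X : Fin 3),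
      (wx T z v X).natDegree + (fr T X).card * D = v.natDegree + k * D := by
    intro v hv X
    rw [wx_natDegree T z hv]
    have e1 : ((fr T X).card + (fx T X).card) * D = k * D := by rw [hfr X]
    have e2 : ((fr T X).card + (fx T X).card) * D = (fr T X).card * D + (fx T X).card * D := by ring
    omega
  have hx0 : wx T z a 0 * wx T z b 1 * wx T z c 2 ≠ 0 :=
    mul_ne_zero (mul_ne_zero (wx_ne_zero T z hT.ha 0) (wx_ne_zero T z hb0 1))
      (wx_ne_zero T z hc0 2)
  have hsing := sing (m2 := m2) (K := 3 * N0 + 3) hD hT.big hx0 (by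
    intro p hp1 hp2 hp3
    rcases hp2.prime.dvd_or_dvd hp3 with h | h
    · rcases hp2.prime.dvd_or_dvd h with h | h
      · rcases dvd_wx T z hp1 hp2 h with h | h
        · left; exact (h.mul_right _).mul_right _
        · exact Or.inr h
      · rcases dvd_wx T z hp1 hp2 h with h | h
        · left; exact (h.mul_left _).mul_right _
        · exact Or.inr h
    · rcases dvd_wx T z hp1 hp2 h with h | h
      · left; exact h.mul_left _
      · exact Or.inr h) (by
    rw [natDegree_mul (mul_ne_zero (wx_ne_zero T z hT.ha 0) (wx_ne_zero T z hb0 1))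
      (wx_ne_zero T z hc0 2), natDegree_mul (wx_ne_zero T z hT.ha 0) (wx_ne_zero T z hb0 1),
      wx_natDegree T z hT.ha, wx_natDegree T z hb0, wx_natDegree T z hc0]
    have e0 := Nat.mul_le_mul_right D (hfx 0)
    have e1 := Nat.mul_le_mul_right D (hfx 1)
    have e2 := Nat.mul_le_mul_right D (hfx 2)
    have e3 : (3 * N0 + 3) * D = N0 * D + N0 * D + N0 * D + D + D + D := by ring
    omega) hC1 (r := r)
  obtain ⟨hprod, hpi⟩ := prod_inv_le (PP F r m2)
    (fun p => nm p * hw (XL F r D) ((1 + θ) ^ k) (wx T z a 0 * wx T z b 1 * wx T z c 2) p)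
    (fun p hp => mul_nonneg (nm_pos p).le (hw_nonneg _ (by positivity) _ (mem_PP.1 hp).2.1))
    (hsing.trans hS) hS2
  have ht := total hRH hr hD hXn (wx_ne_zero T z hT.ha 0) (wx_monic T z hT.hb 1)
    (wx_monic T z hT.hc 2)
    (wx_coprime T z hT.ha hb0 haD hbD hT.cab hgood (by decide))
    (wx_coprime T z hT.ha hc0 haD hcD hT.cac hgood (by decide))
    (wx_coprime T z hb0 hc0 hbD hcD hT.cbc hgood (by decide))
    (R0_dvd_wx T z hT.hR) (n := n) (k := k) (j0 := j0)
    (by rw [hdeg hT.ha, hn]; have := hT.hac; omega)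
    (by rw [hdeg hb0, hn, hT.hbc]) (by rw [hdeg hc0, hn])
    (by have := hfr 0; have := hfx 0; omega) (by have := hfr 1; have := hfx 1; omega)
    (by have := hfr 2; have := hfx 2; omega) hm h1 h2 h2' hkY hε0 hη hεη hθ hε hG1 hG1' hG2
    (fun p hp => hpi p hp)
  have hcirc := circle T z hXn hT.hb hT.hc hT.hbc hT.hac hn
  have hnorm : |A T (Wt a b c) z - (Fintype.card F : ℝ) ^ (R0 F r).natDegree /
      (Fintype.card F : ℝ) ^ n| = ‖((A T (Wt a b c) z : ℝ) : ℂ) -
      (Fintype.card F : ℂ) ^ (R0 F r).natDegree / (Fintype.card F : ℂ) ^ n‖ := by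
    rw [← Real.norm_eq_abs, ← Complex.norm_real]
    push_cast
    rfl
  rw [hnorm, hcirc, ← sub_div, norm_div, norm_pow, Complex.norm_natCast]
  refine div_le_div_of_nonneg_right ?_ hqn.le
  refine ht.trans ?_
  refine add_le_add (add_le_add le_rfl ?_) ?_
  · exact mul_le_mul_of_nonneg_left hprod (by positivity)
  · refine mul_le_mul_of_nonneg_right ?_ (by positivity)
    refine add_le_add ?_ le_rfl
    refine mul_le_mul_of_nonneg_left ?_ (by positivity)
    refine div_le_div_of_nonneg_right ?_ (by positivity)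
    refine pow_le_pow_right₀ (one_lt_s (F := F)).le ?_
    rw [wx_natDegree T z hb0, hT.hbc]
    have := Nat.mul_le_mul_right D (hfx 1)
    omega

end Pool.Agent.Helper83.GQ
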