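import Pool.Agent.Helper83.GQ.Cond
import Pool.Agent.Helper83.GQ.Circ

/-!
# The sum over the characters
-/

set_option autoImplicit false
set_option linter.unusedSectionVars false

namespace Pool.Agent.Helper83.GQ

open Polynomial Finset UniqueFactorizationMonoid

variable {F : Type} [Field F] [Fintype F]

theorem prod3_le {x y z β1 β2 β3 t C : ℝ} (hx0 : 0 ≤ x) (hy0 : 0 ≤ y) (hz0 : 0 ≤ z)
    (hx1 : x ≤ 1) (hy1 : y ≤ 1) (hz1 : z ≤ 1) (h1 : x ≤ β1 + t) (h2 : y ≤ β2 + t)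
    (h3 : z ≤ β3 + t) (ht : 0 ≤ t) (hC : 1 ≤ C) (hb1 : 0 ≤ β1) (hb2 : 0 ≤ β2) (hb3 : 0 ≤ β3)
    (hb1' : β1 ≤ C) (hb2' : β2 ≤ C) (hb3' : β3 ≤ C) :
    x * y * z ≤ β1 * β2 * β3 + 3 * C ^ 2 * t := by
  have e1 : x * y * z ≤ (β1 + t) * y * z := by gcongr
  have e2 : (β1 + t) * y * z ≤ β1 * y * z + t := by
    have : t * y * z ≤ t * 1 * 1 := by gcongr
    linarith
  have e3 : β1 * y * z ≤ β1 * (β2 + t) * z := by gcongr
  have e4 : β1 * (β2 + t) * z ≤ β1 * β2 * z + C * t := by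
    have : β1 * t * z ≤ C * t * 1 := by gcongr
    linarith
  have e5 : β1 * β2 * z ≤ β1 * β2 * (β3 + t) := by gcongr
  have e6 : β1 * β2 * (β3 + t) ≤ β1 * β2 * β3 + C * C * t := by
    have : β1 * β2 * t ≤ C * C * t := by gcongr
    linarith
  have e7 : C * t ≤ C ^ 2 * t := by
    apply mul_le_mul_of_nonneg_right _ ht
    nlinarith
  have e8 : t ≤ C ^ 2 * t := by
    apply le_mul_of_one_le_left ht
    nlinarith
  nlinarith

open Classical in
/-- local weights -/
noncomputable def hw (X : Finset F[X]) (C : ℝ) (x p : F[X]) : ℝ :=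
  om x p * (if p ∈ X then C ^ 3 else 1)

theorem om_nonneg {x p : F[X]} (hp : Irreducible p) : 0 ≤ om x p := by
  have := nm_ge_two hp
  unfold om
  split_ifs
  · positivity
  · have : 0 ≤ nm p - 1 := by linarith
    positivity

open Classical in
theorem major_one (hRH : RHyp F) {r D n l0 kY k m2 : ℕ} (hD : 1 ≤ D) (hXn : (XL F r D).Nonempty)
    (ψ : AddChar (degreeLT F n) ℂ) (hex : ∃ g : F[X], g.Monic ∧ FP ψ g ∧ g.natDegree ≤ m2)
    (h0 : ¬ FP ψ (R0 F r)) (hmn : m2 ≤ n)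
    (h2 : (R0 F r).natDegree + 2 * m2 ≤ l0 * D)
    (hkY : (R0 F r).natDegree + n < (kY + 1) * D)
    {θ ε η G0 : ℝ} (hε0 : 0 < ε) (hη0 : (kY : ℝ) / (XL F r D).card ≤ η) (hεη : ε + η ≤ 1)
    (hθ : kY * (Fintype.card F : ℝ) ^ D / (XL F r D).card ≤ θ)
    (hε : ((R0 F r).natDegree + n + 2) * √(Fintype.card F : ℝ) ^ D / (XL F r D).card ≤ ε)
    (hG1 : √((Fintype.card F : ℝ) ^ ((R0 F r).natDegree + m2)) ≤ G0)
    (hG2 : 1 ≤ G0 * ε ^ l0) {a b c : F[X]} {ja jb jc j0 : ℕ} (ha : a ≠ 0) (hb : b ≠ 0) (hc : c ≠ 0)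
    (hab : IsCoprime a b) (hac : IsCoprime a c) (hbc : IsCoprime b c)
    (hja : a.natDegree + ja * D ≤ n) (hjb : b.natDegree + jb * D ≤ n)
    (hjc : c.natDegree + jc * D ≤ n) (hja0 : j0 ≤ ja ∧ ja ≤ k) (hjb0 : j0 ≤ jb ∧ jb ≤ k)
    (hjc0 : j0 ≤ jc ∧ jc ≤ k) :
    (‖(Op (XL F r D) (XL F r D).card)^[ja] (E ψ) a‖ *
      ‖(Op (XL F r D) (XL F r D).card)^[jb] (E ψ) b‖ *
      ‖(Op (XL F r D) (XL F r D).card)^[jc] (E ψ) c‖ ≤
        3 * ((1 + θ) ^ k) ^ 2 * (G0 * (ε + η) ^ j0)) ∨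
    ∃ s : F[X], s.Monic ∧ IsCoprime (R0 F r) s ∧ s.natDegree ≤ m2 ∧ s ≠ 1 ∧ FP ψ (R0 F r * s) ∧
      (∀ p ∈ normalizedFactors s, ¬ p ∣ R0 F r) ∧
      ‖(Op (XL F r D) (XL F r D).card)^[ja] (E ψ) a‖ *
      ‖(Op (XL F r D) (XL F r D).card)^[jb] (E ψ) b‖ *
      ‖(Op (XL F r D) (XL F r D).card)^[jc] (E ψ) c‖ ≤
        ((normalizedFactors s).map (hw (XL F r D) ((1 + θ) ^ k) (a * b * c))).prod +
        3 * ((1 + θ) ^ k) ^ 2 * (G0 * (ε + η) ^ j0) := by
  set N : ℝ := ((XL F r D).card : ℝ) with hNd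
  have hN : 0 < N := by rw [hNd]; exact_mod_cast card_pos.2 hXn
  -- minimal full period
  have hex' : ∃ d : ℕ, ∃ g : F[X], g.Monic ∧ FP ψ g ∧ g.natDegree = d := by
    obtain ⟨g, h1, h2, -⟩ := hex
    exact ⟨_, g, h1, h2, rfl⟩
  obtain ⟨g, hg, hgp, hgd⟩ := Nat.find_spec hex'
  have hmin : ∀ g' : F[X], g'.Monic → FP ψ g' → g.natDegree ≤ g'.natDegree := by
    intro g' h1 h2
    rw [hgd]
    exact Nat.find_min' hex' ⟨g', h1, h2, rfl⟩
  have hgm : g.natDegree ≤ m2 := by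
    obtain ⟨g', h1, h2, h3⟩ := hex
    exact (hmin g' h1 h2).trans h3
  have hη1 : 0 ≤ η := le_trans (by positivity) hη0
  have hθ1 : 0 ≤ θ := le_trans (by positivity) hθ
  have hε1 : ε ≤ 1 := by linarith
  have hG00 : 0 ≤ G0 := (Real.sqrt_nonneg _).trans hG1
  have hC1 : (1 : ℝ) ≤ (1 + θ) ^ k := one_le_pow₀ (by linarith)
  have hG1' : √((Fintype.card F : ℝ) ^ ((R0 F r).natDegree + g.natDegree)) ≤ G0 := by
    refine le_trans (Real.sqrt_le_sqrt ?_) hG1
    refine pow_le_pow_right₀ ?_ (by omega)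
    exact_mod_cast (Fintype.card_pos : 0 < Fintype.card F)
  have hcY : ((XL F r D).filter (fun P => P ∣ R0 F r * g)).card ≤ kY :=
    card_letters_le ((R0_monic r).mul hg).ne_zero (by
      rw [(R0_monic r).natDegree_mul hg]; omega)
  set T0 := G0 * (ε + η) ^ j0 with hT0
  have hT00 : 0 ≤ T0 := by positivity
  have hTj : ∀ j, j0 ≤ j → G0 * (ε + η) ^ j ≤ T0 := by
    intro j hj
    exact mul_le_mul_of_nonneg_left (pow_le_pow_of_le_one (by positivity) hεη hj) hG00
  -- the constant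
  set Cψ : ℝ := if ((XL F r D).filter (fun P => P ∣ R0 F r * g)).card = 0 then 1 else (1 + θ) ^ k
    with hCψ
  have hCψ1 : 1 ≤ Cψ := by rw [hCψ]; split_ifs; exact le_rfl; exact hC1
  have hCψ2 : Cψ ≤ (1 + θ) ^ k := by rw [hCψ]; split_ifs; exact hC1; exact le_rfl
  have key : ∀ (j : ℕ) (v : F[X]), v ≠ 0 → v.natDegree + j * D ≤ n → j0 ≤ j → j ≤ k →
      ‖(Op (XL F r D) N)^[j] (E ψ) v‖ ≤ Cψ * Bf r g v + T0 := by
    intro j v hv hvn hj hjk
    have hBf := Bf_nonneg r g v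
    by_cases hY : ((XL F r D).filter (fun P => P ∣ R0 F r * g)).card = 0
    · have h3 := major hRH hD hN le_rfl hg ψ hgp hmin (by omega) (l0 := l0) (by omega) (kY := 0)
        hY.le (θ := 0) (ε := ε) (η := η) (G0 := G0) hε0 hε1 (by simpa using hη1) (by simp) hε hG1'
        hG2 j v hv hvn
      rw [add_zero, one_pow] at h3
      have h4 : Cψ = 1 := by rw [hCψ, if_pos hY]
      rw [h4]
      have := hTj j hj
      linarith
    · have h3 := major hRH hD hN le_rfl hg ψ hgp hmin (by omega) (l0 := l0) (by omega) (kY := kY)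
        hcY (θ := θ) (ε := ε) (η := η) (G0 := G0) hε0 hε1 hη0 hθ hε hG1'
        hG2 j v hv hvn
      have h4 : Cψ = (1 + θ) ^ k := by rw [hCψ, if_neg hY]
      rw [h4]
      have h5 : (1 + θ) ^ j * Bf r g v ≤ (1 + θ) ^ k * Bf r g v :=
        mul_le_mul_of_nonneg_right (pow_le_pow_right₀ (by linarith) hjk) hBf
      have := hTj j hj
      linarith
  have hle1 : ∀ (j : ℕ) (v : F[X]), ‖(Op (XL F r D) N)^[j] (E ψ) v‖ ≤ 1 := fun j v =>
    norm_iter_le le_rfl (E_le ψ) j v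
  have hCB : ∀ v, Cψ * Bf r g v ≤ (1 + θ) ^ k := by
    intro v
    have h1 := Bf_nonneg r g v
    have h2 := Bf_le_one r g v
    nlinarith
  have hCB0 : ∀ v, 0 ≤ Cψ * Bf r g v := by
    intro v
    have h1 := Bf_nonneg r g v
    positivity
  have h3 := prod3_le (norm_nonneg _) (norm_nonneg _) (norm_nonneg _) (hle1 ja a) (hle1 jb b)
    (hle1 jc c) (key ja a ha hja hja0.1 hja0.2) (key jb b hb hjb hjb0.1 hjb0.2)
    (key jc c hc hjc hjc0.1 hjc0.2) hT00 hC1 (hCB0 a) (hCB0 b) (hCB0 c) (hCB a) (hCB b) (hCB c)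
  have h4 : Cψ * Bf r g a * (Cψ * Bf r g b) * (Cψ * Bf r g c) =
      Cψ ^ 3 * (Bf r g a * Bf r g b * Bf r g c) := by ring
  rw [h4] at h3
  rcases Bf_prod_le hg hab hac hbc (r := r) with h5 | ⟨h5, h6⟩
  · left
    rw [h5, mul_zero, zero_add] at h3
    exact h3
  · right
    refine ⟨sP r g, sP_monic r g, coprime_sP r g, ?_, ?_, hgp.of_dvd h5,
      fun p hp => (mem_nf_sP hp).2.2, ?_⟩
    · exact (natDegree_le_of_dvd (sP_dvd r hg) hg.ne_zero).trans hgm
    · intro h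
      rw [h, mul_one] at h5
      exact h0 (hgp.of_dvd h5)
    · refine h3.trans (add_le_add ?_ le_rfl)
      set m := normalizedFactors (sP r g) with hm
      have h7 : (m.map (hw (XL F r D) ((1 + θ) ^ k) (a * b * c))).prod =
          (m.map (om (a * b * c))).prod *
          (m.map (fun p => if p ∈ XL F r D then ((1 + θ) ^ k) ^ 3 else (1 : ℝ))).prod := by
        rw [← Multiset.prod_map_mul]
        rfl
      have h8 : 0 ≤ (m.map (om (a * b * c))).prod :=
        Multiset.prod_nonneg (by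
          intro x hx
          obtain ⟨p, hp, rfl⟩ := Multiset.mem_map.1 hx
          exact om_nonneg (mem_nf hp).2)
      have hC3 : (1 : ℝ) ≤ ((1 + θ) ^ k) ^ 3 := one_le_pow₀ hC1
      have h9 : Cψ ^ 3 ≤ (m.map (fun p => if p ∈ XL F r D then ((1 + θ) ^ k) ^ 3 else (1 : ℝ))).prod := by
        by_cases hY : ((XL F r D).filter (fun P => P ∣ R0 F r * g)).card = 0
        · rw [hCψ, if_pos hY, one_pow]
          apply prod_ge_one
          intro p _
          split_ifs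
          · exact hC3
          · exact le_rfl
        · rw [hCψ, if_neg hY]
          obtain ⟨P, hP⟩ := card_pos.1 (Nat.pos_of_ne_zero hY)
          obtain ⟨hP1, hP2⟩ := mem_filter.1 hP
          have hP3 := mem_XL.1 hP1
          have hPR : ¬ P ∣ R0 F r := by
            intro h
            have h' := dvd_sub (h.trans hP3.2.2.2) (dvd_refl P)
            have : P ∣ 1 := by
              have := dvd_neg.2 h'
              simpa using this
            exact hP3.2.2.1.not_isUnit (isUnit_of_dvd_one this)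
          have hPg : P ∣ g := (hP3.2.2.1.prime.dvd_or_dvd hP2).resolve_left hPR
          have hPm : P ∈ m := by
            rw [hm, nf_sP, Multiset.mem_filter]
            refine ⟨?_, hPR⟩
            obtain ⟨x, hx⟩ := hPg
            have hx0 : x ≠ 0 := by rintro rfl; rw [mul_zero] at hx; exact hg.ne_zero hx
            rw [hx, normalizedFactors_mul hP3.1.ne_zero hx0, nf_monic hP3.1 hP3.2.2.1]
            exact Multiset.mem_add.2 (Or.inl (Multiset.mem_singleton_self _))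
          obtain ⟨m', hm'⟩ := Multiset.exists_cons_of_mem hPm
          rw [hm', Multiset.map_cons, Multiset.prod_cons, if_pos hP1]
          apply le_mul_of_one_le_right (by positivity)
          apply prod_ge_one
          intro p _
          split_ifs
          · exact hC3
          · exact le_rfl
      rw [h7]
      calc Cψ ^ 3 * (Bf r g a * Bf r g b * Bf r g c) ≤ Cψ ^ 3 * (m.map (om (a * b * c))).prod := by
            gcongr
        _ ≤ _ := by
            rw [mul_comm]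
            exact mul_le_mul_of_nonneg_left h9 h8

end Pool.Agent.Helper83.GQ
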