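import Pool.Agent.Helper83.GQ.Sum

/-!
# The total sum over the characters
-/

set_option autoImplicit false
set_option linter.unusedSectionVars false

namespace Pool.Agent.Helper83.GQ

open Polynomial Finset UniqueFactorizationMonoid H39Gon.A2

variable {F : Type} [Field F] [Fintype F]

theorem op_FP {r D n : ℕ} (ψ : AddChar (degreeLT F n) ℂ) (hψ : FP ψ (R0 F r)) {P0 : F[X]}
    (hP0 : P0 ∈ XL F r D) (j : ℕ) (v : F[X]) (hv : v ≠ 0) (hvn : v.natDegree + j * D ≤ n) :
    (Op (XL F r D) (XL F r D).card)^[j] (E ψ) v = E ψ (v * P0 ^ j) := by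
  induction j generalizing v with
  | zero => simp
  | succ j ih =>
    rw [Function.iterate_succ_apply']
    unfold Op at ih ⊢
    have hN : (((XL F r D).card : ℝ) : ℂ) ≠ 0 := by
      have : 0 < (XL F r D).card := card_pos.2 ⟨P0, hP0⟩
      exact_mod_cast this.ne'
    have h0 := mem_XL.1 hP0
    have h1 : ∀ P ∈ XL F r D, (fun h v => (∑ P ∈ XL F r D, h (v * P)) /
        (((XL F r D).card : ℝ) : ℂ))^[j] (⇑(E ψ)) (v * P) = E ψ (v * P0 ^ (j + 1)) := by
      intro P hP
      have hP' := mem_XL.1 hP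
      rw [ih (v * P) (mul_ne_zero hv hP'.1.ne_zero) (by
        rw [natDegree_mul hv hP'.1.ne_zero, hP'.2.1]
        have : (j + 1) * D = j * D + D := by ring
        omega)]
      have h2 : v * P * P0 ^ j = v * P0 ^ (j + 1) + v * P0 ^ j * (P - P0) := by ring
      have h3 : R0 F r ∣ P - P0 := by
        have := dvd_sub hP'.2.2.2 h0.2.2.2
        convert this using 1
        ring
      obtain ⟨x, hx⟩ := h3
      have h4 : (v * P0 ^ j * (P - P0)).degree < n := by
        have h5 := degree_sub_MonD (mem_MonD.2 ⟨hP'.1, hP'.2.1⟩) (mem_MonD.2 ⟨h0.1, h0.2.1⟩)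
        by_cases h6 : P - P0 = 0
        · rw [h6, mul_zero, degree_zero]; exact WithBot.bot_lt_coe _
        · rw [degree_eq_natDegree h6] at h5
          have h5' : (P - P0).natDegree < D := by exact_mod_cast h5
          rw [degree_mul, degree_mul, degree_eq_natDegree hv, degree_pow,
            degree_eq_natDegree h0.1.ne_zero, degree_eq_natDegree h6, h0.2.1]
          have : (j + 1) * D = j * D + D := by ring
          rw [nsmul_eq_mul]
          exact_mod_cast (by omega : v.natDegree + j * D + (P - P0).natDegree < n)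
      have h7 : E ψ (v * P0 ^ j * (P - P0)) = 1 := by
        rw [hx] at h4 ⊢
        have h8 : v * P0 ^ j * (R0 F r * x) = R0 F r * (v * P0 ^ j * x) := by ring
        rw [h8] at h4 ⊢
        exact hψ _ h4
      rw [h2, AddChar.map_add_eq_mul, h7, mul_one]
    rw [sum_congr rfl h1, sum_const, nsmul_eq_mul, mul_comm]
    simp only [Complex.ofReal_natCast] at hN ⊢
    rw [mul_div_assoc, div_self hN, mul_one]

theorem trivial_char {r D n : ℕ} (ψ : AddChar (degreeLT F n) ℂ) (hψ : FP ψ (R0 F r))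
    (hXn : (XL F r D).Nonempty) {a b c : F[X]} (ha : a ≠ 0) (hb : b.Monic) (hc : c.Monic)
    (hR : R0 F r ∣ a + b - c) {ja jb jc : ℕ} (hja : a.natDegree + ja * D < n)
    (hjb : b.natDegree + jb * D = n) (hjc : c.natDegree + jc * D = n) :
    (Op (XL F r D) (XL F r D).card)^[ja] (E ψ) a *
      (Op (XL F r D) (XL F r D).card)^[jb] (E ψ) b *
      star ((Op (XL F r D) (XL F r D).card)^[jc] (E ψ) c) = 1 := by
  obtain ⟨P0, hP0⟩ := hXn
  have h0 := mem_XL.1 hP0
  rw [op_FP ψ hψ hP0 ja a ha (by omega), op_FP ψ hψ hP0 jb b hb.ne_zero (by omega),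
    op_FP ψ hψ hP0 jc c hc.ne_zero (by omega), ← AddChar.map_add_eq_mul, ← E_sub]
  have hdvd : R0 F r ∣ a * P0 ^ ja + b * P0 ^ jb - c * P0 ^ jc := by
    have h1 : ∀ j, R0 F r ∣ P0 ^ j - 1 := by
      intro j
      have := sub_dvd_pow_sub_pow P0 1 j
      rw [one_pow] at this
      exact h0.2.2.2.trans this
    have h2 : a * P0 ^ ja + b * P0 ^ jb - c * P0 ^ jc =
        a * (P0 ^ ja - 1) + b * (P0 ^ jb - 1) - c * (P0 ^ jc - 1) + (a + b - c) := by ring
    rw [h2]
    exact dvd_add (dvd_sub (dvd_add ((h1 _).mul_left _) ((h1 _).mul_left _)) ((h1 _).mul_left _)) hR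
  have hdeg : (a * P0 ^ ja + b * P0 ^ jb - c * P0 ^ jc).degree < n := by
    have h1 : (a * P0 ^ ja).degree < n := by
      rw [degree_mul, degree_pow, degree_eq_natDegree ha, degree_eq_natDegree h0.1.ne_zero,
        h0.2.1, nsmul_eq_mul]
      exact_mod_cast hja
    have hb1 : (b * P0 ^ jb).Monic := hb.mul (h0.1.pow jb)
    have hc1 : (c * P0 ^ jc).Monic := hc.mul (h0.1.pow jc)
    have hb2 : (b * P0 ^ jb).natDegree = n := by
      rw [hb.natDegree_mul (h0.1.pow jb), h0.1.natDegree_pow, h0.2.1, hjb]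
    have hc2 : (c * P0 ^ jc).natDegree = n := by
      rw [hc.natDegree_mul (h0.1.pow jc), h0.1.natDegree_pow, h0.2.1, hjc]
    have h2 := degree_sub_MonD (mem_MonD.2 ⟨hb1, hb2⟩) (mem_MonD.2 ⟨hc1, hc2⟩)
    rw [add_sub_assoc]
    exact (degree_add_le _ _).trans_lt (max_lt h1 h2)
  obtain ⟨x, hx⟩ := hdvd
  rw [hx] at hdeg ⊢
  exact hψ _ hdeg

theorem nm_mul {x y : F[X]} (hx : x ≠ 0) (hy : y ≠ 0) : nm (x * y) = nm x * nm y := by
  unfold nm
  rw [natDegree_mul hx hy, pow_add]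

theorem nm_mprod {m : Multiset F[X]} (hm : ∀ p ∈ m, p.Monic) : nm m.prod = (m.map nm).prod := by
  induction m using Multiset.induction_on with
  | empty => simp [nm]
  | cons a m ih =>
    have h1 := hm a (Multiset.mem_cons_self _ _)
    have h2 : ∀ p ∈ m, p.Monic := fun p hp => hm p (Multiset.mem_cons_of_mem hp)
    rw [Multiset.prod_cons, Multiset.map_cons, Multiset.prod_cons,
      nm_mul h1.ne_zero (monic_mprod h2).ne_zero, ih h2]

open Classical in
/-- conductors -/
noncomputable def SS (F : Type) [Field F] [Fintype F] (r m2 : ℕ) : Finset F[X] :=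
  ((range (m2 + 1)).biUnion (MonD F)).filter
    (fun s => s ≠ 1 ∧ ∀ p ∈ normalizedFactors s, ¬ p ∣ R0 F r)

open Classical in
/-- primes of the conductors -/
noncomputable def PP (F : Type) [Field F] [Fintype F] (r m2 : ℕ) : Finset F[X] :=
  (SP F m2).filter (fun p => ¬ p ∣ R0 F r)

open Classical in
theorem mem_SS {r m2 : ℕ} {s : F[X]} : s ∈ SS F r m2 ↔
    s.Monic ∧ s.natDegree ≤ m2 ∧ s ≠ 1 ∧ ∀ p ∈ normalizedFactors s, ¬ p ∣ R0 F r := by
  unfold SS
  rw [mem_filter, mem_biUnion]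
  constructor
  · rintro ⟨⟨i, hi, h⟩, h'⟩
    rw [mem_range] at hi
    rw [mem_MonD] at h
    exact ⟨h.1, by omega, h'⟩
  · rintro ⟨h1, h2, h3⟩
    exact ⟨⟨s.natDegree, mem_range.2 (by omega), mem_MonD.2 ⟨h1, rfl⟩⟩, h3⟩

open Classical in
theorem mem_PP {r m2 : ℕ} {p : F[X]} : p ∈ PP F r m2 ↔
    p.Monic ∧ Irreducible p ∧ p.natDegree ≤ m2 ∧ ¬ p ∣ R0 F r := by
  unfold PP
  rw [mem_filter, mem_SP]
  tauto

theorem nf_mem_PP {r m2 : ℕ} {s p : F[X]} (hs : s ∈ SS F r m2) (hp : p ∈ normalizedFactors s) :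
    p ∈ PP F r m2 := by
  rw [mem_SS] at hs
  rw [mem_PP]
  refine ⟨(mem_nf hp).1, (mem_nf hp).2, ?_, hs.2.2.2 p hp⟩
  exact (natDegree_le_of_dvd (dvd_of_mem_normalizedFactors hp) hs.1.ne_zero).trans hs.2.1

open Classical in
theorem euler_SS {r m2 : ℕ} (h : F[X] → ℝ) (h0 : ∀ p ∈ PP F r m2, 0 ≤ h p)
    (h1 : ∀ p ∈ PP F r m2, nm p * h p < 1) :
    ∑ s ∈ SS F r m2, (Fintype.card F : ℝ) ^ s.natDegree * ((normalizedFactors s).map h).prod ≤
      ∏ p ∈ PP F r m2, (1 - nm p * h p)⁻¹ - 1 := by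
  have hn1 : (1 : F[X]) ∉ SS F r m2 := fun h => (mem_SS.1 h).2.2.1 rfl
  have h2 := euler (PP F r m2) (insert 1 (SS F r m2)) (by
    intro s hs
    rw [mem_insert] at hs
    rcases hs with rfl | hs
    · exact ⟨monic_one, by simp⟩
    · exact ⟨(mem_SS.1 hs).1, fun p hp => nf_mem_PP hs hp⟩) (fun p => nm p * h p)
    (fun p hp => mul_nonneg (nm_pos p).le (h0 p hp)) h1
  rw [sum_insert hn1] at h2
  have h3 : ∀ s ∈ SS F r m2, ((normalizedFactors s).map (fun p => nm p * h p)).prod =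
      (Fintype.card F : ℝ) ^ s.natDegree * ((normalizedFactors s).map h).prod := by
    intro s hs
    rw [Multiset.prod_map_mul, ← nm_mprod fun p hp => (mem_nf hp).1, prod_nf (mem_SS.1 hs).1]
    rfl
  rw [sum_congr rfl h3] at h2
  simp only [normalizedFactors_one, Multiset.map_zero, Multiset.prod_zero] at h2
  linarith

open Classical in
theorem card_major {n m2 : ℕ} (hm : m2 ≤ n) :
    (((univ : Finset (AddChar (degreeLT F n) ℂ)).filter
      (fun ψ => ∃ g : F[X], g.Monic ∧ FP ψ g ∧ g.natDegree ≤ m2)).card : ℝ) ≤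
      (m2 + 1) * (Fintype.card F : ℝ) ^ (2 * m2) := by
  have h1 : ((univ : Finset (AddChar (degreeLT F n) ℂ)).filter
      (fun ψ => ∃ g : F[X], g.Monic ∧ FP ψ g ∧ g.natDegree ≤ m2)) ⊆
      (range (m2 + 1)).biUnion (fun i => (MonD F i).biUnion
        (fun g => (univ : Finset (AddChar (degreeLT F n) ℂ)).filter (fun ψ => FP ψ g))) := by
    intro ψ hψ
    rw [mem_filter] at hψ
    obtain ⟨-, g, h2, h3, h4⟩ := hψ
    rw [mem_biUnion]
    refine ⟨g.natDegree, mem_range.2 (by omega), ?_⟩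
    rw [mem_biUnion]
    exact ⟨g, mem_MonD.2 ⟨h2, rfl⟩, mem_filter.2 ⟨mem_univ _, h3⟩⟩
  have h2 : ((univ : Finset (AddChar (degreeLT F n) ℂ)).filter
      (fun ψ => ∃ g : F[X], g.Monic ∧ FP ψ g ∧ g.natDegree ≤ m2)).card ≤
      (m2 + 1) * Fintype.card F ^ (2 * m2) := by
    refine (card_le_card h1).trans (card_biUnion_le.trans ?_)
    have h3 : ∀ i ∈ range (m2 + 1), ((MonD F i).biUnion
        (fun g => (univ : Finset (AddChar (degreeLT F n) ℂ)).filter (fun ψ => FP ψ g))).card ≤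
        Fintype.card F ^ (2 * m2) := by
      intro i hi
      rw [mem_range] at hi
      refine card_biUnion_le.trans ?_
      have h4 : ∀ g ∈ MonD F i, ((univ : Finset (AddChar (degreeLT F n) ℂ)).filter
          (fun ψ => FP ψ g)).card = Fintype.card F ^ i := by
        intro g hg
        rw [mem_MonD] at hg
        rw [card_FP hg.1 (by omega), hg.2]
      rw [sum_congr rfl h4, sum_const, card_MonD, smul_eq_mul, ← pow_add]
      exact Nat.pow_le_pow_right Fintype.card_pos (by omega)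
    refine (sum_le_sum h3).trans ?_
    rw [sum_const, card_range, smul_eq_mul]
  exact_mod_cast h2

end Pool.Agent.Helper83.GQ
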