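import Pool.Agent.Helper83.GQ.Tot

/-!
# The total sum over the characters, II
-/

set_option autoImplicit false
set_option linter.unusedSectionVars false

namespace Pool.Agent.Helper83.GQ

open Polynomial Finset UniqueFactorizationMonoid H39Gon.A2

variable {F : Type} [Field F] [Fintype F]

theorem hw_nonneg (X : Finset F[X]) {C : ℝ} (hC : 0 ≤ C) (x : F[X]) {p : F[X]}
    (hp : Irreducible p) : 0 ≤ hw X C x p := by
  unfold hw
  refine mul_nonneg (om_nonneg hp) ?_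
  split_ifs
  · positivity
  · exact zero_le_one

open Classical in
theorem total (hRH : RHyp F) {r D n l0 kY k m1 m2 j0 : ℕ} (hr : 1 ≤ r) (hD : 1 ≤ D)
    (hXn : (XL F r D).Nonempty) {a b c : F[X]} (ha : a ≠ 0) (hb : b.Monic) (hc : c.Monic)
    (hab : IsCoprime a b) (hac : IsCoprime a c) (hbc : IsCoprime b c)
    (hR : R0 F r ∣ a + b - c) {ja jb jc : ℕ} (hja : a.natDegree + ja * D < n)
    (hjb : b.natDegree + jb * D = n) (hjc : c.natDegree + jc * D = n)
    (hja0 : j0 ≤ ja ∧ ja ≤ k) (hjb0 : j0 ≤ jb ∧ jb ≤ k) (hjc0 : j0 ≤ jc ∧ jc ≤ k)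
    (hm : (R0 F r).natDegree + m2 ≤ n) (h1 : 2 * m1 ≤ n)
    (h2 : (R0 F r).natDegree + (n - m1) ≤ l0 * D) (h2' : (R0 F r).natDegree + 2 * m2 ≤ l0 * D)
    (hkY : (R0 F r).natDegree + n < (kY + 1) * D)
    {θ ε η G0 : ℝ} (hε0 : 0 < ε) (hη : (kY : ℝ) / (XL F r D).card ≤ η) (hεη : ε + η ≤ 1)
    (hθ : kY * (Fintype.card F : ℝ) ^ D / (XL F r D).card ≤ θ)
    (hε : ((R0 F r).natDegree + n + 2) * √(Fintype.card F : ℝ) ^ D / (XL F r D).card ≤ ε)
    (hG1 : √((Fintype.card F : ℝ) ^ ((R0 F r).natDegree + m2)) ≤ G0)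
    (hG1' : √((Fintype.card F : ℝ) ^ ((R0 F r).natDegree + (n - m1))) ≤ G0)
    (hG2 : 1 ≤ G0 * ε ^ l0)
    (hpi : ∀ p ∈ PP F r m2, nm p * hw (XL F r D) ((1 + θ) ^ k) (a * b * c) p < 1) :
    ‖∑ ψ : AddChar (degreeLT F n) ℂ,
      (Op (XL F r D) (XL F r D).card)^[ja] (E ψ) a *
      (Op (XL F r D) (XL F r D).card)^[jb] (E ψ) b *
      star ((Op (XL F r D) (XL F r D).card)^[jc] (E ψ) c) -
        (Fintype.card F : ℂ) ^ (R0 F r).natDegree‖ ≤
    (m2 + 1) * (Fintype.card F : ℝ) ^ (2 * m2) * (3 * ((1 + θ) ^ k) ^ 2 * (G0 * (ε + η) ^ j0)) +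
    (Fintype.card F : ℝ) ^ (R0 F r).natDegree *
      (∏ p ∈ PP F r m2, (1 - nm p * hw (XL F r D) ((1 + θ) ^ k) (a * b * c) p)⁻¹ - 1) +
    ((1 + θ) ^ k * (√(Fintype.card F : ℝ) ^ (b.natDegree + (R0 F r).natDegree) /
        √(Fintype.card F : ℝ) ^ m2) + G0 * (ε + η) ^ j0) *
      ((Fintype.card F : ℝ) ^ n * k.factorial / ((XL F r D).card : ℝ) ^ j0) := by
  set N : ℝ := ((XL F r D).card : ℝ) with hNd
  have hN1 : 1 ≤ N := by rw [hNd]; exact_mod_cast card_pos.2 hXn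
  have hN : 0 < N := by linarith
  have hη1 : 0 ≤ η := le_trans (by positivity) hη
  have hθ1 : 0 ≤ θ := le_trans (by positivity) hθ
  have hε1 : ε ≤ 1 := by linarith
  have hG00 : 0 ≤ G0 := (Real.sqrt_nonneg _).trans hG1
  have hC1 : (1 : ℝ) ≤ (1 + θ) ^ k := one_le_pow₀ (by linarith)
  set Cc : ℝ := (1 + θ) ^ k with hCc
  set T0 := G0 * (ε + η) ^ j0 with hT0
  have hT00 : 0 ≤ T0 := by positivity
  set Err : ℝ := 3 * Cc ^ 2 * T0 with hErr
  have hErr0 : 0 ≤ Err := by positivity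
  set β : ℝ := Cc * (√(Fintype.card F : ℝ) ^ (b.natDegree + (R0 F r).natDegree) /
        √(Fintype.card F : ℝ) ^ m2) + T0 with hβ
  have hβ0 : 0 ≤ β := by positivity
  let Sa : AddChar (degreeLT F n) ℂ → ℂ := fun ψ => (Op (XL F r D) N)^[ja] (E ψ) a
  let Sb : AddChar (degreeLT F n) ℂ → ℂ := fun ψ => (Op (XL F r D) N)^[jb] (E ψ) b
  let Sc : AddChar (degreeLT F n) ℂ → ℂ := fun ψ => (Op (XL F r D) N)^[jc] (E ψ) c
  let W : F[X] → ℝ := fun s => ((normalizedFactors s).map (hw (XL F r D) Cc (a * b * c))).prod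
  have hW0 : ∀ s, 0 ≤ W s := by
    intro s
    refine Multiset.prod_nonneg ?_
    intro x hx
    obtain ⟨p, hp, rfl⟩ := Multiset.mem_map.1 hx
    exact hw_nonneg _ (by positivity) _ (mem_nf hp).2
  let f1 : AddChar (degreeLT F n) ℂ → ℝ := fun ψ =>
    if ∃ g : F[X], g.Monic ∧ FP ψ g ∧ g.natDegree ≤ m2 then Err else 0
  let f2 : AddChar (degreeLT F n) ℂ → ℝ := fun ψ =>
    ∑ s ∈ SS F r m2, if FP ψ (R0 F r * s) then W s else 0
  let f3 : AddChar (degreeLT F n) ℂ → ℝ := fun ψ => β * ((‖Sa ψ‖ ^ 2 + ‖Sc ψ‖ ^ 2) / 2)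
  have hf1 : ∀ ψ, 0 ≤ f1 ψ := by
    intro ψ
    simp only [f1]
    split_ifs
    · exact hErr0
    · exact le_rfl
  have hf2 : ∀ ψ, 0 ≤ f2 ψ := by
    intro ψ
    refine sum_nonneg fun s _ => ?_
    split_ifs
    · exact hW0 s
    · exact le_rfl
  have hf3 : ∀ ψ, 0 ≤ f3 ψ := by
    intro ψ
    simp only [f3]
    positivity
  have hpt : ∀ ψ : AddChar (degreeLT F n) ℂ,
      ‖Sa ψ * Sb ψ * star (Sc ψ) - (if FP ψ (R0 F r) then 1 else 0)‖ ≤ f1 ψ + f2 ψ + f3 ψ := by
    intro ψ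
    by_cases hFP : FP ψ (R0 F r)
    · rw [if_pos hFP]
      have h3 : Sa ψ * Sb ψ * star (Sc ψ) = 1 :=
        trivial_char ψ hFP hXn ha hb hc hR hja hjb hjc
      rw [h3, sub_self, norm_zero]
      have := hf1 ψ
      have := hf2 ψ
      have := hf3 ψ
      linarith
    · rw [if_neg hFP, sub_zero, norm_mul, norm_mul, norm_star]
      by_cases hmaj : ∃ g : F[X], g.Monic ∧ FP ψ g ∧ g.natDegree ≤ m2
      · have hf1' : f1 ψ = Err := if_pos hmaj
        rcases major_one hRH hD hXn ψ hmaj hFP (by omega) h2' hkY hε0 hη hεη hθ hε hG1 hG2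
          ha hb.ne_zero hc.ne_zero hab hac hbc hja.le hjb.le hjc.le hja0 hjb0 hjc0 with h3 | h3
        · have := hf2 ψ
          have := hf3 ψ
          rw [hf1']
          calc _ ≤ Err := h3
            _ ≤ _ := by linarith
        · obtain ⟨s, hs1, hs2, hs3, hs4, hs5, hs6, hs7⟩ := h3
          have hsS : s ∈ SS F r m2 := mem_SS.2 ⟨hs1, hs3, hs4, hs6⟩
          have h4 : W s ≤ f2 ψ := by
            have h5 : (if FP ψ (R0 F r * s) then W s else 0) ≤ f2 ψ :=
              single_le_sum (f := fun s => if FP ψ (R0 F r * s) then W s else 0)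
                (fun s _ => by
                  split_ifs
                  · exact hW0 s
                  · exact le_rfl) hsS
            rwa [if_pos hs5] at h5
          have := hf3 ψ
          rw [hf1']
          calc _ ≤ W s + Err := hs7
            _ ≤ _ := by linarith
      · have hmin : ∀ g : F[X], g.Monic → FP ψ g → m2 < g.natDegree := by
          intro g hg hg'
          by_contra hcon
          exact hmaj ⟨g, hg, hg', by omega⟩
        have hθ2 : kY * √(Fintype.card F : ℝ) ^ D / N ≤ θ := by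
          refine le_trans ?_ hθ
          have hq1 : (1 : ℝ) ≤ Fintype.card F := by
            exact_mod_cast (Fintype.card_pos : 0 < Fintype.card F)
          have h4 : √(Fintype.card F : ℝ) ≤ Fintype.card F := by
            rw [Real.sqrt_le_left (by positivity)]
            nlinarith
          gcongr
        have h3 := minor hRH hr hD hN le_rfl h1 h2 hkY ψ hmin hε0 hε1 hη hθ2 hε hG1' hG2 jb b hb hjb
        have h4 : ‖Sb ψ‖ ≤ β := by
          refine h3.trans ?_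
          rw [hβ]
          refine add_le_add ?_ ?_
          · refine mul_le_mul_of_nonneg_right ?_ (by positivity)
            exact pow_le_pow_right₀ (by linarith) hjb0.2
          · refine mul_le_mul_of_nonneg_left ?_ hG00
            exact pow_le_pow_of_le_one (by positivity) hεη hjb0.1
        have h5 : ‖Sa ψ‖ * ‖Sb ψ‖ * ‖Sc ψ‖ ≤ f3 ψ := by
          calc ‖Sa ψ‖ * ‖Sb ψ‖ * ‖Sc ψ‖ = ‖Sb ψ‖ * (‖Sa ψ‖ * ‖Sc ψ‖) := by ring
            _ ≤ β * ((‖Sa ψ‖ ^ 2 + ‖Sc ψ‖ ^ 2) / 2) := by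
              refine mul_le_mul h4 ?_ (by positivity) hβ0
              nlinarith [sq_nonneg (‖Sa ψ‖ - ‖Sc ψ‖)]
        have := hf1 ψ
        have := hf2 ψ
        linarith
  have hd0 : ((Fintype.card F : ℂ) ^ (R0 F r).natDegree) =
      ∑ ψ : AddChar (degreeLT F n) ℂ, if FP ψ (R0 F r) then (1 : ℂ) else 0 := by
    rw [← sum_filter, sum_const, card_FP (R0_monic r) (by omega)]
    simp
  rw [hd0, ← sum_sub_distrib]
  refine (norm_sum_le _ _).trans ((sum_le_sum fun ψ _ => hpt ψ).trans ?_)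
  rw [sum_add_distrib, sum_add_distrib]
  refine add_le_add (add_le_add ?_ ?_) ?_
  · have h3 : ∑ ψ, f1 ψ = (((univ : Finset (AddChar (degreeLT F n) ℂ)).filter
      (fun ψ => ∃ g : F[X], g.Monic ∧ FP ψ g ∧ g.natDegree ≤ m2)).card : ℝ) * Err := by
      simp only [f1]
      rw [← sum_filter, sum_const, nsmul_eq_mul]
    rw [h3]
    exact mul_le_mul_of_nonneg_right (card_major (by omega)) hErr0
  · have h3 : ∑ ψ, f2 ψ = (Fintype.card F : ℝ) ^ (R0 F r).natDegree *
        ∑ s ∈ SS F r m2, (Fintype.card F : ℝ) ^ s.natDegree * W s := by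
      simp only [f2]
      rw [sum_comm, mul_sum]
      refine sum_congr rfl fun s hs => ?_
      rw [mem_SS] at hs
      rw [← sum_filter, sum_const, card_FP ((R0_monic r).mul hs.1) (by
        rw [(R0_monic r).natDegree_mul hs.1]; omega), (R0_monic r).natDegree_mul hs.1,
        nsmul_eq_mul]
      push_cast
      rw [pow_add]
      ring
    rw [h3]
    refine mul_le_mul_of_nonneg_left ?_ (by positivity)
    exact euler_SS _ (fun p hp => hw_nonneg _ (by positivity) _ (mem_PP.1 hp).2.1) hpi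
  · simp only [f3]
    rw [← mul_sum]
    refine mul_le_mul_of_nonneg_left ?_ hβ0
    have hXp : ∀ P ∈ XL F r D, P.Monic ∧ Irreducible P ∧ P.natDegree = D := by
      intro P hP
      rw [mem_XL] at hP
      exact ⟨hP.1, hP.2.2.1, hP.2.1⟩
    have h3 : ∀ j, j0 ≤ j → j ≤ k → (Fintype.card F : ℝ) ^ n * j.factorial / N ^ j ≤
        (Fintype.card F : ℝ) ^ n * k.factorial / N ^ j0 := by
      intro j hj hj'
      have h4 : (j.factorial : ℝ) ≤ k.factorial := by exact_mod_cast Nat.factorial_le hj'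
      have h5 : N ^ j0 ≤ N ^ j := pow_le_pow_right₀ hN1 hj
      gcongr
    have h4 := (parseval_letters hXn hD hXp ha hja.le).trans (h3 ja hja0.1 hja0.2)
    have h5 := (parseval_letters hXn hD hXp hc.ne_zero hjc.le).trans (h3 jc hjc0.1 hjc0.2)
    rw [← sum_div, sum_add_distrib]
    have h4' : ∑ ψ, ‖Sa ψ‖ ^ 2 ≤ (Fintype.card F : ℝ) ^ n * k.factorial / N ^ j0 := h4
    have h5' : ∑ ψ, ‖Sc ψ‖ ^ 2 ≤ (Fintype.card F : ℝ) ^ n * k.factorial / N ^ j0 := h5
    linarith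

end Pool.Agent.Helper83.GQ
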