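import Pool.Agent.Helper83.GQ.Tot2
import Pool.Agent.Helper83.GQ.Sing
import Pool.Agent.Helper83.GQ.Lett

/-!
# The coefficients with the fixed letters
-/

set_option autoImplicit false
set_option linter.unusedSectionVars false

namespace Pool.Agent.Helper83.GQ

open Polynomial Finset UniqueFactorizationMonoid H39Gon.A2

variable {F : Type} [Field F] [Fintype F]

section wx

variable {r D k : ℕ} (T : Finset (Fin 3 × Fin k)) (z : Fin 3 × Fin k → XL F r D)

theorem lp_monic (X : Fin 3) : (∏ i ∈ fx T X, (z (X, i)).1).Monic :=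
  monic_prod_of_monic _ _ fun i _ => (mem_XL.1 (z (X, i)).2).1

theorem lp_natDegree (X : Fin 3) : (∏ i ∈ fx T X, (z (X, i)).1).natDegree = (fx T X).card * D := by
  rw [natDegree_prod_of_monic _ _ (fun i _ => (mem_XL.1 (z (X, i)).2).1),
    sum_congr rfl (fun i _ => (mem_XL.1 (z (X, i)).2).2.1), sum_const, smul_eq_mul]

theorem wx_ne_zero {v : F[X]} (hv : v ≠ 0) (X : Fin 3) : wx T z v X ≠ 0 :=
  mul_ne_zero hv (lp_monic T z X).ne_zero

theorem wx_monic {v : F[X]} (hv : v.Monic) (X : Fin 3) : (wx T z v X).Monic :=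
  hv.mul (lp_monic T z X)

theorem wx_natDegree {v : F[X]} (hv : v ≠ 0) (X : Fin 3) :
    (wx T z v X).natDegree = v.natDegree + (fx T X).card * D := by
  unfold wx
  rw [natDegree_mul hv (lp_monic T z X).ne_zero, lp_natDegree]

theorem R0_dvd_lp (X : Fin 3) : R0 F r ∣ (∏ i ∈ fx T X, (z (X, i)).1) - 1 := by
  classical
  induction (fx T X) using Finset.induction_on with
  | empty => simp
  | insert a s ha ih =>
    rw [prod_insert ha]
    have h1 := (mem_XL.1 (z (X, a)).2).2.2.2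
    have h2 : (z (X, a)).1 * ∏ i ∈ s, (z (X, i)).1 - 1 =
      (z (X, a)).1 * (∏ i ∈ s, (z (X, i)).1 - 1) + ((z (X, a)).1 - 1) := by ring
    rw [h2]
    exact dvd_add (ih.mul_left _) h1

theorem R0_dvd_wx {a b c : F[X]} (h : R0 F r ∣ a + b - c) :
    R0 F r ∣ wx T z a 0 + wx T z b 1 - wx T z c 2 := by
  unfold wx
  have e : a * ∏ i ∈ fx T 0, (z (0, i)).1 + b * ∏ i ∈ fx T 1, (z (1, i)).1 -
    c * ∏ i ∈ fx T 2, (z (2, i)).1 = a * (∏ i ∈ fx T 0, (z (0, i)).1 - 1) +
      b * (∏ i ∈ fx T 1, (z (1, i)).1 - 1) - c * (∏ i ∈ fx T 2, (z (2, i)).1 - 1) +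
      (a + b - c) := by ring
  rw [e]
  exact dvd_add (dvd_sub (dvd_add ((R0_dvd_lp T z 0).mul_left _) ((R0_dvd_lp T z 1).mul_left _))
    ((R0_dvd_lp T z 2).mul_left _)) h

theorem letter_coprime {v : F[X]} (hv : v ≠ 0) (hvD : v.natDegree < D) {P : F[X]}
    (hP : P ∈ XL F r D) : IsCoprime v P := by
  rw [mem_XL] at hP
  rw [isCoprime_comm, hP.2.2.1.coprime_iff_not_dvd]
  intro h
  have := natDegree_le_of_dvd h hv
  omega

theorem wx_coprime {v v' : F[X]} (hv : v ≠ 0) (hv' : v' ≠ 0) (hvD : v.natDegree < D)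
    (hvD' : v'.natDegree < D) (hc : IsCoprime v v')
    (hgood : Good (fun a : Fin 3 × Fin k => a.1) T z) {X X' : Fin 3} (hX : X ≠ X') :
    IsCoprime (wx T z v X) (wx T z v' X') := by
  classical
  unfold wx
  refine IsCoprime.mul_left (IsCoprime.mul_right hc ?_) (IsCoprime.mul_right ?_ ?_)
  · exact IsCoprime.prod_right fun i _ => letter_coprime hv hvD (z (X', i)).2
  · exact IsCoprime.prod_left fun i _ => (letter_coprime hv' hvD' (z (X, i)).2).symm
  · refine IsCoprime.prod_left fun i hi => IsCoprime.prod_right fun j hj => ?_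
    have h1 := mem_XL.1 (z (X, i)).2
    have h2 := mem_XL.1 (z (X', j)).2
    refine coprime_of_monic_irr h1.1 h1.2.2.1 h2.1 h2.2.2.1 ?_
    unfold fx at hi hj
    rw [mem_filter] at hi hj
    intro h
    exact hgood _ hi.2 _ hj.2 hX (Subtype.ext h)

theorem dvd_wx {v p : F[X]} {X : Fin 3} (h1 : p.Monic) (h2 : Irreducible p)
    (h : p ∣ wx T z v X) : p ∣ v ∨ p ∈ XL F r D := by
  unfold wx at h
  rcases h2.prime.dvd_or_dvd h with h | h
  · exact Or.inl h
  · right
    obtain ⟨i, _, hi⟩ := (h2.prime.dvd_finsetProd_iff _).1 h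
    have h3 := mem_XL.1 (z (X, i)).2
    rw [eq_of_monic_of_associated h1 h3.1 (h2.associated_of_dvd h3.2.2.1 hi)]
    exact (z (X, i)).2

end wx

end Pool.Agent.Helper83.GQ
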